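import Mathlib

set_option autoImplicit false

/-! # Odd sequences and polynomials over the field with two elements -/

namespace Run7.h499

open Polynomial Finset

/-- the set of odd sequences of length `n` -/
def OS (n : ℕ) : Set (Fin n → ZMod 2) :=
  {a | ∀ k : ℕ, k < n →
    (∑ i : Fin n, ∑ j : Fin n, (if (j : ℕ) = (i : ℕ) + k then a i * a j else 0)) = 1}

/-- the number of odd sequences of length `n` -/
noncomputable def S (n : ℕ) : ℕ := Set.ncard (OS n)

/-- the polynomial of a word -/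
noncomputable def pol {n : ℕ} (a : Fin n → ZMod 2) : (ZMod 2)[X] := ∑ i : Fin n, C (a i) * X ^ (i : ℕ)

/-- the reversed polynomial of a word -/
noncomputable def rpol {n : ℕ} (a : Fin n → ZMod 2) : (ZMod 2)[X] :=
  ∑ i : Fin n, C (a i) * X ^ (n - 1 - (i : ℕ))

/-- the polynomial `1 + X + ... + X ^ (2 n - 2)` -/
noncomputable def full (n : ℕ) : (ZMod 2)[X] := ∑ m ∈ range (2 * n - 1), X ^ m

theorem coeff_mul_rpol {n : ℕ} (a : Fin n → ZMod 2) (m : ℕ) :
    (pol a * rpol a).coeff m =
      ∑ i : Fin n, ∑ j : Fin n, (if m = (i : ℕ) + (n - 1 - (j : ℕ)) then a i * a j else 0) := by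
  unfold pol rpol
  rw [Finset.sum_mul_sum, finset_sum_coeff]
  refine Finset.sum_congr rfl fun i _ => ?_
  rw [finset_sum_coeff]
  refine Finset.sum_congr rfl fun j _ => ?_
  rw [show (C (a i) * X ^ (i : ℕ)) * (C (a j) * X ^ (n - 1 - (j : ℕ))) =
    C (a i * a j) * X ^ ((i : ℕ) + (n - 1 - (j : ℕ))) by rw [C_mul, pow_add]; ring]
  rw [coeff_C_mul_X_pow]

theorem coeff_low {n : ℕ} (a : Fin n → ZMod 2) (k : ℕ) (hk : k < n) :
    (pol a * rpol a).coeff (n - 1 - k) =
      ∑ i : Fin n, ∑ j : Fin n, (if (j : ℕ) = (i : ℕ) + k then a i * a j else 0) := by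
  rw [coeff_mul_rpol]
  refine Finset.sum_congr rfl fun i _ => Finset.sum_congr rfl fun j _ => ?_
  have hi := i.2
  have hj := j.2
  have : (n - 1 - k = (i : ℕ) + (n - 1 - (j : ℕ))) ↔ ((j : ℕ) = (i : ℕ) + k) := by omega
  simp only [this]

theorem coeff_high {n : ℕ} (a : Fin n → ZMod 2) (k : ℕ) (hk : k < n) :
    (pol a * rpol a).coeff (n - 1 + k) =
      ∑ i : Fin n, ∑ j : Fin n, (if (j : ℕ) = (i : ℕ) + k then a i * a j else 0) := by
  rw [coeff_mul_rpol, Finset.sum_comm]
  refine Finset.sum_congr rfl fun i _ => Finset.sum_congr rfl fun j _ => ?_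
  have hi := i.2
  have hj := j.2
  have : (n - 1 + k = (j : ℕ) + (n - 1 - (i : ℕ))) ↔ ((j : ℕ) = (i : ℕ) + k) := by omega
  simp only [this]
  rw [mul_comm]

theorem coeff_top {n : ℕ} (a : Fin n → ZMod 2) (m : ℕ) (hm : 2 * n - 1 ≤ m) :
    (pol a * rpol a).coeff m = 0 := by
  rw [coeff_mul_rpol]
  refine Finset.sum_eq_zero fun i _ => Finset.sum_eq_zero fun j _ => ?_
  have hi := i.2
  have hj := j.2
  rw [if_neg]
  omega

theorem coeff_full (n m : ℕ) : (full n).coeff m = if m < 2 * n - 1 then 1 else 0 := by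
  unfold full
  rw [finset_sum_coeff]
  simp only [coeff_X_pow]
  rw [Finset.sum_ite_eq]
  simp [Finset.mem_range]

theorem mem_OS_iff {n : ℕ} (a : Fin n → ZMod 2) : a ∈ OS n ↔ pol a * rpol a = full n := by
  constructor
  · intro h
    ext m
    rw [coeff_full]
    by_cases hm : m < 2 * n - 1
    · rw [if_pos hm]
      by_cases h1 : m ≤ n - 1
      · have h2 := coeff_low a (n - 1 - m) (by omega)
        rw [show n - 1 - (n - 1 - m) = m by omega] at h2
        rw [h2]
        exact h _ (by omega)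
      · have h2 := coeff_high a (m - (n - 1)) (by omega)
        rw [show n - 1 + (m - (n - 1)) = m by omega] at h2
        rw [h2]
        exact h _ (by omega)
    · rw [if_neg hm, coeff_top a m (by omega)]
  · intro h k hk
    rw [← coeff_low a k hk, h, coeff_full, if_pos (by omega)]

end Run7.h499
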