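import Mathlib
import Pool.Agent.Run7.h499.Poly

set_option autoImplicit false

/-! # Odd sequences and sets of residues -/

namespace Run7.h499

open Polynomial Finset

/-- the sets of nonzero residues modulo `N` that are closed under doubling and contain exactly one of
`t`, `-t` for all `t ≠ 0` -/
def TT (N : ℕ) : Set (Set (ZMod N)) :=
  {T | 0 ∉ T ∧ (∀ t ∈ T, 2 * t ∈ T) ∧ ∀ t, t ≠ 0 → (t ∈ T ↔ -t ∉ T)}

section

variable {N : ℕ} [NeZero N] {K : Type} [Field K] {ζ : K}

/-- powers of `ζ` with exponents modulo `N` -/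
def zz (ζ : K) (t : ZMod N) : K := ζ ^ t.val

omit [NeZero N] in
theorem zz_zero (ζ : K) : zz ζ (0 : ZMod N) = 1 := by simp [zz]

theorem zz_add (hζ : IsPrimitiveRoot ζ N) (s t : ZMod N) : zz ζ (s + t) = zz ζ s * zz ζ t := by
  unfold zz
  rw [ZMod.val_add, ← pow_add]
  have h := pow_mod_orderOf ζ (s.val + t.val)
  rwa [← hζ.eq_orderOf] at h

theorem zz_ne_zero (hζ : IsPrimitiveRoot ζ N) (t : ZMod N) : zz ζ t ≠ 0 :=
  pow_ne_zero _ (hζ.ne_zero (NeZero.ne N))

theorem zz_neg (hζ : IsPrimitiveRoot ζ N) (t : ZMod N) : zz ζ (-t) = (zz ζ t)⁻¹ := by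
  refine eq_inv_of_mul_eq_one_left ?_
  rw [← zz_add hζ, neg_add_cancel, zz_zero]

theorem zz_two (hζ : IsPrimitiveRoot ζ N) (t : ZMod N) : zz ζ (2 * t) = (zz ζ t) ^ 2 := by
  rw [two_mul, zz_add hζ, sq]

theorem zz_inj (hζ : IsPrimitiveRoot ζ N) : Function.Injective (fun t : ZMod N => zz ζ t) := by
  intro s t h
  exact ZMod.val_injective N (hζ.pow_inj (ZMod.val_lt s) (ZMod.val_lt t) h)

omit [NeZero N] in
theorem zz_pow (hζ : IsPrimitiveRoot ζ N) (t : ZMod N) : zz ζ t ^ N = 1 := by
  unfold zz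
  rw [← pow_mul, mul_comm, pow_mul, hζ.pow_eq_one, one_pow]

theorem zz_ne_one (hζ : IsPrimitiveRoot ζ N) (t : ZMod N) (ht : t ≠ 0) : zz ζ t ≠ 1 := by
  intro h
  exact ht (zz_inj hζ (by simp only; rw [h, zz_zero]))

end

/-- cardinality of the sets in `TT N` -/
theorem TT_card {N : ℕ} [NeZero N] (T : Set (ZMod N)) (hT : T ∈ TT N) [DecidablePred (· ∈ T)] :
    2 * (univ.filter (· ∈ T)).card + 1 = N := by
  classical
  obtain ⟨h0, -, h2⟩ := hT
  set U : Finset (ZMod N) := univ.filter (· ∈ T) with hU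
  have hmem : ∀ t, t ∈ U ↔ t ∈ T := by intro t; simp [hU]
  have h3 : (univ : Finset (ZMod N)).erase 0 = U ∪ U.image (fun t => -t) := by
    ext t
    rw [mem_erase, mem_union, mem_image, hmem]
    constructor
    · rintro ⟨ht, -⟩
      by_cases h : t ∈ T
      · exact Or.inl h
      · right
        refine ⟨-t, ?_, by simp⟩
        rw [hmem]
        by_contra h'
        exact h ((h2 t ht).2 h')
    · rintro (h | ⟨s, hs, rfl⟩)
      · exact ⟨fun h' => h0 (h' ▸ h), mem_univ _⟩
      · rw [hmem] at hs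
        refine ⟨fun h' => h0 ?_, mem_univ _⟩
        have : s = 0 := by simpa using h'
        exact this ▸ hs
  have h4 : Disjoint U (U.image (fun t => -t)) := by
    rw [Finset.disjoint_left]
    intro t ht ht'
    rw [mem_image] at ht'
    obtain ⟨s, hs, rfl⟩ := ht'
    rw [hmem] at hs ht
    have hs0 : s ≠ 0 := fun h' => h0 (h' ▸ hs)
    exact ((h2 s hs0).1 hs) ht
  have h5 := congrArg Finset.card h3
  rw [card_union_of_disjoint h4, card_image_of_injective _ neg_injective, card_erase_of_mem (mem_univ _),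
    card_univ, ZMod.card] at h5
  have := NeZero.pos N
  omega

section

variable {n : ℕ} {K : Type} [Field K] [Algebra (ZMod 2) K]

theorem aeval_sq (p : (ZMod 2)[X]) (x : K) : aeval (x ^ 2) p = (aeval x p) ^ 2 := by
  have h := ZMod.expand_card (p := 2) p
  have h2 := congrArg (aeval x) h
  rw [expand_aeval, map_pow] at h2
  exact h2

theorem aeval_rpol (a : Fin n → ZMod 2) (x : K) (hx : x ≠ 0) :
    aeval x (rpol a) = x ^ (n - 1) * aeval x⁻¹ (pol a) := by
  unfold rpol pol
  simp only [map_sum, map_mul, aeval_C, map_pow, aeval_X]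
  rw [Finset.mul_sum]
  refine Finset.sum_congr rfl fun i _ => ?_
  have hi := i.2
  have h1 : x ^ (n - 1) = x ^ (n - 1 - (i : ℕ)) * x ^ (i : ℕ) := by
    rw [← pow_add]
    congr 1
    omega
  have h2 : x ^ (i : ℕ) * x⁻¹ ^ (i : ℕ) = 1 := by
    rw [← mul_pow, mul_inv_cancel₀ hx, one_pow]
  rw [h1]
  linear_combination (-(algebraMap (ZMod 2) K) (a i) * x ^ (n - 1 - (i : ℕ))) * h2

theorem aeval_full (x : K) (hx : x ≠ 1) (h : x ^ (2 * n - 1) = 1) : aeval x (full n) = 0 := by
  unfold full
  simp only [map_sum, map_pow, aeval_X]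
  have := geom_sum_mul x (2 * n - 1)
  rw [h, sub_self] at this
  exact (mul_eq_zero.1 this).resolve_right (sub_ne_zero.2 hx)

theorem coeff_pol (a : Fin n → ZMod 2) (m : ℕ) :
    (pol a).coeff m = if h : m < n then a ⟨m, h⟩ else 0 := by
  unfold pol
  rw [finsetSum_coeff]
  simp only [coeff_C_mul_X_pow]
  split_ifs with h
  · rw [Finset.sum_eq_single ⟨m, h⟩]
    · simp
    · intro b _ hb
      rw [if_neg]
      intro h'
      exact hb (Fin.ext h'.symm)
    · simp
  · refine Finset.sum_eq_zero fun i _ => ?_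
    rw [if_neg]
    have := i.2
    omega

theorem coeff_rpol_zero (hn : 1 ≤ n) (a : Fin n → ZMod 2) :
    (rpol a).coeff 0 = a ⟨n - 1, by omega⟩ := by
  unfold rpol
  rw [finsetSum_coeff]
  simp only [coeff_C_mul_X_pow]
  rw [Finset.sum_eq_single ⟨n - 1, by omega⟩]
  · simp
  · intro b _ hb
    rw [if_neg]
    intro h'
    apply hb
    apply Fin.ext
    have := b.2
    simp only
    omega
  · simp

theorem degree_pol (a : Fin n → ZMod 2) : (pol a).degree < n := by
  rw [Polynomial.degree_lt_iff_coeff_zero]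
  intro m hm
  rw [coeff_pol, dif_neg (by omega)]

theorem pol_inj : Function.Injective (fun a : Fin n → ZMod 2 => pol a) := by
  intro a b h
  ext i
  have h2 := congrArg (fun p => Polynomial.coeff p i) h
  simp only [coeff_pol, i.2, dif_pos] at h2
  rw [h2]

/-- product of the extreme letters -/
theorem ends {a : Fin n → ZMod 2} (hn : 1 ≤ n) (ha : a ∈ OS n) :
    a ⟨0, by omega⟩ * a ⟨n - 1, by omega⟩ = 1 := by
  have h1 := (mem_OS_iff a).1 ha
  have h2 := congrArg (fun p => Polynomial.coeff p 0) h1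
  simp only [mul_coeff_zero] at h2
  rw [coeff_pol, dif_pos (by omega), coeff_rpol_zero hn, coeff_full, if_pos (by omega)] at h2
  exact h2

theorem last_one {a : Fin n → ZMod 2} (hn : 1 ≤ n) (ha : a ∈ OS n) : a ⟨n - 1, by omega⟩ = 1 := by
  have h := ends hn ha
  revert h
  generalize a ⟨0, by omega⟩ = u
  generalize a ⟨n - 1, by omega⟩ = v
  revert u v
  decide

/-- the set of the exponents of the roots -/
def rts {N : ℕ} (ζ : K) (a : Fin n → ZMod 2) : Set (ZMod N) := {t | aeval (zz ζ t) (pol a) = 0}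

theorem prod_zero {N : ℕ} [NeZero N] {ζ : K} (hN : N = 2 * n - 1) (hζ : IsPrimitiveRoot ζ N)
    {a : Fin n → ZMod 2} (ha : a ∈ OS n) (t : ZMod N) (ht : t ≠ 0) :
    aeval (zz ζ t) (pol a) * aeval (zz ζ (-t)) (pol a) = 0 := by
  have h1 := congrArg (aeval (zz ζ t)) ((mem_OS_iff a).1 ha)
  rw [map_mul, aeval_rpol a _ (zz_ne_zero hζ t), ← zz_neg hζ,
    aeval_full _ (zz_ne_one hζ t ht) (by rw [← hN]; exact zz_pow hζ t)] at h1
  have h2 : zz ζ t ^ (n - 1) ≠ 0 := pow_ne_zero _ (zz_ne_zero hζ t)
  rcases mul_eq_zero.1 h1 with h | h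
  · rw [h, zero_mul]
  · rw [(mul_eq_zero.1 h).resolve_left h2, mul_zero]

theorem rts_card_le {N : ℕ} [NeZero N] {ζ : K} (hζ : IsPrimitiveRoot ζ N)
    (a : Fin n → ZMod 2) (ha : pol a ≠ 0) [DecidablePred (· ∈ rts (N := N) ζ a)] (hn : 1 ≤ n) :
    (univ.filter (fun t : ZMod N => t ∈ rts ζ a)).card ≤ n - 1 := by
  classical
  set U := univ.filter (fun t : ZMod N => t ∈ rts ζ a) with hU
  have hinj : Function.Injective (algebraMap (ZMod 2) K) := (algebraMap (ZMod 2) K).injective
  have hne : (pol a).map (algebraMap (ZMod 2) K) ≠ 0 := by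
    rwa [Ne, Polynomial.map_eq_zero_iff hinj]
  have h1 : (U.image (fun t => zz ζ t)) ⊆ ((pol a).map (algebraMap (ZMod 2) K)).roots.toFinset := by
    intro x hx
    rw [mem_image] at hx
    obtain ⟨t, ht, rfl⟩ := hx
    rw [Multiset.mem_toFinset, mem_roots hne, IsRoot.def, eval_map_algebraMap]
    rw [hU, mem_filter] at ht
    exact ht.2
  have h2 := card_le_card h1
  rw [card_image_of_injective _ (zz_inj hζ)] at h2
  refine h2.trans ((Multiset.toFinset_card_le _).trans ((card_roots' _).trans ?_))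
  refine (natDegree_map_le).trans ?_
  have h3 := degree_pol a
  rw [degree_eq_natDegree ha] at h3
  have h4 : (pol a).natDegree < n := by exact_mod_cast h3
  omega

theorem rts_mem {N : ℕ} [NeZero N] {ζ : K} (hn : 1 ≤ n) (hN : N = 2 * n - 1)
    (hζ : IsPrimitiveRoot ζ N) {a : Fin n → ZMod 2} (ha : a ∈ OS n) : rts ζ a ∈ TT N := by
  classical
  have hne : pol a ≠ 0 := by
    intro h
    have h1 := (mem_OS_iff a).1 ha
    rw [h, zero_mul] at h1
    have h2 := congrArg (fun p => Polynomial.coeff p 0) h1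
    simp only [coeff_full, coeff_zero] at h2
    rw [if_pos (by omega)] at h2
    exact zero_ne_one h2
  set U := univ.filter (fun t : ZMod N => t ∈ rts ζ a) with hU
  have hmem : ∀ t, t ∈ U ↔ t ∈ rts ζ a := by intro t; simp [hU]
  have hc : U.card ≤ n - 1 := rts_card_le hζ a hne hn
  set V := U.image (fun t => -t) with hV
  have hVc : V.card = U.card := card_image_of_injective _ neg_injective
  have hsub : (univ : Finset (ZMod N)).erase 0 ⊆ U ∪ V := by
    intro t ht
    rw [mem_erase] at ht
    rcases mul_eq_zero.1 (prod_zero hN hζ ha t ht.1) with h | h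
    · exact mem_union_left _ ((hmem t).2 h)
    · refine mem_union_right _ (mem_image.2 ⟨-t, (hmem _).2 h, by simp⟩)
  have h1 := card_le_card hsub
  rw [card_erase_of_mem (mem_univ _), card_univ, ZMod.card] at h1
  have h2 := card_union_add_card_inter U V
  have h3 : (U ∩ V).card = 0 := by omega
  have h4 : (U ∪ V).card = ((univ : Finset (ZMod N)).erase 0).card := by
    rw [card_erase_of_mem (mem_univ _), card_univ, ZMod.card]
    omega
  have h5 := eq_of_subset_of_card_le hsub h4.le
  rw [card_eq_zero] at h3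
  refine ⟨?_, ?_, ?_⟩
  · intro h0
    have : (0 : ZMod N) ∈ (univ : Finset (ZMod N)).erase 0 := by
      rw [h5]
      exact mem_union_left _ ((hmem _).2 h0)
    simp at this
  · intro t ht
    change aeval (zz ζ t) (pol a) = 0 at ht
    change aeval (zz ζ (2 * t)) (pol a) = 0
    rw [zz_two hζ, aeval_sq, ht]
    simp
  · intro t ht
    constructor
    · intro h h'
      have : t ∈ U ∩ V := mem_inter.2 ⟨(hmem _).2 h, mem_image.2 ⟨-t, (hmem _).2 h', by simp⟩⟩
      rw [h3] at this
      simp at this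
    · intro h
      have : t ∈ U ∪ V := by
        rw [← h5]
        exact mem_erase.2 ⟨ht, mem_univ _⟩
      rcases mem_union.1 this with h' | h'
      · exact (hmem _).1 h'
      · rw [mem_image] at h'
        obtain ⟨s, hs, rfl⟩ := h'
        exfalso
        apply h
        rw [neg_neg]
        exact (hmem _).1 hs

theorem rts_inj {N : ℕ} [NeZero N] {ζ : K} (hn : 1 ≤ n) (hN : N = 2 * n - 1)
    (hζ : IsPrimitiveRoot ζ N) {a b : Fin n → ZMod 2} (ha : a ∈ OS n) (hb : b ∈ OS n)
    (h : rts (N := N) ζ a = rts ζ b) : a = b := by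
  classical
  have hT := rts_mem hn hN hζ ha
  have hcard := TT_card _ hT
  set U := univ.filter (fun t : ZMod N => t ∈ rts ζ a) with hU
  apply pol_inj
  simp only
  have hinj : Function.Injective (algebraMap (ZMod 2) K) := (algebraMap (ZMod 2) K).injective
  apply Polynomial.map_injective _ hinj
  refine Polynomial.eq_of_degree_sub_lt_of_eval_index_eq (s := U) (v := fun t => zz ζ t)
    ((zz_inj hζ).injOn) ?_ ?_
  · rw [← Polynomial.map_sub]
    refine (degree_map_le).trans_lt ?_
    rw [Polynomial.degree_lt_iff_coeff_zero]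
    intro m hm
    rw [coeff_sub, coeff_pol, coeff_pol]
    split_ifs with h1
    · have h2 : m = n - 1 := by omega
      subst h2
      rw [last_one hn ha, last_one hn hb, sub_self]
    · rw [sub_self]
  · intro t ht
    have h1 : t ∈ rts ζ a := by
      rw [hU, mem_filter] at ht
      exact ht.2
    have h2 : t ∈ rts ζ b := h ▸ h1
    rw [eval_map_algebraMap, eval_map_algebraMap]
    rw [show aeval (zz ζ t) (pol a) = 0 from h1, show aeval (zz ζ t) (pol b) = 0 from h2]

theorem rts_surj {N : ℕ} [NeZero N] [CharP K 2] {ζ : K} (hn : 1 ≤ n) (hN : N = 2 * n - 1)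
    (hζ : IsPrimitiveRoot ζ N) {T : Set (ZMod N)} (hT : T ∈ TT N) :
    ∃ a ∈ OS n, rts ζ a = T := by
  classical
  have hcard := TT_card T hT
  set U := univ.filter (fun t : ZMod N => t ∈ T) with hU
  have hmem : ∀ t, t ∈ U ↔ t ∈ T := by intro t; simp [hU]
  set P : K[X] := ∏ t ∈ U, (X - C (zz ζ t)) with hP
  have hmonic : P.Monic := monic_prod_of_monic _ _ (fun t _ => monic_X_sub_C _)
  have hdeg : P.natDegree = n - 1 := by
    rw [hP, natDegree_prod_of_monic _ _ (fun t _ => monic_X_sub_C _)]
    simp only [natDegree_X_sub_C, sum_const, smul_eq_mul, mul_one]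
    omega
  have hinj2 : Function.Injective (fun t : ZMod N => 2 * t) := by
    intro s t h
    simp only at h
    have h1 := congrArg (zz ζ) h
    rw [zz_two hζ, zz_two hζ] at h1
    exact zz_inj hζ (frobenius_inj K 2 h1)
  have himg : U.image (fun t => 2 * t) = U := by
    apply eq_of_subset_of_card_le
    · intro x hx
      rw [mem_image] at hx
      obtain ⟨t, ht, rfl⟩ := hx
      exact (hmem _).2 (hT.2.1 t ((hmem t).1 ht))
    · rw [card_image_of_injective _ hinj2]
  have hfrob : P.map (frobenius K 2) = P := by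
    rw [hP, Polynomial.map_prod]
    simp only [Polynomial.map_sub, map_X, map_C, frobenius_def]
    conv_rhs => rw [← himg]
    rw [prod_image (fun x _ y _ h => hinj2 h)]
    refine prod_congr rfl fun t _ => ?_
    rw [zz_two hζ]
  have hcoef : ∀ m, P.coeff m = 0 ∨ P.coeff m = 1 := by
    intro m
    have h1 := congrArg (fun p => Polynomial.coeff p m) hfrob
    simp only [coeff_map, frobenius_def] at h1
    have h2 : P.coeff m * (P.coeff m - 1) = 0 := by linear_combination h1
    rcases mul_eq_zero.1 h2 with h | h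
    · exact Or.inl h
    · exact Or.inr (sub_eq_zero.1 h)
  set a : Fin n → ZMod 2 := fun i => if P.coeff (i : ℕ) = 0 then 0 else 1 with ha
  have hal : ∀ i : Fin n, algebraMap (ZMod 2) K (a i) = P.coeff (i : ℕ) := by
    intro i
    rw [ha]
    simp only
    split_ifs with h
    · rw [map_zero, h]
    · rw [map_one, (hcoef _).resolve_left h]
  have hmap : (pol a).map (algebraMap (ZMod 2) K) = P := by
    ext m
    rw [coeff_map, coeff_pol]
    split_ifs with h
    · exact hal ⟨m, h⟩
    · rw [map_zero, coeff_eq_zero_of_natDegree_lt]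
      omega
  have hev : ∀ t : ZMod N, aeval (zz ζ t) (pol a) = 0 ↔ t ∈ T := by
    intro t
    rw [← eval_map_algebraMap, hmap, hP, eval_prod, prod_eq_zero_iff]
    constructor
    · rintro ⟨s, hs, h⟩
      rw [eval_sub, eval_X, eval_C, sub_eq_zero] at h
      rw [zz_inj hζ h]
      exact (hmem s).1 hs
    · intro h
      exact ⟨t, (hmem t).2 h, by simp⟩
  have hinj : Function.Injective (algebraMap (ZMod 2) K) := (algebraMap (ZMod 2) K).injective
  have hlast : a ⟨n - 1, by omega⟩ = 1 := by
    rw [ha]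
    simp only
    have h1 : P.coeff (n - 1) = 1 := by
      rw [← hdeg]
      exact hmonic
    rw [h1, if_neg one_ne_zero]
  have hfirst : a ⟨0, by omega⟩ = 1 := by
    rw [ha]
    simp only
    rw [if_neg]
    rw [coeff_zero_eq_eval_zero, hP, eval_prod]
    refine prod_ne_zero_iff.2 ?_
    intro t _
    rw [eval_sub, eval_X, eval_C, zero_sub]
    exact neg_ne_zero.2 (zz_ne_zero hζ t)
  refine ⟨a, ?_, ?_⟩
  · rw [mem_OS_iff]
    apply Polynomial.map_injective _ hinj
    refine Polynomial.eq_of_degree_sub_lt_of_eval_index_eq (s := (univ : Finset (ZMod N)).erase 0)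
      (v := fun t => zz ζ t) ((zz_inj hζ).injOn) ?_ ?_
    · rw [← Polynomial.map_sub, card_erase_of_mem (mem_univ _), card_univ, ZMod.card]
      refine (degree_map_le).trans_lt ?_
      rw [Polynomial.degree_lt_iff_coeff_zero]
      intro m hm
      rw [coeff_sub, coeff_full]
      by_cases h1 : m < 2 * n - 1
      · rw [if_pos h1]
        have h2 : m = n - 1 + (n - 1) := by omega
        rw [h2, coeff_high a (n - 1) (by omega), ← coeff_low a (n - 1) (by omega),
          show n - 1 - (n - 1) = 0 by omega, mul_coeff_zero, coeff_pol, dif_pos (by omega),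
          coeff_rpol_zero hn, hfirst, hlast]
        ring
      · rw [if_neg h1, coeff_top a m (by omega), sub_zero]
    · intro t ht
      have ht0 : t ≠ 0 := (mem_erase.1 ht).1
      rw [eval_map_algebraMap, eval_map_algebraMap,
        aeval_full _ (zz_ne_one hζ t ht0) (by rw [← hN]; exact zz_pow hζ t), map_mul,
        aeval_rpol a _ (zz_ne_zero hζ t), ← zz_neg hζ]
      by_cases h : t ∈ T
      · rw [(hev t).2 h, zero_mul]
      · have h1 : -t ∈ T := by
          by_contra h'
          exact h ((hT.2.2 t ht0).2 h')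
        rw [(hev (-t)).2 h1, mul_zero, mul_zero]
  · ext t
    exact hev t

end

/-- the number of odd sequences is the number of the sets in `TT (2 n - 1)` -/
theorem S_eq (n : ℕ) (hn : 1 ≤ n) : S n = (TT (2 * n - 1)).ncard := by
  classical
  have : NeZero (2 * n - 1) := ⟨by omega⟩
  have h2 : NeZero ((2 * n - 1 : ℕ) : ZMod 2) := by
    constructor
    intro h
    rw [ZMod.natCast_eq_zero_iff] at h
    omega
  have h3 : NeZero ((2 * n - 1 : ℕ) : AlgebraicClosure (ZMod 2)) := by
    constructor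
    intro h
    have h4 : algebraMap (ZMod 2) (AlgebraicClosure (ZMod 2)) ((2 * n - 1 : ℕ) : ZMod 2) = 0 := by
      rw [map_natCast]
      exact h
    rw [map_eq_zero] at h4
    exact h2.out h4
  obtain ⟨ζ, hζ⟩ := HasEnoughRootsOfUnity.exists_primitiveRoot (AlgebraicClosure (ZMod 2)) (2 * n - 1)
  have : CharP (AlgebraicClosure (ZMod 2)) 2 := inferInstance
  unfold S
  refine Set.ncard_congr (fun a _ => rts ζ a) ?_ ?_ ?_
  · intro a ha
    exact rts_mem hn rfl hζ ha
  · intro a b ha hb h
    exact rts_inj hn rfl hζ ha hb h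
  · intro T hT
    obtain ⟨a, ha, h⟩ := rts_surj hn rfl hζ hT
    exact ⟨a, ha, h⟩

end Run7.h499
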