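import Mathlib
import Pool.Agent.Run7.h499.RootSet

set_option autoImplicit false

/-! # Counting the sets in `TT N` -/

namespace Run7.h499

open Finset

/-- subsets containing exactly one of `q`, `σ q` for a fixed point free involution -/
theorem count_invol {Q : Type} [Fintype Q] (σ : Q → Q) (h1 : ∀ q, σ (σ q) = q) (h2 : ∀ q, σ q ≠ q) :
    Set.ncard {B : Set Q | ∀ q, q ∈ B ↔ σ q ∉ B} = 2 ^ (Fintype.card Q / 2) ∧
      Even (Fintype.card Q) := by
  classical
  let _ : LinearOrder Q := LinearOrder.lift' (Fintype.equivFin Q) (Fintype.equivFin Q).injective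
  set T : Finset Q := univ.filter (fun q => q < σ q) with hT
  have hmem : ∀ q, q ∈ T ↔ q < σ q := by intro q; simp [hT]
  have hnot : ∀ q, q ∉ T ↔ σ q ∈ T := by
    intro q
    rw [hmem, hmem, h1, not_lt]
    exact ⟨fun h => lt_of_le_of_ne h (h2 q), fun h => h.le⟩
  have hcard : Fintype.card Q = 2 * T.card := by
    have e1 : (univ : Finset Q) = T ∪ T.image σ := by
      ext q
      simp only [mem_univ, mem_union, mem_image, true_iff]
      by_cases h : q ∈ T
      · exact Or.inl h
      · exact Or.inr ⟨σ q, (hnot q).1 h, h1 q⟩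
    have e2 : Disjoint T (T.image σ) := by
      rw [Finset.disjoint_left]
      intro q hq hq'
      rw [mem_image] at hq'
      obtain ⟨r, hr, rfl⟩ := hq'
      exact ((hnot r).2 hq) hr
    have e3 := congrArg Finset.card e1
    rw [card_union_of_disjoint e2, card_image_of_injective _ (Function.LeftInverse.injective h1),
      card_univ] at e3
    omega
  refine ⟨?_, ⟨T.card, by omega⟩⟩
  rw [show Fintype.card Q / 2 = T.card by omega, ← Set.ncard_coe_finset, ← Set.ncard_powerset]
  refine Set.ncard_congr (fun B _ => B ∩ (T : Set Q)) ?_ ?_ ?_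
  · intro B _
    exact Set.inter_subset_right
  · intro A B hA hB h
    ext q
    have key : ∀ r ∈ T, (r ∈ A ↔ r ∈ B) := by
      intro r hr
      constructor
      · intro hrA
        have : r ∈ A ∩ (T : Set Q) := ⟨hrA, hr⟩
        rw [h] at this
        exact this.1
      · intro hrB
        have : r ∈ B ∩ (T : Set Q) := ⟨hrB, hr⟩
        rw [← h] at this
        exact this.1
    by_cases hq : q ∈ T
    · exact key q hq
    · rw [hA q, hB q, key _ ((hnot q).1 hq)]
  · intro A hA
    rw [Set.mem_powerset_iff] at hA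
    refine ⟨{q | (q ∈ T ∧ q ∈ A) ∨ (q ∉ T ∧ σ q ∉ A)}, ?_, ?_⟩
    · intro q
      change ((q ∈ T ∧ q ∈ A) ∨ (q ∉ T ∧ σ q ∉ A)) ↔
        ¬ ((σ q ∈ T ∧ σ q ∈ A) ∨ (σ q ∉ T ∧ σ (σ q) ∉ A))
      rw [h1]
      have e1 := hnot q
      by_cases hq : q ∈ T
      · have : σ q ∉ T := fun h => (e1.2 h) hq
        tauto
      · have := e1.1 hq
        tauto
    · ext q
      change (((q ∈ T ∧ q ∈ A) ∨ (q ∉ T ∧ σ q ∉ A)) ∧ q ∈ T) ↔ q ∈ A
      constructor
      · rintro ⟨h | h, h'⟩
        · exact h.2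
        · exact absurd h' h.1
      · intro h
        have : q ∈ T := hA h
        exact ⟨Or.inl ⟨this, h⟩, this⟩

section

variable {N : ℕ}

/-- multiples of `t` by powers of two -/
theorem pow_mul_eq_iff (t : ZMod N) (k l : ℕ) :
    2 ^ k * t = 2 ^ l * t ↔ (2 : ZMod (addOrderOf t)) ^ k = 2 ^ l := by
  have e : ∀ k : ℕ, (2 : ZMod N) ^ k * t = (2 ^ k : ℕ) • t := by
    intro k
    rw [nsmul_eq_mul]
    push_cast
    rfl
  rw [e, e, nsmul_eq_nsmul_iff_modEq, ← ZMod.natCast_eq_natCast_iff]
  push_cast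
  rfl

theorem ord_pos {d : ℕ} (hd : Odd d) : 0 < orderOf (2 : ZMod d) := by
  rw [orderOf_pos_iff, isOfFinOrder_iff_pow_eq_one]
  refine ⟨d.totient, Nat.totient_pos.2 hd.pos, ?_⟩
  have h : Nat.Coprime 2 d := (Nat.coprime_two_left).2 hd
  have h2 := Nat.ModEq.pow_totient h
  rw [← ZMod.natCast_eq_natCast_iff] at h2
  push_cast at h2
  exact h2

theorem odd_of_dvd {d N : ℕ} (hN : Odd N) (h : d ∣ N) : Odd d := Odd.of_dvd_nat hN h

/-- the nonzero residues -/
abbrev XX (N : ℕ) := {t : ZMod N // t ≠ 0}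

/-- equivalence up to powers of two -/
def sld (hN : Odd N) : Setoid (XX N) where
  r s t := ∃ k : ℕ, (t : ZMod N) = 2 ^ k * (s : ZMod N)
  iseqv := by
    refine ⟨fun s => ⟨0, by simp⟩, ?_, ?_⟩
    · rintro s t ⟨k, hk⟩
      refine ⟨(orderOf (2 : ZMod N) - 1) * k, ?_⟩
      have h1 := ord_pos hN
      have h2 : (2 : ZMod N) ^ ((orderOf (2 : ZMod N) - 1) * k) * 2 ^ k = 1 := by
        rw [← pow_add, show (orderOf (2 : ZMod N) - 1) * k + k = orderOf (2 : ZMod N) * k by
          obtain ⟨m, hm⟩ : ∃ m, orderOf (2 : ZMod N) = m + 1 := ⟨_, (Nat.sub_add_cancel h1).symm⟩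
          rw [hm, Nat.add_sub_cancel]
          ring, pow_mul, pow_orderOf_eq_one, one_pow]
      rw [hk, ← mul_assoc, h2, one_mul]
    · rintro s t r ⟨k, hk⟩ ⟨l, hl⟩
      exact ⟨l + k, by rw [hl, hk, ← mul_assoc, ← pow_add]⟩

theorem two_mul_ne (hN : Odd N) {t : ZMod N} (ht : t ≠ 0) : 2 * t ≠ 0 := by
  intro h
  apply ht
  have h1 := ord_pos hN
  have h2 : (2 : ZMod N) ^ (orderOf (2 : ZMod N) - 1) * 2 = 1 := by
    rw [← pow_succ, Nat.sub_add_cancel h1, pow_orderOf_eq_one]
  calc t = (2 ^ (orderOf (2 : ZMod N) - 1) * 2) * t := by rw [h2, one_mul]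
    _ = 0 := by rw [mul_assoc, h, mul_zero]

/-- negation on classes -/
def sig (hN : Odd N) : Quotient (sld hN) → Quotient (sld hN) :=
  Quotient.map (fun t => ⟨-t.1, neg_ne_zero.2 t.2⟩) (by
    rintro s t ⟨k, hk⟩
    exact ⟨k, by simp only; rw [hk]; ring⟩)

theorem sig_mk (hN : Odd N) (t : XX N) :
    sig hN (Quotient.mk (sld hN) t) = Quotient.mk (sld hN) ⟨-t.1, neg_ne_zero.2 t.2⟩ := rfl

theorem sig_sig (hN : Odd N) (q : Quotient (sld hN)) : sig hN (sig hN q) = q := by
  induction q using Quotient.inductionOn with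
  | h t =>
    rw [sig_mk, sig_mk]
    congr 1
    exact Subtype.ext (neg_neg t.1)

theorem TT_card_eq [NeZero N] (hN : Odd N) [Fintype (Quotient (sld hN))]
    (hF : ∀ t : ZMod N, t ≠ 0 → ∀ k : ℕ, -t ≠ 2 ^ k * t) :
    (TT N).ncard = 2 ^ (Fintype.card (Quotient (sld hN)) / 2) ∧
      Even (Fintype.card (Quotient (sld hN))) := by
  classical
  have h2 : ∀ q, sig hN q ≠ q := by
    intro q
    induction q using Quotient.inductionOn with
    | h t =>
      rw [sig_mk]
      intro h
      obtain ⟨k, hk⟩ := Quotient.exact h.symm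
      exact hF t.1 t.2 k hk
  obtain ⟨h3, h4⟩ := count_invol (sig hN) (sig_sig hN) h2
  refine ⟨?_, h4⟩
  rw [← h3]
  symm
  refine Set.ncard_congr (fun B _ => {t : ZMod N | ∃ h : t ≠ 0, Quotient.mk (sld hN) ⟨t, h⟩ ∈ B}) ?_ ?_ ?_
  · intro B hB
    refine ⟨?_, ?_, ?_⟩
    · rintro ⟨h, -⟩
      exact h rfl
    · rintro t ⟨h, hb⟩
      refine ⟨two_mul_ne hN h, ?_⟩
      have e : Quotient.mk (sld hN) ⟨2 * t, two_mul_ne hN h⟩ = Quotient.mk (sld hN) ⟨t, h⟩ := by
        symm
        apply Quotient.sound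
        exact ⟨1, by simp⟩
      rw [e]
      exact hb
    · intro t ht
      have h5 := hB (Quotient.mk (sld hN) ⟨t, ht⟩)
      rw [sig_mk] at h5
      constructor
      · rintro ⟨h, hb⟩ ⟨h', hb'⟩
        exact (h5.1 hb) hb'
      · intro h
        refine ⟨ht, h5.2 ?_⟩
        intro h'
        exact h ⟨neg_ne_zero.2 ht, h'⟩
  · intro A B hA hB h
    ext q
    induction q using Quotient.inductionOn with
    | h t =>
      have h5 := Set.ext_iff.1 h t.1
      constructor
      · intro hq
        exact (h5.1 ⟨t.2, hq⟩).2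
      · intro hq
        exact (h5.2 ⟨t.2, hq⟩).2
  · intro T hT
    obtain ⟨hT0, hT1, hT2⟩ := hT
    have hT1' : ∀ (k : ℕ) (t : ZMod N), t ∈ T → 2 ^ k * t ∈ T := by
      intro k
      induction k with
      | zero => intro t ht; simpa using ht
      | succ k ih =>
        intro t ht
        rw [pow_succ', mul_assoc]
        exact hT1 _ (ih t ht)
    have hcl : ∀ s t : XX N, (sld hN) s t → (s.1 ∈ T ↔ t.1 ∈ T) := by
      intro s t hst
      constructor
      · intro h
        obtain ⟨k, hk⟩ := hst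
        rw [hk]
        exact hT1' k _ h
      · intro h
        obtain ⟨k, hk⟩ := (sld hN).symm hst
        rw [hk]
        exact hT1' k _ h
    refine ⟨{q | ∃ t : XX N, t.1 ∈ T ∧ Quotient.mk (sld hN) t = q}, ?_, ?_⟩
    · intro q
      induction q using Quotient.inductionOn with
      | h t =>
        rw [sig_mk]
        have e1 : ∀ t : XX N, (Quotient.mk (sld hN) t ∈
            {q | ∃ t : XX N, t.1 ∈ T ∧ Quotient.mk (sld hN) t = q}) ↔ t.1 ∈ T := by
          intro t
          constructor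
          · rintro ⟨s, hs, hst⟩
            exact (hcl s t (Quotient.exact hst)).1 hs
          · intro h
            exact ⟨t, h, rfl⟩
        rw [e1, e1]
        exact hT2 t.1 t.2
    · ext t
      constructor
      · rintro ⟨h, s, hs, hst⟩
        exact (hcl s ⟨t, h⟩ (Quotient.exact hst)).1 hs
      · intro h
        have ht : t ≠ 0 := fun h' => hT0 (h' ▸ h)
        exact ⟨ht, ⟨t, ht⟩, h, rfl⟩

theorem TT_empty {t : ZMod N} (ht : t ≠ 0) {k : ℕ} (h : -t = 2 ^ k * t) :
    (TT N).ncard = 0 := by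
  have : TT N = ∅ := by
    rw [Set.eq_empty_iff_forall_notMem]
    rintro T ⟨hT0, hT1, hT2⟩
    have hT1' : ∀ (k : ℕ) (t : ZMod N), t ∈ T → 2 ^ k * t ∈ T := by
      intro k
      induction k with
      | zero => intro t ht; simpa using ht
      | succ k ih =>
        intro t ht
        rw [pow_succ', mul_assoc]
        exact hT1 _ (ih t ht)
    by_cases h1 : t ∈ T
    · have h2 := (hT2 t ht).1 h1
      rw [h] at h2
      exact h2 (hT1' k t h1)
    · have h2 : -t ∈ T := by
        by_contra h3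
        exact h1 ((hT2 t ht).2 h3)
      have h3 := hT1' k _ h2
      have h4 : (2 : ZMod N) ^ k * -t = t := by
        rw [mul_neg, ← h, neg_neg]
      rw [h4] at h3
      exact h1 h3
  rw [this, Set.ncard_empty]

/-- the number of the nonzero classes -/
noncomputable def cc (N : ℕ) : ℕ :=
  ∑ d ∈ N.divisors.erase 1, d.totient / orderOf (2 : ZMod d)

theorem addOrderOf_pow_mul (hN : Odd N) (t : ZMod N) (k : ℕ) :
    addOrderOf ((2 : ZMod N) ^ k * t) = addOrderOf t := by
  have e : (2 : ZMod N) ^ k * t = (2 ^ k : ℕ) • t := by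
    rw [nsmul_eq_mul]
    push_cast
    rfl
  rw [e]
  have h1 : addOrderOf t ∣ N := by
    rw [addOrderOf_dvd_iff_nsmul_eq_zero, nsmul_eq_mul, ZMod.natCast_self, zero_mul]
  have h2 : (addOrderOf t).Coprime (2 ^ k) :=
    Nat.Coprime.pow_right _ ((Nat.coprime_two_right).2 (odd_of_dvd hN h1))
  exact Nat.Coprime.addOrderOf_nsmul h2

/-- additive order of a class -/
noncomputable def dq (hN : Odd N) : Quotient (sld hN) → ℕ :=
  Quotient.lift (fun t => addOrderOf t.1) (by
    rintro s t ⟨k, hk⟩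
    rw [hk, addOrderOf_pow_mul hN])

theorem fiber_card [NeZero N] (hN : Odd N) [DecidableEq (Quotient (sld hN))] (s : XX N) :
    (univ.filter (fun t : XX N => Quotient.mk (sld hN) t = Quotient.mk (sld hN) s)).card =
      orderOf (2 : ZMod (addOrderOf s.1)) := by
  classical
  have h1 : addOrderOf s.1 ∣ N := by
    rw [addOrderOf_dvd_iff_nsmul_eq_zero, nsmul_eq_mul, ZMod.natCast_self, zero_mul]
  have hpos := ord_pos (odd_of_dvd hN h1)
  have hne : ∀ k : ℕ, (2 : ZMod N) ^ k * s.1 ≠ 0 := by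
    intro k
    induction k with
    | zero => simpa using s.2
    | succ k ih =>
      rw [pow_succ', mul_assoc]
      exact two_mul_ne hN ih
  have e : univ.filter (fun t : XX N => Quotient.mk (sld hN) t = Quotient.mk (sld hN) s) =
      (range (orderOf (2 : ZMod (addOrderOf s.1)))).image
        (fun k => (⟨2 ^ k * s.1, hne k⟩ : XX N)) := by
    ext t
    rw [mem_filter, mem_image]
    constructor
    · rintro ⟨-, ht⟩
      obtain ⟨k, hk⟩ := Quotient.exact ht.symm
      refine ⟨k % orderOf (2 : ZMod (addOrderOf s.1)), mem_range.2 (Nat.mod_lt _ hpos), ?_⟩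
      apply Subtype.ext
      simp only
      rw [hk, pow_mul_eq_iff, pow_mod_orderOf]
    · rintro ⟨k, -, rfl⟩
      refine ⟨mem_univ _, ?_⟩
      symm
      apply Quotient.sound
      exact ⟨k, rfl⟩
  rw [e, card_image_of_injOn, card_range]
  intro k hk l hl h
  have h2 := congrArg Subtype.val h
  simp only at h2
  rw [pow_mul_eq_iff] at h2
  rw [coe_range, Set.mem_Iio] at hk hl
  exact pow_injOn_Iio_orderOf hk hl h2

theorem card_quot [NeZero N] (hN : Odd N) [Fintype (Quotient (sld hN))] :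
    Fintype.card (Quotient (sld hN)) = cc N := by
  classical
  have hmaps : ∀ q ∈ (univ : Finset (Quotient (sld hN))), dq hN q ∈ N.divisors.erase 1 := by
    intro q _
    induction q using Quotient.inductionOn with
    | h t =>
      change addOrderOf t.1 ∈ _
      rw [mem_erase, Nat.mem_divisors]
      refine ⟨?_, ?_, NeZero.ne N⟩
      · rw [Ne, AddMonoid.addOrderOf_eq_one_iff]
        exact t.2
      · rw [addOrderOf_dvd_iff_nsmul_eq_zero, nsmul_eq_mul, ZMod.natCast_self, zero_mul]
  rw [← card_univ, card_eq_sum_card_fiberwise hmaps]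
  unfold cc
  refine sum_congr rfl fun d hd => ?_
  rw [mem_erase, Nat.mem_divisors] at hd
  obtain ⟨hd1, hdN, -⟩ := hd
  have hdodd := odd_of_dvd hN hdN
  have hpos := ord_pos hdodd
  symm
  apply Nat.div_eq_of_eq_mul_left hpos
  have h1 := IsAddCyclic.card_addOrderOf_eq_totient (α := ZMod N) (d := d) (by rwa [ZMod.card])
  rw [← h1]
  have h2 : (univ.filter (fun t : XX N => dq hN (Quotient.mk (sld hN) t) = d)).card =
      (univ.filter (fun a : ZMod N => addOrderOf a = d)).card := by
    refine card_bij (fun t _ => t.1) ?_ ?_ ?_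
    · intro t ht
      rw [mem_filter] at ht ⊢
      exact ⟨mem_univ _, ht.2⟩
    · intro s _ t _ h
      exact Subtype.ext h
    · intro a ha
      rw [mem_filter] at ha
      have ha0 : a ≠ 0 := by
        rintro rfl
        rw [addOrderOf_zero] at ha
        exact hd1 ha.2.symm
      exact ⟨⟨a, ha0⟩, mem_filter.2 ⟨mem_univ _, ha.2⟩, rfl⟩
  rw [← h2]
  have hmaps2 : ∀ t ∈ univ.filter (fun t : XX N => dq hN (Quotient.mk (sld hN) t) = d),
      Quotient.mk (sld hN) t ∈ univ.filter (fun q => dq hN q = d) := by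
    intro t ht
    rw [mem_filter] at ht ⊢
    exact ⟨mem_univ _, ht.2⟩
  rw [card_eq_sum_card_fiberwise hmaps2, sum_const_nat (m := orderOf (2 : ZMod d))]
  intro q hq
  induction q using Quotient.inductionOn with
  | h s =>
    rw [mem_filter] at hq
    have hs : addOrderOf s.1 = d := hq.2
    have h3 := fiber_card hN s
    rw [hs] at h3
    rw [← h3]
    congr 1
    ext t
    rw [mem_filter, mem_filter, mem_filter]
    constructor
    · rintro ⟨-, h⟩
      exact ⟨mem_univ _, h⟩
    · rintro ⟨-, h⟩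
      refine ⟨⟨mem_univ _, ?_⟩, h⟩
      rw [h]
      exact hs

end

end Run7.h499
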