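import Mathlib
import Pool.Agent.Run7.h499.Orbits

set_option autoImplicit false

/-! # The formula for the number of odd sequences -/

namespace Run7.h499

open Finset

theorem free_of {N : ℕ} (hN : Odd N)
    (hP : ∀ p : ℕ, p.Prime → p ∣ N → Odd (orderOf (2 : ZMod p)))
    (t : ZMod N) (ht : t ≠ 0) (k : ℕ) : -t ≠ 2 ^ k * t := by
  intro h
  set d := addOrderOf t with hd
  have hdN : d ∣ N := by
    rw [hd, addOrderOf_dvd_iff_nsmul_eq_zero, nsmul_eq_mul, ZMod.natCast_self, zero_mul]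
  have hd1 : d ≠ 1 := by
    rw [hd, Ne, AddMonoid.addOrderOf_eq_one_iff]
    exact ht
  have h1 : d ∣ 2 ^ k + 1 := by
    rw [hd, addOrderOf_dvd_iff_nsmul_eq_zero, nsmul_eq_mul]
    push_cast
    rw [add_mul, one_mul, ← h, neg_add_cancel]
  have hp := Nat.minFac_prime hd1
  set p := d.minFac with hpd
  have : Fact p.Prime := ⟨hp⟩
  have hpN : p ∣ N := (Nat.minFac_dvd d).trans hdN
  have h2 : (2 : ZMod p) ^ k = -1 := by
    have h3 : p ∣ 2 ^ k + 1 := (Nat.minFac_dvd d).trans h1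
    rw [← ZMod.natCast_eq_zero_iff] at h3
    push_cast at h3
    linear_combination h3
  have h3 : (-1 : ZMod p) = 1 := by
    calc (-1 : ZMod p) = (-1) ^ (orderOf (2 : ZMod p)) := ((hP p hp hpN).neg_one_pow).symm
      _ = 1 := by rw [← h2, ← pow_mul, mul_comm, pow_mul, pow_orderOf_eq_one, one_pow]
  have h4 : ((2 : ℕ) : ZMod p) = 0 := by
    push_cast
    linear_combination -h3
  rw [ZMod.natCast_eq_zero_iff] at h4
  have h5 : p = 2 := (Nat.prime_dvd_prime_iff_eq hp Nat.prime_two).1 h4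
  have h6 := odd_of_dvd hN hpN
  rw [h5] at h6
  exact absurd h6 (by decide)

theorem not_free_of {N : ℕ} [NeZero N] (hN : Odd N) {p : ℕ} (hp : p.Prime) (hpN : p ∣ N)
    (he : Even (orderOf (2 : ZMod p))) : ∃ t : ZMod N, t ≠ 0 ∧ ∃ k : ℕ, -t = 2 ^ k * t := by
  have : Fact p.Prime := ⟨hp⟩
  obtain ⟨m, hm⟩ := he
  have hpos := ord_pos (odd_of_dvd hN hpN)
  have hx : (2 : ZMod p) ^ m * 2 ^ m = 1 := by
    rw [← pow_add, ← hm, pow_orderOf_eq_one]
  have hx1 : (2 : ZMod p) ^ m ≠ 1 := by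
    intro h
    have := orderOf_dvd_of_pow_eq_one h
    have := Nat.le_of_dvd (by omega) this
    omega
  have hx2 : (2 : ZMod p) ^ m = -1 := by
    rcases mul_self_eq_one_iff.1 hx with h | h
    · exact absurd h hx1
    · exact h
  obtain ⟨c, hc⟩ := hpN
  have hc0 : 0 < c := Nat.pos_of_ne_zero (by rintro rfl; exact NeZero.ne N (by simpa using hc))
  refine ⟨(c : ZMod N), ?_, m, ?_⟩
  · rw [Ne, ZMod.natCast_eq_zero_iff]
    intro h
    have := Nat.le_of_dvd hc0 h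
    rw [hc] at this
    have := hp.two_le
    nlinarith
  · have h1 : p ∣ 2 ^ m + 1 := by
      rw [← ZMod.natCast_eq_zero_iff]
      push_cast
      rw [hx2]
      ring
    obtain ⟨e, he⟩ := h1
    have h2 : ((2 ^ m + 1 : ℕ) : ZMod N) * (c : ZMod N) = 0 := by
      rw [he, ← Nat.cast_mul, ZMod.natCast_eq_zero_iff]
      exact ⟨e, by rw [hc]; ring⟩
    push_cast at h2
    linear_combination -h2

/-- the number of odd sequences, if all orders are odd -/
theorem S_of_odd (n : ℕ) (hn : 1 ≤ n)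
    (hP : ∀ p : ℕ, p.Prime → p ∣ 2 * n - 1 → Odd (orderOf (2 : ZMod p))) :
    S n = 2 ^ (cc (2 * n - 1) / 2) ∧ Even (cc (2 * n - 1)) := by
  classical
  have hN : Odd (2 * n - 1) := ⟨n - 1, by omega⟩
  have : NeZero (2 * n - 1) := ⟨by omega⟩
  have : Fintype (Quotient (sld hN)) := Fintype.ofFinite _
  have h1 := TT_card_eq hN (free_of hN hP)
  rw [card_quot hN] at h1
  rw [S_eq n hn]
  exact h1

/-- the number of odd sequences is zero otherwise -/
theorem S_of_even (n : ℕ) (hn : 1 ≤ n) {p : ℕ} (hp : p.Prime) (hpn : p ∣ 2 * n - 1)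
    (he : Even (orderOf (2 : ZMod p))) : S n = 0 := by
  have hN : Odd (2 * n - 1) := ⟨n - 1, by omega⟩
  have : NeZero (2 * n - 1) := ⟨by omega⟩
  obtain ⟨t, ht, k, hk⟩ := not_free_of hN hp hpn he
  rw [S_eq n hn]
  exact TT_empty ht hk

theorem S_zero : S 0 = 1 := by
  unfold S OS
  have : {a : Fin 0 → ZMod 2 | ∀ k : ℕ, k < 0 →
      (∑ i : Fin 0, ∑ j : Fin 0, (if (j : ℕ) = (i : ℕ) + k then a i * a j else 0)) = 1} = Set.univ := by
    ext a
    simp
  rw [this, Set.ncard_univ]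
  simp

/-- if `S n = 2 ^ e` with `e ≥ 1` then all orders are odd -/
theorem odd_of_S {n e : ℕ} (he : 1 ≤ e) (h : S n = 2 ^ e) :
    1 ≤ n ∧ ∀ p : ℕ, p.Prime → p ∣ 2 * n - 1 → Odd (orderOf (2 : ZMod p)) := by
  have hn : 1 ≤ n := by
    by_contra hn
    have : n = 0 := by omega
    subst this
    rw [S_zero] at h
    have : 1 < 2 ^ e := Nat.one_lt_two_pow (by omega)
    omega
  refine ⟨hn, fun p hp hpn => ?_⟩
  by_contra ho
  rw [Nat.not_odd_iff_even] at ho
  rw [S_of_even n hn hp hpn ho] at h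
  have : 0 < 2 ^ e := by positivity
  omega

theorem cc_of_S {n e : ℕ} (he : 1 ≤ e) (h : S n = 2 ^ e) : cc (2 * n - 1) = 2 * e := by
  obtain ⟨hn, hP⟩ := odd_of_S he h
  obtain ⟨h1, h2⟩ := S_of_odd n hn hP
  rw [h1] at h
  have h3 := Nat.pow_right_injective (le_refl 2) h
  obtain ⟨m, hm⟩ := h2
  omega

theorem S_of_cc {N e : ℕ} (hN : Odd N) (hP : ∀ p : ℕ, p.Prime → p ∣ N → Odd (orderOf (2 : ZMod p)))
    (hc : cc N = 2 * e) : S ((N + 1) / 2) = 2 ^ e := by
  obtain ⟨m, hm⟩ := hN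
  have h1 : 2 * ((N + 1) / 2) - 1 = N := by omega
  obtain ⟨h2, -⟩ := S_of_odd ((N + 1) / 2) (by omega) (by rw [h1]; exact hP)
  rw [h2, h1, hc]
  congr 1
  omega

end Run7.h499
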