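import Mathlib
import Pool.Agent.Run7.h499.Formula

set_option autoImplicit false

/-! # Good primes: `p ≡ 7 mod 8` and `2` generates the squares modulo `p ^ 2` -/

namespace Run7.h499

open Finset

/-- `p ≡ 7 mod 8` is a prime such that `2` has order `p (p - 1) / 2` modulo `p ^ 2` -/
def Good (p : ℕ) : Prop := p.Prime ∧ p % 8 = 7 ∧ orderOf (2 : ZMod (p ^ 2)) = p * ((p - 1) / 2)

theorem pow_eq_one_iff (d m : ℕ) : (2 : ZMod d) ^ m = 1 ↔ d ∣ 2 ^ m - 1 := by
  rw [← ZMod.natCast_eq_zero_iff, Nat.cast_sub (Nat.one_le_two_pow)]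
  push_cast
  rw [sub_eq_zero]

theorem orderOf_dvd_iff (d m : ℕ) : orderOf (2 : ZMod d) ∣ m ↔ d ∣ 2 ^ m - 1 := by
  rw [orderOf_dvd_iff_pow_eq_one, pow_eq_one_iff]

/-- for `p ≡ 7 mod 8` the order of `2` divides `(p - 1) / 2` -/
theorem ord_dvd_half {p : ℕ} (hp : p.Prime) (h8 : p % 8 = 7) :
    orderOf (2 : ZMod p) ∣ (p - 1) / 2 := by
  have : Fact p.Prime := ⟨hp⟩
  have h2 : p ≠ 2 := by omega
  obtain ⟨x, hx⟩ := (ZMod.exists_sq_eq_two_iff h2).2 (Or.inr h8)
  rw [orderOf_dvd_iff_pow_eq_one, hx, ← sq, ← pow_mul, show 2 * ((p - 1) / 2) = p - 1 by omega]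
  apply ZMod.pow_card_sub_one_eq_one
  rintro rfl
  rw [mul_zero] at hx
  have h3 : ((2 : ℕ) : ZMod p) = 0 := by exact_mod_cast hx
  rw [ZMod.natCast_eq_zero_iff] at h3
  have := Nat.le_of_dvd (by norm_num) h3
  have := hp.two_le
  omega

theorem Good.ord_one {p : ℕ} (h : Good p) : orderOf (2 : ZMod p) = (p - 1) / 2 := by
  obtain ⟨hp, h8, ho⟩ := h
  apply Nat.dvd_antisymm (ord_dvd_half hp h8)
  have h1 : orderOf (2 : ZMod (p ^ 2)) ∣ p * orderOf (2 : ZMod p) := by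
    rw [orderOf_dvd_iff_pow_eq_one, mul_comm, pow_mul]
    have h2 : ((2 ^ orderOf (2 : ZMod p) : ℕ) : ℤ) ≡ 1 [ZMOD (p : ℤ)] := by
      have h3 := pow_orderOf_eq_one (2 : ZMod p)
      have h4 : (((2 ^ orderOf (2 : ZMod p) : ℕ) : ℤ) : ZMod p) = ((1 : ℤ) : ZMod p) := by
        push_cast
        exact h3
      exact (ZMod.intCast_eq_intCast_iff _ _ _).1 h4
    have h3 : (p : ℤ) ∣ ((2 ^ orderOf (2 : ZMod p) : ℕ) : ℤ) - 1 := h2.symm.dvd
    have h4 : ((p ^ 2 : ℕ) : ℤ) ∣ ((2 ^ orderOf (2 : ZMod p) : ℕ) : ℤ) ^ p - 1 ^ p := by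
      have := dvd_sub_pow_of_dvd_sub (R := ℤ) (p := p) h3 1
      push_cast at this ⊢
      simpa using this
    have h5 : ((((2 ^ orderOf (2 : ZMod p) : ℕ) : ℤ) ^ p - 1 ^ p : ℤ) : ZMod (p ^ 2)) = 0 :=
      (ZMod.intCast_zmod_eq_zero_iff_dvd _ _).2 h4
    push_cast at h5
    rw [one_pow] at h5
    exact sub_eq_zero.1 h5
  rw [ho] at h1
  exact Nat.dvd_of_mul_dvd_mul_left hp.pos h1

theorem Good.half_pos {p : ℕ} (h : Good p) : 0 < (p - 1) / 2 := by
  have := h.2.1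
  omega

theorem Good.not_sq_dvd {p : ℕ} (h : Good p) : ¬ p ^ 2 ∣ 2 ^ ((p - 1) / 2) - 1 := by
  intro h1
  rw [← orderOf_dvd_iff, h.2.2] at h1
  have h2 := Nat.le_of_dvd h.half_pos h1
  have h3 := h.1.two_le
  have h4 := h.half_pos
  nlinarith

/-- the order of `2` modulo powers of good primes -/
theorem Good.ord_pow {p : ℕ} (h : Good p) (k : ℕ) :
    orderOf (2 : ZMod (p ^ (k + 1))) = p ^ k * ((p - 1) / 2) := by
  have hp := h.1
  have hfact : Fact p.Prime := ⟨hp⟩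
  set o := (p - 1) / 2 with ho
  have ho0 : 0 < o := h.half_pos
  have hodd : Odd p := by
    have := h.2.1
    rw [Nat.odd_iff]
    omega
  have h1 : p ∣ 2 ^ o - 1 := by
    rw [← orderOf_dvd_iff, h.ord_one]
  have hv : padicValNat p (2 ^ o - 1) = 1 := by
    have hne : 2 ^ o - 1 ≠ 0 := by
      have : 1 < 2 ^ o := Nat.one_lt_two_pow (by omega)
      omega
    have h2 : 1 ≤ padicValNat p (2 ^ o - 1) := one_le_padicValNat_of_dvd hne h1
    have h3 : ¬ 2 ≤ padicValNat p (2 ^ o - 1) := by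
      intro h3
      exact h.not_sq_dvd ((padicValNat_dvd_iff_le hne).2 h3)
    omega
  have key : ∀ j : ℕ, 1 ≤ j → (p ^ (k + 1) ∣ 2 ^ (o * j) - 1 ↔ p ^ k ∣ j) := by
    intro j hj
    have h2 : 1 < 2 ^ o := Nat.one_lt_two_pow (by omega)
    have h3 : ¬ p ∣ 2 ^ o := by
      intro h3
      have h4 := (Nat.prime_dvd_prime_iff_eq hp Nat.prime_two).1 (hp.dvd_of_dvd_pow h3)
      rw [h4] at hodd
      exact absurd hodd (by decide)
    have h4 := padicValNat.pow_sub_pow (p := p) (x := 2 ^ o) (y := 1) hodd h2 h1 h3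
      (n := j) (by omega)
    rw [one_pow, ← pow_mul, hv] at h4
    have hne : 2 ^ (o * j) - 1 ≠ 0 := by
      have : 1 < 2 ^ (o * j) := Nat.one_lt_two_pow (by positivity)
      omega
    rw [padicValNat_dvd_iff_le hne, padicValNat_dvd_iff_le (by omega), h4]
    omega
  apply Nat.dvd_antisymm
  · rw [orderOf_dvd_iff, mul_comm]
    exact (key _ (Nat.pos_of_ne_zero (pow_ne_zero _ hp.ne_zero))).2 (dvd_refl _)
  · have h2 : o ∣ orderOf (2 : ZMod (p ^ (k + 1))) := by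
      rw [ho, ← h.ord_one, orderOf_dvd_iff]
      have h3 := (orderOf_dvd_iff (p ^ (k + 1)) (orderOf (2 : ZMod (p ^ (k + 1))))).1 (dvd_refl _)
      exact (dvd_pow_self p (by omega)).trans h3
    obtain ⟨j, hj⟩ := h2
    have hpos : 0 < orderOf (2 : ZMod (p ^ (k + 1))) := ord_pos (hodd.pow)
    have hj1 : 1 ≤ j := by
      rcases Nat.eq_zero_or_pos j with rfl | h3
      · omega
      · exact h3
    rw [hj, mul_comm]
    apply Nat.mul_dvd_mul_left
    rw [← key j hj1, ← hj, ← orderOf_dvd_iff]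

theorem Good.odd_half {p : ℕ} (h : Good p) : Odd ((p - 1) / 2) := by
  have := h.2.1
  rw [Nat.odd_iff]
  omega

theorem Good.idx {p : ℕ} (h : Good p) (k : ℕ) :
    (p ^ (k + 1)).totient / orderOf (2 : ZMod (p ^ (k + 1))) = 2 := by
  rw [h.ord_pow, Nat.totient_prime_pow_succ h.1]
  have h1 := h.half_pos
  have h2 : p - 1 = 2 * ((p - 1) / 2) := by
    have := h.2.1
    omega
  have h3 : 0 < p ^ k := pow_pos h.1.pos _
  conv_lhs => rw [h2, show p ^ k * (2 * ((p - 1) / 2)) = 2 * (p ^ k * ((p - 1) / 2)) by ring]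
  rw [← h2]
  exact Nat.mul_div_cancel _ (by positivity)

theorem Good.cc_pow {p : ℕ} (h : Good p) (e : ℕ) : cc (p ^ e) = 2 * e := by
  unfold cc
  have h1 : (p ^ e).divisors.erase 1 = (range e).image (fun k => p ^ (k + 1)) := by
    ext d
    rw [mem_erase, Nat.mem_divisors_prime_pow h.1, mem_image]
    constructor
    · rintro ⟨h1, j, hj, rfl⟩
      rcases Nat.eq_zero_or_pos j with rfl | h2
      · simp at h1
      · exact ⟨j - 1, mem_range.2 (by omega), by rw [Nat.sub_add_cancel h2]⟩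
    · rintro ⟨k, hk, rfl⟩
      rw [mem_range] at hk
      refine ⟨?_, k + 1, by omega, rfl⟩
      have := Nat.one_lt_pow (n := k + 1) (by omega) h.1.one_lt
      omega
  rw [h1, sum_image]
  · rw [sum_congr rfl (fun k _ => h.idx k)]
    simp [mul_comm]
  · intro x _ y _ hxy
    have := Nat.pow_right_injective h.1.two_le hxy
    omega

theorem Good.S {p : ℕ} (h : Good p) (e : ℕ) : S ((p ^ e + 1) / 2) = 2 ^ e := by
  have hodd : Odd p := by
    have := h.2.1
    rw [Nat.odd_iff]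
    omega
  apply S_of_cc hodd.pow _ (h.cc_pow e)
  intro q hq hqp
  have : q = p := (Nat.prime_dvd_prime_iff_eq hq h.1).1 (hq.dvd_of_dvd_pow hqp)
  rw [this, h.ord_one]
  exact h.odd_half

end Run7.h499
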