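import Mathlib
import Pool.Agent.Run7.h499.Good

set_option autoImplicit false

/-! # The lengths with exactly four odd sequences -/

namespace Run7.h499

open Finset

theorem odd_ord {d : ℕ} (hd : Odd d)
    (hP : ∀ p : ℕ, p.Prime → p ∣ d → Odd (orderOf (2 : ZMod p))) : Odd (orderOf (2 : ZMod d)) := by
  classical
  set E := ∏ p ∈ d.primeFactors, orderOf (2 : ZMod p) with hE
  have hEodd : Odd E := by
    rw [hE]
    refine Finset.prod_induction (M := ℕ) _ (fun n => Odd n) (fun a b ha hb => ha.mul hb) odd_one ?_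
    intro p hp
    exact hP p (Nat.prime_of_mem_primeFactors hp) (Nat.dvd_of_mem_primeFactors hp)
  have key : orderOf (2 : ZMod d) ∣ E * d ^ d := by
    rw [orderOf_dvd_iff]
    have hd0 : d ≠ 0 := hd.pos.ne'
    rw [← Nat.factorization_le_iff_dvd hd0]
    · intro p
      by_cases hp : p.Prime
      swap
      · rw [Nat.factorization_eq_zero_of_not_prime _ hp]
        exact Nat.zero_le _
      by_cases hpd : p ∣ d
      swap
      · rw [Nat.factorization_eq_zero_of_not_dvd hpd]
        exact Nat.zero_le _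
      have hne : 2 ^ (E * d ^ d) - 1 ≠ 0 := by
        have : 1 < 2 ^ (E * d ^ d) := Nat.one_lt_two_pow (by
          have := hEodd.pos
          have := hd.pos
          positivity)
        omega
      rw [← hp.pow_dvd_iff_le_factorization hne]
      set k := d.factorization p with hk
      have hkd : k ≤ d := (Nat.factorization_lt p hd0).le
      have h1 : (p : ℤ) ∣ (2 : ℤ) ^ E - 1 := by
        have h2 : p ∣ 2 ^ E - 1 := by
          rw [← orderOf_dvd_iff]
          exact dvd_prod_of_mem _ (Nat.mem_primeFactors.2 ⟨hp, hpd, hd0⟩)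
        have h3 : ((2 ^ E - 1 : ℕ) : ℤ) = (2 : ℤ) ^ E - 1 := by
          rw [Nat.cast_sub Nat.one_le_two_pow]
          push_cast
          rfl
        rw [← h3]
        exact_mod_cast h2
      have h2 := dvd_sub_pow_of_dvd_sub h1 k
      rw [one_pow] at h2
      have h3 : ((2 : ℤ) ^ E) ^ p ^ k - 1 ∣ ((2 : ℤ) ^ E) ^ d ^ d - 1 := by
        have h4 : p ^ k ∣ d ^ d := (pow_dvd_pow_of_dvd hpd k).trans (pow_dvd_pow d hkd)
        obtain ⟨c, hc⟩ := h4
        rw [hc, pow_mul ((2 : ℤ) ^ E)]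
        exact sub_one_dvd_pow_sub_one _ _
      have h4 : ((p ^ k : ℕ) : ℤ) ∣ ((2 ^ (E * d ^ d) - 1 : ℕ) : ℤ) := by
        rw [Nat.cast_sub Nat.one_le_two_pow]
        push_cast
        rw [pow_mul]
        exact (dvd_trans ⟨(p : ℤ), by ring⟩ h2).trans h3
      exact_mod_cast h4
    · have : 1 < 2 ^ (E * d ^ d) := Nat.one_lt_two_pow (by
          have := hEodd.pos
          have := hd.pos
          positivity)
      omega
  exact Odd.of_dvd_nat (hEodd.mul hd.pow) key

theorem ord_dvd_totient {d : ℕ} (hd : Odd d) : orderOf (2 : ZMod d) ∣ d.totient := by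
  rw [orderOf_dvd_iff_pow_eq_one]
  have h : Nat.Coprime 2 d := (Nat.coprime_two_left).2 hd
  have h2 := Nat.ModEq.pow_totient h
  rw [← ZMod.natCast_eq_natCast_iff] at h2
  push_cast at h2
  exact h2

theorem two_mul_ord_dvd {d : ℕ} (hd : Odd d) (h1 : d ≠ 1) (ho : Odd (orderOf (2 : ZMod d))) :
    2 * orderOf (2 : ZMod d) ∣ d.totient := by
  have h2 : 2 < d := by
    obtain ⟨k, hk⟩ := hd
    omega
  have h3 : 2 ∣ d.totient := (Nat.totient_even h2).two_dvd
  exact Nat.Coprime.mul_dvd_of_dvd_of_dvd ((Nat.coprime_two_left).2 ho) h3 (ord_dvd_totient hd)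

theorem idx_ge {d : ℕ} (hd : Odd d) (h1 : d ≠ 1) (ho : Odd (orderOf (2 : ZMod d))) :
    ∃ m, 1 ≤ m ∧ d.totient / orderOf (2 : ZMod d) = 2 * m ∧
      d.totient = 2 * m * orderOf (2 : ZMod d) := by
  obtain ⟨m, hm⟩ := two_mul_ord_dvd hd h1 ho
  have hpos := ord_pos hd
  have htot : 0 < d.totient := Nat.totient_pos.2 hd.pos
  refine ⟨m, ?_, ?_, ?_⟩
  · rcases Nat.eq_zero_or_pos m with rfl | h
    · omega
    · exact h
  · rw [hm, show 2 * orderOf (2 : ZMod d) * m = 2 * m * orderOf (2 : ZMod d) by ring]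
    exact Nat.mul_div_cancel _ hpos
  · rw [hm]; ring

/-- an element of odd order is a square, so `p ≡ ± 1 mod 8` -/
theorem mod_eight {p : ℕ} (hp : p.Prime) (h2 : p ≠ 2) (ho : Odd (orderOf (2 : ZMod p))) :
    p % 8 = 1 ∨ p % 8 = 7 := by
  have : Fact p.Prime := ⟨hp⟩
  rw [← ZMod.exists_sq_eq_two_iff h2]
  obtain ⟨m, hm⟩ := ho
  refine ⟨2 ^ (m + 1), ?_⟩
  rw [← pow_add, show m + 1 + (m + 1) = (2 * m + 1) + 1 by ring, pow_succ, ← hm,
    pow_orderOf_eq_one, one_mul]

theorem good_of_four {n : ℕ} (h : S n = 2 ^ 2) : ∃ p, Good p ∧ 2 * n - 1 = p ^ 2 := by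
  classical
  obtain ⟨hn, hP⟩ := odd_of_S (by norm_num) h
  have hc := cc_of_S (by norm_num) h
  set N := 2 * n - 1 with hN
  have hodd : Odd N := ⟨n - 1, by omega⟩
  have hN0 : N ≠ 0 := hodd.pos.ne'
  have hmem : ∀ d, d ∈ N.divisors.erase 1 ↔ d ∣ N ∧ d ≠ 1 := by
    intro d
    rw [mem_erase, Nat.mem_divisors]
    tauto
  have hod : ∀ d, d ∣ N → Odd (orderOf (2 : ZMod d)) := fun d hd =>
    odd_ord (odd_of_dvd hodd hd) (fun p hp hpd => hP p hp (hpd.trans hd))
  have hidx : ∀ d ∈ N.divisors.erase 1, 2 ≤ d.totient / orderOf (2 : ZMod d) := by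
    intro d hd
    rw [hmem] at hd
    obtain ⟨m, h1, h2, -⟩ := idx_ge (odd_of_dvd hodd hd.1) hd.2 (hod d hd.1)
    omega
  have hcard : (N.divisors.erase 1).card ≤ 2 := by
    have h1 := Finset.card_nsmul_le_sum _ _ _ hidx
    unfold cc at hc
    rw [hc, smul_eq_mul] at h1
    omega
  have hN1 : N ≠ 1 := by
    intro h1
    rw [h1] at hc
    unfold cc at hc
    simp at hc
  have hp := Nat.minFac_prime hN1
  have hpN := Nat.minFac_dvd N
  set p := N.minFac with hpdef
  have hp2 : p ≠ 2 := by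
    intro h2
    have := odd_of_dvd hodd hpN
    rw [h2] at this
    exact absurd this (by decide)
  have hpo := hod p hpN
  have h8 := mod_eight hp hp2 hpo
  obtain ⟨m, hm1, hm2, hm3⟩ := idx_ge (odd_of_dvd hodd hpN) hp.one_lt.ne' hpo
  rw [Nat.totient_prime hp] at hm2 hm3
  by_cases hNp : N = p
  · exfalso
    have h1 : N.divisors.erase 1 = {p} := by
      ext d
      rw [hmem, mem_singleton, hNp, Nat.dvd_prime hp]
      constructor
      · rintro ⟨h1 | h1, h2⟩
        · exact absurd h1 h2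
        · exact h1
      · rintro rfl
        exact ⟨Or.inr rfl, hp.one_lt.ne'⟩
    unfold cc at hc
    rw [h1, sum_singleton, Nat.totient_prime hp] at hc
    have h2 : m = 2 := by omega
    rw [h2] at hm3
    obtain ⟨k, hk⟩ := hpo
    rw [hk] at hm3
    have := hp.two_le
    omega
  · have h1 : {p, N} ⊆ N.divisors.erase 1 := by
      intro d hd
      rw [mem_insert, mem_singleton] at hd
      rw [hmem]
      rcases hd with rfl | rfl
      · exact ⟨hpN, hp.one_lt.ne'⟩
      · exact ⟨dvd_refl _, hN1⟩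
    have h2 : ({p, N} : Finset ℕ).card = 2 := card_pair (Ne.symm hNp)
    have h3 : N.divisors.erase 1 = {p, N} := (eq_of_subset_of_card_le h1 (by omega)).symm
    obtain ⟨c, hcN⟩ := hpN
    have hc1 : c ≠ 1 := by
      rintro rfl
      exact hNp (by omega)
    have hcmem : c ∈ N.divisors.erase 1 := by
      rw [hmem]
      exact ⟨⟨p, by rw [hcN]; ring⟩, hc1⟩
    rw [h3, mem_insert, mem_singleton] at hcmem
    have hNpp : N = p ^ 2 := by
      rcases hcmem with h4 | h4
      · rw [hcN, h4, sq]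
      · exfalso
        rw [h4] at hcN
        have h5 := hp.two_le
        have h6 : 0 < N := Nat.pos_of_ne_zero hN0
        nlinarith
    refine ⟨p, ?_, hNpp⟩
    have h4 : p ^ 2 ∣ N := by rw [hNpp]
    have h5 : p ^ 2 ≠ 1 := by
      have := Nat.one_lt_pow (n := 2) (by norm_num) hp.one_lt
      omega
    obtain ⟨m', hm1', hm2', hm3'⟩ := idx_ge (odd_of_dvd hodd h4) h5 (hod _ h4)
    unfold cc at hc
    rw [h3, sum_pair (Ne.symm hNp), Nat.totient_prime hp, hm2, hNpp, hm2'] at hc
    have h6 : m = 1 := by omega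
    have h7 : m' = 1 := by omega
    rw [h6] at hm3
    rw [h7, Nat.totient_prime_pow hp (by norm_num)] at hm3'
    obtain ⟨k, hk⟩ := hpo
    rw [hk] at hm3
    have := hp.two_le
    refine ⟨hp, by omega, ?_⟩
    have h8 : p - 1 = 2 * ((p - 1) / 2) := by omega
    have h9 : 2 * (p * ((p - 1) / 2)) = 2 * orderOf (2 : ZMod (p ^ 2)) := by
      calc 2 * (p * ((p - 1) / 2)) = p * (2 * ((p - 1) / 2)) := by ring
        _ = p * (p - 1) := by rw [← h8]
        _ = 2 * orderOf (2 : ZMod (p ^ 2)) := by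
          simpa using hm3'
    omega

end Run7.h499
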