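import Mathlib
import Pool.Agent.Run7.h499.Four

set_option autoImplicit false

/-! # Lengths `n` with `2 n - 1 = 7 ^ a * 191 ^ b * 271 ^ c` -/

namespace Run7.h499

open Finset

/-- `φ(d)` divided by the order of two -/
noncomputable def idx (d : ℕ) : ℕ := d.totient / orderOf (2 : ZMod d)

theorem idx_one : idx 1 = 1 := by
  unfold idx
  have : orderOf (2 : ZMod 1) = 1 := by
    rw [orderOf_eq_one_iff]
    exact Subsingleton.elim _ _
  rw [this]
  simp

theorem cc_add_one {N : ℕ} (hN : N ≠ 0) : cc N + 1 = ∑ d ∈ N.divisors, idx d := by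
  rw [← Finset.sum_erase_add _ _ (Nat.one_mem_divisors.2 hN), idx_one]
  rfl

theorem ord_mul {m n : ℕ} (h : m.Coprime n) :
    orderOf (2 : ZMod (m * n)) = Nat.lcm (orderOf (2 : ZMod m)) (orderOf (2 : ZMod n)) := by
  have e := (ZMod.chineseRemainder h)
  have h1 : orderOf (e (2 : ZMod (m * n))) = orderOf (2 : ZMod (m * n)) :=
    orderOf_injective e.toMonoidHom e.injective _
  rw [← h1, map_ofNat, Prod.orderOf]
  rfl

theorem sum_div_mul {m n : ℕ} (hm : m ≠ 0) (hn : n ≠ 0) (h : m.Coprime n) (f : ℕ → ℕ) :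
    ∑ d ∈ (m * n).divisors, f d = ∑ a ∈ m.divisors, ∑ b ∈ n.divisors, f (a * b) := by
  rw [← sum_product']
  have key : ∀ d, d ∣ m * n → Nat.gcd d m * Nat.gcd d n = d := by
    intro d hd
    rw [← Nat.Coprime.gcd_mul d h]
    exact Nat.gcd_eq_left hd
  refine sum_nbij' (fun d => (Nat.gcd d m, Nat.gcd d n)) (fun p => p.1 * p.2) ?_ ?_ ?_ ?_ ?_
  · intro d _
    rw [mem_product, Nat.mem_divisors, Nat.mem_divisors]
    exact ⟨⟨Nat.gcd_dvd_right _ _, hm⟩, ⟨Nat.gcd_dvd_right _ _, hn⟩⟩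
  · intro p hp
    rw [mem_product, Nat.mem_divisors, Nat.mem_divisors] at hp
    rw [Nat.mem_divisors]
    exact ⟨Nat.mul_dvd_mul hp.1.1 hp.2.1, mul_ne_zero hm hn⟩
  · intro d hd
    rw [Nat.mem_divisors] at hd
    exact key d hd.1
  · intro p hp
    rw [mem_product, Nat.mem_divisors, Nat.mem_divisors] at hp
    have h1 : Nat.gcd (p.1 * p.2) m = p.1 := by
      have hc : Nat.Coprime p.2 m := (Nat.Coprime.coprime_dvd_left hp.2.1 h.symm)
      rw [Nat.Coprime.gcd_mul_right_cancel _ hc]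
      exact Nat.gcd_eq_left hp.1.1
    have h2 : Nat.gcd (p.1 * p.2) n = p.2 := by
      have hc : Nat.Coprime p.1 n := (Nat.Coprime.coprime_dvd_left hp.1.1 h)
      rw [Nat.Coprime.gcd_mul_left_cancel _ hc]
      exact Nat.gcd_eq_left hp.2.1
    ext
    · exact h1
    · exact h2
  · intro d hd
    rw [Nat.mem_divisors] at hd
    simp only
    rw [key d hd.1]

theorem good_of {p o : ℕ} (hp : p.Prime) (h8 : p % 8 = 7) (ho : o = p * ((p - 1) / 2)) (ho0 : 0 < o)
    (h1 : p ^ 2 ∣ 2 ^ o - 1)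
    (h2 : ∀ q : ℕ, q.Prime → q ∣ o → ¬ p ^ 2 ∣ 2 ^ (o / q) - 1) : Good p := by
  refine ⟨hp, h8, ?_⟩
  rw [← ho]
  apply orderOf_eq_of_pow_and_pow_div_prime ho0
  · rw [pow_eq_one_iff]
    exact h1
  · intro q hq hqo
    rw [Ne, pow_eq_one_iff]
    exact h2 q hq hqo

theorem good7 : Good 7 := by
  apply good_of (o := 21) (by norm_num) (by norm_num) (by norm_num) (by norm_num) (by decide +kernel)
  intro q hq hd
  have h : q ∣ 3 * 7 := hd
  rcases (Nat.Prime.dvd_mul hq).1 h with h | h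
  · rw [(Nat.prime_dvd_prime_iff_eq hq (by norm_num)).1 h]; decide +kernel
  · rw [(Nat.prime_dvd_prime_iff_eq hq (by norm_num)).1 h]; decide +kernel

theorem good191 : Good 191 := by
  apply good_of (o := 18145) (by norm_num) (by norm_num) (by norm_num) (by norm_num)
    (by decide +kernel)
  intro q hq hd
  have h : q ∣ 5 * (19 * 191) := hd
  rcases (Nat.Prime.dvd_mul hq).1 h with h | h
  · rw [(Nat.prime_dvd_prime_iff_eq hq (by norm_num)).1 h]; decide +kernel
  rcases (Nat.Prime.dvd_mul hq).1 h with h | h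
  · rw [(Nat.prime_dvd_prime_iff_eq hq (by norm_num)).1 h]; decide +kernel
  · rw [(Nat.prime_dvd_prime_iff_eq hq (by norm_num)).1 h]; decide +kernel

theorem good271 : Good 271 := by
  apply good_of (o := 36585) (by norm_num) (by norm_num) (by norm_num) (by norm_num)
    (by decide +kernel)
  intro q hq hd
  have h : q ∣ 3 ^ 3 * (5 * 271) := hd
  rcases (Nat.Prime.dvd_mul hq).1 h with h | h
  · rw [(Nat.prime_dvd_prime_iff_eq hq (by norm_num)).1 (hq.dvd_of_dvd_pow h)]; decide +kernel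
  rcases (Nat.Prime.dvd_mul hq).1 h with h | h
  · rw [(Nat.prime_dvd_prime_iff_eq hq (by norm_num)).1 h]; decide +kernel
  · rw [(Nat.prime_dvd_prime_iff_eq hq (by norm_num)).1 h]; decide +kernel

theorem lcm_aux {x m z n : ℕ} (h1 : x.Coprime z) (h2 : x.Coprime n) (h3 : z.Coprime m) :
    Nat.lcm (x * m) (z * n) = x * z * Nat.lcm m n := by
  have e : Nat.gcd (x * m) (z * n) = Nat.gcd m n := by
    have h4 : x.Coprime (z * n) := Nat.Coprime.mul_right h1 h2
    rw [Nat.Coprime.gcd_mul_left_cancel _ h4, Nat.Coprime.gcd_mul_left_cancel_right _ h3]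
  rcases Nat.eq_zero_or_pos m with rfl | hm
  · simp
  unfold Nat.lcm
  rw [e, show x * m * (z * n) = x * z * (m * n) by ring]
  exact Nat.mul_div_assoc _ ((Nat.gcd_dvd_left m n).mul_right n)

theorem tot7 (k : ℕ) : (7 ^ (k + 1)).totient = 7 ^ k * 6 :=
  Nat.totient_prime_pow_succ (by norm_num) k

theorem tot191 (k : ℕ) : (191 ^ (k + 1)).totient = 191 ^ k * 190 :=
  Nat.totient_prime_pow_succ (by norm_num) k

theorem tot271 (k : ℕ) : (271 ^ (k + 1)).totient = 271 ^ k * 270 :=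
  Nat.totient_prime_pow_succ (by norm_num) k

theorem ord7 (k : ℕ) : orderOf (2 : ZMod (7 ^ (k + 1))) = 7 ^ k * 3 := good7.ord_pow k

theorem ord191 (k : ℕ) : orderOf (2 : ZMod (191 ^ (k + 1))) = 191 ^ k * 95 := good191.ord_pow k

theorem ord271 (k : ℕ) : orderOf (2 : ZMod (271 ^ (k + 1))) = 271 ^ k * 135 := good271.ord_pow k

theorem cop7_191 (i j : ℕ) : Nat.Coprime (7 ^ i) (191 ^ j) := Nat.Coprime.pow _ _ (by norm_num)

theorem cop271_7 (i j : ℕ) : Nat.Coprime (271 ^ i) (7 ^ j) := Nat.Coprime.pow _ _ (by norm_num)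

theorem cop271_191 (i j : ℕ) : Nat.Coprime (271 ^ i) (191 ^ j) := Nat.Coprime.pow _ _ (by norm_num)

theorem idx7_191 (j k : ℕ) : idx (7 ^ (j + 1) * 191 ^ (k + 1)) = 4 := by
  unfold idx
  rw [Nat.totient_mul (cop7_191 _ _), ord_mul (cop7_191 _ _), tot7, tot191, ord7, ord191,
    lcm_aux (cop7_191 _ _) (Nat.Coprime.pow_left _ (by norm_num)) (Nat.Coprime.pow_left _ (by norm_num)),
    show Nat.lcm 3 95 = 285 by norm_num,
    show 7 ^ j * 6 * (191 ^ k * 190) = 4 * (7 ^ j * 191 ^ k * 285) by ring]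
  exact Nat.mul_div_cancel _ (by positivity)

theorem idx271_7 (i j : ℕ) : idx (271 ^ (i + 1) * 7 ^ (j + 1)) = 12 := by
  unfold idx
  rw [Nat.totient_mul (cop271_7 _ _), ord_mul (cop271_7 _ _), tot7, tot271, ord7, ord271,
    lcm_aux (cop271_7 _ _) (Nat.Coprime.pow_left _ (by norm_num)) (Nat.Coprime.pow_left _ (by norm_num)),
    show Nat.lcm 135 3 = 135 by norm_num,
    show 271 ^ i * 270 * (7 ^ j * 6) = 12 * (271 ^ i * 7 ^ j * 135) by ring]
  exact Nat.mul_div_cancel _ (by positivity)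

theorem idx271_191 (i k : ℕ) : idx (271 ^ (i + 1) * 191 ^ (k + 1)) = 20 := by
  unfold idx
  rw [Nat.totient_mul (cop271_191 _ _), ord_mul (cop271_191 _ _), tot191, tot271, ord191, ord271,
    lcm_aux (cop271_191 _ _) (Nat.Coprime.pow_left _ (by norm_num))
      (Nat.Coprime.pow_left _ (by norm_num)),
    show Nat.lcm 135 95 = 2565 by norm_num,
    show 271 ^ i * 270 * (191 ^ k * 190) = 20 * (271 ^ i * 191 ^ k * 2565) by ring]
  exact Nat.mul_div_cancel _ (by positivity)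

theorem idx_all (i j k : ℕ) : idx (271 ^ (i + 1) * (7 ^ (j + 1) * 191 ^ (k + 1))) = 120 := by
  unfold idx
  have h : Nat.Coprime (271 ^ (i + 1)) (7 ^ (j + 1) * 191 ^ (k + 1)) :=
    Nat.Coprime.mul_right (cop271_7 _ _) (cop271_191 _ _)
  rw [Nat.totient_mul h, ord_mul h, Nat.totient_mul (cop7_191 _ _), ord_mul (cop7_191 _ _),
    tot7, tot191, tot271, ord7, ord191, ord271,
    lcm_aux (x := 7 ^ j) (cop7_191 _ _) (Nat.Coprime.pow_left _ (by norm_num))
      (Nat.Coprime.pow_left _ (by norm_num)),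
    show Nat.lcm 3 95 = 285 by norm_num,
    lcm_aux (x := 271 ^ i) (z := 7 ^ j * 191 ^ k)
      (Nat.Coprime.mul_right (cop271_7 _ _) (cop271_191 _ _)) (Nat.Coprime.pow_left _ (by norm_num))
      (Nat.Coprime.mul_left (Nat.Coprime.pow_left _ (by norm_num))
        (Nat.Coprime.pow_left _ (by norm_num))),
    show Nat.lcm 135 285 = 2565 by norm_num,
    show 271 ^ i * 270 * (7 ^ j * 6 * (191 ^ k * 190)) =
      120 * (271 ^ i * (7 ^ j * 191 ^ k) * 2565) by ring]
  exact Nat.mul_div_cancel _ (by positivity)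

/-- `(log_2 S(n))` for `2 n - 1 = 271 ^ a * 7 ^ b * 191 ^ c` -/
def FF (a b c : ℕ) : ℕ := a + b + c + 6 * a * b + 10 * a * c + 2 * b * c + 60 * a * b * c

theorem cc_trio (a b c : ℕ) : cc (271 ^ a * (7 ^ b * 191 ^ c)) = 2 * FF a b c := by
  have h := cc_add_one (N := 271 ^ a * (7 ^ b * 191 ^ c)) (by positivity)
  rw [sum_div_mul (by positivity) (by positivity)
    (Nat.Coprime.mul_right (cop271_7 _ _) (cop271_191 _ _))] at h
  have h2 : ∀ x : ℕ, ∑ y ∈ (7 ^ b * 191 ^ c).divisors, idx (x * y) =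
      ∑ j ∈ range (b + 1), ∑ k ∈ range (c + 1), idx (x * (7 ^ j * 191 ^ k)) := by
    intro x
    rw [sum_div_mul (by positivity) (by positivity) (cop7_191 _ _),
      Nat.sum_divisors_prime_pow (by norm_num)]
    refine sum_congr rfl fun j _ => ?_
    rw [Nat.sum_divisors_prime_pow (by norm_num)]
  rw [Nat.sum_divisors_prime_pow (by norm_num)] at h
  simp only [h2] at h
  rw [sum_range_succ'] at h
  simp only [sum_range_succ' _ b, sum_range_succ' _ c, pow_zero, mul_one, one_mul, idx_all,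
    idx271_7, idx271_191, idx7_191] at h
  have g7 : ∀ k, idx (7 ^ (k + 1)) = 2 := good7.idx
  have g191 : ∀ k, idx (191 ^ (k + 1)) = 2 := good191.idx
  have g271 : ∀ k, idx (271 ^ (k + 1)) = 2 := good271.idx
  simp only [g7, g191, g271, idx_one, sum_const, card_range, smul_eq_mul] at h
  unfold FF
  nlinarith [h]

theorem S_trio (a b c : ℕ) : S ((271 ^ a * (7 ^ b * 191 ^ c) + 1) / 2) = 2 ^ FF a b c := by
  have hodd : Odd (271 ^ a * (7 ^ b * 191 ^ c)) := by
    refine Odd.mul (Odd.pow (by decide)) (Odd.mul (Odd.pow (by decide)) (Odd.pow (by decide)))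
  apply S_of_cc hodd _ (cc_trio a b c)
  intro q hq hqp
  rcases (Nat.Prime.dvd_mul hq).1 hqp with h | h
  · rw [(Nat.prime_dvd_prime_iff_eq hq (by norm_num)).1 (hq.dvd_of_dvd_pow h), good271.ord_one]
    decide
  rcases (Nat.Prime.dvd_mul hq).1 h with h | h
  · rw [(Nat.prime_dvd_prime_iff_eq hq (by norm_num)).1 (hq.dvd_of_dvd_pow h), good7.ord_one]
    decide
  · rw [(Nat.prime_dvd_prime_iff_eq hq (by norm_num)).1 (hq.dvd_of_dvd_pow h), good191.ord_one]
    decide

end Run7.h499
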