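import Mathlib
import Pool.Agent.Run7.h499.Trio

set_option autoImplicit false

/-! # The order of two modulo powers of an arbitrary odd prime -/

namespace Run7.h499

open Finset

/-- the exponent of `p` in `2 ^ ord_p(2) - 1` -/
noncomputable def vv (p : ℕ) : ℕ := padicValNat p (2 ^ orderOf (2 : ZMod p) - 1)

theorem two_pow_sub_ne {o : ℕ} (ho : 0 < o) : 2 ^ o - 1 ≠ 0 := by
  have : 1 < 2 ^ o := Nat.one_lt_two_pow (by omega)
  omega

theorem vv_pos {p : ℕ} (hp : p.Prime) (hodd : Odd p) : 1 ≤ vv p := by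
  have hfact : Fact p.Prime := ⟨hp⟩
  apply one_le_padicValNat_of_dvd (two_pow_sub_ne (ord_pos hodd))
  rw [← orderOf_dvd_iff]

theorem ord_pow_gen {p : ℕ} (hp : p.Prime) (hodd : Odd p) (k : ℕ) :
    orderOf (2 : ZMod (p ^ (k + 1))) = orderOf (2 : ZMod p) * p ^ (k + 1 - vv p) := by
  have hfact : Fact p.Prime := ⟨hp⟩
  set o := orderOf (2 : ZMod p) with ho
  have ho0 : 0 < o := ord_pos hodd
  have h1 : p ∣ 2 ^ o - 1 := by
    rw [← orderOf_dvd_iff]
  have key : ∀ j : ℕ, 1 ≤ j → (p ^ (k + 1) ∣ 2 ^ (o * j) - 1 ↔ p ^ (k + 1 - vv p) ∣ j) := by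
    intro j hj
    have h2 : 1 < 2 ^ o := Nat.one_lt_two_pow (by omega)
    have h3 : ¬ p ∣ 2 ^ o := by
      intro h3
      have h4 := (Nat.prime_dvd_prime_iff_eq hp Nat.prime_two).1 (hp.dvd_of_dvd_pow h3)
      rw [h4] at hodd
      exact absurd hodd (by decide)
    have h4 := padicValNat.pow_sub_pow (p := p) (x := 2 ^ o) (y := 1) hodd h2 h1 h3
      (n := j) (by omega)
    have h5 : padicValNat p (2 ^ o - 1) = vv p := rfl
    rw [one_pow, ← pow_mul, h5] at h4
    rw [padicValNat_dvd_iff_le (two_pow_sub_ne (by positivity)), padicValNat_dvd_iff_le (by omega), h4]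
    omega
  apply Nat.dvd_antisymm
  · rw [orderOf_dvd_iff]
    exact (key _ (Nat.pos_of_ne_zero (pow_ne_zero _ hp.ne_zero))).2 (dvd_refl _)
  · have h2 : o ∣ orderOf (2 : ZMod (p ^ (k + 1))) := by
      rw [ho, orderOf_dvd_iff]
      have h3 := (orderOf_dvd_iff (p ^ (k + 1)) (orderOf (2 : ZMod (p ^ (k + 1))))).1 (dvd_refl _)
      exact (dvd_pow_self p (by omega)).trans h3
    obtain ⟨j, hj⟩ := h2
    have hpos : 0 < orderOf (2 : ZMod (p ^ (k + 1))) := ord_pos (hodd.pow)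
    have hj1 : 1 ≤ j := by
      rcases Nat.eq_zero_or_pos j with rfl | h3
      · omega
      · exact h3
    rw [hj]
    apply Nat.mul_dvd_mul_left
    rw [← key j hj1, ← hj, ← orderOf_dvd_iff]

theorem idx_mul_ord {d : ℕ} (hd : Odd d) : idx d * orderOf (2 : ZMod d) = d.totient :=
  Nat.div_mul_cancel (ord_dvd_totient hd)

theorem idx_even {d : ℕ} (hd : Odd d) (h1 : d ≠ 1) (ho : Odd (orderOf (2 : ZMod d))) :
    2 ∣ idx d := by
  obtain ⟨c, hc⟩ := two_mul_ord_dvd hd h1 ho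
  have h2 := idx_mul_ord hd
  rw [hc] at h2
  have h3 : idx d = 2 * c := by
    have h4 : 0 < orderOf (2 : ZMod d) := ord_pos hd
    apply Nat.eq_of_mul_eq_mul_right h4
    rw [h2]
    ring
  exact ⟨c, h3⟩

/-- the sum of the indices of `p, p ^ 2, ..., p ^ a` -/
noncomputable def uu (p a : ℕ) : ℕ := ∑ b ∈ range a, idx (p ^ (b + 1))

theorem uu_zero (p : ℕ) : uu p 0 = 0 := rfl

theorem ord_mul_idx_pow {p : ℕ} (hp : p.Prime) (hodd : Odd p) (b : ℕ) :
    orderOf (2 : ZMod p) * idx (p ^ (b + 1)) * p ^ (b + 1 - vv p) = p ^ b * (p - 1) := by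
  have h := idx_mul_ord (hodd.pow (n := b + 1))
  rw [ord_pow_gen hp hodd, Nat.totient_prime_pow_succ hp] at h
  rw [← h]
  ring

theorem ord_mul_uu_le {p : ℕ} (hp : p.Prime) (hodd : Odd p) (a : ℕ) (ha : a ≤ vv p) :
    orderOf (2 : ZMod p) * uu p a + 1 = p ^ a := by
  induction a with
  | zero => simp [uu]
  | succ b ih =>
    have h1 := ord_mul_idx_pow hp hodd b
    rw [Nat.sub_eq_zero_of_le ha, pow_zero, mul_one] at h1
    unfold uu at ih ⊢
    rw [sum_range_succ, mul_add, h1]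
    have h2 := ih (by omega)
    have h3 : p ^ (b + 1) = p ^ b * (p - 1) + p ^ b := by
      rw [pow_succ, ← Nat.mul_succ]
      congr 1
      have := hp.pos
      omega
    omega

theorem ord_mul_uu {p : ℕ} (hp : p.Prime) (hodd : Odd p) (t : ℕ) :
    orderOf (2 : ZMod p) * uu p (vv p + t) + 1 = p ^ vv p + t * (p ^ (vv p - 1) * (p - 1)) := by
  induction t with
  | zero => simpa using ord_mul_uu_le hp hodd (vv p) le_rfl
  | succ s ih =>
    have h1 := ord_mul_idx_pow hp hodd (vv p + s)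
    have hv := vv_pos hp hodd
    rw [show vv p + s + 1 - vv p = s + 1 by omega] at h1
    have h2 : orderOf (2 : ZMod p) * idx (p ^ (vv p + s + 1)) = p ^ (vv p - 1) * (p - 1) := by
      have h3 : 0 < p ^ (s + 1) := pow_pos hp.pos _
      apply Nat.eq_of_mul_eq_mul_right h3
      rw [h1, show p ^ (vv p + s) = p ^ (vv p - 1) * p ^ (s + 1) by
        rw [← pow_add]; congr 1; omega]
      ring
    unfold uu at ih ⊢
    rw [← add_assoc, sum_range_succ, mul_add, h2]
    have h4 : (s + 1) * (p ^ (vv p - 1) * (p - 1)) =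
      s * (p ^ (vv p - 1) * (p - 1)) + p ^ (vv p - 1) * (p - 1) := by ring
    omega

theorem uu_even {p : ℕ} (hp : p.Prime) (hodd : Odd p) (ho : Odd (orderOf (2 : ZMod p))) (a : ℕ) :
    2 ∣ uu p a := by
  unfold uu
  apply dvd_sum
  intro b _
  apply idx_even hodd.pow
  · have := Nat.one_lt_pow (n := b + 1) (by omega) hp.one_lt
    omega
  · rw [ord_pow_gen hp hodd]
    exact ho.mul hodd.pow

end Run7.h499
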