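import Mathlib
import Pool.Agent.Run7.h499.PowOrd

set_option autoImplicit false

/-! # Primes for which two has order `5 * 7 ^ j * l` -/

namespace Run7.h499

open Finset

theorem lte_dvd {p a q k : ℕ} (hp : p.Prime) (ha : 1 ≤ a) (hq : 1 ≤ q) (h : p ∣ 2 ^ a - 1)
    (hk : p ^ k ∣ 2 ^ (a * q) - 1) : p ^ k ∣ q * (2 ^ a - 1) := by
  have hfact : Fact p.Prime := ⟨hp⟩
  have hodd : Odd p := by
    have h1 : Odd (2 ^ a - 1) := Nat.Even.sub_odd Nat.one_le_two_pow
      ((Nat.even_pow.2 ⟨even_two, by omega⟩)) odd_one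
    exact Odd.of_dvd_nat h1 h
  have h2 : 1 < 2 ^ a := Nat.one_lt_two_pow (by omega)
  have h3 : ¬ p ∣ 2 ^ a := by
    intro h3
    have h4 := (Nat.prime_dvd_prime_iff_eq hp Nat.prime_two).1 (hp.dvd_of_dvd_pow h3)
    rw [h4] at hodd
    exact absurd hodd (by decide)
  have h4 := padicValNat.pow_sub_pow (p := p) (x := 2 ^ a) (y := 1) hodd h2 h h3
    (n := q) (by omega)
  rw [one_pow, ← pow_mul] at h4
  rw [padicValNat_dvd_iff_le (two_pow_sub_ne (by positivity))] at hk
  have h5 := two_pow_sub_ne (o := a) (by omega)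
  rw [padicValNat_dvd_iff_le (by positivity), padicValNat.mul (by omega) h5]
  omega

theorem exists_prime_ord (j : ℕ) (l : ℕ) (hl : l.Prime) :
    ∃ p : ℕ, p.Prime ∧ orderOf (2 : ZMod p) = 5 * 7 ^ (j + 1) * l := by
  set s := 7 ^ j with hs
  have hs1 : 1 ≤ s := Nat.one_le_pow _ _ (by norm_num)
  have hl2 := hl.two_le
  have hm : 5 * 7 ^ (j + 1) * l = 35 * s * l := by
    rw [pow_succ, ← hs]
    ring
  rw [hm]
  by_contra hcon
  push Not at hcon
  have key : 2 ^ (35 * s * l) - 1 ∣ (35 * l) * ((2 ^ (7 * s * l) - 1) * (2 ^ (5 * s * l) - 1) *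
      (2 ^ (35 * s) - 1)) := by
    rw [Nat.dvd_iff_prime_pow_dvd_dvd]
    intro p k hp hk
    rcases Nat.eq_zero_or_pos k with rfl | hk0
    · simp
    have hp1 : p ∣ 2 ^ (35 * s * l) - 1 := (dvd_pow_self p (by omega)).trans hk
    have hcase : p ∣ 2 ^ (7 * s * l) - 1 ∨ p ∣ 2 ^ (5 * s * l) - 1 ∨ p ∣ 2 ^ (35 * s) - 1 := by
      by_contra hno
      push Not at hno
      apply hcon p hp
      apply orderOf_eq_of_pow_and_pow_div_prime (by positivity)
      · rw [pow_eq_one_iff]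
        exact hp1
      · intro q hq hqd
        rw [Ne, pow_eq_one_iff]
        have h1 : q = 5 ∨ q = 7 ∨ q = l := by
          rw [← hm] at hqd
          rcases (Nat.Prime.dvd_mul hq).1 hqd with h | h
          · rcases (Nat.Prime.dvd_mul hq).1 h with h | h
            · exact Or.inl ((Nat.prime_dvd_prime_iff_eq hq (by norm_num)).1 h)
            · exact Or.inr (Or.inl ((Nat.prime_dvd_prime_iff_eq hq (by norm_num)).1
                (hq.dvd_of_dvd_pow h)))
          · exact Or.inr (Or.inr ((Nat.prime_dvd_prime_iff_eq hq hl).1 h))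
        rcases h1 with rfl | rfl | rfl
        · rw [show 35 * s * l = 5 * (7 * s * l) by ring, Nat.mul_div_cancel_left _ (by norm_num)]
          exact hno.1
        · rw [show 35 * s * l = 7 * (5 * s * l) by ring, Nat.mul_div_cancel_left _ (by norm_num)]
          exact hno.2.1
        · rw [Nat.mul_div_cancel _ hl.pos]
          exact hno.2.2
    rcases hcase with h | h | h
    · have h1 := lte_dvd (a := 7 * s * l) (q := 5) hp (Nat.one_le_iff_ne_zero.2 (by positivity))
        (by norm_num) h (by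
        rw [show 7 * s * l * 5 = 35 * s * l by ring]
        exact hk)
      refine h1.trans (Nat.mul_dvd_mul ?_ ?_)
      · exact ⟨7 * l, by ring⟩
      · exact (Nat.dvd_mul_right _ _).trans (Nat.dvd_mul_right _ _)
    · have h1 := lte_dvd (a := 5 * s * l) (q := 7) hp (Nat.one_le_iff_ne_zero.2 (by positivity))
        (by norm_num) h (by
        rw [show 5 * s * l * 7 = 35 * s * l by ring]
        exact hk)
      refine h1.trans (Nat.mul_dvd_mul ?_ ?_)
      · exact ⟨5 * l, by ring⟩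
      · exact (Nat.dvd_mul_left _ _).trans (Nat.dvd_mul_right _ _)
    · have h1 := lte_dvd (a := 35 * s) (q := l) hp (Nat.one_le_iff_ne_zero.2 (by positivity))
        (by omega) h hk
      refine h1.trans (Nat.mul_dvd_mul ?_ ?_)
      · exact ⟨35, by ring⟩
      · exact Nat.dvd_mul_left _ _
  have hpos : 0 < (35 * l) * ((2 ^ (7 * s * l) - 1) * (2 ^ (5 * s * l) - 1) *
      (2 ^ (35 * s) - 1)) := by
    have h1 := two_pow_sub_ne (o := 7 * s * l) (by positivity)
    have h2 := two_pow_sub_ne (o := 5 * s * l) (by positivity)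
    have h3 := two_pow_sub_ne (o := 35 * s) (by positivity)
    exact Nat.pos_of_ne_zero (mul_ne_zero (by omega) (mul_ne_zero (mul_ne_zero h1 h2) h3))
  have h1 := Nat.le_of_dvd hpos key
  have h2 : (35 * l) * ((2 ^ (7 * s * l) - 1) * (2 ^ (5 * s * l) - 1) * (2 ^ (35 * s) - 1)) ≤
      (35 * l) * ((2 ^ (7 * s * l)) * (2 ^ (5 * s * l)) * (2 ^ (35 * s))) := by
    gcongr <;> exact Nat.sub_le _ _
  have h3 : 70 * l ≤ 2 ^ (l + 7) := by
    have h4 : l < 2 ^ l := Nat.lt_two_pow_self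
    rw [pow_add]
    omega
  have h5 : (l + 7) + (7 * s * l + 5 * s * l + 35 * s) ≤ 35 * s * l := by
    have h6 : 35 * s * l = (7 * s * l + 5 * s * l + 35 * s) + s * (23 * l - 35) := by
      obtain ⟨m, rfl⟩ : ∃ m, l = m + 2 := ⟨l - 2, by omega⟩
      rw [show 23 * (m + 2) - 35 = 23 * m + 11 by omega]
      ring
    have h7 : 1 * (23 * l - 35) ≤ s * (23 * l - 35) := Nat.mul_le_mul_right _ hs1
    omega
  have h8 : 2 * ((35 * l) * ((2 ^ (7 * s * l)) * (2 ^ (5 * s * l)) * (2 ^ (35 * s)))) ≤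
      2 ^ (35 * s * l) := by
    calc 2 * ((35 * l) * ((2 ^ (7 * s * l)) * (2 ^ (5 * s * l)) * (2 ^ (35 * s))))
        = (70 * l) * 2 ^ (7 * s * l + 5 * s * l + 35 * s) := by
          rw [pow_add, pow_add]
          ring
      _ ≤ 2 ^ (l + 7) * 2 ^ (7 * s * l + 5 * s * l + 35 * s) := Nat.mul_le_mul_right _ h3
      _ = 2 ^ ((l + 7) + (7 * s * l + 5 * s * l + 35 * s)) := by rw [← pow_add]
      _ ≤ _ := Nat.pow_le_pow_right (by norm_num) h5
  have h9 : 1 < 2 ^ (35 * s * l) := Nat.one_lt_two_pow (by positivity)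
  have h10 : 0 < (35 * l) * ((2 ^ (7 * s * l)) * (2 ^ (5 * s * l)) * (2 ^ (35 * s))) := by positivity
  have h11 : 2 ≤ (35 * l) * ((2 ^ (7 * s * l)) * (2 ^ (5 * s * l)) * (2 ^ (35 * s))) := by
    calc 2 ≤ 35 * l * 1 := by omega
      _ ≤ _ := Nat.mul_le_mul_left _ (by
        have : 0 < (2 ^ (7 * s * l)) * (2 ^ (5 * s * l)) * (2 ^ (35 * s)) := by positivity
        omega)
  omega

end Run7.h499
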