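import Mathlib
import Pool.Agent.Run7.h499.Zsig

set_option autoImplicit false

/-! # A sequence of primes with prescribed orders of two -/

namespace Run7.h499

open Finset

theorem exists_next (j B : ℕ) : ∃ x : ℕ × ℕ, x.1.Prime ∧ B < x.1 ∧ x.2.Prime ∧
    orderOf (2 : ZMod x.2) = 5 * 7 ^ (j + 1) * x.1 := by
  obtain ⟨l, hl, hlp⟩ := Nat.exists_infinite_primes (B + 1)
  obtain ⟨p, hp, ho⟩ := exists_prime_ord j l hlp
  exact ⟨(l, p), hlp, by simpa using hl, hp, ho⟩

/-- pairs `(l_j, p_j)` -/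
noncomputable def pr : ℕ → ℕ × ℕ
  | 0 => (19, 191)
  | (j + 1) => Classical.choose (exists_next j (pr j).2)

/-- the primes `l_j` -/
noncomputable def lp (j : ℕ) : ℕ := (pr j).1

/-- the primes `p_j` -/
noncomputable def pp (j : ℕ) : ℕ := (pr j).2

theorem lp_zero : lp 0 = 19 := rfl

theorem pp_zero : pp 0 = 191 := rfl

theorem next_spec (j : ℕ) : (lp (j + 1)).Prime ∧ pp j < lp (j + 1) ∧ (pp (j + 1)).Prime ∧
    orderOf (2 : ZMod (pp (j + 1))) = 5 * 7 ^ (j + 1) * lp (j + 1) :=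
  Classical.choose_spec (exists_next j (pr j).2)

theorem lp_prime (j : ℕ) : (lp j).Prime := by
  cases j with
  | zero => rw [lp_zero]; norm_num
  | succ j => exact (next_spec j).1

theorem pp_prime (j : ℕ) : (pp j).Prime := by
  cases j with
  | zero => rw [pp_zero]; norm_num
  | succ j => exact (next_spec j).2.2.1

theorem ord_pp (j : ℕ) : orderOf (2 : ZMod (pp j)) = 5 * 7 ^ j * lp j := by
  cases j with
  | zero =>
    rw [pp_zero, lp_zero, good191.ord_one]
    norm_num
  | succ j => exact (next_spec j).2.2.2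

theorem pp_lt_lp_succ (j : ℕ) : pp j < lp (j + 1) := (next_spec j).2.1

theorem lp_dvd (j : ℕ) : 5 * 7 ^ j * lp j ∣ pp j - 1 := by
  have : Fact (pp j).Prime := ⟨pp_prime j⟩
  rw [← ord_pp, orderOf_dvd_iff_pow_eq_one]
  apply ZMod.pow_card_sub_one_eq_one
  intro h
  have h2 : orderOf (2 : ZMod (pp j)) = 0 := by
    rw [h]
    exact orderOf_zero _
  rw [ord_pp] at h2
  have := (lp_prime j).pos
  have h3 : 0 < 5 * 7 ^ j * lp j := by positivity
  omega

theorem lp_lt_pp (j : ℕ) : lp j < pp j := by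
  have h1 := Nat.le_of_dvd (by have := (pp_prime j).two_le; omega) (lp_dvd j)
  have h2 : 1 * lp j ≤ 5 * 7 ^ j * lp j := Nat.mul_le_mul_right _ (by
    have : 0 < 7 ^ j := by positivity
    omega)
  have := (pp_prime j).two_le
  omega

theorem lp_strictMono : StrictMono lp :=
  strictMono_nat_of_lt_succ fun j => (lp_lt_pp j).trans (pp_lt_lp_succ j)

theorem pp_strictMono : StrictMono pp :=
  strictMono_nat_of_lt_succ fun j => (pp_lt_lp_succ j).trans (lp_lt_pp (j + 1))

theorem pp_lt_lp {i j : ℕ} (h : i < j) : pp i < lp j :=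
  (pp_lt_lp_succ i).trans_le (lp_strictMono.monotone h)

theorem pp_ne_lp (i j : ℕ) : pp i ≠ lp j := by
  rcases lt_or_ge i j with h | h
  · exact (pp_lt_lp h).ne
  · have h1 := lp_strictMono.monotone h
    have h2 := lp_lt_pp i
    omega

theorem lp_ge (j : ℕ) : 19 ≤ lp j := by
  rw [← lp_zero]
  exact lp_strictMono.monotone (Nat.zero_le j)

theorem pp_ge (j : ℕ) : 191 ≤ pp j := by
  rw [← pp_zero]
  exact pp_strictMono.monotone (Nat.zero_le j)

theorem odd_pp (j : ℕ) : Odd (pp j) :=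
  (pp_prime j).odd_of_ne_two (by have := pp_ge j; omega)

theorem odd_lp (j : ℕ) : Odd (lp j) :=
  (lp_prime j).odd_of_ne_two (by have := lp_ge j; omega)

theorem odd_ord_pp (j : ℕ) : Odd (orderOf (2 : ZMod (pp j))) := by
  rw [ord_pp]
  exact (Odd.mul (by decide) (Odd.pow (by decide))).mul (odd_lp j)

/-- the product of the first primes of the sequence to given powers -/
noncomputable def MM (a : ℕ → ℕ) (k : ℕ) : ℕ := ∏ i ∈ range k, pp i ^ a i

/-- a multiple of the coprime part of the order of two modulo `MM a k` -/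
noncomputable def TTk (a : ℕ → ℕ) (k : ℕ) : ℕ := ∏ i ∈ range k, (lp i * pp i ^ a i)

theorem MM_succ (a : ℕ → ℕ) (k : ℕ) : MM a (k + 1) = MM a k * pp k ^ a k := prod_range_succ _ _

theorem TTk_succ (a : ℕ → ℕ) (k : ℕ) : TTk a (k + 1) = TTk a k * (lp k * pp k ^ a k) :=
  prod_range_succ _ _

theorem odd_MM (a : ℕ → ℕ) (k : ℕ) : Odd (MM a k) := by
  induction k with
  | zero => exact odd_one
  | succ k ih =>
    rw [MM_succ]
    exact ih.mul (odd_pp k).pow

theorem coprime_TTk (a : ℕ → ℕ) (k : ℕ) (x : ℕ) (h : ∀ i < k, x.Coprime (lp i) ∧ x.Coprime (pp i)) :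
    x.Coprime (TTk a k) := by
  unfold TTk
  apply Nat.Coprime.prod_right
  intro i hi
  rw [mem_range] at hi
  exact Nat.Coprime.mul_right (h i hi).1 ((h i hi).2.pow_right _)

theorem coprime_MM (a : ℕ → ℕ) (k : ℕ) (x : ℕ) (h : ∀ i < k, x.Coprime (pp i)) :
    x.Coprime (MM a k) := by
  unfold MM
  apply Nat.Coprime.prod_right
  intro i hi
  rw [mem_range] at hi
  exact (h i hi).pow_right _

theorem small_coprime {q : ℕ} (hq : q.Prime) (h : q < 19) (i : ℕ) :
    q.Coprime (lp i) ∧ q.Coprime (pp i) := by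
  constructor
  · rw [Nat.coprime_primes hq (lp_prime i)]
    have := lp_ge i
    omega
  · rw [Nat.coprime_primes hq (pp_prime i)]
    have := pp_ge i
    omega

theorem lp_coprime_TTk (a : ℕ → ℕ) (k : ℕ) : (lp k).Coprime (TTk a k) := by
  apply coprime_TTk
  intro i hi
  constructor
  · rw [Nat.coprime_primes (lp_prime k) (lp_prime i)]
    exact (lp_strictMono hi).ne'
  · rw [Nat.coprime_primes (lp_prime k) (pp_prime i)]
    exact (pp_ne_lp i k).symm

theorem pp_coprime_TTk (a : ℕ → ℕ) (k : ℕ) : (pp k).Coprime (TTk a k) := by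
  apply coprime_TTk
  intro i hi
  constructor
  · rw [Nat.coprime_primes (pp_prime k) (lp_prime i)]
    exact pp_ne_lp k i
  · rw [Nat.coprime_primes (pp_prime k) (pp_prime i)]
    exact (pp_strictMono hi).ne'

theorem pp_coprime_MM (a : ℕ → ℕ) (k : ℕ) : (MM a k).Coprime (pp k) := by
  apply Nat.Coprime.symm
  apply coprime_MM
  intro i hi
  rw [Nat.coprime_primes (pp_prime k) (pp_prime i)]
  exact (pp_strictMono hi).ne'

/-- the order of two modulo the powers of `pp k` -/
theorem ord_pp_pow (k b : ℕ) :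
    orderOf (2 : ZMod (pp k ^ (b + 1))) = 5 * 7 ^ k * (lp k * pp k ^ (b + 1 - vv (pp k))) := by
  rw [ord_pow_gen (pp_prime k) (odd_pp k), ord_pp]
  ring

theorem ord_MM_dvd (a : ℕ → ℕ) (k : ℕ) : orderOf (2 : ZMod (MM a k)) ∣ 5 * 7 ^ k * TTk a k := by
  induction k with
  | zero =>
    have : orderOf (2 : ZMod (MM a 0)) = 1 := by
      rw [orderOf_eq_one_iff]
      have h : MM a 0 = 1 := rfl
      rw [h]
      exact Subsingleton.elim _ _
    rw [this]
    exact one_dvd _
  | succ k ih =>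
    rw [MM_succ, ord_mul ((pp_coprime_MM a k).pow_right _), TTk_succ]
    apply Nat.lcm_dvd
    · refine ih.trans ?_
      exact ⟨7 * (lp k * pp k ^ a k), by ring⟩
    · rcases Nat.eq_zero_or_pos (a k) with h | h
      · rw [h, pow_zero]
        have : orderOf (2 : ZMod 1) = 1 := by
          rw [orderOf_eq_one_iff]
          exact Subsingleton.elim _ _
        rw [this]
        exact one_dvd _
      · obtain ⟨b, hb⟩ : ∃ b, a k = b + 1 := ⟨a k - 1, by omega⟩
        rw [hb, ord_pp_pow]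
        have h1 : pp k ^ (b + 1 - vv (pp k)) ∣ pp k ^ (b + 1) := pow_dvd_pow _ (Nat.sub_le _ _)
        obtain ⟨c, hc⟩ := h1
        rw [hc]
        exact ⟨7 * TTk a k * c, by ring⟩

theorem ord_dvd_of_dvd {d N : ℕ} (h : d ∣ N) : orderOf (2 : ZMod d) ∣ orderOf (2 : ZMod N) := by
  rw [orderOf_dvd_iff]
  exact h.trans ((orderOf_dvd_iff N _).1 (dvd_refl _))

theorem ord_dvd_MM {a : ℕ → ℕ} {k d : ℕ} (h : d ∣ MM a k) :
    orderOf (2 : ZMod d) ∣ 5 * 7 ^ k * TTk a k :=
  (ord_dvd_of_dvd h).trans (ord_MM_dvd a k)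

end Run7.h499
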