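import Mathlib
import Pool.Agent.Run7.h499.Seq

set_option autoImplicit false

/-! # The values `1 + 5 * 7 ^ j * uu p_j a` contain a reduced residue class -/

namespace Run7.h499

open Finset

theorem uu_good {p : ℕ} (h : Good p) (a : ℕ) : uu p a = 2 * a := by
  unfold uu
  have e : ∀ b, idx (p ^ (b + 1)) = 2 := fun b => h.idx b
  simp [e, mul_comm]

theorem ap_zero (f : ℕ) (hf : f % 10 = 1) : 1 + 5 * 7 ^ 0 * uu (pp 0) ((f - 1) / 10) = f := by
  rw [pp_zero, uu_good good191]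
  omega

theorem ap_exists (j : ℕ) : ∃ F0 K : ℕ, 10 ∣ K ∧ 1 ≤ K ∧ F0.Coprime K ∧
    ∀ f, F0 ≤ f → f ≡ F0 [MOD K] → ∃ a, 1 + 5 * 7 ^ j * uu (pp j) a = f := by
  set p := pp j with hp
  set l := lp j with hl
  have hpp : p.Prime := pp_prime j
  have hlp : l.Prime := lp_prime j
  have hodd : Odd p := odd_pp j
  have hll : l < p := lp_lt_pp j
  have hp191 : 191 ≤ p := pp_ge j
  have hl19 : 19 ≤ l := lp_ge j
  obtain ⟨i, hi⟩ := lp_dvd j
  rw [← hl, ← hp] at hi
  set s := 5 * 7 ^ j * i with hs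
  have hps : p - 1 = l * s := by
    rw [hi, hs]
    ring
  obtain ⟨g, hg⟩ : p - 1 ∣ p ^ vv p - 1 := by
    simpa using Nat.sub_dvd_pow_sub_pow p 1 (vv p)
  have hs0 : 0 < s := by
    rcases Nat.eq_zero_or_pos s with h | h
    · rw [h, mul_zero] at hps
      omega
    · exact h
  have hval : ∀ t, 5 * 7 ^ j * uu p (vv p + t) = s * g + t * (p ^ (vv p - 1) * s) := by
    intro t
    have h1 := ord_mul_uu hpp hodd t
    rw [hp, ord_pp, ← hp, ← hl] at h1
    have h2 : 1 ≤ p ^ vv p := Nat.one_le_pow _ _ hpp.pos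
    apply Nat.eq_of_mul_eq_mul_left hlp.pos
    have h3 : l * (5 * 7 ^ j * uu p (vv p + t)) = 5 * 7 ^ j * l * uu p (vv p + t) := by ring
    rw [h3]
    have h4 : l * (s * g + t * (p ^ (vv p - 1) * s)) = (l * s) * g + t * (p ^ (vv p - 1) * (l * s)) := by
      ring
    rw [h4, ← hps, ← hg]
    omega
  have heven : 2 ∣ s := by
    have h1 : 2 ∣ l * s := by
      rw [← hps]
      obtain ⟨c, hc⟩ := hodd
      exact ⟨c, by omega⟩
    rcases (Nat.Prime.dvd_mul Nat.prime_two).1 h1 with h | h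
    · have := odd_lp j
      rw [← hl, Nat.odd_iff] at this
      omega
    · exact h
  have h5 : 5 ∣ s := ⟨7 ^ j * i, by rw [hs]; ring⟩
  have h10 : 10 ∣ s := by
    have : Nat.Coprime 2 5 := by norm_num
    exact this.mul_dvd_of_dvd_of_dvd heven h5
  refine ⟨1 + s * g, p ^ (vv p - 1) * s, h10.mul_left _, ?_, ?_, ?_⟩
  · exact Nat.one_le_iff_ne_zero.2 (mul_ne_zero (pow_ne_zero _ hpp.ne_zero) hs0.ne')
  · apply Nat.Coprime.mul_right
    · apply Nat.Coprime.pow_right
      apply Nat.Coprime.symm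
      rw [Nat.Prime.coprime_iff_not_dvd hpp]
      intro h
      have h1 : p ∣ l * (1 + s * g) := h.mul_left _
      have h2 : l * (1 + s * g) + 1 = l + p ^ vv p := by
        have h3 : 1 ≤ p ^ vv p := Nat.one_le_pow _ _ hpp.pos
        have h4 : l * (1 + s * g) = l + (l * s) * g := by ring
        rw [h4, ← hps, ← hg]
        omega
      have h3 : p ∣ p ^ vv p := dvd_pow_self p (by have := vv_pos hpp hodd; omega)
      have h4 : l * (1 + s * g) = (l - 1) + p ^ vv p := by omega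
      rw [h4] at h1
      have h5 : p ∣ l - 1 := (Nat.dvd_add_left h3).1 h1
      have h6 := Nat.le_of_dvd (by omega) h5
      omega
    · rw [Nat.coprime_add_mul_left_left]
      exact Nat.coprime_one_left s
  · intro f hf hmod
    obtain ⟨t, ht⟩ := (Nat.modEq_iff_dvd' hf).1 hmod.symm
    refine ⟨vv p + t, ?_⟩
    rw [hval t]
    have : f = (1 + s * g) + p ^ (vv p - 1) * s * t := by omega
    rw [this]
    ring

theorem ap_data (r z : ℕ) : ∃ (K : ℕ) (b : ℕ → ℕ) (B : ℕ), 1 ≤ K ∧ 10 ∣ K ∧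
    (∀ q : ℕ, q.Prime → q ≤ z → q ∣ K) ∧
    ∀ j, j ≤ r → 1 ≤ b j ∧ b j ≤ K ∧ (b j).Coprime K ∧
      ∀ t, B ≤ t → ∃ a, 1 + 5 * 7 ^ j * uu (pp j) a = b j + K * t := by
  choose F0 Kj h10 h1 hcop hex using ap_exists
  set K := z.factorial * ∏ j ∈ range (r + 1), Kj j with hK
  have hK0 : K ≠ 0 := by
    rw [hK]
    apply mul_ne_zero (Nat.factorial_ne_zero _)
    rw [prod_ne_zero_iff]
    intro j _
    have := h1 j
    omega
  have hKj : ∀ j, j ≤ r → Kj j ∣ K := fun j hj =>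
    (dvd_prod_of_mem _ (mem_range.2 (by omega))).mul_left _
  have hNZ : NeZero K := ⟨hK0⟩
  have hb : ∀ j, ∃ b, j ≤ r → 1 ≤ b ∧ b ≤ K ∧ b.Coprime K ∧ b ≡ F0 j [MOD Kj j] := by
    intro j
    by_cases hj : j ≤ r
    · have hd := hKj j hj
      obtain ⟨u, hu⟩ := ZMod.unitsMap_surjective hd (ZMod.unitOfCoprime (F0 j) (hcop j))
      refine ⟨(u : ZMod K).val, fun _ => ⟨?_, (ZMod.val_lt _).le, ZMod.val_coe_unit_coprime u, ?_⟩⟩
      · rcases Nat.eq_zero_or_pos (u : ZMod K).val with h | h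
        · exfalso
          have h2 := ZMod.val_coe_unit_coprime u
          rw [h, Nat.coprime_zero_left] at h2
          have h3 : 10 ∣ K := (h10 j).trans hd
          rw [h2] at h3
          norm_num at h3
        · exact h
      · have h2 := congrArg (fun x : (ZMod (Kj j))ˣ => (x : ZMod (Kj j))) hu
        simp only [ZMod.unitsMap_def, Units.coe_map, MonoidHom.coe_coe, ZMod.coe_unitOfCoprime] at h2
        rw [← ZMod.natCast_eq_natCast_iff]
        rw [← h2]
        rw [ZMod.castHom_apply, ZMod.natCast_val]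
    · exact ⟨0, fun h => absurd h hj⟩
  choose b hb using hb
  refine ⟨K, b, ∑ j ∈ range (r + 1), F0 j, Nat.one_le_iff_ne_zero.2 hK0,
    (h10 0).trans (hKj 0 (Nat.zero_le r)), ?_, ?_⟩
  · intro q hq hqz
    exact (hq.dvd_factorial.2 hqz).mul_right _
  · intro j hj
    obtain ⟨hb1, hb2, hb3, hb4⟩ := hb j hj
    refine ⟨hb1, hb2, hb3, fun t ht => ?_⟩
    apply hex j
    · have h2 : F0 j ≤ ∑ j ∈ range (r + 1), F0 j :=
        single_le_sum (fun _ _ => Nat.zero_le _) (mem_range.2 (by omega : j < r + 1))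
      have h3 : 1 * t ≤ K * t := Nat.mul_le_mul_right _ (Nat.one_le_iff_ne_zero.2 hK0)
      omega
    · obtain ⟨c, hc⟩ := hKj j hj
      have h2 : b j + K * t ≡ b j + 0 [MOD Kj j] := by
        apply Nat.ModEq.add_left
        rw [hc, mul_assoc]
        exact (Nat.modEq_zero_iff_dvd.2 (Nat.dvd_mul_right _ _))
      exact h2.trans hb4

end Run7.h499
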