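import Mathlib
import Pool.Agent.Run7.h499.Trio

set_option autoImplicit false

/-! # Residue classes modulo primes covered by the values of `FF` -/

namespace Run7.h499

open Finset

/-- divisors `≡ 1 mod 30` of `3 l - 2` -/
def dv (l : ℕ) : Finset ℕ := (3 * l - 2).divisors.filter (fun d => d % 30 = 1)

/-- the residue attached to a divisor -/
def res (l d : ℕ) : ℕ :=
  (d - 1) / 30 + ((3 * l - 2) / d - 1) / 6 + 6 * ((d - 1) / 30) * (((3 * l - 2) / d - 1) / 6)

/-- the residue classes -/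
def II (l : ℕ) : Finset ℕ := (dv l).image (res l)

theorem dv_spec {l d : ℕ} (hl : l % 2 = 1) (hl3 : 3 ≤ l) (hd : d ∈ dv l) :
    (1 + 30 * ((d - 1) / 30)) = d ∧ (1 + 6 * (((3 * l - 2) / d - 1) / 6)) = (3 * l - 2) / d ∧
      d * ((3 * l - 2) / d) = 3 * l - 2 := by
  unfold dv at hd
  rw [mem_filter, Nat.mem_divisors] at hd
  obtain ⟨⟨hd1, hd2⟩, hd3⟩ := hd
  have h1 : d * ((3 * l - 2) / d) = 3 * l - 2 := Nat.mul_div_cancel' hd1
  generalize (3 * l - 2) / d = D at *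
  refine ⟨by omega, ?_, h1⟩
  have h2 : (d * D) % 6 = 1 := by
    rw [h1]
    omega
  have h3 : d % 6 = 1 := by omega
  have h4 : D % 6 = 1 := by
    rw [Nat.mul_mod, h3, one_mul, Nat.mod_mod] at h2
    exact h2
  omega

theorem eq_of_dv {l d : ℕ} (hl : l % 2 = 1) (hl3 : 3 ≤ l) (hd : d ∈ dv l) :
    1 + 10 * ((d - 1) / 30) + 2 * (((3 * l - 2) / d - 1) / 6) +
      60 * ((d - 1) / 30) * (((3 * l - 2) / d - 1) / 6) = l := by
  obtain ⟨h1, h2, h3⟩ := dv_spec hl hl3 hd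
  rw [← h2, ← h1] at h3
  rw [h1] at h3
  generalize (d - 1) / 30 = a at *
  generalize ((3 * l - 2) / d - 1) / 6 = b at *
  rw [← h1] at h3
  have h4 : (1 + 30 * a) * (1 + 6 * b) = 1 + 30 * a + 6 * b + 180 * a * b := by ring
  rw [h4] at h3
  have h5 : 180 * a * b = 3 * (60 * a * b) := by ring
  rw [h5] at h3
  omega

theorem res_lt {l d : ℕ} (hl : l % 2 = 1) (hl3 : 3 ≤ l) (hd : d ∈ dv l) : res l d < l := by
  have h := eq_of_dv hl hl3 hd
  unfold res
  generalize (d - 1) / 30 = a at *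
  generalize ((3 * l - 2) / d - 1) / 6 = b at *
  nlinarith [Nat.zero_le (a * b)]

theorem res_inj {l : ℕ} (hl : l % 2 = 1) (hl3 : 3 ≤ l) :
    Set.InjOn (res l) (dv l : Set ℕ) := by
  intro d hd e he h
  obtain ⟨h1, h2, h3⟩ := dv_spec hl hl3 hd
  obtain ⟨g1, g2, g3⟩ := dv_spec hl hl3 he
  unfold res at h
  set D := (3 * l - 2) / d with hD
  set E := (3 * l - 2) / e with hE
  set a := (d - 1) / 30 with ha
  set b := (D - 1) / 6 with hb
  set a' := (e - 1) / 30 with ha'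
  set b' := (E - 1) / 6 with hb'
  have k1 : 5 * (6 * (a + b + 6 * a * b) + 1) = (d * D) + 4 * D := by
    rw [← h1, ← h2]; ring
  have k2 : 5 * (6 * (a' + b' + 6 * a' * b') + 1) = (e * E) + 4 * E := by
    rw [← g1, ← g2]; ring
  rw [h, k2, h3, g3] at k1
  have k3 : D = E := by omega
  rw [← k3] at g3
  have hD0 : 0 < D := by
    rw [← h2]; omega
  have : d * D = e * D := by rw [h3, g3]
  exact Nat.eq_of_mul_eq_mul_right hD0 this

theorem II_card {l : ℕ} (hl : l % 2 = 1) (hl3 : 3 ≤ l) : (II l).card = (dv l).card :=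
  card_image_of_injOn (res_inj hl hl3)

theorem II_sub {l : ℕ} (hl : l % 2 = 1) (hl3 : 3 ≤ l) : II l ⊆ range l := by
  intro r hr
  unfold II at hr
  rw [mem_image] at hr
  obtain ⟨d, hd, rfl⟩ := hr
  exact mem_range.2 (res_lt hl hl3 hd)

/-- a hit modulo `l` gives a representation `e = FF a b c` with `1 + 10 a + 2 b + 60 a b = l` -/
theorem hit {l e : ℕ} (hl : l % 2 = 1) (hl3 : 3 ≤ l) (h : e % l ∈ II l) :
    ∃ a b c : ℕ, 1 + 10 * a + 2 * b + 60 * a * b = l ∧ FF a b c = e := by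
  unfold II at h
  rw [mem_image] at h
  obtain ⟨d, hd, h⟩ := h
  have h1 := eq_of_dv hl hl3 hd
  unfold res at h
  refine ⟨(d - 1) / 30, ((3 * l - 2) / d - 1) / 6, e / l, h1, ?_⟩
  have h2 := Nat.mod_add_div e l
  rw [← h] at h2
  unfold FF
  generalize (d - 1) / 30 = a at *
  generalize ((3 * l - 2) / d - 1) / 6 = b at *
  generalize e / l = c at *
  conv_rhs => rw [← h2, ← h1]
  ring

end Run7.h499
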