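import Mathlib

set_option autoImplicit false

/-! # Squarefree numbers `≡ 1 mod 30` -/

namespace Run7.h499

open Finset

/-- squarefree moduli `≡ 1 mod 30` -/
def QQ (D : ℕ) : Finset ℕ := (Icc 1 D).filter (fun q => Squarefree q ∧ q % 30 = 1)

theorem harm_upper (K : ℕ) (D : ℕ) (hK : K ≤ D) :
    ∑ k ∈ range K, (1 : ℝ) / ((k : ℝ) + 1) ≤ 1 + Real.log D := by
  have h1 : (∑ k ∈ range K, (1 : ℝ) / ((k : ℝ) + 1)) ≤ ∑ k ∈ range D, (1 : ℝ) / ((k : ℝ) + 1) := by
    apply sum_le_sum_of_subset_of_nonneg (range_subset_range.2 hK)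
    intro i _ _
    positivity
  refine h1.trans ?_
  have h2 := harmonic_le_one_add_log D
  have h3 : ((harmonic D : ℚ) : ℝ) = ∑ k ∈ range D, (1 : ℝ) / ((k : ℝ) + 1) := by
    unfold harmonic
    push_cast
    refine sum_congr rfl fun k _ => ?_
    rw [one_div]
  rwa [h3] at h2

theorem harm_lower (K : ℕ) :
    Real.log ((K : ℝ) + 1) ≤ ∑ k ∈ range K, (1 : ℝ) / ((k : ℝ) + 1) := by
  have h2 := log_add_one_le_harmonic K
  have h3 : ((harmonic K : ℚ) : ℝ) = ∑ k ∈ range K, (1 : ℝ) / ((k : ℝ) + 1) := by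
    unfold harmonic
    push_cast
    refine sum_congr rfl fun k _ => ?_
    rw [one_div]
  rw [h3] at h2
  exact_mod_cast h2

/-- harmonic sum over a class modulo 30 -/
theorem class_upper (D c : ℕ) :
    ∑ t ∈ (Icc 1 D).filter (fun t => t % 30 = c), (1 : ℝ) / (t : ℝ) ≤ 1 + (1 + Real.log D) / 30 := by
  have h1 : ∀ t ∈ (Icc 1 D).filter (fun t => t % 30 = c), (1 : ℝ) / (t : ℝ) ≤
      (fun k : ℕ => if k = 0 then (1 : ℝ) else 1 / (30 * (k : ℝ))) (t / 30) := by
    intro t ht
    rw [mem_filter, mem_Icc] at ht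
    have ht1 : (1 : ℝ) ≤ t := by exact_mod_cast ht.1.1
    simp only
    split_ifs with h
    · rw [div_le_one (by linarith)]
      exact ht1
    · have h2 : 30 * (t / 30) ≤ t := Nat.mul_div_le t 30
      have h3 : (30 : ℝ) * ((t / 30 : ℕ) : ℝ) ≤ t := by exact_mod_cast h2
      have h4 : 0 < ((t / 30 : ℕ) : ℝ) := by
        have : 0 < t / 30 := Nat.pos_of_ne_zero h
        exact_mod_cast this
      exact one_div_le_one_div_of_le (by positivity) h3
  refine (sum_le_sum h1).trans ?_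
  rw [← sum_image (s := (Icc 1 D).filter (fun t => t % 30 = c)) (g := fun t => t / 30)
    (f := fun k : ℕ => if k = 0 then (1 : ℝ) else 1 / (30 * (k : ℝ)))]
  · have h2 : ((Icc 1 D).filter (fun t => t % 30 = c)).image (fun t => t / 30) ⊆
        range (D / 30 + 1) := by
      intro k hk
      rw [mem_image] at hk
      obtain ⟨t, ht, rfl⟩ := hk
      rw [mem_filter, mem_Icc] at ht
      rw [mem_range]
      have := Nat.div_le_div_right (c := 30) ht.1.2
      omega
    refine (sum_le_sum_of_subset_of_nonneg h2 ?_).trans ?_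
    · intro k _ _
      split_ifs <;> positivity
    · rw [sum_range_succ']
      simp only [Nat.add_eq_zero_iff, one_ne_zero, and_false, if_false, if_true]
      have h3 := harm_upper (D / 30) D (Nat.div_le_self _ _)
      have h4 : ∑ k ∈ range (D / 30), (1 : ℝ) / (30 * ((k + 1 : ℕ) : ℝ)) =
          (∑ k ∈ range (D / 30), (1 : ℝ) / ((k : ℝ) + 1)) / 30 := by
        rw [sum_div]
        refine sum_congr rfl fun k _ => ?_
        push_cast
        field_simp
      rw [h4]
      linarith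
  · intro s hs t ht h
    rw [mem_coe, mem_filter] at hs ht
    simp only at h
    omega

theorem sum_inv_sq (D : ℕ) : ∑ m ∈ Icc 7 D, (1 : ℝ) / ((m : ℝ) ^ 2) ≤ 1 / 6 := by
  have h : ∀ D : ℕ, 6 ≤ D → ∑ m ∈ Icc 7 D, (1 : ℝ) / ((m : ℝ) ^ 2) ≤ 1 / 6 - 1 / D := by
    intro D hD
    induction D, hD using Nat.le_induction with
    | base => norm_num
    | succ n hn ih =>
      rw [← Finset.insert_Icc_right_eq_Icc_add_one (by omega), sum_insert (by simp)]
      have hn0 : (6 : ℝ) ≤ n := by exact_mod_cast hn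
      have h1 : (1 : ℝ) / (((n + 1 : ℕ) : ℝ) ^ 2) ≤ 1 / n - 1 / ((n + 1 : ℕ) : ℝ) := by
        push_cast
        rw [div_sub_div _ _ (by positivity) (by positivity), div_le_div_iff₀ (by positivity)
          (by positivity)]
        nlinarith
      linarith
  rcases Nat.lt_or_ge D 6 with h1 | h1
  · rw [Icc_eq_empty_of_lt (by omega), sum_empty]
    norm_num
  · have := h D h1
    have h2 : (0 : ℝ) ≤ 1 / D := by positivity
    linarith

theorem sum_biUnion_le' {ι κ : Type} [DecidableEq ι] [DecidableEq κ] (s : Finset ι) (t : ι → Finset κ)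
    (f : κ → ℝ) (hf : ∀ x, 0 ≤ f x) : ∑ x ∈ s.biUnion t, f x ≤ ∑ i ∈ s, ∑ x ∈ t i, f x := by
  induction s using Finset.induction_on with
  | empty => simp
  | insert a s ha ih =>
    rw [biUnion_insert, sum_insert ha]
    have h1 := sum_union_inter (s₁ := t a) (s₂ := s.biUnion t) (f := f)
    have h2 : 0 ≤ ∑ x ∈ t a ∩ s.biUnion t, f x := sum_nonneg (fun x _ => hf x)
    linarith

/-- the sum over the squarefree moduli -/
theorem sum_QQ (D : ℕ) (hD : 1 ≤ D) :
    (1 / 36 : ℝ) * Real.log D - 1 ≤ ∑ q ∈ QQ D, (1 : ℝ) / (q : ℝ) := by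
  classical
  set A := (Icc 1 D).filter (fun q => q % 30 = 1) with hA
  set B := A.filter (fun q => ¬ Squarefree q) with hB
  have h1 : ∑ q ∈ A, (1 : ℝ) / (q : ℝ) = ∑ q ∈ QQ D, (1 : ℝ) / (q : ℝ) + ∑ q ∈ B, (1 : ℝ) / (q : ℝ) := by
    rw [← sum_filter_add_sum_filter_not A (fun q => Squarefree q)]
    congr 1
    apply sum_congr _ (fun _ _ => rfl)
    ext q
    simp only [hA, QQ, mem_filter]
    tauto
  have h2 : (1 / 30 : ℝ) * (Real.log D - Real.log 30) ≤ ∑ q ∈ A, (1 : ℝ) / (q : ℝ) := by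
    have h3 : (range ((D - 1) / 30 + 1)).image (fun k => 30 * k + 1) ⊆ A := by
      intro q hq
      rw [mem_image] at hq
      obtain ⟨k, hk, rfl⟩ := hq
      rw [mem_range] at hk
      rw [hA, mem_filter, mem_Icc]
      omega
    have h4 : ∑ q ∈ ((range ((D - 1) / 30 + 1)).image (fun k => 30 * k + 1) : Finset ℕ), (1 : ℝ) / ((q : ℕ) : ℝ) ≤
        ∑ q ∈ A, (1 : ℝ) / (q : ℝ) :=
      sum_le_sum_of_subset_of_nonneg h3 (fun i _ _ => by positivity)
    refine le_trans ?_ h4
    rw [sum_image (by intro x _ y _ h; simp only at h; omega)]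
    have h5 : ∀ k ∈ range ((D - 1) / 30 + 1), (1 / 30 : ℝ) * (1 / ((k : ℝ) + 1)) ≤
        (1 : ℝ) / ((30 * k + 1 : ℕ) : ℝ) := by
      intro k _
      push_cast
      rw [one_div_mul_one_div]
      exact one_div_le_one_div_of_le (by positivity) (by nlinarith)
    refine le_trans ?_ (sum_le_sum h5)
    rw [← mul_sum]
    apply mul_le_mul_of_nonneg_left _ (by norm_num)
    refine le_trans ?_ (harm_lower _)
    rw [← Real.log_div (by positivity) (by norm_num)]
    apply Real.log_le_log (by positivity)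
    rw [div_le_iff₀ (by norm_num)]
    have h6 : D ≤ ((D - 1) / 30 + 1 + 1) * 30 := by omega
    have h7 : (D : ℝ) ≤ (((D - 1) / 30 + 1 + 1) * 30 : ℕ) := by exact_mod_cast h6
    push_cast at h7 ⊢
    exact h7
  have h3 : ∑ q ∈ B, (1 : ℝ) / (q : ℝ) ≤ (1 / 6) * (1 + (1 + Real.log D) / 30) := by
    have h4 : ∀ q ∈ B, ∃ m t : ℕ, 7 ≤ m ∧ m ≤ D ∧ 1 ≤ t ∧ t ≤ D ∧ q = m ^ 2 * t ∧
        (m ^ 2 * t) % 30 = 1 := by
      intro q hq
      rw [hB, mem_filter, hA, mem_filter, mem_Icc] at hq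
      obtain ⟨⟨⟨hq1, hq2⟩, hq3⟩, hq4⟩ := hq
      rw [Nat.squarefree_iff_prime_squarefree] at hq4
      push Not at hq4
      obtain ⟨p, hp, ⟨t, ht⟩⟩ := hq4
      have ht0 : 1 ≤ t := by
        rcases Nat.eq_zero_or_pos t with rfl | h
        · omega
        · exact h
      have hle : p * p * t ≤ D := by omega
      have hpp : p ≤ p * p := Nat.le_mul_self p
      have hp0 := hp.two_le
      refine ⟨p, t, ?_, ?_, ht0, ?_, by rw [ht]; ring, ?_⟩
      · by_contra h7
        have h8 : p < 7 := by omega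
        have h9 : p ∣ q := ⟨p * t, by rw [ht]; ring⟩
        interval_cases p <;> omega
      · calc p ≤ p * p := hpp
          _ ≤ p * p * t := Nat.le_mul_of_pos_right _ ht0
          _ ≤ D := hle
      · calc t ≤ p * p * t := Nat.le_mul_of_pos_left _ (by positivity)
          _ ≤ D := hle
      · rw [show p ^ 2 * t = q by rw [ht]; ring]
        exact hq3
    have h5 : B ⊆ (Icc 7 D).biUnion (fun m => ((Icc 1 D).filter
        (fun t => (m ^ 2 * t) % 30 = 1)).image (fun t => m ^ 2 * t)) := by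
      intro q hq
      obtain ⟨m, t, h7, h8, h9, h10, h11, h12⟩ := h4 q hq
      rw [mem_biUnion]
      refine ⟨m, mem_Icc.2 ⟨h7, h8⟩, mem_image.2 ⟨t, mem_filter.2 ⟨mem_Icc.2 ⟨h9, h10⟩, h12⟩, h11.symm⟩⟩
    have h6 : ∑ q ∈ B, (1 : ℝ) / (q : ℝ) ≤ ∑ m ∈ Icc 7 D, ∑ q ∈ (((Icc 1 D).filter
        (fun t => (m ^ 2 * t) % 30 = 1)).image (fun t => m ^ 2 * t) : Finset ℕ), (1 : ℝ) / ((q : ℕ) : ℝ) := by
      refine (sum_le_sum_of_subset_of_nonneg h5 (fun i _ _ => by positivity)).trans ?_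
      exact sum_biUnion_le' _ _ (fun q : ℕ => (1 : ℝ) / (q : ℝ)) (fun i => by positivity)
    refine h6.trans ?_
    have h7 : ∀ m ∈ Icc 7 D, ∑ q ∈ (((Icc 1 D).filter
        (fun t => (m ^ 2 * t) % 30 = 1)).image (fun t => m ^ 2 * t) : Finset ℕ), (1 : ℝ) / ((q : ℕ) : ℝ) ≤
        (1 / (m : ℝ) ^ 2) * (1 + (1 + Real.log D) / 30) := by
      intro m hm
      rw [mem_Icc] at hm
      have hm0 : 0 < m ^ 2 := by
        have : 0 < m := by omega
        positivity
      rw [sum_image (by intro x _ y _ h; simp only at h; exact Nat.eq_of_mul_eq_mul_left hm0 h)]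
      have h8 : ∑ t ∈ (Icc 1 D).filter (fun t => (m ^ 2 * t) % 30 = 1), (1 : ℝ) / ((m ^ 2 * t : ℕ) : ℝ) =
          (1 / (m : ℝ) ^ 2) * ∑ t ∈ (Icc 1 D).filter (fun t => (m ^ 2 * t) % 30 = 1), (1 : ℝ) / (t : ℝ) := by
        rw [mul_sum]
        refine sum_congr rfl fun t _ => ?_
        push_cast
        rw [one_div_mul_one_div]
      rw [h8]
      apply mul_le_mul_of_nonneg_left _ (by positivity)
      rcases ((Icc 1 D).filter (fun t => (m ^ 2 * t) % 30 = 1)).eq_empty_or_nonempty with h9 | ⟨t₀, h9⟩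
      · rw [h9, sum_empty]
        have : 0 ≤ Real.log D := Real.log_natCast_nonneg D
        positivity
      · refine le_trans (sum_le_sum_of_subset_of_nonneg ?_ (fun i _ _ => by positivity))
          (class_upper D (t₀ % 30))
        intro t ht
        rw [mem_filter] at ht h9 ⊢
        refine ⟨ht.1, ?_⟩
        have e1 : m ^ 2 * t ≡ m ^ 2 * t₀ [MOD 30] := by
          unfold Nat.ModEq
          rw [ht.2, h9.2]
        have e2 : Nat.gcd 30 (m ^ 2) = 1 := by
          have e3 : Nat.Coprime (m ^ 2 * t₀) 30 := by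
            unfold Nat.Coprime
            rw [Nat.gcd_comm, Nat.gcd_rec, h9.2]
            simp
          rw [Nat.gcd_comm]
          exact Nat.Coprime.coprime_mul_right e3
        exact Nat.ModEq.cancel_left_of_coprime e2 e1
    refine (sum_le_sum h7).trans ?_
    rw [← sum_mul]
    apply mul_le_mul_of_nonneg_right (sum_inv_sq D)
    have : 0 ≤ Real.log D := Real.log_natCast_nonneg D
    positivity
  have h4 : Real.log 30 ≤ 4 := by
    have : Real.log 30 ≤ Real.log (2 ^ 5) := Real.log_le_log (by norm_num) (by norm_num)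
    rw [Real.log_pow] at this
    have := Real.log_two_lt_d9
    push_cast at *
    linarith
  linarith

end Run7.h499
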