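import Mathlib
import Pool.Agent.H732R2.MT_B2
import Pool.Agent.H732R2.MT_B3
import Pool.Agent.H398R2.BV6
import Pool.Agent.H379R2.SWMain
import Pool.Agent.H307R2.Sg6
import Pool.Agent.Run7.h499.Omega
import Pool.Agent.Run7.h499.SumQ

set_option autoImplicit false

/-! # Many residue classes on average, from the theorem of Bombieri and Vinogradov -/

namespace Run7.h499

open Finset Filter Topology
open Pool.Agent.H410R2 (psiLogAP psiLog1 BVAP PNTLog)
open ArithmeticFunction (vonMangoldt)

theorem bvap : BVAP :=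
  Pool.Agent.H732R2.bvAP (Pool.Agent.H398R2.bvTotal (Pool.Agent.H379R2.SW.siegelWalfisz
    Pool.Agent.H307R2.siegel))

/-- positive part of `log (Y / n)` -/
noncomputable def LP (Y : ℝ) (n : ℕ) : ℝ := max 0 (Real.log (Y / n))

theorem psiLogAP_eq (Y : ℝ) (hY : 0 < Y) (m r M : ℕ) (hM : ⌊Y⌋₊ ≤ M) :
    psiLogAP Y m r = ∑ n ∈ (Icc 1 M).filter (fun n => n ≡ r [MOD m]), vonMangoldt n * LP Y n := by
  unfold psiLogAP
  have h1 : (Icc 1 ⌊Y⌋₊).filter (fun n => n ≡ r [MOD m]) ⊆
      (Icc 1 M).filter (fun n => n ≡ r [MOD m]) :=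
    filter_subset_filter _ (Icc_subset_Icc_right hM)
  rw [← sum_subset h1]
  · refine sum_congr rfl fun n hn => ?_
    rw [mem_filter, mem_Icc] at hn
    have h2 : (n : ℝ) ≤ Y := (Nat.le_floor_iff hY.le).1 hn.1.2
    have h3 : (0 : ℝ) < n := by
      have : 0 < n := hn.1.1
      exact_mod_cast this
    unfold LP
    rw [max_eq_right]
    apply Real.log_nonneg
    rw [le_div_iff₀ h3]
    linarith
  · intro n hn hn'
    rw [mem_filter, mem_Icc] at hn hn'
    have h2 : Y < n := by
      have h4 : ¬ n ≤ ⌊Y⌋₊ := fun h => hn' ⟨⟨hn.1.1, h⟩, hn.2⟩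
      exact (Nat.floor_lt hY.le).1 (not_le.1 h4)
    have h3 : (0 : ℝ) < n := hY.trans h2
    unfold LP
    rw [max_eq_left, mul_zero]
    apply Real.log_nonpos (by positivity)
    rw [div_le_one h3]
    exact h2.le

theorem tent (X : ℝ) (hX : 0 < X) (n : ℕ) (hn : 1 ≤ n) :
    LP X n - 2 * LP (X / 2) n + LP (X / 4) n ≤ if X / 4 < n then Real.log 2 else 0 := by
  have h3 : (0 : ℝ) < n := by exact_mod_cast hn
  unfold LP
  have e1 : Real.log (X / 2 / n) = Real.log (X / n) - Real.log 2 := by
    rw [← Real.log_div (by positivity) (by norm_num)]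
    congr 1
    field_simp
  have e2 : Real.log (X / 4 / n) = Real.log (X / n) - 2 * Real.log 2 := by
    have : 2 * Real.log 2 = Real.log 4 := by
      rw [show (4 : ℝ) = 2 ^ 2 by norm_num, Real.log_pow]
      norm_num
    rw [this, ← Real.log_div (by positivity) (by norm_num)]
    congr 1
    field_simp
  have h2 : 0 < Real.log 2 := Real.log_pos (by norm_num)
  rw [e1, e2]
  split_ifs with h
  · have h4 : Real.log (X / n) - 2 * Real.log 2 ≤ 0 := by
      rw [← e2]
      apply Real.log_nonpos (by positivity)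
      rw [div_le_one h3]
      exact h.le
    rw [max_eq_left h4]
    rcases le_total 0 (Real.log (X / n)) with h5 | h5
    · rw [max_eq_right h5]
      rcases le_total 0 (Real.log (X / n) - Real.log 2) with h6 | h6
      · rw [max_eq_right h6]; linarith
      · rw [max_eq_left h6]; linarith
    · rw [max_eq_left h5]
      have : 0 ≤ max 0 (Real.log (X / n) - Real.log 2) := le_max_left _ _
      linarith
  · have h4 : 0 ≤ Real.log (X / n) - 2 * Real.log 2 := by
      rw [← e2]
      apply Real.log_nonneg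
      rw [le_div_iff₀ h3]
      linarith
    rw [max_eq_right h4, max_eq_right (by linarith), max_eq_right (by linarith)]
    linarith

/-- residue class of the `n` with `3 n ≡ 2 mod q` -/
def rq (q : ℕ) : ℕ := (q + 2) / 3

theorem rq_coprime {q : ℕ} (hq : q % 30 = 1) : (rq q).Coprime (1 * q) := by
  rw [one_mul]
  unfold rq
  have h1 : 3 * ((q + 2) / 3) = q + 2 := by omega
  have h2 : Nat.Coprime (q + 2) q := by
    rw [Nat.coprime_self_add_left]
    rw [Nat.coprime_two_left, Nat.odd_iff]
    omega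
  rw [← h1] at h2
  exact Nat.Coprime.coprime_mul_left h2

theorem dvd_of_rq {q n : ℕ} (hq : q % 30 = 1) (hn : 1 ≤ n) (h : n ≡ rq q [MOD q]) :
    q ∣ 3 * n - 2 := by
  have h1 : 3 * rq q = q + 2 := by
    unfold rq
    omega
  have h2 : 3 * n ≡ q + 2 [MOD q] := by
    rw [← h1]
    exact Nat.ModEq.mul_left 3 h
  have h3 : 3 * n ≡ 2 [MOD q] := by
    refine h2.trans ?_
    unfold Nat.ModEq
    rw [Nat.add_mod_left]
  exact (Nat.modEq_iff_dvd' (by omega)).1 h3.symm

theorem card_le_dv (D n : ℕ) (hn : 1 ≤ n) :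
    ((QQ D).filter (fun q => n ≡ rq q [MOD q])).card ≤ (dv n).card := by
  apply card_le_card
  intro q hq
  rw [mem_filter, QQ, mem_filter] at hq
  unfold dv
  rw [mem_filter, Nat.mem_divisors]
  exact ⟨⟨dvd_of_rq hq.1.2.2 hn hq.2, by omega⟩, hq.1.2.2⟩

theorem card_QQ_le (D : ℕ) : (QQ D).card ≤ D := by
  unfold QQ
  refine (card_filter_le _ _).trans ?_
  simp

/-- upper bound of the second difference -/
theorem second_upper (X : ℝ) (hX : 1 ≤ X) (D : ℕ) :
    ∑ q ∈ QQ D, (psiLogAP X q (rq q) - 2 * psiLogAP (X / 2) q (rq q) + psiLogAP (X / 4) q (rq q)) ≤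
      Real.log 2 * (∑ n ∈ (Icc 1 ⌊X⌋₊).filter (fun n : ℕ => n.Prime ∧ X / 4 < n),
        Real.log n * ((dv n).card : ℝ) + D * (2 * √X * Real.log X)) := by
  classical
  have hX0 : 0 < X := by linarith
  set M := ⌊X⌋₊ with hM
  have hl2 : 0 < Real.log 2 := Real.log_pos (by norm_num)
  have hstep : ∀ q ∈ QQ D, psiLogAP X q (rq q) - 2 * psiLogAP (X / 2) q (rq q) +
      psiLogAP (X / 4) q (rq q) ≤ ∑ n ∈ (Icc 1 M).filter (fun n => n ≡ rq q [MOD q]),
        vonMangoldt n * (if X / 4 < n then Real.log 2 else 0) := by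
    intro q _
    rw [psiLogAP_eq X hX0 q _ M le_rfl,
      psiLogAP_eq (X / 2) (by positivity) q _ M (Nat.floor_le_floor (by linarith)),
      psiLogAP_eq (X / 4) (by positivity) q _ M (Nat.floor_le_floor (by linarith)),
      mul_sum, ← sum_sub_distrib, ← sum_add_distrib]
    apply sum_le_sum
    intro n hn
    rw [mem_filter, mem_Icc] at hn
    have h1 := tent X hX0 n hn.1.1
    have h2 : 0 ≤ vonMangoldt n := ArithmeticFunction.vonMangoldt_nonneg
    calc vonMangoldt n * LP X n - 2 * (vonMangoldt n * LP (X / 2) n) + vonMangoldt n * LP (X / 4) n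
        = vonMangoldt n * (LP X n - 2 * LP (X / 2) n + LP (X / 4) n) := by ring
      _ ≤ _ := mul_le_mul_of_nonneg_left h1 h2
  refine (sum_le_sum hstep).trans ?_
  have h1 : ∑ q ∈ QQ D, ∑ n ∈ (Icc 1 M).filter (fun n => n ≡ rq q [MOD q]),
        vonMangoldt n * (if X / 4 < n then Real.log 2 else 0) =
      ∑ n ∈ Icc 1 M, (vonMangoldt n * (if X / 4 < n then Real.log 2 else 0)) *
        (((QQ D).filter (fun q => n ≡ rq q [MOD q])).card : ℝ) := by
    simp only [sum_filter]
    rw [sum_comm]
    refine sum_congr rfl fun n _ => ?_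
    rw [card_filter, Nat.cast_sum, mul_sum]
    refine sum_congr rfl fun q _ => ?_
    split_ifs <;> simp
  rw [h1, ← sum_filter_add_sum_filter_not (Icc 1 M) (fun n => n.Prime), mul_add]
  apply add_le_add
  · rw [mul_sum, show (Icc 1 M).filter (fun n : ℕ => n.Prime ∧ X / 4 < n) =
      ((Icc 1 M).filter (fun n => n.Prime)).filter (fun n : ℕ => X / 4 < n) by
        rw [filter_filter], sum_filter (s := (Icc 1 M).filter (fun n => n.Prime))]
    apply sum_le_sum
    intro n hn
    rw [mem_filter, mem_Icc] at hn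
    rw [ArithmeticFunction.vonMangoldt_apply_prime hn.2]
    split_ifs with h
    · have h2 : (((QQ D).filter (fun q => n ≡ rq q [MOD q])).card : ℝ) ≤ ((dv n).card : ℝ) := by
        exact_mod_cast card_le_dv D n hn.1.1
      have h3 : 0 ≤ Real.log n := Real.log_natCast_nonneg n
      calc Real.log n * Real.log 2 * (((QQ D).filter (fun q => n ≡ rq q [MOD q])).card : ℝ)
          ≤ Real.log n * Real.log 2 * ((dv n).card : ℝ) := by gcongr
        _ = _ := by ring
    · simp
  · have h2 : ∀ n ∈ (Icc 1 M).filter (fun n => ¬ n.Prime),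
        (vonMangoldt n * (if X / 4 < n then Real.log 2 else 0)) *
        (((QQ D).filter (fun q => n ≡ rq q [MOD q])).card : ℝ) ≤
        vonMangoldt n * (Real.log 2 * D) := by
      intro n _
      have h3 : (((QQ D).filter (fun q => n ≡ rq q [MOD q])).card : ℝ) ≤ D := by
        exact_mod_cast (card_filter_le _ _).trans (card_QQ_le D)
      have h4 : (if X / 4 < (n : ℝ) then Real.log 2 else 0) ≤ Real.log 2 := by
        split_ifs
        · exact le_rfl
        · exact hl2.le
      have h5 : (0 : ℝ) ≤ (if X / 4 < (n : ℝ) then Real.log 2 else 0) := by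
        split_ifs
        · exact hl2.le
        · exact le_rfl
      have h6 : 0 ≤ vonMangoldt n := ArithmeticFunction.vonMangoldt_nonneg
      rw [mul_assoc]
      gcongr
    refine (sum_le_sum h2).trans ?_
    rw [← sum_mul]
    have h3 := Chebyshev.psi_sub_theta_eq_sum_not_prime X
    have h4 := Chebyshev.psi_sub_theta_le hX
    have h5 : Ioc 0 ⌊X⌋₊ = Icc 1 M := by
      ext n
      rw [mem_Ioc, mem_Icc]
      omega
    rw [h5] at h3
    rw [← h3]
    calc (Chebyshev.psi X - Chebyshev.theta X) * (Real.log 2 * D)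
        ≤ (2 * √X * Real.log X) * (Real.log 2 * D) := by
          apply mul_le_mul_of_nonneg_right h4 (by positivity)
      _ = _ := by ring

end Run7.h499
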