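import Mathlib
import Pool.Agent.Run7.h499.SumQ

set_option autoImplicit false

/-! # Many tuples from given residue classes with squarefree product -/

namespace Run7.h499

open Finset

theorem log_tel (y n : ℕ) (h : y ≤ n) :
    ∑ t ∈ Ico y n, (Real.log ((t : ℝ) + 2) - Real.log ((t : ℝ) + 1)) =
      Real.log ((n : ℝ) + 1) - Real.log ((y : ℝ) + 1) := by
  induction n, h using Nat.le_induction with
  | base => simp
  | succ n hn ih =>
    rw [sum_Ico_succ_top hn, ih]
    push_cast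
    rw [show (n : ℝ) + 1 + 1 = n + 2 by ring]
    ring

theorem L_lower (K b y : ℕ) (hK : 1 ≤ K) (hb : b ≤ K) (hy : 4 ≤ y) :
    Real.log y / (2 * K) ≤ ∑ t ∈ Ico y (y ^ 2), (1 : ℝ) / ((b + K * t : ℕ) : ℝ) := by
  have hK0 : (0 : ℝ) < K := by exact_mod_cast hK
  have hy2 : y ≤ y ^ 2 := by nlinarith
  have h1 : ∀ t ∈ Ico y (y ^ 2), (1 / (K : ℝ)) * (Real.log ((t : ℝ) + 2) - Real.log ((t : ℝ) + 1)) ≤
      (1 : ℝ) / ((b + K * t : ℕ) : ℝ) := by
    intro t ht
    rw [mem_Ico] at ht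
    have h2 : Real.log ((t : ℝ) + 2) - Real.log ((t : ℝ) + 1) ≤ 1 / ((t : ℝ) + 1) := by
      rw [← Real.log_div (by positivity) (by positivity)]
      have h3 := Real.log_le_sub_one_of_pos (x := ((t : ℝ) + 2) / (t + 1)) (by positivity)
      refine h3.trans (le_of_eq ?_)
      field_simp
      ring
    calc (1 / (K : ℝ)) * (Real.log ((t : ℝ) + 2) - Real.log ((t : ℝ) + 1))
        ≤ (1 / (K : ℝ)) * (1 / ((t : ℝ) + 1)) := by gcongr
      _ = 1 / ((K : ℝ) * (t + 1)) := by field_simp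
      _ ≤ _ := by
        apply one_div_le_one_div_of_le
        · have : 0 < b + K * t := by
            have : 0 < K * t := Nat.mul_pos hK (by omega)
            omega
          exact_mod_cast this
        · push_cast
          have : (b : ℝ) ≤ K := by exact_mod_cast hb
          linarith
  have h2 := sum_le_sum h1
  rw [← mul_sum, log_tel y _ hy2] at h2
  refine le_trans ?_ h2
  have hyR : (4 : ℝ) ≤ y := by exact_mod_cast hy
  have h3 : Real.log y ≤ 2 * (Real.log (((y ^ 2 : ℕ) : ℝ) + 1) - Real.log ((y : ℝ) + 1)) := by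
    have h4 : Real.log y + 2 * Real.log ((y : ℝ) + 1) ≤ 2 * Real.log ((y : ℝ) ^ 2 + 1) := by
      have e1 : Real.log y + 2 * Real.log ((y : ℝ) + 1) = Real.log (y * ((y : ℝ) + 1) ^ 2) := by
        rw [Real.log_mul (by positivity) (by positivity), Real.log_pow]
        norm_num
      have e2 : 2 * Real.log ((y : ℝ) ^ 2 + 1) = Real.log (((y : ℝ) ^ 2 + 1) ^ 2) := by
        rw [Real.log_pow]
        norm_num
      rw [e1, e2]
      apply Real.log_le_log (by positivity)
      have h5 : (y : ℝ) ^ 3 ≤ (y : ℝ) ^ 4 / 4 := by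
        have : (y : ℝ) ^ 3 * 4 ≤ (y : ℝ) ^ 3 * y := mul_le_mul_of_nonneg_left hyR (by positivity)
        nlinarith
      have h6 : (y : ℝ) ≤ (y : ℝ) ^ 4 / 4 := by
        have : (4 : ℝ) ^ 3 ≤ (y : ℝ) ^ 3 := by gcongr
        nlinarith
      nlinarith
    push_cast
    linarith
  calc Real.log y / (2 * K) ≤
      (2 * (Real.log (((y ^ 2 : ℕ) : ℝ) + 1) - Real.log ((y : ℝ) + 1))) / (2 * K) := by gcongr
    _ = _ := by field_simp

theorem sum_shift_harm (K n : ℕ) (hK : 1 ≤ K) :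
    ∑ s ∈ range (n + 1), (1 : ℝ) / ((K * s + 1 : ℕ) : ℝ) ≤ 1 + (1 / K) * (harmonic n : ℝ) := by
  have hK0 : (0 : ℝ) < K := by exact_mod_cast hK
  induction n with
  | zero => simp
  | succ n ih =>
    rw [sum_range_succ, harmonic_succ]
    have h : (1 : ℝ) / ((K * (n + 1) + 1 : ℕ) : ℝ) ≤ (1 / K) * (1 / ((n : ℝ) + 1)) := by
      have e : (1 / (K : ℝ)) * (1 / ((n : ℝ) + 1)) = 1 / (K * ((n : ℝ) + 1)) := by
        field_simp
      rw [e]
      apply one_div_le_one_div_of_le (by positivity)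
      push_cast
      linarith
    have e : (1 / (K : ℝ)) * ((harmonic n + ((n + 1 : ℕ) : ℚ)⁻¹ : ℚ) : ℝ) =
      (1 / K) * (harmonic n : ℝ) + (1 / K) * (1 / ((n : ℝ) + 1)) := by
      push_cast
      rw [one_div ((n : ℝ) + 1)]
      ring
    rw [e]
    linarith

theorem L_upper (K b y d : ℕ) (hK : 1 ≤ K) (hb1 : 1 ≤ b) (hb : b ≤ K) (hd : d.Coprime K)
    (hd1 : 1 ≤ d) (hy : 4 ≤ y) (hlog : 2 * (K : ℝ) + 2 ≤ Real.log y) :
    ∑ t ∈ (Ico y (y ^ 2)).filter (fun t => d ∣ b + K * t), (1 : ℝ) / ((b + K * t : ℕ) : ℝ) ≤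
      (5 / d) * ∑ t ∈ Ico y (y ^ 2), (1 : ℝ) / ((b + K * t : ℕ) : ℝ) := by
  have hK0 : (0 : ℝ) < K := by exact_mod_cast hK
  have hd0 : (0 : ℝ) < d := by exact_mod_cast hd1
  set g : ℕ → ℕ := fun t => (b + K * t) / d with hg
  set s : ℕ → ℕ := fun t => (g t - 1) / K with hs
  set F := (Ico y (y ^ 2)).filter (fun t => d ∣ b + K * t) with hF
  have hgd : ∀ t ∈ F, d * g t = b + K * t := by
    intro t ht
    rw [hF, mem_filter] at ht
    exact Nat.mul_div_cancel' ht.2
  have hg1 : ∀ t ∈ F, 1 ≤ g t := by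
    intro t ht
    have h1 := hgd t ht
    rcases Nat.eq_zero_or_pos (g t) with h | h
    · rw [h] at h1
      omega
    · exact h
  have hinj : Set.InjOn s (F : Set ℕ) := by
    intro t ht t' ht' hss
    rw [mem_coe] at ht ht'
    have h1 := hgd t ht
    have h2 := hgd t' ht'
    have h3 := hg1 t ht
    have h4 := hg1 t' ht'
    have hmod : g t ≡ g t' [MOD K] := by
      apply Nat.ModEq.cancel_left_of_coprime (c := d) (by rw [Nat.gcd_comm]; exact hd)
      rw [h1, h2]
      unfold Nat.ModEq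
      rw [Nat.add_mul_mod_self_left, Nat.add_mul_mod_self_left]
    have hmod' : g t - 1 ≡ g t' - 1 [MOD K] := by
      apply Nat.ModEq.add_right_cancel' 1
      rw [Nat.sub_add_cancel h3, Nat.sub_add_cancel h4]
      exact hmod
    have h5 : g t - 1 = g t' - 1 := by
      rw [← Nat.div_add_mod (g t - 1) K, ← Nat.div_add_mod (g t' - 1) K]
      have : (g t - 1) / K = (g t' - 1) / K := hss
      rw [this, hmod']
    have h6 : g t = g t' := by omega
    rw [h6, h2] at h1
    have h7 : K * t' = K * t := by omega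
    exact (Nat.eq_of_mul_eq_mul_left hK h7).symm
  have hmap : ∀ t ∈ F, s t ∈ range (y ^ 2) := by
    intro t ht
    rw [mem_range]
    have h1 := hgd t ht
    have h2 := hg1 t ht
    rw [hF, mem_filter, mem_Ico] at ht
    rw [hs]
    simp only
    rw [Nat.div_lt_iff_lt_mul hK]
    have h3 : 1 * g t ≤ d * g t := Nat.mul_le_mul_right _ hd1
    have h4 : K * (t + 1) ≤ K * y ^ 2 := Nat.mul_le_mul_left _ (by omega)
    have h5 : K * (t + 1) = K * t + K := by ring
    have h6 : y ^ 2 * K = K * y ^ 2 := by ring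
    omega
  have h1 : ∀ t ∈ F, (1 : ℝ) / ((b + K * t : ℕ) : ℝ) ≤
      (1 / d) * ((1 : ℝ) / ((K * s t + 1 : ℕ) : ℝ)) := by
    intro t ht
    rw [← hgd t ht]
    have h2 := hg1 t ht
    have h3 : K * s t + 1 ≤ g t := by
      have : K * ((g t - 1) / K) ≤ g t - 1 := Nat.mul_div_le _ _
      rw [hs]
      simp only
      omega
    have h4 : ((K * s t + 1 : ℕ) : ℝ) ≤ g t := by exact_mod_cast h3
    rw [Nat.cast_mul, one_div_mul_one_div_rev]
    apply one_div_le_one_div_of_le (by positivity)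
    rw [mul_comm]
    gcongr
  have h2 : ∑ t ∈ F, (1 : ℝ) / ((b + K * t : ℕ) : ℝ) ≤
      (1 / d) * ∑ u ∈ range (y ^ 2), (1 : ℝ) / ((K * u + 1 : ℕ) : ℝ) := by
    refine (sum_le_sum h1).trans ?_
    rw [← mul_sum]
    gcongr
    rw [← sum_image (f := fun u => (1 : ℝ) / ((K * u + 1 : ℕ) : ℝ)) (g := s) (s := F) hinj]
    apply sum_le_sum_of_subset_of_nonneg
    · intro u hu
      rw [mem_image] at hu
      obtain ⟨t, ht, rfl⟩ := hu
      exact hmap t ht
    · intro _ _ _
      positivity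
  refine h2.trans ?_
  have h3 := L_lower K b y hK hb hy
  have h4 : ∑ u ∈ range (y ^ 2), (1 : ℝ) / ((K * u + 1 : ℕ) : ℝ) ≤ 1 + (1 / K) * (1 + 2 * Real.log y) := by
    obtain ⟨n, hn⟩ : ∃ n, y ^ 2 = n + 1 := ⟨y ^ 2 - 1, by
      have : 0 < y ^ 2 := by positivity
      omega⟩
    rw [hn]
    refine (sum_shift_harm K n hK).trans ?_
    gcongr
    refine (harmonic_le_one_add_log n).trans ?_
    have h5 : Real.log n ≤ 2 * Real.log y := by
      rcases Nat.eq_zero_or_pos n with h | h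
      · rw [h]
        simp only [Nat.cast_zero, Real.log_zero]
        have : 0 ≤ Real.log y := Real.log_natCast_nonneg y
        positivity
      · have e : 2 * Real.log y = Real.log ((y ^ 2 : ℕ) : ℝ) := by
          push_cast
          rw [Real.log_pow]
          norm_num
        rw [e]
        apply Real.log_le_log (by exact_mod_cast h)
        exact_mod_cast (by omega : n ≤ y ^ 2)
    linarith
  have h5 : 1 + (1 / (K : ℝ)) * (1 + 2 * Real.log y) ≤ 5 * (Real.log y / (2 * K)) := by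
    have e : 5 * (Real.log y / (2 * K)) - (1 + (1 / (K : ℝ)) * (1 + 2 * Real.log y)) =
      (1 / K) * (Real.log y / 2 - K - 1) := by
      field_simp
      ring
    have h6 : 0 ≤ (1 / (K : ℝ)) * (Real.log y / 2 - K - 1) := by
      apply mul_nonneg (by positivity)
      linarith
    linarith
  calc (1 / (d : ℝ)) * ∑ u ∈ range (y ^ 2), (1 : ℝ) / ((K * u + 1 : ℕ) : ℝ)
      ≤ (1 / d) * (5 * ∑ t ∈ Ico y (y ^ 2), (1 : ℝ) / ((b + K * t : ℕ) : ℝ)) := by
        gcongr
        linarith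
    _ = _ := by ring

end Run7.h499
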