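import Mathlib
import Pool.Agent.Run7.h499.TupleMass

set_option autoImplicit false

/-! # Many tuples from given residue classes with squarefree product -/

namespace Run7.h499

open Finset

/-- the elements of the progressions -/
def FT {r : ℕ} (K : ℕ) (b : Fin r → ℕ) (i : Fin r) (t : ℕ) : ℕ := b i + K * t

/-- the box -/
def AT {r : ℕ} (y : Fin r → ℕ) (i : Fin r) : Finset ℕ := Ico (y i) (y i ^ 2)

/-- all tuples -/
def BT {r : ℕ} (y : Fin r → ℕ) : Finset (Fin r → ℕ) := Fintype.piFinset (AT y)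

/-- tuples with squarefree product -/
noncomputable def GT {r : ℕ} (K : ℕ) (b y : Fin r → ℕ) : Finset (Fin r → ℕ) := by
  classical
  exact (BT y).filter (fun t => Squarefree (∏ i, FT K b i (t i)))

theorem sum_inv_sq_le (z B : ℕ) (hz : 1 ≤ z) :
    ∑ q ∈ Ioc z B, (1 : ℝ) / (q : ℝ) ^ 2 ≤ 1 / z := by
  rcases le_or_gt z B with h | h
  · have h1 := sum_Ioc_inv_sq_le_sub (α := ℝ) (k := z) (n := B) (by omega) h
    have h2 : (0 : ℝ) ≤ (B : ℝ)⁻¹ := by positivity
    calc ∑ q ∈ Ioc z B, (1 : ℝ) / (q : ℝ) ^ 2 = ∑ q ∈ Ioc z B, ((q : ℝ) ^ 2)⁻¹ := by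
          simp only [one_div]
      _ ≤ (z : ℝ)⁻¹ - (B : ℝ)⁻¹ := h1
      _ ≤ 1 / z := by
        rw [one_div]
        linarith
  · rw [Ioc_eq_empty (by omega), sum_empty]
    positivity

theorem tuple_mass {r : ℕ} (K : ℕ) (b y : Fin r → ℕ) (hK : 1 ≤ K)
    (hb : ∀ i, 1 ≤ b i ∧ b i ≤ K ∧ (b i).Coprime K)
    (hz : ∀ q : ℕ, q.Prime → q ≤ 50 * r ^ 2 → q ∣ K)
    (hy : ∀ i, 4 ≤ y i) (hlog : ∀ i, 2 * (K : ℝ) + 2 ≤ Real.log (y i)) :
    (1 / 2) * ∏ i, (Real.log (y i) / (2 * K)) ≤
      ∑ t ∈ GT K b y, ∏ i, (1 : ℝ) / (FT K b i (t i) : ℝ) := by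
  classical
  set L : Fin r → ℝ := fun i => ∑ t ∈ AT y i, (1 : ℝ) / (FT K b i t : ℝ) with hL
  have hLlow : ∀ i, Real.log (y i) / (2 * K) ≤ L i := fun i =>
    L_lower K (b i) (y i) hK (hb i).2.1 (hy i)
  have hK0 : (0 : ℝ) < K := by exact_mod_cast hK
  have hLpos : ∀ i, 0 ≤ L i := fun i => sum_nonneg fun _ _ => by positivity
  have htot : ∑ t ∈ BT y, ∏ i, (1 : ℝ) / (FT K b i (t i) : ℝ) = ∏ i, L i := by
    unfold BT
    rw [← prod_univ_sum (AT y) (fun i t => (1 : ℝ) / (FT K b i t : ℝ))]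
  have hsplit : ∑ t ∈ BT y, ∏ i, (1 : ℝ) / (FT K b i (t i) : ℝ) =
      ∑ t ∈ GT K b y, ∏ i, (1 : ℝ) / (FT K b i (t i) : ℝ) +
      ∑ t ∈ (BT y).filter (fun t => ¬ Squarefree (∏ i, FT K b i (t i))),
        ∏ i, (1 : ℝ) / (FT K b i (t i) : ℝ) := by
    unfold GT
    rw [sum_filter_add_sum_filter_not]
  rcases Nat.eq_zero_or_pos r with hr | hr
  · subst hr
    have h1 : ∑ t ∈ (BT y).filter (fun t => ¬ Squarefree (∏ i, FT K b i (t i))),
        ∏ i, (1 : ℝ) / (FT K b i (t i) : ℝ) = 0 := by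
      apply sum_eq_zero
      intro t ht
      exfalso
      rw [mem_filter] at ht
      apply ht.2
      simp
    rw [h1, add_zero, htot] at hsplit
    rw [← hsplit]
    simp only [univ_eq_empty, prod_empty]
    norm_num
  -- bad tuples
  set Bd : ℕ := ∑ i, K * (y i) ^ 2 with hBd
  set z : ℕ := 50 * r ^ 2 with hz'
  have hz1 : 1 ≤ z := by
    have : 0 < r ^ 2 := by positivity
    omega
  have hFle : ∀ t ∈ BT y, ∀ i, FT K b i (t i) ≤ Bd := by
    intro t ht i
    unfold BT at ht
    rw [Fintype.mem_piFinset] at ht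
    have h1 := ht i
    unfold AT at h1
    rw [mem_Ico] at h1
    have h2 : FT K b i (t i) ≤ K * (y i) ^ 2 := by
      unfold FT
      have h3 : K * (t i + 1) ≤ K * y i ^ 2 := Nat.mul_le_mul_left _ (by omega)
      have h4 := (hb i).2.1
      have h5 : K * (t i + 1) = K * t i + K := by ring
      omega
    refine h2.trans ?_
    exact single_le_sum (f := fun i => K * (y i) ^ 2) (fun _ _ => Nat.zero_le _) (mem_univ i)
  have hFc : ∀ i t, (FT K b i t).Coprime K := by
    intro i t
    unfold FT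
    rw [Nat.coprime_add_mul_left_left]
    exact (hb i).2.2
  set Sq : ℕ × (Fin r × Fin r) → Finset (Fin r → ℕ) := fun p => Fintype.piFinset (fun x =>
    (AT y x).filter (fun t => if p.2.1 = p.2.2 ∧ x = p.2.1 then p.1 ^ 2 ∣ FT K b x t
      else (x = p.2.1 ∨ x = p.2.2 → p.1 ∣ FT K b x t))) with hSq
  set Idx : Finset (ℕ × (Fin r × Fin r)) :=
    ((Ioc z Bd).filter (fun q => q.Coprime K)) ×ˢ (univ ×ˢ univ) with hIdx
  have hsub : (BT y).filter (fun t => ¬ Squarefree (∏ i, FT K b i (t i))) ⊆ Idx.biUnion Sq := by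
    intro t ht
    rw [mem_filter] at ht
    obtain ⟨ht1, ht2⟩ := ht
    rw [Nat.squarefree_iff_prime_squarefree] at ht2
    push Not at ht2
    obtain ⟨q, hq, hqq⟩ := ht2
    have hq1 : q ∣ ∏ i, FT K b i (t i) := (Nat.dvd_mul_right q q).trans hqq
    obtain ⟨i, _, hi⟩ := (Prime.dvd_finsetProd_iff hq.prime _).1 hq1
    have hqK : q.Coprime K := Nat.Coprime.coprime_dvd_left hi (hFc i (t i))
    have hqz : z < q := by
      by_contra h
      have h1 := hz q hq (not_lt.1 h)
      have h2 := Nat.Coprime.eq_one_of_dvd hqK h1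
      exact hq.one_lt.ne' h2
    have hFpos : 0 < FT K b i (t i) := by
      unfold FT
      have := (hb i).1
      omega
    have hqB : q ≤ Bd := (Nat.le_of_dvd hFpos hi).trans (hFle t ht1 i)
    rw [mem_biUnion]
    have ht1' := ht1
    unfold BT at ht1'
    rw [Fintype.mem_piFinset] at ht1'
    obtain ⟨m, hm⟩ := hi
    rw [← mul_prod_erase univ (fun i => FT K b i (t i)) (mem_univ i)] at hqq
    rw [hm, mul_assoc] at hqq
    have h3 : q ∣ m * ∏ x ∈ univ.erase i, FT K b x (t x) :=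
      Nat.dvd_of_mul_dvd_mul_left hq.pos hqq
    rcases (Nat.Prime.dvd_mul hq).1 h3 with h4 | h4
    · refine ⟨(q, (i, i)), ?_, ?_⟩
      · rw [hIdx, mem_product, mem_filter, mem_Ioc]
        exact ⟨⟨⟨hqz, hqB⟩, hqK⟩, by simp⟩
      · rw [hSq, Fintype.mem_piFinset]
        intro x
        rw [mem_filter]
        refine ⟨ht1' x, ?_⟩
        simp only [true_and, or_self]
        split_ifs with h
        · rw [h, hm, sq]
          exact Nat.mul_dvd_mul_left q h4
        · intro h'
          exact absurd h' h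
    · obtain ⟨j, hj, hj2⟩ := (Prime.dvd_finsetProd_iff hq.prime _).1 h4
      rw [mem_erase] at hj
      refine ⟨(q, (i, j)), ?_, ?_⟩
      · rw [hIdx, mem_product, mem_filter, mem_Ioc]
        exact ⟨⟨⟨hqz, hqB⟩, hqK⟩, by simp⟩
      · rw [hSq, Fintype.mem_piFinset]
        intro x
        rw [mem_filter]
        refine ⟨ht1' x, ?_⟩
        simp only
        rw [if_neg (fun h => hj.1 h.1.symm)]
        rintro (h | h)
        · rw [h, hm]
          exact Nat.dvd_mul_right q m
        · rw [h]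
          exact hj2
  have hone : ∀ p ∈ Idx, ∑ t ∈ Sq p, ∏ i, (1 : ℝ) / (FT K b i (t i) : ℝ) ≤
      25 * ((1 : ℝ) / (p.1 : ℝ) ^ 2) * ∏ i, L i := by
    rintro ⟨q, i, j⟩ hp
    rw [hIdx, mem_product, mem_filter, mem_Ioc] at hp
    simp only at hp
    have hq1 : 1 ≤ q := by omega
    have hq0 : (0 : ℝ) < q := by exact_mod_cast hq1
    rw [hSq]
    simp only
    rw [← prod_univ_sum (fun x => (AT y x).filter (fun t => if i = j ∧ x = i then q ^ 2 ∣ FT K b x t
      else (x = i ∨ x = j → q ∣ FT K b x t))) (fun i t => (1 : ℝ) / (FT K b i t : ℝ))]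
    have hfac : ∀ x : Fin r, ∑ t ∈ (AT y x).filter (fun t => if i = j ∧ x = i then
        q ^ 2 ∣ FT K b x t else (x = i ∨ x = j → q ∣ FT K b x t)), (1 : ℝ) / (FT K b x t : ℝ) ≤
        (if i = j ∧ x = i then 5 / (q : ℝ) ^ 2 else
          (if x = i then 5 / (q : ℝ) else 1) * (if x = j then 5 / (q : ℝ) else 1)) * L x := by
      intro x
      by_cases h1 : i = j ∧ x = i
      · simp only [h1, and_self, if_true]
        have h2 := L_upper K (b x) (y x) (q ^ 2) hK (hb x).1 (hb x).2.1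
          (Nat.Coprime.pow_left 2 hp.1.2) (Nat.one_le_pow _ _ hq1) (hy x) (hlog x)
        rw [Nat.cast_pow] at h2
        have hx : x = j := h1.2.trans h1.1
        subst hx
        exact h2
      · simp only [h1, if_false]
        by_cases h2 : x = i
        · have h3 : x ≠ j := fun h => h1 ⟨h2.symm.trans h, h2⟩
          have h4 := L_upper K (b x) (y x) q hK (hb x).1 (hb x).2.1 hp.1.2 hq1 (hy x) (hlog x)
          simp only [h2, true_or, true_imp_iff, if_true]
          rw [if_neg (h2 ▸ h3), mul_one, ← h2]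
          exact h4
        · by_cases h3 : x = j
          · have h4 := L_upper K (b x) (y x) q hK (hb x).1 (hb x).2.1 hp.1.2 hq1 (hy x) (hlog x)
            simp only [h3, or_true, true_imp_iff, if_true]
            rw [if_neg (h3 ▸ h2), one_mul, ← h3]
            exact h4
          · simp only [h2, h3, or_self, false_imp_iff, filter_true, if_false, one_mul]
            exact le_rfl
    refine (prod_le_prod (fun x _ => sum_nonneg fun _ _ => by positivity) (fun x _ => hfac x)).trans ?_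
    rw [prod_mul_distrib]
    apply mul_le_mul_of_nonneg_right _ (prod_nonneg fun x _ => hLpos x)
    by_cases hij : i = j
    · subst hij
      have e : ∀ x : Fin r, (if i = i ∧ x = i then 5 / (q : ℝ) ^ 2 else
          (if x = i then 5 / (q : ℝ) else 1) * (if x = i then 5 / (q : ℝ) else 1)) =
          if x = i then 5 / (q : ℝ) ^ 2 else 1 := by
        intro x
        by_cases h : x = i
        · simp [h]
        · simp [h]
      rw [prod_congr rfl (fun x _ => e x), prod_ite_eq' univ i, if_pos (mem_univ i)]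
      have : (0 : ℝ) ≤ 1 / (q : ℝ) ^ 2 := by positivity
      calc 5 / (q : ℝ) ^ 2 = 5 * (1 / (q : ℝ) ^ 2) := by ring
        _ ≤ 25 * (1 / (q : ℝ) ^ 2) := by nlinarith
    · have e : ∀ x : Fin r, (if i = j ∧ x = i then 5 / (q : ℝ) ^ 2 else
          (if x = i then 5 / (q : ℝ) else 1) * (if x = j then 5 / (q : ℝ) else 1)) =
          (if x = i then 5 / (q : ℝ) else 1) * (if x = j then 5 / (q : ℝ) else 1) := by
        intro x
        rw [if_neg (fun h => hij h.1)]
      rw [prod_congr rfl (fun x _ => e x), prod_mul_distrib, prod_ite_eq' univ i,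
        prod_ite_eq' univ j, if_pos (mem_univ i), if_pos (mem_univ j)]
      apply le_of_eq
      field_simp
      norm_num
  have hbad : ∑ t ∈ (BT y).filter (fun t => ¬ Squarefree (∏ i, FT K b i (t i))),
        ∏ i, (1 : ℝ) / (FT K b i (t i) : ℝ) ≤ (1 / 2) * ∏ i, L i := by
    have h1 : ∑ t ∈ (BT y).filter (fun t => ¬ Squarefree (∏ i, FT K b i (t i))),
        ∏ i, (1 : ℝ) / (FT K b i (t i) : ℝ) ≤
        ∑ t ∈ Idx.biUnion Sq, ∏ i, (1 : ℝ) / (FT K b i (t i) : ℝ) :=
      sum_le_sum_of_subset_of_nonneg hsub (fun t _ _ => prod_nonneg fun i _ => by positivity)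
    have h2 := sum_biUnion_le' Idx Sq (fun t => ∏ i, (1 : ℝ) / (FT K b i (t i) : ℝ))
      (fun t => prod_nonneg fun i _ => by positivity)
    refine (h1.trans h2).trans ((sum_le_sum hone).trans ?_)
    rw [← sum_mul]
    apply mul_le_mul_of_nonneg_right _ (prod_nonneg fun x _ => hLpos x)
    rw [hIdx, sum_product]
    simp only [sum_const, card_product, card_univ, Fintype.card_fin, nsmul_eq_mul]
    rw [← mul_sum, ← mul_sum]
    have h3 : ∑ q ∈ (Ioc z Bd).filter (fun q => q.Coprime K), (1 : ℝ) / (q : ℝ) ^ 2 ≤ 1 / z := by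
      refine le_trans ?_ (sum_inv_sq_le z Bd hz1)
      exact sum_le_sum_of_subset_of_nonneg (filter_subset _ _) (fun _ _ _ => by positivity)
    have h4 : (0 : ℝ) < r := by exact_mod_cast hr
    calc ((r * r : ℕ) : ℝ) * (25 * ∑ q ∈ (Ioc z Bd).filter (fun q => q.Coprime K), (1 : ℝ) / (q : ℝ) ^ 2)
        ≤ ((r * r : ℕ) : ℝ) * (25 * (1 / z)) := by gcongr
      _ = 1 / 2 := by
        rw [hz']
        push_cast
        field_simp
        norm_num
  have hprod : ∏ i, (Real.log (y i) / (2 * K)) ≤ ∏ i, L i := by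
    apply prod_le_prod
    · intro i _
      have : 0 ≤ Real.log (y i) := Real.log_natCast_nonneg _
      positivity
    · intro i _
      exact hLlow i
  rw [htot] at hsplit
  linarith

end Run7.h499
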