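import Mathlib
import Pool.Agent.Run7.h499.BVlow
import Pool.Agent.Run7.h499.TupleMass2

set_option autoImplicit false

/-! # From the theorem of Bombieri and Vinogradov to sums over primes -/

namespace Run7.h499

open Finset Filter Topology
open Pool.Agent.H410R2 (psiLogAP psiLog1 BVAP PNTLog)
open ArithmeticFunction (vonMangoldt)

/-- upper bound of the second difference -/
theorem second_upper_gen {ι : Type} (G : Finset ι) (qq rr : ι → ℕ) (X : ℝ) (hX : 1 ≤ X) :
    ∑ t ∈ G, (psiLogAP X (qq t) (rr t) - 2 * psiLogAP (X / 2) (qq t) (rr t) +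
      psiLogAP (X / 4) (qq t) (rr t)) ≤
      Real.log 2 * (∑ n ∈ (Icc 1 ⌊X⌋₊).filter (fun n : ℕ => n.Prime ∧ X / 4 < n),
        Real.log n * ((G.filter (fun t => n ≡ rr t [MOD qq t])).card : ℝ) +
        G.card * (2 * √X * Real.log X)) := by
  classical
  have hX0 : 0 < X := by linarith
  set M := ⌊X⌋₊ with hM
  have hl2 : 0 < Real.log 2 := Real.log_pos (by norm_num)
  have hstep : ∀ t ∈ G, psiLogAP X (qq t) (rr t) - 2 * psiLogAP (X / 2) (qq t) (rr t) +
      psiLogAP (X / 4) (qq t) (rr t) ≤ ∑ n ∈ (Icc 1 M).filter (fun n => n ≡ rr t [MOD qq t]),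
        vonMangoldt n * (if X / 4 < n then Real.log 2 else 0) := by
    intro t _
    rw [psiLogAP_eq X hX0 _ _ M le_rfl,
      psiLogAP_eq (X / 2) (by positivity) _ _ M (Nat.floor_le_floor (by linarith)),
      psiLogAP_eq (X / 4) (by positivity) _ _ M (Nat.floor_le_floor (by linarith)),
      mul_sum, ← sum_sub_distrib, ← sum_add_distrib]
    apply sum_le_sum
    intro n hn
    rw [mem_filter, mem_Icc] at hn
    have h1 := tent X hX0 n hn.1.1
    have h2 : 0 ≤ vonMangoldt n := ArithmeticFunction.vonMangoldt_nonneg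
    calc vonMangoldt n * LP X n - 2 * (vonMangoldt n * LP (X / 2) n) + vonMangoldt n * LP (X / 4) n
        = vonMangoldt n * (LP X n - 2 * LP (X / 2) n + LP (X / 4) n) := by ring
      _ ≤ _ := mul_le_mul_of_nonneg_left h1 h2
  refine (sum_le_sum hstep).trans ?_
  have h1 : ∑ t ∈ G, ∑ n ∈ (Icc 1 M).filter (fun n => n ≡ rr t [MOD qq t]),
        vonMangoldt n * (if X / 4 < n then Real.log 2 else 0) =
      ∑ n ∈ Icc 1 M, (vonMangoldt n * (if X / 4 < n then Real.log 2 else 0)) *
        ((G.filter (fun t => n ≡ rr t [MOD qq t])).card : ℝ) := by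
    simp only [sum_filter]
    rw [sum_comm]
    refine sum_congr rfl fun n _ => ?_
    rw [card_filter, Nat.cast_sum, mul_sum]
    refine sum_congr rfl fun q _ => ?_
    split_ifs <;> simp
  rw [h1, ← sum_filter_add_sum_filter_not (Icc 1 M) (fun n => n.Prime), mul_add]
  apply add_le_add
  · rw [mul_sum, show (Icc 1 M).filter (fun n : ℕ => n.Prime ∧ X / 4 < n) =
      ((Icc 1 M).filter (fun n => n.Prime)).filter (fun n : ℕ => X / 4 < n) by
        rw [filter_filter], sum_filter (s := (Icc 1 M).filter (fun n => n.Prime))]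
    apply sum_le_sum
    intro n hn
    rw [mem_filter, mem_Icc] at hn
    rw [ArithmeticFunction.vonMangoldt_apply_prime hn.2]
    split_ifs with h
    · apply le_of_eq
      ring
    · simp
  · have h2 : ∀ n ∈ (Icc 1 M).filter (fun n => ¬ n.Prime),
        (vonMangoldt n * (if X / 4 < n then Real.log 2 else 0)) *
        ((G.filter (fun t => n ≡ rr t [MOD qq t])).card : ℝ) ≤
        vonMangoldt n * (Real.log 2 * G.card) := by
      intro n _
      have h3 : ((G.filter (fun t => n ≡ rr t [MOD qq t])).card : ℝ) ≤ G.card := by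
        exact_mod_cast (card_filter_le _ _)
      have h4 : (if X / 4 < (n : ℝ) then Real.log 2 else 0) ≤ Real.log 2 := by
        split_ifs
        · exact le_rfl
        · exact hl2.le
      have h5 : (0 : ℝ) ≤ (if X / 4 < (n : ℝ) then Real.log 2 else 0) := by
        split_ifs
        · exact hl2.le
        · exact le_rfl
      have h6 : 0 ≤ vonMangoldt n := ArithmeticFunction.vonMangoldt_nonneg
      rw [mul_assoc]
      gcongr
    refine (sum_le_sum h2).trans ?_
    rw [← sum_mul]
    have h3 := Chebyshev.psi_sub_theta_eq_sum_not_prime X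
    have h4 := Chebyshev.psi_sub_theta_le hX
    have h5 : Ioc 0 ⌊X⌋₊ = Icc 1 M := by
      ext n
      rw [mem_Ioc, mem_Icc]
      omega
    rw [h5] at h3
    rw [← h3]
    calc (Chebyshev.psi X - Chebyshev.theta X) * (Real.log 2 * G.card)
        ≤ (2 * √X * Real.log X) * (Real.log 2 * G.card) := by
          apply mul_le_mul_of_nonneg_right h4 (by positivity)
      _ = _ := by ring

/-- sums over tuples are dominated by sums over moduli -/
theorem tuple_sum_le {r : ℕ} (K : ℕ) (b y : Fin r → ℕ) (hK : 1 ≤ K) (N : ℕ) (E : ℕ → ℝ)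
    (hE : ∀ q, 0 ≤ E q) (hN : ∀ t ∈ GT K b y, 1 ≤ ∏ i, FT K b i (t i) ∧ ∏ i, FT K b i (t i) ≤ N)
    (P : ℕ → Prop) [DecidablePred P] (hP : ∀ t ∈ GT K b y, P (∏ i, FT K b i (t i))) :
    ∑ t ∈ GT K b y, E (∏ i, FT K b i (t i)) ≤
      ∑ q ∈ (Icc 1 N).filter (fun q => Squarefree q ∧ P q), (r : ℝ) ^ q.primeFactors.card * E q := by
  classical
  have hmaps : ∀ t ∈ GT K b y, (∏ i, FT K b i (t i)) ∈
      (Icc 1 N).filter (fun q => Squarefree q ∧ P q) := by
    intro t ht
    rw [mem_filter, mem_Icc]
    refine ⟨hN t ht, ?_, hP t ht⟩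
    unfold GT at ht
    exact (mem_filter.1 ht).2
  rw [← sum_fiberwise_of_maps_to hmaps]
  apply sum_le_sum
  intro q hq
  rw [mem_filter] at hq
  have h1 : ∑ t ∈ (GT K b y).filter (fun t => ∏ i, FT K b i (t i) = q), E (∏ i, FT K b i (t i)) =
      (((GT K b y).filter (fun t => ∏ i, FT K b i (t i) = q)).card : ℝ) * E q := by
    rw [← nsmul_eq_mul, ← sum_const]
    apply sum_congr rfl
    intro t ht
    rw [(mem_filter.1 ht).2]
  rw [h1]
  apply mul_le_mul_of_nonneg_right _ (hE q)
  have hq0 : q ≠ 0 := hq.2.1.ne_zero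
  have h2 : ((GT K b y).filter (fun t => ∏ i, FT K b i (t i) = q)).card ≤
      (Nat.finMulAntidiag r q).card := by
    apply card_le_card_of_injOn (fun t i => FT K b i (t i))
    · intro t ht
      rw [mem_coe, mem_filter] at ht
      rw [mem_coe, Nat.mem_finMulAntidiag]
      exact ⟨ht.2, hq0⟩
    · intro t _ t' _ h
      funext i
      have := congrFun h i
      simp only [FT] at this
      have h3 : K * t i = K * t' i := by omega
      exact Nat.eq_of_mul_eq_mul_left hK h3
  rw [Nat.card_finMulAntidiag_of_squarefree hq.2.1] at h2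
  have h3 : ArithmeticFunction.cardDistinctFactors q = q.primeFactors.card := by
    rw [ArithmeticFunction.cardDistinctFactors_apply]
    rfl
  rw [h3] at h2
  exact_mod_cast h2

end Run7.h499
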