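import Mathlib
import Pool.Agent.Run7.h499.BVgen

set_option autoImplicit false

/-! # Lower bound for the average number of residue classes -/

namespace Run7.h499

open Finset Filter Topology
open Pool.Agent.H410R2 (psiLogAP psiLog1 BVAP PNTLog)

/-- sizes -/
def yT (r T : ℕ) (i : Fin r) : ℕ := T ^ (3 ^ (r - 1 - (i : ℕ)))

/-- residues -/
def bT (b : ℕ → ℕ) (r : ℕ) (i : Fin r) : ℕ := b ((i : ℕ) + 1)

/-- products -/
def qT {r : ℕ} (K : ℕ) (b : ℕ → ℕ) (t : Fin r → ℕ) : ℕ := ∏ i, FT K (bT b r) i (t i)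

/-- the exponent -/
def ET (r : ℕ) : ℕ := r + 3 ^ r

/-- the residue class of the solutions of `5 n ≡ 4` -/
def rq5 (q : ℕ) : ℕ := (q + 4) / 5

theorem rq5_coprime {q : ℕ} (hq : q % 10 = 1) : (rq5 q).Coprime (1 * q) := by
  rw [one_mul]
  unfold rq5
  have h1 : 5 * ((q + 4) / 5) = q + 4 := by omega
  have h2 : Nat.Coprime (q + 4) q := by
    rw [Nat.coprime_self_add_left]
    have : Nat.Coprime 2 q := by
      rw [Nat.coprime_two_left, Nat.odd_iff]
      omega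
    exact Nat.Coprime.pow_left 2 this
  rw [← h1] at h2
  exact Nat.Coprime.coprime_mul_left h2

theorem dvd_of_rq5 {q n : ℕ} (hq : q % 10 = 1) (hn : 1 ≤ n) (h : n ≡ rq5 q [MOD q]) :
    q ∣ 5 * n - 4 := by
  have h1 : 5 * rq5 q = q + 4 := by
    unfold rq5
    omega
  have h2 : 5 * n ≡ q + 4 [MOD q] := by
    rw [← h1]
    exact Nat.ModEq.mul_left 5 h
  have h3 : 5 * n ≡ 4 [MOD q] := by
    refine h2.trans ?_
    unfold Nat.ModEq
    rw [Nat.add_mod_left]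
  exact (Nat.modEq_iff_dvd' (by omega)).1 h3.symm

theorem sum_exp (r : ℕ) : ∑ i : Fin r, (1 + 2 * 3 ^ (r - 1 - (i : ℕ))) + 1 = r + 3 ^ r := by
  have h1 : ∑ i : Fin r, (1 + 2 * 3 ^ (r - 1 - (i : ℕ))) =
      ∑ i ∈ range r, (1 + 2 * 3 ^ (r - 1 - i)) :=
    Fin.sum_univ_eq_sum_range (fun i => 1 + 2 * 3 ^ (r - 1 - i)) r
  rw [h1, sum_range_reflect (fun i => 1 + 2 * 3 ^ i) r]
  clear h1
  induction r with
  | zero => rfl
  | succ r ih =>
    rw [sum_range_succ, pow_succ]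
    omega

theorem mem_BT {r : ℕ} {y t : Fin r → ℕ} (h : t ∈ BT y) (i : Fin r) :
    y i ≤ t i ∧ t i < y i ^ 2 := by
  unfold BT at h
  rw [Fintype.mem_piFinset] at h
  have := h i
  unfold AT at this
  rwa [mem_Ico] at this

theorem GT_sub {r : ℕ} (K : ℕ) (b y : Fin r → ℕ) : GT K b y ⊆ BT y := by
  unfold GT
  exact filter_subset _ _

theorem qT_le {r T K : ℕ} (hT : 1 ≤ T) (b : ℕ → ℕ) (hb : ∀ j, 1 ≤ j → j ≤ r → b j ≤ K) (hKT : K ≤ T)
    {t : Fin r → ℕ} (ht : t ∈ BT (yT r T)) : qT K b t ≤ T ^ ET r := by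
  have h1 : qT K b t ≤ ∏ i : Fin r, T ^ (1 + 2 * 3 ^ (r - 1 - (i : ℕ))) := by
    unfold qT
    apply prod_le_prod' 
    intro i _
    obtain ⟨h2, h3⟩ := mem_BT ht i
    unfold FT bT
    unfold yT at h2 h3
    have h4 := hb (i + 1) (by omega) (by omega)
    have h5 : K * (t i + 1) ≤ T * (T ^ 3 ^ (r - 1 - (i : ℕ))) ^ 2 := Nat.mul_le_mul hKT h3
    calc b (↑i + 1) + K * t i ≤ K * (t i + 1) := by
          rw [mul_add]
          omega
      _ ≤ T * (T ^ 3 ^ (r - 1 - (i : ℕ))) ^ 2 := h5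
      _ = _ := by
        rw [← pow_mul, pow_add, pow_one, mul_comm 2]
  rw [prod_pow_eq_pow_sum] at h1
  refine h1.trans (Nat.pow_le_pow_right hT ?_)
  have := sum_exp r
  unfold ET
  omega

theorem card_BT_le {r T : ℕ} (hT : 1 ≤ T) : (BT (yT r T)).card ≤ T ^ ET r := by
  unfold BT
  rw [Fintype.card_piFinset]
  have h1 : ∏ i, (AT (yT r T) i).card ≤ ∏ i : Fin r, T ^ (1 + 2 * 3 ^ (r - 1 - (i : ℕ))) := by
    apply prod_le_prod'
    intro i _
    unfold AT yT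
    rw [Nat.card_Ico]
    calc (T ^ 3 ^ (r - 1 - (i : ℕ))) ^ 2 - T ^ 3 ^ (r - 1 - (i : ℕ))
        ≤ (T ^ 3 ^ (r - 1 - (i : ℕ))) ^ 2 := Nat.sub_le _ _
      _ = T ^ (3 ^ (r - 1 - (i : ℕ)) * 2) := by rw [pow_mul]
      _ ≤ _ := Nat.pow_le_pow_right hT (by omega)
  rw [prod_pow_eq_pow_sum] at h1
  refine h1.trans (Nat.pow_le_pow_right hT ?_)
  have := sum_exp r
  unfold ET
  omega

theorem qT_mod {r K : ℕ} (b : ℕ → ℕ) (hb : ∀ j, 1 ≤ j → j ≤ r → b j % 10 = 1) (hK : 10 ∣ K)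
    (t : Fin r → ℕ) : qT K b t % 10 = 1 := by
  unfold qT
  rw [prod_nat_mod]
  have h : ∀ i : Fin r, FT K (bT b r) i (t i) % 10 = 1 := by
    intro i
    unfold FT bT
    obtain ⟨c, hc⟩ := hK
    have h1 := hb (i + 1) (by omega) (by omega)
    rw [hc, mul_assoc]
    omega
  rw [prod_congr rfl (fun i _ => h i)]
  simp

theorem one_le_qT {r K : ℕ} (b : ℕ → ℕ) (hb : ∀ j, 1 ≤ j → j ≤ r → b j % 10 = 1) (hK : 10 ∣ K)
    (t : Fin r → ℕ) : 1 ≤ qT K b t := by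
  have := qT_mod b hb hK t
  omega

/-- the second difference of `psiLog1` -/
theorem second_psi : ∀ᶠ X : ℝ in atTop,
    X / 8 ≤ psiLog1 X - 2 * psiLog1 (X / 2) + psiLog1 (X / 4) := by
  have h : PNTLog := Pool.Agent.H732R2.pntLog
  unfold PNTLog at h
  have h1 := (Metric.tendsto_atTop.1 h) (1 / 18) (by norm_num)
  obtain ⟨N, hN⟩ := h1
  filter_upwards [eventually_ge_atTop (max 4 (4 * N))] with X hX
  have hX4 : 4 ≤ X := (le_max_left _ _).trans hX
  have hXN : 4 * N ≤ X := (le_max_right _ _).trans hX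
  have key : ∀ Y : ℝ, N ≤ Y → 0 < Y → |psiLog1 Y - Y| ≤ (1 / 18) * Y := by
    intro Y hY hY0
    have h2 := hN Y hY
    rw [Real.dist_eq] at h2
    have h3 : psiLog1 Y - Y = (psiLog1 Y / Y - 1) * Y := by
      field_simp
    rw [h3, abs_mul, abs_of_pos hY0]
    gcongr
  rcases le_or_gt 0 N with hN0 | hN0
  · have a1 := abs_le.1 (key X (by linarith) (by linarith))
    have a2 := abs_le.1 (key (X / 2) (by linarith) (by linarith))
    have a3 := abs_le.1 (key (X / 4) (by linarith) (by linarith))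
    linarith [a1.1, a1.2, a2.1, a2.2, a3.1, a3.2]
  · have a1 := abs_le.1 (key X (by linarith) (by linarith))
    have a2 := abs_le.1 (key (X / 2) (by linarith) (by linarith))
    have a3 := abs_le.1 (key (X / 4) (by linarith) (by linarith))
    linarith [a1.1, a1.2, a2.1, a2.2, a3.1, a3.2]

end Run7.h499
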