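import Mathlib
import Pool.Agent.Run7.h499.MassLow

set_option autoImplicit false

/-! # Lower bound for the average number of residue classes -/

namespace Run7.h499

open Finset Filter Topology
open Pool.Agent.H410R2 (psiLogAP psiLog1 BVAP PNTLog)

theorem bv_tuples (r K : ℕ) (hr : 1 ≤ r) (b : ℕ → ℕ) (hK : 1 ≤ K) (hK10 : 10 ∣ K)
    (hb : ∀ j, 1 ≤ j → j ≤ r → b j ≤ K ∧ b j % 10 = 1) :
    ∃ X₀ : ℝ, ∀ X : ℝ, X₀ ≤ X → ∀ T : ℕ, 1 ≤ T → K ≤ T → ((T ^ ET r : ℕ) : ℝ) ≤ X ^ (1 / 3 : ℝ) →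
      ∑ t ∈ GT K (bT b r) (yT r T), |psiLogAP X (qT K b t) (rq5 (qT K b t)) -
        psiLog1 X / ((qT K b t).totient : ℝ)| ≤ X / Real.log X := by
  obtain ⟨X₀, hX₀⟩ := bvap 1 le_rfl (r : ℝ) (by exact_mod_cast hr) (1 / 6) (by norm_num) 1
  refine ⟨X₀, fun X hX T hT hKT hTX => ?_⟩
  have h1 := hX₀ X hX rq5
  rw [show (1 / 2 - 1 / 6 : ℝ) = 1 / 3 by norm_num, pow_one] at h1
  refine le_trans ?_ h1
  have h2 := tuple_sum_le K (bT b r) (yT r T) hK ⌊X ^ (1 / 3 : ℝ)⌋₊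
    (fun q => |psiLogAP X (1 * q) (rq5 q) - psiLog1 X / (Nat.totient (1 * q) : ℝ)|)
    (fun q => abs_nonneg _) (fun t ht => ?_) (fun q => (rq5 q).Coprime (1 * q)) (fun t _ => ?_)
  · simp only [one_mul] at h2 ⊢
    exact h2
  · constructor
    · exact one_le_qT b (fun j h1 h2 => (hb j h1 h2).2) hK10 t
    · apply Nat.le_floor
      refine le_trans ?_ hTX
      exact_mod_cast qT_le hT b (fun j h1 h2 => (hb j h1 h2).1) hKT (GT_sub _ _ _ ht)
  · exact rq5_coprime (qT_mod b (fun j h1 h2 => (hb j h1 h2).2) hK10 t)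

/-- the parameter -/
noncomputable def TX (r : ℕ) (X : ℝ) : ℕ := ⌊X ^ (1 / (4 * (ET r : ℝ)))⌋₊

theorem ET_pos (r : ℕ) : 1 ≤ ET r := by
  unfold ET
  have : 0 < 3 ^ r := by positivity
  omega

theorem TX_pow_le (r : ℕ) (X : ℝ) (hX : 0 ≤ X) : ((TX r X ^ ET r : ℕ) : ℝ) ≤ X ^ (1 / 4 : ℝ) := by
  have hE : (0 : ℝ) < ET r := by exact_mod_cast ET_pos r
  have h1 : (TX r X : ℝ) ≤ X ^ (1 / (4 * (ET r : ℝ))) := Nat.floor_le (by positivity)
  push_cast
  calc (TX r X : ℝ) ^ ET r ≤ (X ^ (1 / (4 * (ET r : ℝ)))) ^ ET r := by gcongr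
    _ = X ^ (1 / 4 : ℝ) := by
      rw [← Real.rpow_natCast, ← Real.rpow_mul hX]
      congr 1
      field_simp

theorem TX_tendsto (r : ℕ) : Tendsto (fun X : ℝ => TX r X) atTop atTop := by
  have hE : (0 : ℝ) < ET r := by exact_mod_cast ET_pos r
  exact tendsto_nat_floor_atTop.comp (tendsto_rpow_atTop (by positivity))

theorem log_TX_ge (r : ℕ) : ∀ᶠ X : ℝ in atTop,
    Real.log X / (8 * ET r) ≤ Real.log (TX r X) := by
  have hE : (0 : ℝ) < ET r := by exact_mod_cast ET_pos r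
  filter_upwards [(TX_tendsto r).eventually_ge_atTop 2, eventually_ge_atTop (1 : ℝ)] with X h2 hX1
  have hX0 : 0 < X := by linarith
  have h3 : X ^ (1 / (4 * (ET r : ℝ))) ≤ (TX r X : ℝ) ^ 2 := by
    have h4 : X ^ (1 / (4 * (ET r : ℝ))) < TX r X + 1 := Nat.lt_floor_add_one _
    have h5 : (2 : ℝ) ≤ TX r X := by exact_mod_cast h2
    nlinarith
  have h4 : Real.log (X ^ (1 / (4 * (ET r : ℝ)))) ≤ Real.log ((TX r X : ℝ) ^ 2) :=
    Real.log_le_log (by positivity) h3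
  rw [Real.log_rpow hX0, Real.log_pow] at h4
  push_cast at h4
  calc Real.log X / (8 * ET r) = (1 / (4 * (ET r : ℝ)) * Real.log X) / 2 := by
        field_simp
        ring
    _ ≤ _ := by linarith

theorem pp_bound (X g : ℝ) (hg : g ≤ X ^ (1 / 4 : ℝ)) (hX : 1 ≤ X)
    (h : 256 * Real.log X ≤ X ^ (1 / 4 : ℝ)) : g * (2 * √X * Real.log X) ≤ X / 128 := by
  have hX0 : 0 < X := by linarith
  have hlogX0 : 0 ≤ Real.log X := Real.log_nonneg hX
  calc g * (2 * √X * Real.log X) ≤ X ^ (1 / 4 : ℝ) * (2 * √X * (X ^ (1 / 4 : ℝ) / 256)) := by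
        have : Real.log X ≤ X ^ (1 / 4 : ℝ) / 256 := by linarith
        gcongr
    _ = (X ^ (1 / 4 : ℝ) * X ^ (1 / 4 : ℝ) * √X) / 128 := by ring
    _ = X / 128 := by
        rw [Real.sqrt_eq_rpow, ← Real.rpow_add hX0, ← Real.rpow_add hX0]
        norm_num

theorem rpow_aux (X : ℝ) (hX256 : 256 ≤ X) : X ^ (1 / 4 : ℝ) ≤ (X / 4) ^ (1 / 3 : ℝ) := by
  have hX0 : 0 < X := by linarith
  have e1 : (X / 4) ^ (1 / 3 : ℝ) = X ^ (1 / 3 : ℝ) / 4 ^ (1 / 3 : ℝ) := by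
    rw [Real.div_rpow hX0.le (by norm_num)]
  have e2 : X ^ (1 / 3 : ℝ) = X ^ (1 / 4 : ℝ) * X ^ (1 / 12 : ℝ) := by
    rw [← Real.rpow_add hX0]
    norm_num
  have e3 : (4 : ℝ) ^ (1 / 3 : ℝ) ≤ X ^ (1 / 12 : ℝ) := by
    have : (4 : ℝ) ^ (1 / 3 : ℝ) = (256 : ℝ) ^ (1 / 12 : ℝ) := by
      rw [show (256 : ℝ) = 4 ^ (4 : ℝ) by norm_num, ← Real.rpow_mul (by norm_num)]
      norm_num
    rw [this]
    gcongr
  rw [e1, e2, le_div_iff₀ (by positivity)]
  gcongr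

/-- the mass of the tuples -/
theorem mass_tuples (r K : ℕ) (b : ℕ → ℕ) (hK : 1 ≤ K) (hK10 : 10 ∣ K)
    (hz : ∀ q : ℕ, q.Prime → q ≤ 50 * r ^ 2 → q ∣ K)
    (hb : ∀ j, 1 ≤ j → j ≤ r → 1 ≤ b j ∧ b j ≤ K ∧ (b j).Coprime K ∧ b j % 10 = 1)
    (T : ℕ) (hT : 4 ≤ T) (hlogT : 2 * (K : ℝ) + 2 ≤ Real.log T) :
    (1 / 2) * (Real.log T / (2 * K)) ^ r ≤
      ∑ t ∈ GT K (bT b r) (yT r T), (1 : ℝ) / ((qT K b t).totient : ℝ) := by
  have hK0 : (0 : ℝ) < K := by exact_mod_cast hK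
  have hT1 : 1 ≤ T := by omega
  have hyT : ∀ i : Fin r, T ≤ yT r T i := by
    intro i
    unfold yT
    calc T = T ^ 1 := (pow_one T).symm
      _ ≤ T ^ 3 ^ (r - 1 - (i : ℕ)) := Nat.pow_le_pow_right hT1 (Nat.one_le_pow _ _ (by norm_num))
  have hlogy : ∀ i : Fin r, Real.log T ≤ Real.log (yT r T i) := by
    intro i
    apply Real.log_le_log (by exact_mod_cast hT1)
    exact_mod_cast hyT i
  have hmass := tuple_mass K (bT b r) (yT r T) hK
    (fun i => by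
      have := hb (i + 1) (by omega) (by omega)
      exact ⟨this.1, this.2.1, this.2.2.1⟩) hz
    (fun i => hT.trans (hyT i)) (fun i => hlogT.trans (hlogy i))
  have hlogT0 : 0 < Real.log T := by linarith
  have hprod : (Real.log T / (2 * K)) ^ r ≤ ∏ i : Fin r, (Real.log (yT r T i) / (2 * K)) := by
    have : ∏ i : Fin r, (Real.log T / (2 * K)) = (Real.log T / (2 * K)) ^ r := by
      rw [prod_const, card_univ, Fintype.card_fin]
    rw [← this]
    apply Finset.prod_le_prod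
    · intro i _
      positivity
    · intro i _
      exact div_le_div_of_nonneg_right (hlogy i) (by positivity)
  have h1 : ∑ t ∈ GT K (bT b r) (yT r T), ∏ i, (1 : ℝ) / (FT K (bT b r) i (t i) : ℝ) ≤
      ∑ t ∈ GT K (bT b r) (yT r T), (1 : ℝ) / ((qT K b t).totient : ℝ) := by
    apply sum_le_sum
    intro t _
    rw [prod_div_distrib, prod_const_one]
    have hq1 := one_le_qT (r := r) b (fun j h1 h2 => (hb j h1 h2).2.2.2) hK10 t
    have e : ∏ i, (FT K (bT b r) i (t i) : ℝ) = ((qT K b t : ℕ) : ℝ) := by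
      unfold qT
      push_cast
      rfl
    rw [e]
    apply one_div_le_one_div_of_le
    · exact_mod_cast Nat.totient_pos.2 (by omega)
    · exact_mod_cast Nat.totient_le _
  linarith

/-- lower bound of the second differences -/
theorem low_tuples (r K : ℕ) (b : ℕ → ℕ) (hK10 : 10 ∣ K)
    (hb : ∀ j, 1 ≤ j → j ≤ r → b j % 10 = 1) (X e W : ℝ) (hX : 0 < X)
    (hpsi : X / 8 ≤ psiLog1 X - 2 * psiLog1 (X / 2) + psiLog1 (X / 4))
    (G : Finset (Fin r → ℕ))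
    (hE1 : ∑ t ∈ G, |psiLogAP X (qT K b t) (rq5 (qT K b t)) -
        psiLog1 X / ((qT K b t).totient : ℝ)| ≤ e)
    (hE2 : ∑ t ∈ G, |psiLogAP (X / 2) (qT K b t) (rq5 (qT K b t)) -
        psiLog1 (X / 2) / ((qT K b t).totient : ℝ)| ≤ e)
    (hE3 : ∑ t ∈ G, |psiLogAP (X / 4) (qT K b t) (rq5 (qT K b t)) -
        psiLog1 (X / 4) / ((qT K b t).totient : ℝ)| ≤ e)
    (hW : W ≤ ∑ t ∈ G, (1 : ℝ) / ((qT K b t).totient : ℝ)) :
    (X / 8) * W - 4 * e ≤
      ∑ t ∈ G, (psiLogAP X (qT K b t) (rq5 (qT K b t)) -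
        2 * psiLogAP (X / 2) (qT K b t) (rq5 (qT K b t)) +
        psiLogAP (X / 4) (qT K b t) (rq5 (qT K b t))) := by
  have h1 : ∀ t ∈ G, (X / 8) * (1 / ((qT K b t).totient : ℝ)) -
      (|psiLogAP X (qT K b t) (rq5 (qT K b t)) - psiLog1 X / ((qT K b t).totient : ℝ)| +
      2 * |psiLogAP (X / 2) (qT K b t) (rq5 (qT K b t)) - psiLog1 (X / 2) / ((qT K b t).totient : ℝ)| +
      |psiLogAP (X / 4) (qT K b t) (rq5 (qT K b t)) - psiLog1 (X / 4) / ((qT K b t).totient : ℝ)|) ≤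
      (psiLogAP X (qT K b t) (rq5 (qT K b t)) -
      2 * psiLogAP (X / 2) (qT K b t) (rq5 (qT K b t)) +
      psiLogAP (X / 4) (qT K b t) (rq5 (qT K b t))) := by
    intro t _
    set φ : ℝ := ((qT K b t).totient : ℝ) with hφ
    have hφ0 : 0 < φ := by
      have hq1 := one_le_qT (r := r) b hb hK10 t
      rw [hφ]
      exact_mod_cast Nat.totient_pos.2 (by omega)
    have h2 : (X / 8) * (1 / φ) ≤ psiLog1 X / φ - 2 * (psiLog1 (X / 2) / φ) + psiLog1 (X / 4) / φ := by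
      have e : psiLog1 X / φ - 2 * (psiLog1 (X / 2) / φ) + psiLog1 (X / 4) / φ =
        (psiLog1 X - 2 * psiLog1 (X / 2) + psiLog1 (X / 4)) * (1 / φ) := by ring
      rw [e]
      apply mul_le_mul_of_nonneg_right hpsi (by positivity)
    have a1 := neg_abs_le (psiLogAP X (qT K b t) (rq5 (qT K b t)) - psiLog1 X / φ)
    have a2 := le_abs_self (psiLogAP (X / 2) (qT K b t) (rq5 (qT K b t)) - psiLog1 (X / 2) / φ)
    have a3 := neg_abs_le (psiLogAP (X / 4) (qT K b t) (rq5 (qT K b t)) - psiLog1 (X / 4) / φ)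
    linarith
  have h2 := sum_le_sum h1
  rw [sum_sub_distrib, ← mul_sum, sum_add_distrib, sum_add_distrib, ← mul_sum] at h2
  have h3 : (X / 8) * W ≤ (X / 8) * ∑ t ∈ G, (1 : ℝ) / ((qT K b t).totient : ℝ) := by
    gcongr
  linarith

/-- the number of tuples attached to a prime -/
noncomputable def cT (r K : ℕ) (b : ℕ → ℕ) (X : ℝ) (n : ℕ) : ℕ :=
  ((GT K (bT b r) (yT r (TX r X))).filter (fun t => n ≡ rq5 (qT K b t) [MOD qT K b t])).card

/-- conversion of the weights -/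
theorem conv_weights (X : ℝ) (hX : 1 < X) (g : ℕ → ℕ) :
    ∑ n ∈ (Icc 1 ⌊X⌋₊).filter (fun n : ℕ => n.Prime ∧ X / 4 < n), Real.log n * (g n : ℝ) ≤
      (X * Real.log X) * ∑ n ∈ (Icc 1 ⌊X⌋₊).filter (fun n : ℕ => n.Prime ∧ X / 4 < n),
        (g n : ℝ) / n := by
  have hX0 : 0 < X := by linarith
  have hlogX0 : 0 < Real.log X := Real.log_pos hX
  rw [mul_sum]
  apply sum_le_sum
  intro n hn
  rw [mem_filter, mem_Icc] at hn
  have hn0 : (0 : ℝ) < n := by exact_mod_cast hn.1.1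
  have hnX : (n : ℝ) ≤ X := (Nat.le_floor_iff hX0.le).1 hn.1.2
  have h1 : Real.log n ≤ Real.log X := Real.log_le_log hn0 hnX
  calc Real.log n * (g n : ℝ) ≤ Real.log X * (g n : ℝ) := by gcongr
    _ ≤ (X / n) * (Real.log X * (g n : ℝ)) := by
        apply le_mul_of_one_le_left (by positivity)
        rw [one_le_div hn0]
        exact hnX
    _ = _ := by ring

theorem pow_conv (c L : ℝ) (r : ℕ) (hr : 1 ≤ r) (hL : L ≠ 0) :
    (1 / 32) * (1 / c) ^ r * L ^ (r - 1) = (1 / 32) * (L / c) ^ r / L := by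
  obtain ⟨s, rfl⟩ : ∃ s, r = s + 1 := ⟨r - 1, by omega⟩
  rw [Nat.add_sub_cancel, show L / c = L * (1 / c) by ring, mul_pow, pow_succ L]
  field_simp

theorem mass_main (r K : ℕ) (hr : 1 ≤ r) (b : ℕ → ℕ) (hK : 1 ≤ K) (hK10 : 10 ∣ K)
    (hz : ∀ q : ℕ, q.Prime → q ≤ 50 * r ^ 2 → q ∣ K)
    (hb : ∀ j, 1 ≤ j → j ≤ r → 1 ≤ b j ∧ b j ≤ K ∧ (b j).Coprime K ∧ b j % 10 = 1) :
    ∃ c : ℝ, 0 < c ∧ ∀ᶠ X : ℝ in atTop,
      c * (Real.log X) ^ (r - 1) ≤ ∑ n ∈ (Icc 1 ⌊X⌋₊).filter (fun n : ℕ => n.Prime ∧ X / 4 < n),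
        (cT r K b X n : ℝ) / n := by
  obtain ⟨X₀, hX₀⟩ := bv_tuples r K hr b hK hK10 (fun j h1 h2 =>
    ⟨(hb j h1 h2).2.1, (hb j h1 h2).2.2.2⟩)
  have hE : (0 : ℝ) < ET r := by exact_mod_cast ET_pos r
  have hK0 : (0 : ℝ) < K := by exact_mod_cast hK
  refine ⟨(1 / 32) * (1 / (16 * ET r * K)) ^ r, by positivity, ?_⟩
  have hl1 : ∀ᶠ X : ℝ in atTop, 2 * (K : ℝ) + 2 ≤ Real.log X / (8 * ET r) := by
    have : Tendsto (fun X : ℝ => Real.log X / (8 * ET r)) atTop atTop :=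
      Real.tendsto_log_atTop.atTop_div_const (by positivity)
    exact this.eventually_ge_atTop _
  have hl2 : ∀ᶠ X : ℝ in atTop, 1024 ≤ Real.log (X / 4) := by
    have : Tendsto (fun X : ℝ => Real.log (X / 4)) atTop atTop :=
      Real.tendsto_log_atTop.comp (tendsto_id.atTop_div_const (by norm_num))
    exact this.eventually_ge_atTop _
  have hl3 : ∀ᶠ X : ℝ in atTop, 256 * Real.log X ≤ X ^ (1 / 4 : ℝ) := by
    have h1 := isLittleO_log_rpow_atTop (r := 1 / 4) (by norm_num)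
    have h2 := h1.def (c := 1 / 256) (by norm_num)
    filter_upwards [h2, eventually_ge_atTop (1 : ℝ)] with X hX hX1
    rw [Real.norm_eq_abs, Real.norm_eq_abs, abs_of_nonneg (Real.log_nonneg hX1),
      abs_of_nonneg (by positivity)] at hX
    linarith
  filter_upwards [second_psi, log_TX_ge r, hl1, hl2, hl3, (TX_tendsto r).eventually_ge_atTop (K + 4),
    eventually_ge_atTop (4 * X₀), eventually_ge_atTop X₀, eventually_ge_atTop (2 * X₀),
    eventually_ge_atTop (256 : ℝ)] with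
    X hpsi hlogT hlog1 hlog2 hlog3 hTK hX4 hX1 hX2 hX256
  have hX0 : 0 < X := by linarith
  have hT1 : 1 ≤ TX r X := by omega
  have hKT : K ≤ TX r X := by omega
  have hTpow : ((TX r X ^ ET r : ℕ) : ℝ) ≤ X ^ (1 / 4 : ℝ) := TX_pow_le r X hX0.le
  have hmono : ∀ Y : ℝ, X / 4 ≤ Y → ((TX r X ^ ET r : ℕ) : ℝ) ≤ Y ^ (1 / 3 : ℝ) := by
    intro Y hY
    refine hTpow.trans ((rpow_aux X hX256).trans ?_)
    gcongr
  have hlogpos : 0 < Real.log (X / 4) := by linarith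
  have hlog12 : Real.log (X / 4) ≤ Real.log X := Real.log_le_log (by positivity) (by linarith)
  have hlog13 : Real.log (X / 4) ≤ Real.log (X / 2) := Real.log_le_log (by positivity) (by linarith)
  have hb1 : X / Real.log X ≤ X / 1024 := by
    apply div_le_div_of_nonneg_left hX0.le (by norm_num) (by linarith)
  have hb2 : X / 2 / Real.log (X / 2) ≤ X / 1024 := by
    apply div_le_div₀ hX0.le (by linarith) (by norm_num) (by linarith)
  have hb3 : X / 4 / Real.log (X / 4) ≤ X / 1024 := by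
    apply div_le_div₀ hX0.le (by linarith) (by norm_num) (by linarith)
  have hE1 := (hX₀ X hX1 (TX r X) hT1 hKT (hmono X (by linarith))).trans hb1
  have hE2 := (hX₀ (X / 2) (by linarith) (TX r X) hT1 hKT (hmono (X / 2) (by linarith))).trans hb2
  have hE3 := (hX₀ (X / 4) (by linarith) (TX r X) hT1 hKT (hmono (X / 4) le_rfl)).trans hb3
  have hW := mass_tuples r K b hK hK10 hz hb (TX r X) (by omega) (hlog1.trans hlogT)
  have hlow := low_tuples r K b hK10 (fun j h1 h2 => (hb j h1 h2).2.2.2) X (X / 1024) _ hX0 hpsi _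
    hE1 hE2 hE3 hW
  have hup := second_upper_gen (GT K (bT b r) (yT r (TX r X))) (fun t => qT K b t)
    (fun t => rq5 (qT K b t)) X (by linarith)
  have hcardG : ((GT K (bT b r) (yT r (TX r X))).card : ℝ) ≤ X ^ (1 / 4 : ℝ) := by
    refine le_trans ?_ hTpow
    exact_mod_cast (card_le_card (GT_sub _ _ _)).trans (card_BT_le hT1)
  have hpp := pp_bound X _ hcardG (by linarith) hlog3
  have hconv := conv_weights X (by linarith) (cT r K b X)
  have hlogX0 : 0 < Real.log X := by linarith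
  have hl2le : Real.log 2 ≤ 1 := by
    have := Real.log_two_lt_d9
    linarith
  set W := (Real.log (TX r X) / (2 * K)) ^ r with hWdef
  have hW1 : 1 ≤ W := by
    apply one_le_pow₀
    rw [one_le_div (by positivity)]
    linarith [hlog1.trans hlogT]
  have hW2 : (Real.log X / (16 * ET r * K)) ^ r ≤ W := by
    rw [hWdef]
    apply pow_le_pow_left₀ (by positivity)
    have : Real.log X / (16 * ET r * K) = (Real.log X / (8 * ET r)) / (2 * K) := by
      field_simp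
      ring
    rw [this]
    gcongr
  have hfinal : ∀ Sm Sp R : ℝ, 0 ≤ Sm → 0 ≤ Sp → Sp ≤ X / 128 → Sm ≤ (X * Real.log X) * R →
      (X / 8) * ((1 / 2) * W) - 4 * (X / 1024) ≤ Real.log 2 * (Sm + Sp) →
      (1 / 32) * W / Real.log X ≤ R := by
    intro Sm Sp R h0 h1 h2 h3 h4
    have h5 : Real.log 2 * (Sm + Sp) ≤ 1 * (Sm + Sp) :=
      mul_le_mul_of_nonneg_right hl2le (by linarith)
    have h6 : X ≤ X * W := by nlinarith
    have h7 : (X / 32) * W ≤ Sm := by linarith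
    rw [div_le_iff₀ hlogX0]
    have h8 : X * ((1 / 32) * W) ≤ X * (R * Real.log X) := by linarith
    exact le_of_mul_le_mul_left h8 hX0
  have hR := hfinal _ _ _ (sum_nonneg fun n _ => mul_nonneg (Real.log_natCast_nonneg n)
    (Nat.cast_nonneg _)) (by positivity) hpp hconv (hlow.trans hup)
  refine le_trans ?_ hR
  calc (1 / 32) * (1 / (16 * ET r * K)) ^ r * (Real.log X) ^ (r - 1)
      = (1 / 32) * (Real.log X / (16 * ET r * K)) ^ r / Real.log X :=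
        pow_conv _ _ r hr hlogX0.ne'
    _ ≤ _ := by gcongr

end Run7.h499
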