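import Mathlib
import Pool.Agent.Run7.h499.Seq

set_option autoImplicit false

/-! # The number `log_2 S(n)` for `2 n - 1 = 7 ^ c * ∏ p_i ^ a_i` -/

namespace Run7.h499

open Finset

/-- the number of orbits of `2 ^ x` on `Z / M` -/
noncomputable def FD (x M : ℕ) : ℕ := ∑ d ∈ M.divisors, idx d * Nat.gcd (orderOf (2 : ZMod d)) x

theorem idx_mul {m n : ℕ} (hm : Odd m) (hn : Odd n) (h : m.Coprime n) :
    idx (m * n) = idx m * idx n * Nat.gcd (orderOf (2 : ZMod m)) (orderOf (2 : ZMod n)) := by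
  have h1 := idx_mul_ord (hm.mul hn)
  rw [Nat.totient_mul h, ← idx_mul_ord hm, ← idx_mul_ord hn, ord_mul h] at h1
  have h2 : 0 < orderOf (2 : ZMod m) := ord_pos hm
  have h3 : 0 < orderOf (2 : ZMod n) := ord_pos hn
  generalize orderOf (2 : ZMod m) = x at *
  generalize orderOf (2 : ZMod n) = y at *
  have h4 : 0 < Nat.lcm x y := Nat.lcm_pos h2 h3
  apply Nat.eq_of_mul_eq_mul_right h4
  rw [h1]
  have h5 := Nat.gcd_mul_lcm x y
  calc idx m * x * (idx n * y) = idx m * idx n * (x * y) := by ring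
    _ = _ := by rw [← h5]; ring

theorem FD_mul_pow {M p : ℕ} (x a : ℕ) (hM : Odd M) (hp : p.Prime) (hodd : Odd p)
    (h : M.Coprime p) :
    FD x (M * p ^ a) = FD x M + ∑ b ∈ range a, ∑ d ∈ M.divisors,
      idx d * idx (p ^ (b + 1)) * Nat.gcd (orderOf (2 : ZMod d)) (orderOf (2 : ZMod (p ^ (b + 1)))) *
      Nat.gcd (Nat.lcm (orderOf (2 : ZMod d)) (orderOf (2 : ZMod (p ^ (b + 1))))) x := by
  unfold FD
  have hM0 : M ≠ 0 := by
    rintro rfl
    exact absurd hM (by decide)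
  rw [sum_div_mul hM0 (pow_ne_zero _ hp.ne_zero) (h.pow_right a), sum_comm,
    Nat.sum_divisors_prime_pow hp, sum_range_succ', add_comm]
  congr 1
  · refine sum_congr rfl fun d _ => ?_
    rw [pow_zero, mul_one]
  · refine sum_congr rfl fun b _ => sum_congr rfl fun d hd => ?_
    have hd1 : d ∣ M := (Nat.mem_divisors.1 hd).1
    have hc : d.Coprime (p ^ (b + 1)) := (Nat.Coprime.coprime_dvd_left hd1 h).pow_right _
    rw [idx_mul (odd_of_dvd hM hd1) hodd.pow hc, ord_mul hc]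

theorem gcd_squeeze {A L T x : ℕ} (h1 : A ∣ L) (h2 : L ∣ A * T) (h3 : T.Coprime x) :
    Nat.gcd L x = Nat.gcd A x := by
  apply Nat.dvd_antisymm
  · apply Nat.dvd_gcd _ (Nat.gcd_dvd_right _ _)
    have h4 : Nat.gcd L x ∣ A * T := (Nat.gcd_dvd_left _ _).trans h2
    exact Nat.Coprime.dvd_of_dvd_mul_right
      (Nat.Coprime.coprime_dvd_left (Nat.gcd_dvd_right L x) h3.symm) h4
  · exact Nat.dvd_gcd ((Nat.gcd_dvd_left _ _).trans h1) (Nat.gcd_dvd_right _ _)

/-- the recursion for adding the next prime -/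
theorem FD_succ (a : ℕ → ℕ) (k x : ℕ) (hx : ∀ i ≤ k, x.Coprime (lp i) ∧ x.Coprime (pp i)) :
    FD x (MM a (k + 1)) = FD x (MM a k) +
      uu (pp k) (a k) * Nat.gcd (5 * 7 ^ k) x * FD (5 * 7 ^ k) (MM a k) := by
  rw [MM_succ, FD_mul_pow x (a k) (odd_MM a k) (pp_prime k) (odd_pp k) (pp_coprime_MM a k)]
  congr 1
  unfold uu FD
  rw [sum_mul, sum_mul]
  refine sum_congr rfl fun b _ => ?_
  rw [mul_sum]
  refine sum_congr rfl fun d hd => ?_
  have hd1 : d ∣ MM a k := (Nat.mem_divisors.1 hd).1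
  have ho := ord_dvd_MM hd1
  have hT1 : (TTk a k).Coprime (lp k * pp k ^ (b + 1 - vv (pp k))) :=
    Nat.Coprime.mul_right (lp_coprime_TTk a k).symm ((pp_coprime_TTk a k).symm.pow_right _)
  have h35 : (lp k * pp k ^ (b + 1 - vv (pp k))).Coprime (5 * 7 ^ k) := by
    have h5 := small_coprime (q := 5) (by norm_num) (by norm_num) k
    have h7 := small_coprime (q := 7) (by norm_num) (by norm_num) k
    apply Nat.Coprime.mul_left
    · exact Nat.Coprime.mul_right h5.1.symm (h7.1.symm.pow_right _)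
    · exact (Nat.Coprime.mul_right h5.2.symm (h7.2.symm.pow_right _)).pow_left _
  rw [ord_pp_pow]
  have e1 : Nat.gcd (orderOf (2 : ZMod d)) (5 * 7 ^ k * (lp k * pp k ^ (b + 1 - vv (pp k)))) =
      Nat.gcd (orderOf (2 : ZMod d)) (5 * 7 ^ k) := by
    have hc : (orderOf (2 : ZMod d)).Coprime (lp k * pp k ^ (b + 1 - vv (pp k))) := by
      apply Nat.Coprime.coprime_dvd_left ho
      exact Nat.Coprime.mul_left h35.symm hT1
    exact hc.symm.gcd_mul_right_cancel_right _
  have e2 : Nat.gcd (Nat.lcm (orderOf (2 : ZMod d))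
      (5 * 7 ^ k * (lp k * pp k ^ (b + 1 - vv (pp k))))) x = Nat.gcd (5 * 7 ^ k) x := by
    apply gcd_squeeze (T := TTk a k * (lp k * pp k ^ (b + 1 - vv (pp k))))
    · exact (Nat.dvd_mul_right _ _).trans (Nat.dvd_lcm_right _ _)
    · apply Nat.lcm_dvd
      · exact ho.trans ⟨lp k * pp k ^ (b + 1 - vv (pp k)), by ring⟩
      · exact ⟨TTk a k, by ring⟩
    · apply Nat.Coprime.mul_left
      · apply Nat.Coprime.symm
        apply coprime_TTk
        intro i hi
        exact hx i hi.le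
      · exact Nat.Coprime.mul_left (hx k le_rfl).1.symm ((hx k le_rfl).2.symm.pow_left _)
  rw [e1, e2]
  ring

/-- the number for `5 * 7 ^ ∞` -/
def PP (U : ℕ → ℕ) : ℕ → ℕ
  | 0 => 1
  | (k + 1) => PP U k * (1 + 5 * 7 ^ k * U k)

/-- the number for `7 ^ w` -/
def GG (U : ℕ → ℕ) (w : ℕ) : ℕ → ℕ
  | 0 => 1
  | (k + 1) => GG U w k + U k * 7 ^ (min k w) * PP U k

theorem FD_one (x : ℕ) : FD x 1 = 1 := by
  unfold FD
  rw [Nat.divisors_one, sum_singleton, idx_one]
  have : orderOf (2 : ZMod 1) = 1 := by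
    rw [orderOf_eq_one_iff]
    exact Subsingleton.elim _ _
  rw [this]
  simp

theorem FD_stable (a : ℕ → ℕ) (k : ℕ) :
    FD (5 * 7 ^ (k + 1)) (MM a k) = FD (5 * 7 ^ k) (MM a k) := by
  unfold FD
  refine sum_congr rfl fun d hd => ?_
  have hd1 : d ∣ MM a k := (Nat.mem_divisors.1 hd).1
  have ho := ord_dvd_MM hd1
  have hT : (TTk a k).Coprime (5 * 7 ^ (k + 1)) := by
    apply Nat.Coprime.symm
    apply coprime_TTk
    intro i _
    have h5 := small_coprime (q := 5) (by norm_num) (by norm_num) i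
    have h7 := small_coprime (q := 7) (by norm_num) (by norm_num) i
    exact ⟨Nat.Coprime.mul_left h5.1 (h7.1.pow_left _), Nat.Coprime.mul_left h5.2 (h7.2.pow_left _)⟩
  congr 1
  apply Nat.dvd_antisymm
  · apply Nat.dvd_gcd (Nat.gcd_dvd_left _ _)
    have h4 : Nat.gcd (orderOf (2 : ZMod d)) (5 * 7 ^ (k + 1)) ∣ 5 * 7 ^ k * TTk a k :=
      (Nat.gcd_dvd_left _ _).trans ho
    exact Nat.Coprime.dvd_of_dvd_mul_right
      (Nat.Coprime.coprime_dvd_left (Nat.gcd_dvd_right _ _) hT.symm) h4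
  · apply Nat.dvd_gcd (Nat.gcd_dvd_left _ _)
    exact (Nat.gcd_dvd_right _ _).trans ⟨7, by ring⟩

theorem FD_PP (a : ℕ → ℕ) (k : ℕ) :
    FD (5 * 7 ^ k) (MM a k) = PP (fun i => uu (pp i) (a i)) k := by
  induction k with
  | zero => exact FD_one _
  | succ k ih =>
    rw [FD_succ, FD_stable, ih, PP]
    · have : Nat.gcd (5 * 7 ^ k) (5 * 7 ^ (k + 1)) = 5 * 7 ^ k :=
        Nat.gcd_eq_left ⟨7, by ring⟩
      rw [this]
      ring
    · intro i _
      have h5 := small_coprime (q := 5) (by norm_num) (by norm_num) i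
      have h7 := small_coprime (q := 7) (by norm_num) (by norm_num) i
      exact ⟨Nat.Coprime.mul_left h5.1 (h7.1.pow_left _), Nat.Coprime.mul_left h5.2 (h7.2.pow_left _)⟩

theorem FD_GG (a : ℕ → ℕ) (w k : ℕ) :
    FD (7 ^ w) (MM a k) = GG (fun i => uu (pp i) (a i)) w k := by
  induction k with
  | zero => exact FD_one _
  | succ k ih =>
    rw [FD_succ, FD_PP, ih, GG]
    · have : Nat.gcd (5 * 7 ^ k) (7 ^ w) = 7 ^ (min k w) := by
        have hc : Nat.Coprime 5 (7 ^ w) := Nat.Coprime.pow_right _ (by norm_num)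
        rw [hc.gcd_mul_left_cancel]
        rcases le_total k w with h | h
        · rw [min_eq_left h]
          exact Nat.gcd_eq_left (pow_dvd_pow _ h)
        · rw [min_eq_right h]
          exact Nat.gcd_eq_right (pow_dvd_pow _ h)
      rw [this]
    · intro i _
      have h7 := small_coprime (q := 7) (by norm_num) (by norm_num) i
      exact ⟨h7.1.pow_left _, h7.2.pow_left _⟩

theorem FD_one_eq (N : ℕ) : FD 1 N = ∑ d ∈ N.divisors, idx d := by
  unfold FD
  refine sum_congr rfl fun d _ => ?_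
  rw [Nat.gcd_one_right, mul_one]

/-- the number of orbits for `N = 7 ^ c * ∏ p_i ^ a_i` -/
theorem cc_tower (a : ℕ → ℕ) (k c : ℕ) :
    cc (MM a k * 7 ^ c) + 1 = GG (fun i => uu (pp i) (a i)) 0 k +
      2 * ∑ w ∈ range c, GG (fun i => uu (pp i) (a i)) w k := by
  have h7 : (MM a k).Coprime 7 := by
    apply Nat.Coprime.symm
    apply coprime_MM
    intro i _
    exact (small_coprime (q := 7) (by norm_num) (by norm_num) i).2
  rw [cc_add_one (mul_ne_zero (by
      have := odd_MM a k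
      intro h
      rw [h] at this
      exact absurd this (by decide)) (by positivity)), ← FD_one_eq,
    FD_mul_pow 1 c (odd_MM a k) (by norm_num) (by decide) h7, mul_sum]
  have e0 : FD 1 (MM a k) = GG (fun i => uu (pp i) (a i)) 0 k := by
    rw [← FD_GG a 0 k, pow_zero]
  rw [e0]
  congr 1
  refine sum_congr rfl fun b _ => ?_
  rw [← FD_GG]
  unfold FD
  rw [mul_sum]
  refine sum_congr rfl fun d hd => ?_
  have hd1 : d ∣ MM a k := (Nat.mem_divisors.1 hd).1
  have ho := ord_dvd_MM hd1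
  have e1 : idx (7 ^ (b + 1)) = 2 := good7.idx b
  rw [e1, ord7, Nat.gcd_one_right, mul_one]
  have e2 : Nat.gcd (orderOf (2 : ZMod d)) (7 ^ b * 3) = Nat.gcd (orderOf (2 : ZMod d)) (7 ^ b) := by
    have hc : (orderOf (2 : ZMod d)).Coprime 3 := by
      apply Nat.Coprime.coprime_dvd_left ho
      apply Nat.Coprime.mul_left
      · exact Nat.Coprime.mul_left (by norm_num) (Nat.Coprime.pow_left _ (by norm_num))
      · apply Nat.Coprime.symm
        apply coprime_TTk
        intro i _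
        exact small_coprime (q := 3) (by norm_num) (by norm_num) i
    exact hc.symm.gcd_mul_right_cancel_right _
  rw [e2]
  ring

theorem odd_orders (a : ℕ → ℕ) (k c : ℕ) (q : ℕ) (hq : q.Prime) (h : q ∣ MM a k * 7 ^ c) :
    Odd (orderOf (2 : ZMod q)) := by
  rcases (Nat.Prime.dvd_mul hq).1 h with h | h
  · unfold MM at h
    rw [Prime.dvd_finsetProd_iff hq.prime] at h
    obtain ⟨i, _, hi⟩ := h
    rw [(Nat.prime_dvd_prime_iff_eq hq (pp_prime i)).1 (hq.dvd_of_dvd_pow hi)]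
    exact odd_ord_pp i
  · rw [(Nat.prime_dvd_prime_iff_eq hq (by norm_num)).1 (hq.dvd_of_dvd_pow h), good7.ord_one]
    decide

theorem S_tower (a : ℕ → ℕ) (k c e : ℕ)
    (he : 2 * e + 1 = GG (fun i => uu (pp i) (a i)) 0 k +
      2 * ∑ w ∈ range c, GG (fun i => uu (pp i) (a i)) w k) :
    S ((MM a k * 7 ^ c + 1) / 2) = 2 ^ e := by
  apply S_of_cc ((odd_MM a k).mul (Odd.pow (by decide))) (odd_orders a k c)
  have := cc_tower a k c
  omega

end Run7.h499
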