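import Mathlib
import Pool.Agent.Run7.h499.Tower

set_option autoImplicit false

/-! # The residue class of `log_2 S(n)` attached to a system of exponents -/

namespace Run7.h499

open Finset

theorem PP_pos (U : ℕ → ℕ) (k : ℕ) : 1 ≤ PP U k := by
  induction k with
  | zero => exact le_rfl
  | succ k ih =>
    rw [PP]
    exact Nat.one_le_iff_ne_zero.2 (mul_ne_zero (by omega) (by omega))

theorem five_GG (U : ℕ → ℕ) (w k : ℕ) (h : k ≤ w + 1) : 5 * GG U w k = 4 + PP U k := by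
  induction k with
  | zero => rfl
  | succ k ih =>
    rw [GG, PP, mul_add, ih (by omega), min_eq_left (by omega)]
    ring

theorem GG_mono (U : ℕ → ℕ) (w v k : ℕ) (h : w ≤ v) : GG U w k ≤ GG U v k := by
  induction k with
  | zero => exact le_rfl
  | succ k ih =>
    rw [GG, GG]
    gcongr
    · norm_num

theorem GG_zero_odd (U : ℕ → ℕ) (hU : ∀ i, 2 ∣ U i) (k : ℕ) : GG U 0 k % 2 = 1 := by
  induction k with
  | zero => rfl
  | succ k ih =>
    rw [GG]
    obtain ⟨c, hc⟩ := hU k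
    rw [hc, show GG U 0 k + 2 * c * 7 ^ min k 0 * PP U k =
      GG U 0 k + 2 * (c * 7 ^ min k 0 * PP U k) by ring]
    omega

/-- the modulus -/
def ll (U : ℕ → ℕ) (k : ℕ) : ℕ := GG U k k

/-- twice the smallest exponent plus one -/
def HH (U : ℕ → ℕ) (k : ℕ) : ℕ := GG U 0 k + 2 * ∑ w ∈ range k, GG U w k

/-- the smallest exponent -/
def RR (U : ℕ → ℕ) (k : ℕ) : ℕ := (HH U k - 1) / 2

theorem five_ll (U : ℕ → ℕ) (k : ℕ) : 5 * ll U k = 4 + PP U k := five_GG U k k (by omega)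

theorem ll_pos (U : ℕ → ℕ) (k : ℕ) : 1 ≤ ll U k := by
  have := five_ll U k
  omega

theorem two_RR (U : ℕ → ℕ) (hU : ∀ i, 2 ∣ U i) (k : ℕ) : 2 * RR U k + 1 = HH U k := by
  have := GG_zero_odd U hU k
  unfold RR HH
  omega

theorem RR_le (U : ℕ → ℕ) (k : ℕ) : RR U k ≤ (k + 1) * ll U k := by
  unfold RR HH
  have h1 : GG U 0 k ≤ ll U k := GG_mono U 0 k k (Nat.zero_le k)
  have h2 : ∑ w ∈ range k, GG U w k ≤ k * ll U k := by
    calc ∑ w ∈ range k, GG U w k ≤ ∑ w ∈ range k, ll U k := by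
          apply sum_le_sum
          intro w hw
          exact GG_mono U w k k (mem_range.1 hw).le
      _ = k * ll U k := by simp
  have h3 : (k + 1) * ll U k = k * ll U k + ll U k := by ring
  omega

theorem sum_GG (U : ℕ → ℕ) (k s : ℕ) :
    ∑ w ∈ range (k + s), GG U w k = ∑ w ∈ range k, GG U w k + s * ll U k := by
  induction s with
  | zero => simp
  | succ s ih =>
    rw [← add_assoc, sum_range_succ, ih]
    have h : GG U (k + s) k = ll U k := by
      have h1 := five_GG U (k + s) k (by omega)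
      have h2 := five_ll U k
      omega
    rw [h]
    ring

theorem S_system (a : ℕ → ℕ) (k s : ℕ) :
    S ((MM a k * 7 ^ (k + s) + 1) / 2) =
      2 ^ (RR (fun i => uu (pp i) (a i)) k + s * ll (fun i => uu (pp i) (a i)) k) := by
  apply S_tower
  rw [sum_GG]
  have h := two_RR (fun i => uu (pp i) (a i))
    (fun i => uu_even (pp_prime i) (odd_pp i) (odd_ord_pp i) (a i)) k
  unfold HH at h
  rw [mul_add, mul_add, add_right_comm, h]
  ring

/-- the coefficients -/
noncomputable def mu (i : ℕ) : ℝ := 2 + 4 / 7 ^ (i + 1)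

theorem mu_ge (i : ℕ) : 2 ≤ mu i := by
  unfold mu
  have : (0 : ℝ) ≤ 4 / 7 ^ (i + 1) := by positivity
  linarith

theorem mu_le (i : ℕ) : mu i ≤ 3 := by
  unfold mu
  have h : (4 : ℝ) / 7 ^ (i + 1) ≤ 4 / 7 := by
    apply div_le_div_of_nonneg_left (by norm_num) (by norm_num)
    calc (7 : ℝ) = 7 ^ 1 := by norm_num
      _ ≤ 7 ^ (i + 1) := pow_le_pow_right₀ (by norm_num) (by omega)
  linarith

theorem sum_pow_min (k n : ℕ) (h : k ≤ n) :
    6 * (∑ w ∈ range n, (7 : ℝ) ^ (min k w)) = (7 ^ k - 1) + 6 * (n - k) * 7 ^ k := by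
  obtain ⟨s, rfl⟩ := Nat.exists_eq_add_of_le h
  induction s with
  | zero =>
    rw [add_zero]
    have h1 : ∑ w ∈ range k, (7 : ℝ) ^ (min k w) = ∑ w ∈ range k, (7 : ℝ) ^ w := by
      refine sum_congr rfl fun w hw => ?_
      rw [min_eq_right (mem_range.1 hw).le]
    rw [h1, geom_sum_eq (by norm_num)]
    ring
  | succ s ih =>
    rw [← add_assoc, sum_range_succ, mul_add, ih (by omega), min_eq_left (by omega)]
    push_cast
    ring

/-- coefficient -/
noncomputable def lam (n i : ℕ) : ℝ := (2 / 3) / 7 ^ i + 1 / 3 + 2 * ((n : ℝ) - i)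

theorem lam_sub (n i : ℕ) : lam n i - lam n (i + 1) = mu i := by
  unfold lam mu
  have h : (7 : ℝ) ^ i ≠ 0 := by positivity
  push_cast
  rw [pow_succ]
  field_simp
  ring

theorem HH_aux (U : ℕ → ℕ) (n k : ℕ) (h : k ≤ n) :
    (5 : ℝ) * ((GG U 0 k : ℝ) + 2 * ∑ w ∈ range n, (GG U w k : ℝ)) =
      5 * (1 + 2 * n) - lam n 0 + lam n k * PP U k + ∑ i ∈ range k, mu i * PP U (i + 1) := by
  induction k with
  | zero =>
    simp [GG, PP]
  | succ k ih =>
    have ih' := ih (by omega)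
    rw [sum_range_succ]
    have h1 : (5 : ℝ) * ((GG U 0 (k + 1) : ℝ) + 2 * ∑ w ∈ range n, (GG U w (k + 1) : ℝ)) =
        5 * ((GG U 0 k : ℝ) + 2 * ∑ w ∈ range n, (GG U w k : ℝ)) +
        5 * (U k * PP U k) * (1 + 2 * ∑ w ∈ range n, (7 : ℝ) ^ (min k w)) := by
      simp only [GG]
      push_cast
      rw [sum_add_distrib, Nat.min_zero, pow_zero]
      have : ∑ w ∈ range n, (U k : ℝ) * 7 ^ min k w * (PP U k : ℝ) =
          (U k * PP U k) * ∑ w ∈ range n, (7 : ℝ) ^ (min k w) := by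
        rw [mul_sum]
        refine sum_congr rfl fun w _ => by ring
      rw [this]
      ring
    rw [h1, ih', ← lam_sub n k]
    have h2 := sum_pow_min k n (by omega)
    have h3 : (PP U (k + 1) : ℝ) = PP U k * (1 + 5 * 7 ^ k * U k) := by
      rw [PP]
      push_cast
      ring
    have h4 : ∑ w ∈ range n, (7 : ℝ) ^ (min k w) = ((7 ^ k - 1) + 6 * (n - k) * 7 ^ k) / 6 := by
      linarith
    rw [h4, h3]
    unfold lam
    have h : (7 : ℝ) ^ k ≠ 0 := by positivity
    push_cast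
    field_simp
    ring

/-- continued quotient -/
noncomputable def EE (U : ℕ → ℕ) : ℕ → ℝ
  | 0 => 0
  | (i + 1) => (mu i + EE U i) / ((1 + 5 * 7 ^ (i + 1) * U (i + 1) : ℕ) : ℝ)

theorem PP_mul_EE (U : ℕ → ℕ) (i : ℕ) :
    (PP U (i + 1) : ℝ) * EE U i = ∑ j ∈ range i, mu j * PP U (j + 1) := by
  induction i with
  | zero => simp [EE]
  | succ i ih =>
    rw [sum_range_succ, ← ih, EE]
    have h1 : (PP U (i + 1 + 1) : ℝ) = PP U (i + 1) * ((1 + 5 * 7 ^ (i + 1) * U (i + 1) : ℕ) : ℝ) := by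
      rw [PP]
      push_cast
      ring
    have h2 : ((1 + 5 * 7 ^ (i + 1) * U (i + 1) : ℕ) : ℝ) ≠ 0 := by
      positivity
    rw [h1]
    field_simp
    ring

theorem HH_formula (U : ℕ → ℕ) (r : ℕ) :
    (5 : ℝ) * (HH U (r + 1) : ℝ) = 5 * (1 + 2 * ((r + 1 : ℕ) : ℝ)) - lam (r + 1) 0 +
      (lam (r + 1) (r + 1) + mu r) * PP U (r + 1) + PP U (r + 1) * EE U r := by
  have h := HH_aux U (r + 1) (r + 1) le_rfl
  have h5 : ∑ i ∈ range (r + 1), mu i * (PP U (i + 1) : ℝ) =
      PP U (r + 1) * EE U r + mu r * PP U (r + 1) := by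
    rw [sum_range_succ, ← PP_mul_EE]
  rw [h5] at h
  unfold HH
  push_cast at h ⊢
  rw [h]
  ring

theorem EE_nonneg (U : ℕ → ℕ) (i : ℕ) : 0 ≤ EE U i := by
  induction i with
  | zero => exact le_rfl
  | succ i ih =>
    rw [EE]
    have := mu_ge i
    positivity

/-- injectivity -/
theorem EE_inj (U V : ℕ → ℕ) (r : ℕ) (Y : ℕ → ℝ)
    (hY : ∀ i, i ≤ r → 4 ≤ Y i) (hYY : ∀ i, 1 ≤ i → i < r → 4 * Y (i + 1) ^ 2 ≤ Y i)
    (hU : ∀ i, 1 ≤ i → i ≤ r → Y i ≤ ((1 + 5 * 7 ^ i * U i : ℕ) : ℝ) ∧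
      ((1 + 5 * 7 ^ i * U i : ℕ) : ℝ) ≤ Y i ^ 2)
    (hV : ∀ i, 1 ≤ i → i ≤ r → Y i ≤ ((1 + 5 * 7 ^ i * V i : ℕ) : ℝ) ∧
      ((1 + 5 * 7 ^ i * V i : ℕ) : ℝ) ≤ Y i ^ 2)
    (hE : EE U r = EE V r) : ∀ i, 1 ≤ i → i ≤ r → U i = V i := by
  have hbound : ∀ W : ℕ → ℕ, (∀ i, 1 ≤ i → i ≤ r → Y i ≤ ((1 + 5 * 7 ^ i * W i : ℕ) : ℝ)) →
      ∀ i, 1 ≤ i → i ≤ r → EE W i ≤ 4 / Y i := by
    intro W hW i
    induction i with
    | zero => intro h; omega
    | succ i ih =>
      intro _ h2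
      rw [EE]
      have h3 := hY (i + 1) h2
      have h4 := hW (i + 1) (by omega) h2
      have h5 : EE W i ≤ 1 := by
        rcases Nat.eq_zero_or_pos i with rfl | h
        · rw [EE]; norm_num
        · refine (ih h (by omega)).trans ?_
          rw [div_le_one (by linarith [hY i (by omega)])]
          exact hY i (by omega)
      have h6 := mu_le i
      exact div_le_div₀ (by norm_num) (by linarith) (by linarith) h4
  have key : ∀ s, s ≤ r → EE U (r - s) = EE V (r - s) ∧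
      ∀ i, r - s < i → i ≤ r → U i = V i := by
    intro s
    induction s with
    | zero =>
      intro _
      rw [Nat.sub_zero]
      exact ⟨hE, fun i h1 h2 => by omega⟩
    | succ s ih =>
      intro hs
      obtain ⟨ih1, ih2⟩ := ih (by omega)
      obtain ⟨i, hi⟩ : ∃ i, r - s = i + 1 := ⟨r - s - 1, by omega⟩
      have hi2 : r - (s + 1) = i := by omega
      rw [hi] at ih1 ih2
      rw [hi2]
      rw [EE, EE] at ih1
      obtain ⟨hu1, hu2⟩ := hU (i + 1) (by omega) (by omega)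
      obtain ⟨hv1, hv2⟩ := hV (i + 1) (by omega) (by omega)
      have hY1 := hY (i + 1) (by omega)
      set fu : ℕ := 1 + 5 * 7 ^ (i + 1) * U (i + 1) with hfu
      set fv : ℕ := 1 + 5 * 7 ^ (i + 1) * V (i + 1) with hfv
      have hfu0 : (0 : ℝ) < fu := by linarith
      have hfv0 : (0 : ℝ) < fv := by linarith
      have hmu := mu_ge i
      have hnu := EE_nonneg U i
      have hnv := EE_nonneg V i
      rw [div_eq_div_iff hfu0.ne' hfv0.ne'] at ih1
      have hsmall : ∀ W : ℕ → ℕ, (∀ i, 1 ≤ i → i ≤ r → Y i ≤ ((1 + 5 * 7 ^ i * W i : ℕ) : ℝ)) →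
          EE W i * Y (i + 1) ^ 2 ≤ 1 := by
        intro W hW
        rcases Nat.eq_zero_or_pos i with h | h
        · rw [h, EE]; norm_num
        · have h1 := hbound W hW i h (by omega)
          have h2 := hYY i h (by omega)
          have h3 := hY i (by omega)
          have h4 := EE_nonneg W i
          calc EE W i * Y (i + 1) ^ 2 ≤ (4 / Y i) * (Y i / 4) := by
                apply mul_le_mul h1 (by linarith) (by positivity) (by positivity)
            _ = 1 := by
                have : Y i ≠ 0 := by linarith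
                field_simp
      have hsu := hsmall U (fun i h1 h2 => (hU i h1 h2).1)
      have hsv := hsmall V (fun i h1 h2 => (hV i h1 h2).1)
      have hsu' : EE U i * fv ≤ 1 := (mul_le_mul_of_nonneg_left hv2 hnu).trans hsu
      have hsv' : EE V i * fu ≤ 1 := (mul_le_mul_of_nonneg_left hu2 hnv).trans hsv
      have hsu0 : 0 ≤ EE U i * fv := by positivity
      have hsv0 : 0 ≤ EE V i * fu := by positivity
      have hdiff : mu i * ((fv : ℝ) - fu) = EE V i * fu - EE U i * fv := by linarith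
      have hff : fu = fv := by
        rcases lt_trichotomy fu fv with h | h | h
        · exfalso
          have h1 : (fu : ℝ) + 1 ≤ fv := by exact_mod_cast h
          nlinarith
        · exact h
        · exfalso
          have h1 : (fv : ℝ) + 1 ≤ fu := by exact_mod_cast h
          nlinarith
      have hUV : U (i + 1) = V (i + 1) := by
        rw [hfu, hfv] at hff
        have h1 : 5 * 7 ^ (i + 1) * U (i + 1) = 5 * 7 ^ (i + 1) * V (i + 1) := by omega
        exact Nat.eq_of_mul_eq_mul_left (by positivity) h1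
      refine ⟨?_, ?_⟩
      · rw [hff] at ih1
        have h1 := mul_right_cancel₀ hfv0.ne' ih1
        linarith
      · intro j h1 h2
        rcases Nat.lt_or_ge (i + 1) j with h | h
        · exact ih2 j h h2
        · have : j = i + 1 := by omega
          rw [this]
          exact hUV
  intro i h1 h2
  exact (key r le_rfl).2 i (by omega) h2

/-- the residue classes are different -/
theorem RR_inj (U V : ℕ → ℕ) (r : ℕ) (Y : ℕ → ℝ)
    (hUe : ∀ i, 2 ∣ U i) (hVe : ∀ i, 2 ∣ V i)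
    (hY : ∀ i, i ≤ r → 4 ≤ Y i) (hYY : ∀ i, 1 ≤ i → i < r → 4 * Y (i + 1) ^ 2 ≤ Y i)
    (hU : ∀ i, 1 ≤ i → i ≤ r → Y i ≤ ((1 + 5 * 7 ^ i * U i : ℕ) : ℝ) ∧
      ((1 + 5 * 7 ^ i * U i : ℕ) : ℝ) ≤ Y i ^ 2)
    (hV : ∀ i, 1 ≤ i → i ≤ r → Y i ≤ ((1 + 5 * 7 ^ i * V i : ℕ) : ℝ) ∧
      ((1 + 5 * 7 ^ i * V i : ℕ) : ℝ) ≤ Y i ^ 2)
    (hP : PP U (r + 1) = PP V (r + 1))
    (hmod : RR U (r + 1) ≡ RR V (r + 1) [MOD ll U (r + 1)]) :
    ∀ i, 1 ≤ i → i ≤ r → U i = V i := by
  have h1 := HH_formula U r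
  have h2 := HH_formula V r
  rw [← two_RR U hUe] at h1
  rw [← two_RR V hVe, ← hP] at h2
  push_cast at h1 h2
  have h3 : (10 : ℝ) * ((RR U (r + 1) : ℝ) - RR V (r + 1)) = PP U (r + 1) * (EE U r - EE V r) := by
    linarith
  have hbd : ∀ W : ℕ → ℕ, (∀ i, 1 ≤ i → i ≤ r → Y i ≤ ((1 + 5 * 7 ^ i * W i : ℕ) : ℝ)) →
      EE W r ≤ 1 := by
    intro W hW
    have haux : ∀ i, i ≤ r → EE W i ≤ 1 := by
      intro i
      induction i with
      | zero => intro _; rw [EE]; norm_num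
      | succ i ih =>
        intro h
        have e1 := ih (by omega)
        have e2 := hW (i + 1) (by omega) h
        have e3 := hY (i + 1) h
        have e4 := mu_le i
        rw [EE, div_le_one (by linarith)]
        linarith
    exact haux r le_rfl
  have hu := hbd U (fun i h1 h2 => (hU i h1 h2).1)
  have hv := hbd V (fun i h1 h2 => (hV i h1 h2).1)
  have hu0 := EE_nonneg U r
  have hv0 := EE_nonneg V r
  have hl := five_ll U (r + 1)
  have hlR : (5 : ℝ) * ll U (r + 1) = 4 + PP U (r + 1) := by exact_mod_cast hl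
  have hPpos : (1 : ℝ) ≤ PP U (r + 1) := by exact_mod_cast PP_pos U (r + 1)
  have hRR : RR U (r + 1) = RR V (r + 1) := by
    have habs : |(RR U (r + 1) : ℝ) - RR V (r + 1)| < ll U (r + 1) := by
      rw [abs_lt]
      constructor <;> nlinarith
    have habs' : |(RR U (r + 1) : ℤ) - RR V (r + 1)| < ll U (r + 1) := by exact_mod_cast habs
    have hdvd : (ll U (r + 1) : ℤ) ∣ (RR U (r + 1) : ℤ) - RR V (r + 1) := by
      have := (Nat.modEq_iff_dvd.1 hmod)
      rw [← neg_sub]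
      exact (dvd_neg).2 this
    have := Int.eq_zero_of_abs_lt_dvd hdvd habs'
    have h4 : (RR U (r + 1) : ℤ) = RR V (r + 1) := by linarith
    exact_mod_cast h4
  have hEE : EE U r = EE V r := by
    rw [hRR, sub_self, mul_zero] at h3
    have := (mul_eq_zero.1 h3.symm).resolve_left (by linarith)
    linarith
  exact EE_inj U V r Y hY hYY hU hV hEE

end Run7.h499
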