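import Mathlib
import Pool.Agent.Run7.h499.Residue
import Pool.Agent.Run7.h499.APdata
import Pool.Agent.Run7.h499.MassMain

set_option autoImplicit false

/-! # The residue classes modulo a prime attached to tuples -/

namespace Run7.h499

open Finset

theorem PP_eq_prod (U : ℕ → ℕ) (k : ℕ) : PP U k = ∏ j ∈ range k, (1 + 5 * 7 ^ j * U j) := by
  induction k with
  | zero => rfl
  | succ k ih => rw [prod_range_succ, ← ih, PP]

theorem ll_congr {U V : ℕ → ℕ} {k : ℕ} (h : ∀ i < k, U i = V i) : ll U k = ll V k := by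
  have h1 := five_ll U k
  have h2 := five_ll V k
  have h3 : PP U k = PP V k := by
    rw [PP_eq_prod, PP_eq_prod]
    refine prod_congr rfl fun j hj => ?_
    rw [h j (mem_range.1 hj)]
  omega

theorem val_MM (a : ℕ → ℕ) (k c i : ℕ) (hi : i < k) :
    padicValNat (pp i) (MM a k * 7 ^ c) = a i := by
  have hfact : Fact (pp i).Prime := ⟨pp_prime i⟩
  have hMM : MM a k ≠ 0 := by
    have := odd_MM a k
    intro h
    rw [h] at this
    exact absurd this (by decide)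
  rw [padicValNat.mul hMM (by positivity)]
  have h7 : padicValNat (pp i) (7 ^ c) = 0 := by
    apply padicValNat.eq_zero_of_not_dvd
    intro h
    have h1 := (Nat.prime_dvd_prime_iff_eq (pp_prime i) (by norm_num)).1
      ((pp_prime i).dvd_of_dvd_pow h)
    have := pp_ge i
    omega
  rw [h7, add_zero]
  unfold MM
  rw [← mul_prod_erase (range k) _ (mem_range.2 hi), padicValNat.mul
    (pow_ne_zero _ (pp_prime i).ne_zero) (prod_ne_zero_iff.2 fun j _ =>
      pow_ne_zero _ (pp_prime j).ne_zero), padicValNat.prime_pow]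
  have h2 : padicValNat (pp i) (∏ x ∈ (range k).erase i, pp x ^ a x) = 0 := by
    apply padicValNat.eq_zero_of_not_dvd
    intro h
    obtain ⟨j, hj, hj2⟩ := (Prime.dvd_finsetProd_iff (pp_prime i).prime _).1 h
    rw [mem_erase] at hj
    have h1 := (Nat.prime_dvd_prime_iff_eq (pp_prime i) (pp_prime j)).1
      ((pp_prime i).dvd_of_dvd_pow hj2)
    exact hj.1 (pp_strictMono.injective h1).symm
  rw [h2, add_zero]

/-- the modulus recovered from a length -/
noncomputable def tau (k n : ℕ) : ℕ := ll (fun i => uu (pp i) (padicValNat (pp i) (2 * n - 1))) k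

theorem tau_eq (a : ℕ → ℕ) (k c : ℕ) :
    tau k ((MM a k * 7 ^ c + 1) / 2) = ll (fun i => uu (pp i) (a i)) k := by
  unfold tau
  have hodd : Odd (MM a k * 7 ^ c) := (odd_MM a k).mul (Odd.pow (by decide))
  obtain ⟨m, hm⟩ := hodd
  have h1 : 2 * ((MM a k * 7 ^ c + 1) / 2) - 1 = MM a k * 7 ^ c := by omega
  rw [h1]
  apply ll_congr
  intro i hi
  rw [val_MM a k c i hi]

/-- every exponent in the class is attained -/
theorem exists_length (U : ℕ → ℕ) (k e l : ℕ) (hU : ∀ i < k, ∃ a, uu (pp i) a = U i)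
    (hl : ll U k = l) (he : e % l = RR U k % l) (hbig : (k + 1) * l ≤ e) :
    ∃ n, S n = 2 ^ e ∧ tau k n = l := by
  have hU' : ∀ i, ∃ a, i < k → uu (pp i) a = U i := by
    intro i
    by_cases hi : i < k
    · obtain ⟨a, ha⟩ := hU i hi
      exact ⟨a, fun _ => ha⟩
    · exact ⟨0, fun h => absurd h hi⟩
  choose a ha using hU'
  have hcongr : ∀ i < k, (fun i => uu (pp i) (a i)) i = U i := fun i hi => ha i hi
  have hll : ll (fun i => uu (pp i) (a i)) k = l := by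
    rw [← hl]
    exact ll_congr hcongr
  have hPP : ∀ j ≤ k, PP (fun i => uu (pp i) (a i)) j = PP U j := by
    intro j hj
    rw [PP_eq_prod, PP_eq_prod]
    refine prod_congr rfl fun i hi => ?_
    rw [ha i (by have := mem_range.1 hi; omega)]
  have hGG : ∀ w, ∀ j ≤ k, GG (fun i => uu (pp i) (a i)) w j = GG U w j := by
    intro w j
    induction j with
    | zero => intro _; rfl
    | succ j ih =>
      intro hj
      rw [GG, GG, ih (by omega), hPP j (by omega), ha j (by omega)]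
  have hRR : RR (fun i => uu (pp i) (a i)) k = RR U k := by
    unfold RR HH
    rw [hGG 0 k le_rfl, sum_congr rfl (fun w _ => hGG w k le_rfl)]
  have h1 : RR U k ≤ e := by
    have := RR_le U k
    rw [hl] at this
    omega
  obtain ⟨s, hs⟩ : ∃ s, e = RR U k + s * l := by
    have h2 : RR U k ≡ e [MOD l] := he.symm
    obtain ⟨s, hs⟩ := (Nat.modEq_iff_dvd' h1).1 h2
    exact ⟨s, by rw [mul_comm]; omega⟩
  refine ⟨(MM a k * 7 ^ (k + s) + 1) / 2, ?_, ?_⟩
  · rw [S_system, hRR, hll, hs]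
  · rw [tau_eq, hll]

section

variable (r K : ℕ) (b : ℕ → ℕ) (l : ℕ)

/-- the cofactor -/
def f0 (t : Fin r → ℕ) : ℕ := (5 * l - 4) / qT K b t

/-- the system attached to a tuple -/
def vU (t : Fin r → ℕ) : ℕ → ℕ := fun j =>
  if j = 0 then (f0 r K b l t - 1) / 5
  else if h : j - 1 < r then (FT K (bT b r) ⟨j - 1, h⟩ (t ⟨j - 1, h⟩) - 1) / (5 * 7 ^ j) else 0

/-- the tuples -/
noncomputable def TL (T : ℕ) : Finset (Fin r → ℕ) :=
  (GT K (bT b r) (yT r T)).filter (fun t => l ≡ rq5 (qT K b t) [MOD qT K b t])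

/-- the classes -/
noncomputable def CI (T : ℕ) : Finset ℕ := (TL r K b l T).image (fun t => RR (vU r K b l t) (r + 1) % l)

end

/-- the hypotheses on the data -/
structure Data (r K B : ℕ) (b : ℕ → ℕ) : Prop where
  one_le : 1 ≤ K
  ten : 10 ∣ K
  sieve : ∀ q : ℕ, q.Prime → q ≤ 50 * r ^ 2 → q ∣ K
  res : ∀ j, 1 ≤ j → j ≤ r → 1 ≤ b j ∧ b j ≤ K ∧ (b j).Coprime K ∧ b j % 10 = 1
  ex : ∀ j, 1 ≤ j → j ≤ r → ∀ t, B ≤ t → ∃ a, 1 + 5 * 7 ^ j * uu (pp j) a = b j + K * t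

theorem exists_data (r : ℕ) : ∃ K B b, Data r K B b := by
  obtain ⟨K, b, B, h1, h2, h3, h4⟩ := ap_data r (50 * r ^ 2)
  refine ⟨K, B, b, h1, h2, h3, fun j hj1 hj => ?_, fun j hj1 hj => (h4 j hj).2.2.2⟩
  obtain ⟨a1, a2, a3, a4⟩ := h4 j hj
  refine ⟨a1, a2, a3, ?_⟩
  obtain ⟨a, ha⟩ := a4 B le_rfl
  obtain ⟨c, hc⟩ := uu_even (pp_prime j) (odd_pp j) (odd_ord_pp j) a
  obtain ⟨d, hd⟩ := h2
  rw [hc, hd, show 5 * 7 ^ j * (2 * c) = 10 * (7 ^ j * c) by ring, mul_assoc] at ha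
  omega

section

variable {r K B : ℕ} {b : ℕ → ℕ} (D : Data r K B b) {l T : ℕ}

include D

theorem vU_succ (hBT : B ≤ T) {t : Fin r → ℕ} (ht : t ∈ BT (yT r T)) (i : Fin r) :
    (∃ a, uu (pp (i + 1)) a = vU r K b l t (i + 1)) ∧
    1 + 5 * 7 ^ ((i : ℕ) + 1) * vU r K b l t (i + 1) = FT K (bT b r) i (t i) := by
  have h1 := (mem_BT ht i).1
  have h2 : B ≤ t i := by
    refine (hBT.trans ?_).trans h1
    unfold yT
    rcases Nat.eq_zero_or_pos T with h | h
    · rw [h]; exact Nat.zero_le _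
    · calc T = T ^ 1 := (pow_one T).symm
        _ ≤ T ^ 3 ^ (r - 1 - (i : ℕ)) := Nat.pow_le_pow_right h (Nat.one_le_pow _ _ (by norm_num))
  obtain ⟨a, ha⟩ := D.ex (i + 1) (by omega) (by omega) (t i) h2
  have h3 : vU r K b l t (i + 1) = uu (pp (i + 1)) a := by
    unfold vU
    rw [if_neg (by omega), dif_pos (by simp)]
    simp only [Nat.add_sub_cancel, Fin.eta]
    unfold FT bT
    rw [← ha, Nat.add_sub_cancel_left]
    exact Nat.mul_div_cancel_left _ (by positivity)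
  refine ⟨⟨a, h3.symm⟩, ?_⟩
  rw [h3, ha]
  rfl

theorem f0_spec (hl : l % 2 = 1) (hl1 : 1 ≤ l) {t : Fin r → ℕ} (ht : t ∈ TL r K b l T) :
    qT K b t * f0 r K b l t = 5 * l - 4 ∧ f0 r K b l t % 10 = 1 := by
  unfold TL at ht
  rw [mem_filter] at ht
  have hm := qT_mod b (fun j h1 h2 => (D.res j h1 h2).2.2.2) D.ten t
  have h1 := dvd_of_rq5 hm hl1 ht.2
  have h2 : qT K b t * f0 r K b l t = 5 * l - 4 := Nat.mul_div_cancel' h1
  refine ⟨h2, ?_⟩
  have h3 : (qT K b t * f0 r K b l t) % 10 = 1 := by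
    rw [h2]
    omega
  rw [Nat.mul_mod, hm, one_mul, Nat.mod_mod] at h3
  exact h3

theorem vU_zero (hl : l % 2 = 1) (hl1 : 1 ≤ l) {t : Fin r → ℕ} (ht : t ∈ TL r K b l T) :
    (∃ a, uu (pp 0) a = vU r K b l t 0) ∧ 1 + 5 * 7 ^ 0 * vU r K b l t 0 = f0 r K b l t := by
  obtain ⟨_, h2⟩ := f0_spec D hl hl1 ht
  have h3 := ap_zero _ h2
  have h4 : vU r K b l t 0 = (f0 r K b l t - 1) / 5 := by
    unfold vU
    rw [if_pos rfl]
  refine ⟨⟨(f0 r K b l t - 1) / 10, ?_⟩, ?_⟩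
  · rw [h4, pp_zero, uu_good good191]
    omega
  · rw [h4]
    omega

theorem vU_PP (hl : l % 2 = 1) (hl1 : 1 ≤ l) (hBT : B ≤ T) {t : Fin r → ℕ}
    (ht : t ∈ TL r K b l T) : PP (vU r K b l t) (r + 1) = 5 * l - 4 := by
  have htB : t ∈ BT (yT r T) := by
    unfold TL at ht
    exact GT_sub _ _ _ (mem_filter.1 ht).1
  rw [PP_eq_prod, prod_range_succ', (vU_zero D hl hl1 ht).2, ← (f0_spec D hl hl1 ht).1]
  congr 1
  unfold qT
  rw [← Fin.prod_univ_eq_prod_range (fun i => 1 + 5 * 7 ^ (i + 1) * vU r K b l t (i + 1)) r]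
  refine prod_congr rfl fun i _ => ?_
  exact (vU_succ D hBT htB i).2

theorem vU_ll (hl : l % 2 = 1) (hl1 : 1 ≤ l) (hBT : B ≤ T) {t : Fin r → ℕ}
    (ht : t ∈ TL r K b l T) : ll (vU r K b l t) (r + 1) = l := by
  have h1 := vU_PP D hl hl1 hBT ht
  have h2 := five_ll (vU r K b l t) (r + 1)
  omega

theorem vU_ex (hl : l % 2 = 1) (hl1 : 1 ≤ l) (hBT : B ≤ T) {t : Fin r → ℕ}
    (ht : t ∈ TL r K b l T) : ∀ i < r + 1, ∃ a, uu (pp i) a = vU r K b l t i := by
  have htB : t ∈ BT (yT r T) := by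
    unfold TL at ht
    exact GT_sub _ _ _ (mem_filter.1 ht).1
  intro i hi
  rcases Nat.eq_zero_or_pos i with h | h
  · subst h
    exact (vU_zero D hl hl1 ht).1
  · obtain ⟨j, rfl⟩ : ∃ j, i = j + 1 := ⟨i - 1, by omega⟩
    exact (vU_succ D hBT htB ⟨j, by omega⟩).1

theorem vU_even (hl : l % 2 = 1) (hl1 : 1 ≤ l) (hBT : B ≤ T) {t : Fin r → ℕ}
    (ht : t ∈ TL r K b l T) : ∀ i, 2 ∣ vU r K b l t i := by
  intro i
  by_cases hi : i < r + 1
  · obtain ⟨a, ha⟩ := vU_ex D hl hl1 hBT ht i hi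
    rw [← ha]
    exact uu_even (pp_prime i) (odd_pp i) (odd_ord_pp i) a
  · unfold vU
    rw [if_neg (by omega), dif_neg (by omega)]
    exact dvd_zero 2

theorem vU_range (hBT : B ≤ T) {t : Fin r → ℕ} (ht : t ∈ BT (yT r T)) :
    ∀ i, 1 ≤ i → i ≤ r → ((K * T ^ 3 ^ (r - i) : ℕ) : ℝ) ≤
      ((1 + 5 * 7 ^ i * vU r K b l t i : ℕ) : ℝ) ∧
      ((1 + 5 * 7 ^ i * vU r K b l t i : ℕ) : ℝ) ≤ ((K * T ^ 3 ^ (r - i) : ℕ) : ℝ) ^ 2 := by
  intro i h1 h2
  obtain ⟨j, rfl⟩ : ∃ j, i = j + 1 := ⟨i - 1, by omega⟩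
  have h3 := (vU_succ (l := l) D hBT ht ⟨j, by omega⟩).2
  simp only at h3
  rw [h3]
  obtain ⟨h4, h5⟩ := mem_BT ht ⟨j, by omega⟩
  unfold yT at h4 h5
  simp only at h4 h5
  rw [show r - 1 - j = r - (j + 1) by omega] at h4 h5
  obtain ⟨h6, h7, _, _⟩ := D.res (j + 1) (by omega) h2
  have hK := D.one_le
  constructor
  · have : K * T ^ 3 ^ (r - (j + 1)) ≤ FT K (bT b r) ⟨j, by omega⟩ (t ⟨j, by omega⟩) := by
      unfold FT
      have := Nat.mul_le_mul_left K h4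
      omega
    exact_mod_cast this
  · have h8 : FT K (bT b r) ⟨j, by omega⟩ (t ⟨j, by omega⟩) ≤ (K * T ^ 3 ^ (r - (j + 1))) ^ 2 := by
      unfold FT bT
      simp only
      have h9 : K * (t ⟨j, by omega⟩ + 1) ≤ K * (T ^ 3 ^ (r - (j + 1))) ^ 2 := Nat.mul_le_mul_left K h5
      calc b (j + 1) + K * t ⟨j, by omega⟩ ≤ K * (t ⟨j, by omega⟩ + 1) := by
            rw [mul_add]
            omega
        _ ≤ K * (T ^ 3 ^ (r - (j + 1))) ^ 2 := h9
        _ ≤ (K * K) * (T ^ 3 ^ (r - (j + 1))) ^ 2 := by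
            apply Nat.mul_le_mul_right
            exact Nat.le_mul_of_pos_left K hK
        _ = _ := by ring
    exact_mod_cast h8

theorem CI_card (hl : l % 2 = 1) (hl1 : 1 ≤ l) (hBT : B ≤ T) (hT : 4 * K ≤ T) :
    (CI r K b l T).card = (TL r K b l T).card := by
  unfold CI
  apply card_image_of_injOn
  intro t ht t' ht' h
  rw [mem_coe] at ht ht'
  have htB : t ∈ BT (yT r T) := by
    unfold TL at ht
    exact GT_sub _ _ _ (mem_filter.1 ht).1
  have htB' : t' ∈ BT (yT r T) := by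
    unfold TL at ht'
    exact GT_sub _ _ _ (mem_filter.1 ht').1
  have hK := D.one_le
  have hmod : RR (vU r K b l t) (r + 1) ≡ RR (vU r K b l t') (r + 1)
      [MOD ll (vU r K b l t) (r + 1)] := by
    rw [vU_ll D hl hl1 hBT ht]
    exact h
  have hinj := RR_inj (vU r K b l t) (vU r K b l t') r
    (fun i => ((K * T ^ 3 ^ (r - i) : ℕ) : ℝ))
    (vU_even D hl hl1 hBT ht) (vU_even D hl hl1 hBT ht')
    (fun i _ => by
      have : 4 ≤ K * T ^ 3 ^ (r - i) := by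
        calc 4 ≤ T := by omega
          _ = 1 * T ^ 1 := by ring
          _ ≤ K * T ^ 3 ^ (r - i) := Nat.mul_le_mul hK
            (Nat.pow_le_pow_right (by omega) (Nat.one_le_pow _ _ (by norm_num)))
      exact_mod_cast this)
    (fun i h1 h2 => by
      have e : 3 ^ (r - i) = 3 ^ (r - (i + 1)) * 3 := by
        rw [← pow_succ]
        congr 1
        omega
      have : 4 * (K * T ^ 3 ^ (r - (i + 1))) ^ 2 ≤ K * T ^ 3 ^ (r - i) := by
        rw [e, pow_mul]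
        have h3 : 4 * K ≤ T ^ 3 ^ (r - (i + 1)) := by
          refine hT.trans ?_
          calc T = T ^ 1 := (pow_one T).symm
            _ ≤ _ := Nat.pow_le_pow_right (by omega) (Nat.one_le_pow _ _ (by norm_num))
        calc 4 * (K * T ^ 3 ^ (r - (i + 1))) ^ 2 = K * (4 * K) * (T ^ 3 ^ (r - (i + 1))) ^ 2 := by ring
          _ ≤ K * (T ^ 3 ^ (r - (i + 1))) * (T ^ 3 ^ (r - (i + 1))) ^ 2 := by gcongr
          _ = _ := by ring
      exact_mod_cast this)
    (vU_range D hBT htB) (vU_range D hBT htB')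
    (by rw [vU_PP D hl hl1 hBT ht, vU_PP D hl hl1 hBT ht']) hmod
  funext i
  have h1 := hinj (i + 1) (by omega) (by omega)
  have h2 := (vU_succ (l := l) D hBT htB i).2
  have h3 := (vU_succ (l := l) D hBT htB' i).2
  rw [h1, h3] at h2
  unfold FT at h2
  have h4 : K * t i = K * t' i := by omega
  exact Nat.eq_of_mul_eq_mul_left hK h4

omit D in
theorem CI_sub (hl1 : 1 ≤ l) : CI r K b l T ⊆ range l := by
  intro x hx
  unfold CI at hx
  rw [mem_image] at hx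
  obtain ⟨t, _, rfl⟩ := hx
  exact mem_range.2 (Nat.mod_lt _ hl1)

theorem CI_hit (hl : l % 2 = 1) (hl1 : 1 ≤ l) (hBT : B ≤ T) {e : ℕ} (he : e % l ∈ CI r K b l T)
    (hbig : (r + 2) * l ≤ e) : ∃ n, S n = 2 ^ e ∧ tau (r + 1) n = l := by
  unfold CI at he
  rw [mem_image] at he
  obtain ⟨t, ht, hte⟩ := he
  exact exists_length (vU r K b l t) (r + 1) e l (vU_ex D hl hl1 hBT ht)
    (vU_ll D hl hl1 hBT ht) hte.symm hbig

end

end Run7.h499
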