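import Mathlib
import Pool.Agent.H174R3.D6.TaskLS

set_option autoImplicit false

/-! # The large sieve with several groups of primes -/

namespace Run7.h499

open Finset

theorem exists_sub (m : ℕ → ℝ) (s : ℝ) (hs : 0 ≤ s) (P : Finset ℕ) (hm : ∀ q ∈ P, m q ≤ 1)
    (h : s ≤ ∑ q ∈ P, m q) : ∃ Q ⊆ P, s ≤ ∑ q ∈ Q, m q ∧ ∑ q ∈ Q, m q ≤ s + 1 := by
  induction P using Finset.induction_on with
  | empty => exact ⟨∅, Subset.rfl, h, by simp; linarith⟩
  | insert a P ha ih =>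
    rcases le_or_gt s (∑ q ∈ P, m q) with h1 | h1
    · obtain ⟨Q, hQ, h2⟩ := ih (fun q hq => hm q (mem_insert_of_mem hq)) h1
      exact ⟨Q, hQ.trans (subset_insert _ _), h2⟩
    · refine ⟨insert a P, Subset.rfl, h, ?_⟩
      rw [sum_insert ha]
      have := hm a (mem_insert_self _ _)
      linarith

theorem exists_partition (m : ℕ → ℝ) (s : ℝ) (hs : 0 ≤ s) (G : ℕ) (P : Finset ℕ)
    (hm : ∀ q ∈ P, m q ≤ 1) (h : (G : ℝ) * (s + 1) ≤ ∑ q ∈ P, m q) :
    ∃ Q : ℕ → Finset ℕ, (∀ g < G, Q g ⊆ P ∧ s ≤ ∑ q ∈ Q g, m q) ∧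
      ∀ g < G, ∀ g' < G, g ≠ g' → Disjoint (Q g) (Q g') := by
  induction G generalizing P with
  | zero => exact ⟨fun _ => ∅, fun g hg => absurd hg (by omega), fun g hg => absurd hg (by omega)⟩
  | succ G ih =>
    push_cast at h
    have hG : (0 : ℝ) ≤ G * (s + 1) := by positivity
    obtain ⟨Q0, hQ0, h1, h2⟩ := exists_sub m s hs P hm (by linarith)
    have h3 : ∑ q ∈ P \ Q0, m q = ∑ q ∈ P, m q - ∑ q ∈ Q0, m q := by
      have := sum_sdiff hQ0 (f := m)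
      linarith
    obtain ⟨Q, hQ1, hQ2⟩ := ih (P \ Q0) (fun q hq => hm q (sdiff_subset hq)) (by
      rw [h3]
      linarith)
    refine ⟨fun g => if g = G then Q0 else Q g, ?_, ?_⟩
    · intro g hg
      simp only
      split_ifs with h4
      · exact ⟨hQ0, h1⟩
      · obtain ⟨h5, h6⟩ := hQ1 g (by omega)
        exact ⟨h5.trans sdiff_subset, h6⟩
    · intro g hg g' hg' hne
      simp only
      split_ifs with h4 h5 h5
      · exact absurd (h4.trans h5.symm) hne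
      · have h6 := (hQ1 g' (by omega)).1
        exact Finset.disjoint_left.2 fun x hx hx' => (mem_sdiff.1 (h6 hx')).2 hx
      · have h6 := (hQ1 g (by omega)).1
        exact Finset.disjoint_left.2 fun x hx hx' => (mem_sdiff.1 (h6 hx)).2 hx'
      · exact hQ2 g (by omega) g' (by omega) hne

/-- the number of hits -/
def Hit (I : ℕ → Finset ℕ) (P : Finset ℕ) (n : ℕ) : ℕ := (P.filter (fun q => n % q ∈ I q)).card

theorem group_sieve (X Q G : ℕ) (P : Fin G → Finset ℕ) (I : ℕ → Finset ℕ)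
    (hprime : ∀ g, ∀ q ∈ P g, q.Prime) (hI : ∀ g, ∀ q ∈ P g, I q ⊆ range q)
    (hdisj : ∀ g g', g ≠ g' → Disjoint (P g) (P g')) (B : ℕ) (hB : ∀ g, ∀ q ∈ P g, q ≤ B)
    (hQ : B ^ G ≤ Q) :
    ∑ n ∈ Icc 1 X, (∏ g, ((Hit I (P g) n : ℝ) - ∑ q ∈ P g, ((I q).card : ℝ) / q)) ^ 2 ≤
      6 * ((X : ℝ) + (Q : ℝ) ^ 2) * ∏ g, ∑ q ∈ P g, ((I q).card : ℝ) / q := by
  classical
  set PP' : Finset ℕ := univ.biUnion P with hPP
  set S : Finset (Finset ℕ) := (Fintype.piFinset P).image (fun φ => univ.image φ) with hS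
  have hinjφ : ∀ φ ∈ Fintype.piFinset P, Function.Injective φ := by
    intro φ hφ g g' h
    rw [Fintype.mem_piFinset] at hφ
    by_contra hne
    exact (Finset.disjoint_left.1 (hdisj g g' hne) (hφ g)) (h ▸ hφ g')
  have hinjS : Set.InjOn (fun φ : Fin G → ℕ => univ.image φ) (Fintype.piFinset P : Set (Fin G → ℕ)) := by
    intro φ hφ φ' hφ' h
    rw [mem_coe, Fintype.mem_piFinset] at hφ hφ'
    funext g
    have h1 : φ g ∈ univ.image φ' := by
      have h2 : φ g ∈ univ.image φ := mem_image_of_mem _ (mem_univ g)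
      have h3 : univ.image φ = univ.image φ' := h
      rwa [h3] at h2
    obtain ⟨g', _, hg'⟩ := mem_image.1 h1
    have h4 : g' = g := by
      by_contra hne
      exact (Finset.disjoint_left.1 (hdisj g' g hne) (hφ' g')) (hg' ▸ hφ g)
    rw [← hg', h4]
  have hls := Pool.Agent.H174R3.D6LS.taskLS X Q PP' I S (fun _ => 1)
    (fun q hq => by
      rw [hPP, mem_biUnion] at hq
      obtain ⟨g, _, hg⟩ := hq
      exact hprime g q hg)
    (fun q hq => by
      rw [hPP, mem_biUnion] at hq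
      obtain ⟨g, _, hg⟩ := hq
      exact hI g q hg)
    (fun s hs => by
      rw [hS, mem_image] at hs
      obtain ⟨φ, hφ, rfl⟩ := hs
      have hinj := hinjφ φ hφ
      rw [Fintype.mem_piFinset] at hφ
      constructor
      · intro q hq
        obtain ⟨g, _, rfl⟩ := mem_image.1 hq
        rw [hPP, mem_biUnion]
        exact ⟨g, mem_univ g, hφ g⟩
      · rw [prod_image (fun a _ b _ h => hinj h)]
        refine le_trans ?_ hQ
        calc ∏ g, φ g ≤ ∏ g : Fin G, B := Finset.prod_le_prod' fun g _ => hB g _ (hφ g)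
          _ = B ^ G := by rw [prod_const, card_univ, Fintype.card_fin])
  have hsum : ∀ F : ℕ → ℝ, ∑ s ∈ S, ∏ q ∈ s, F q = ∏ g, ∑ q ∈ P g, F q := by
    intro F
    rw [hS, sum_image hinjS, prod_univ_sum P (fun _ q => F q)]
    refine sum_congr rfl fun φ hφ => ?_
    rw [prod_image (fun a _ b _ h => hinjφ φ hφ h)]
  simp only [one_mul, one_pow] at hls
  rw [hsum] at hls
  refine le_trans (le_of_eq ?_) hls
  refine sum_congr rfl fun n _ => ?_
  rw [hsum]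
  congr 1
  refine prod_congr rfl fun g _ => ?_
  rw [sum_sub_distrib]
  congr 1
  unfold Hit
  rw [card_filter]
  push_cast
  rfl

theorem few_abstract (X G : ℕ) (C s : ℝ) (H : Fin G → ℕ → ℝ) (m : Fin G → ℝ) (hs : 8 ≤ s)
    (hH : ∀ g n, 0 ≤ H g n) (hm : ∀ g, s ≤ m g)
    (h : ∑ n ∈ Icc 1 X, (∏ g, (H g n - m g)) ^ 2 ≤ C * ∏ g, m g) (Bad : Finset ℕ)
    (hBad : Bad ⊆ Icc 1 X) (hB2 : ∀ n ∈ Bad, ∀ g, H g n < s / 2) :
    (Bad.card : ℝ) ≤ C * (1 / 2) ^ G := by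
  have h1 : ∀ n ∈ Bad, ∏ g, (m g / 2) ^ 2 ≤ (∏ g, (H g n - m g)) ^ 2 := by
    intro n hn
    rw [← prod_pow]
    apply Finset.prod_le_prod
    · intro g _
      exact sq_nonneg _
    · intro g _
      have h2 := hB2 n hn g
      have h3 := hm g
      have h4 := hH g n
      have h5 : m g / 2 ≤ m g - H g n := by linarith
      have h6 : 0 ≤ m g / 2 := by linarith
      nlinarith
  have h2 : (Bad.card : ℝ) * ∏ g, (m g / 2) ^ 2 ≤ C * ∏ g, m g := by
    calc (Bad.card : ℝ) * ∏ g, (m g / 2) ^ 2 = ∑ n ∈ Bad, ∏ g, (m g / 2) ^ 2 := by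
          rw [sum_const, nsmul_eq_mul]
      _ ≤ ∑ n ∈ Bad, (∏ g, (H g n - m g)) ^ 2 := sum_le_sum h1
      _ ≤ ∑ n ∈ Icc 1 X, (∏ g, (H g n - m g)) ^ 2 :=
          sum_le_sum_of_subset_of_nonneg hBad (fun _ _ _ => sq_nonneg _)
      _ ≤ _ := h
  have hmpos : 0 < ∏ g, m g := Finset.prod_pos fun g _ => by
    have := hm g
    linarith
  have h3 : ∏ g, (m g / 2) ^ 2 = (∏ g, m g) * ∏ g, (m g / 4) := by
    rw [← prod_mul_distrib]
    refine prod_congr rfl fun g _ => by ring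
  rw [h3] at h2
  have h4 : (Bad.card : ℝ) * ∏ g, (m g / 4) ≤ C := by
    have h5 : (∏ g, m g) * ((Bad.card : ℝ) * ∏ g, (m g / 4)) ≤ (∏ g, m g) * C := by
      linarith
    exact le_of_mul_le_mul_left h5 hmpos
  have h5 : (2 : ℝ) ^ G ≤ ∏ g, (m g / 4) := by
    calc (2 : ℝ) ^ G = ∏ g : Fin G, (2 : ℝ) := by rw [prod_const, card_univ, Fintype.card_fin]
      _ ≤ _ := by
        apply Finset.prod_le_prod
        · intro g _
          norm_num
        · intro g _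
          have := hm g
          linarith
  have h6 : (Bad.card : ℝ) * 2 ^ G ≤ C :=
    (mul_le_mul_of_nonneg_left h5 (Nat.cast_nonneg _)).trans h4
  rw [one_div, inv_pow, ← div_eq_mul_inv, le_div_iff₀ (by positivity)]
  exact h6

/-- few `n` have few hits in every group -/
theorem few_hits (X Q G : ℕ) (P : Fin G → Finset ℕ) (I : ℕ → Finset ℕ)
    (hprime : ∀ g, ∀ q ∈ P g, q.Prime) (hI : ∀ g, ∀ q ∈ P g, I q ⊆ range q)
    (hdisj : ∀ g g', g ≠ g' → Disjoint (P g) (P g')) (B : ℕ) (hB : ∀ g, ∀ q ∈ P g, q ≤ B)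
    (hQ : B ^ G ≤ Q) (s : ℝ) (hs : 8 ≤ s) (hmass : ∀ g, s ≤ ∑ q ∈ P g, ((I q).card : ℝ) / q)
    (Bad : Finset ℕ) (hBad : Bad ⊆ Icc 1 X) (hB2 : ∀ n ∈ Bad, ∀ g, (Hit I (P g) n : ℝ) < s / 2) :
    (Bad.card : ℝ) ≤ 6 * ((X : ℝ) + (Q : ℝ) ^ 2) * (1 / 2) ^ G :=
  few_abstract X G _ s (fun g n => (Hit I (P g) n : ℝ)) (fun g => ∑ q ∈ P g, ((I q).card : ℝ) / q)
    hs (fun _ _ => Nat.cast_nonneg _) hmass (group_sieve X Q G P I hprime hI hdisj B hB hQ) Bad hBad hB2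

end Run7.h499
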