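import Mathlib
import Pool.Agent.Run7.h499.Classes
import Pool.Agent.Run7.h499.SieveA

set_option autoImplicit false

/-! # Almost all exponents have many solutions -/

namespace Run7.h499

open Finset Filter Topology

theorem mass_thm (r : ℕ) (hr : 1 ≤ r) : ∃ (c : ℝ) (I : ℝ → ℕ → Finset ℕ), 0 < c ∧
    ∀ᶠ X : ℝ in atTop,
      (∀ l : ℕ, l.Prime → X / 4 < l → I X l ⊆ range l ∧
        ∀ e, e % l ∈ I X l → (r + 2) * l ≤ e → ∃ n, S n = 2 ^ e ∧ tau (r + 1) n = l) ∧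
      c * (Real.log X) ^ (r - 1) ≤ ∑ l ∈ (Icc 1 ⌊X⌋₊).filter (fun l : ℕ => l.Prime ∧ X / 4 < l),
        ((I X l).card : ℝ) / l := by
  obtain ⟨K, B, b, D⟩ := exists_data r
  obtain ⟨c, hc, hmass⟩ := mass_main r K hr b D.one_le D.ten D.sieve D.res
  refine ⟨c, fun X l => CI r K b l (TX r X), hc, ?_⟩
  filter_upwards [hmass, (TX_tendsto r).eventually_ge_atTop (4 * K + B),
    eventually_ge_atTop (8 : ℝ)] with X h1 h2 h3
  have hodd : ∀ l : ℕ, l.Prime → X / 4 < l → l % 2 = 1 := by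
    intro l hl hX
    have h4 : (2 : ℝ) < l := by linarith
    have h5 : 2 < l := by exact_mod_cast h4
    rcases hl.eq_two_or_odd with h | h
    · omega
    · exact h
  refine ⟨fun l hl hX => ⟨CI_sub hl.one_le, fun e he hbig => ?_⟩, ?_⟩
  · exact CI_hit D (hodd l hl hX) hl.one_le (by omega) he hbig
  · refine h1.trans (le_of_eq ?_)
    refine sum_congr rfl fun l hl => ?_
    rw [mem_filter] at hl
    rw [CI_card D (hodd l hl.2.1 hl.2.2) hl.2.1.one_le (by omega) (by omega)]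
    rfl

theorem rp (a b C c : ℝ) (hab : a < b) (hc : 0 < c) : ∀ᶠ L : ℝ in atTop, C * L ^ a ≤ c * L ^ b := by
  have h1 : ∀ᶠ L : ℝ in atTop, C / c ≤ L ^ (b - a) :=
    (tendsto_rpow_atTop (by linarith)).eventually_ge_atTop _
  filter_upwards [h1, eventually_gt_atTop (0 : ℝ)] with L h2 hL
  have h3 : L ^ b = L ^ a * L ^ (b - a) := by
    rw [← Real.rpow_add hL]
    congr 1
    ring
  have h4 : C ≤ c * L ^ (b - a) := by
    rw [div_le_iff₀ hc] at h2
    linarith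
  have h5 : 0 ≤ L ^ a := Real.rpow_nonneg hL.le a
  calc C * L ^ a ≤ (c * L ^ (b - a)) * L ^ a := mul_le_mul_of_nonneg_right h4 h5
    _ = c * L ^ b := by rw [h3]; ring

theorem hits_le_encard (k e : ℕ) (F : Finset ℕ) (h : ∀ l ∈ F, ∃ n, S n = 2 ^ e ∧ tau k n = l) :
    (F.card : ℕ∞) ≤ {n : ℕ | S n = 2 ^ e}.encard := by
  classical
  have h' : ∀ l, ∃ n, l ∈ F → S n = 2 ^ e ∧ tau k n = l := by
    intro l
    by_cases hl : l ∈ F
    · obtain ⟨n, hn⟩ := h l hl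
      exact ⟨n, fun _ => hn⟩
    · exact ⟨0, fun h => absurd h hl⟩
  choose n hn using h'
  have hinj : Set.InjOn n (F : Set ℕ) := by
    intro l hl l' hl' h1
    rw [mem_coe] at hl hl'
    have h2 := (hn l hl).2
    have h3 := (hn l' hl').2
    rw [h1, h3] at h2
    exact h2.symm
  rw [← card_image_of_injOn hinj, ← Set.encard_coe_eq_coe_finsetCard]
  apply Set.encard_le_encard
  intro m hm
  rw [mem_coe, mem_image] at hm
  obtain ⟨l, hl, rfl⟩ := hm
  exact (hn l hl).1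

/-- one scale -/
theorem one_scale (r : ℕ) (X s : ℝ) (I : ℕ → Finset ℕ) (x G : ℕ) (hX : 1 ≤ X) (hG : 1 ≤ G)
    (hXx : X ^ G ≤ √x) (hs : 8 ≤ s)
    (h1 : ∀ l : ℕ, l.Prime → X / 4 < l → I l ⊆ range l ∧
        ∀ e, e % l ∈ I l → (r + 2) * l ≤ e → ∃ n, S n = 2 ^ e ∧ tau (r + 1) n = l)
    (h2 : (G : ℝ) * (s + 1) ≤ ∑ l ∈ (Icc 1 ⌊X⌋₊).filter (fun l : ℕ => l.Prime ∧ X / 4 < l),
        ((I l).card : ℝ) / l) (Bad : Finset ℕ) (hBad : Bad ⊆ Icc 1 x)
    (hB2 : ∀ e ∈ Bad, {n : ℕ | S n = 2 ^ e}.encard < (⌈s / 2⌉₊ : ℕ∞)) :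
    (Bad.card : ℝ) ≤ (r + 3) * √x + 12 * x * (1 / 2) ^ G := by
  classical
  set P := (Icc 1 ⌊X⌋₊).filter (fun l : ℕ => l.Prime ∧ X / 4 < l) with hP
  obtain ⟨Qg, hQ1, hQ2⟩ := exists_partition (fun l => ((I l).card : ℝ) / l) s (by linarith) G P
    (fun l hl => by
      rw [hP, mem_filter] at hl
      have h3 := card_le_card (h1 l hl.2.1 hl.2.2).1
      rw [card_range] at h3
      have h4 : (0 : ℝ) < l := by exact_mod_cast hl.2.1.pos
      rw [div_le_one h4]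
      exact_mod_cast h3) h2
  set B := ⌊X⌋₊ with hB
  have hX0 : 0 ≤ X := by linarith
  have hBX : (B : ℝ) ≤ X := Nat.floor_le hX0
  have hBG : B ^ G ≤ Nat.sqrt x := by
    rw [Nat.le_sqrt']
    have h3 : ((B ^ G : ℕ) : ℝ) ≤ √x := by
      push_cast
      exact (pow_le_pow_left₀ (Nat.cast_nonneg _) hBX G).trans hXx
    have h4 : ((B ^ G : ℕ) : ℝ) ^ 2 ≤ x := by
      calc ((B ^ G : ℕ) : ℝ) ^ 2 ≤ √x ^ 2 := pow_le_pow_left₀ (Nat.cast_nonneg _) h3 2
        _ = x := Real.sq_sqrt (Nat.cast_nonneg _)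
    exact_mod_cast h4
  have hsqrt : ((Nat.sqrt x : ℕ) : ℝ) ^ 2 ≤ x := by exact_mod_cast Nat.sqrt_le' x
  set Bad1 := Bad.filter (fun e => (r + 2) * B ≤ e) with hBad1
  have hlarge : (Bad1.card : ℝ) ≤ 6 * ((x : ℝ) + ((Nat.sqrt x : ℕ) : ℝ) ^ 2) * (1 / 2) ^ G := by
    apply few_hits x (Nat.sqrt x) G (fun g => Qg g) I
    · intro g q hq
      have h3 := (hQ1 g g.2).1 hq
      rw [hP, mem_filter] at h3
      exact h3.2.1
    · intro g q hq
      have h3 := (hQ1 g g.2).1 hq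
      rw [hP, mem_filter] at h3
      exact (h1 q h3.2.1 h3.2.2).1
    · intro g g' hne
      exact hQ2 g g.2 g' g'.2 (fun h => hne (Fin.ext h))
    · intro g q hq
      have h3 := (hQ1 g g.2).1 hq
      rw [hP, mem_filter, mem_Icc] at h3
      exact h3.1.2
    · exact hBG
    · exact hs
    · intro g
      exact (hQ1 g g.2).2
    · exact (filter_subset _ _).trans hBad
    · intro e he g
      rw [hBad1, mem_filter] at he
      by_contra hcon
      rw [not_lt] at hcon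
      have h3 := hB2 e he.1
      have h4 := hits_le_encard (r + 1) e ((Qg g).filter (fun q => e % q ∈ I q)) (fun l hl => by
        rw [mem_filter] at hl
        have h5 := (hQ1 g g.2).1 hl.1
        rw [hP, mem_filter, mem_Icc] at h5
        apply (h1 l h5.2.1 h5.2.2).2 e hl.2
        exact (Nat.mul_le_mul_left _ h5.1.2).trans he.2)
      have h5 : ⌈s / 2⌉₊ ≤ Hit I (Qg g) e := Nat.ceil_le.2 hcon
      have h6 : (⌈s / 2⌉₊ : ℕ∞) ≤ {n : ℕ | S n = 2 ^ e}.encard := by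
        refine le_trans ?_ h4
        unfold Hit at h5
        exact_mod_cast h5
      exact absurd h3 (not_lt.2 h6)
  have hsmall : ((Bad.filter (fun e => ¬ (r + 2) * B ≤ e)).card : ℝ) ≤ (r + 2) * B := by
    have h3 : Bad.filter (fun e => ¬ (r + 2) * B ≤ e) ⊆ range ((r + 2) * B) := by
      intro e he
      rw [mem_filter] at he
      rw [mem_range]
      omega
    have h4 := card_le_card h3
    rw [card_range] at h4
    exact_mod_cast h4
  have hsplit : (Bad.card : ℝ) = Bad1.card + (Bad.filter (fun e => ¬ (r + 2) * B ≤ e)).card := by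
    rw [hBad1]
    exact_mod_cast (card_filter_add_card_filter_not (s := Bad) (fun e => (r + 2) * B ≤ e)).symm
  have hBsq : (B : ℝ) ≤ √x := by
    refine hBX.trans (le_trans ?_ hXx)
    calc X = X ^ 1 := (pow_one X).symm
      _ ≤ X ^ G := pow_le_pow_right₀ hX hG
  have h0 : (0 : ℝ) ≤ √x := Real.sqrt_nonneg _
  calc (Bad.card : ℝ) ≤ 6 * ((x : ℝ) + ((Nat.sqrt x : ℕ) : ℝ) ^ 2) * (1 / 2) ^ G + (r + 2) * B := by
        rw [hsplit]
        linarith
    _ ≤ 6 * ((x : ℝ) + x) * (1 / 2) ^ G + (r + 2) * √x := by gcongr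
    _ ≤ _ := by nlinarith

theorem almost_all (A δ : ℝ) (hδ : δ < 1) : ∀ᶠ x : ℕ in atTop,
    (({e : ℕ | 1 ≤ e ∧ e ≤ x ∧ {n : ℕ | S n = 2 ^ e}.encard < (⌈(Real.log x) ^ A⌉₊ : ℕ∞)}.ncard : ℕ) : ℝ) ≤
      x * Real.exp (-(Real.log x) ^ δ) := by
  classical
  set δ0 := max δ 0 with hδ0
  set A1 := max A 0 with hA1
  have hδ01 : δ0 < 1 := max_lt hδ (by norm_num)
  have hδ00 : 0 ≤ δ0 := le_max_right _ _
  have hA0 : 0 ≤ A1 := le_max_right _ _
  set δ1 := (δ0 + 1) / 2 with hδ1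
  have hδ11 : δ1 < 1 := by rw [hδ1]; linarith
  have hδ10 : 0 < δ1 := by rw [hδ1]; linarith
  have hδ12 : δ0 < δ1 := by rw [hδ1]; linarith
  obtain ⟨r, hr⟩ := exists_nat_gt ((δ1 + A1 + 1) / (1 - δ1) + 1)
  have hr1 : 1 ≤ r := by
    have h1 : (0 : ℝ) ≤ (δ1 + A1 + 1) / (1 - δ1) := div_nonneg (by linarith) (by linarith)
    have h2 : (1 : ℝ) < r := by linarith
    have : 1 < r := by exact_mod_cast h2
    omega
  have hr2 : δ1 + A1 + 1 < (1 - δ1) * ((r : ℝ) - 1) := by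
    have h1 : (δ1 + A1 + 1) / (1 - δ1) < (r : ℝ) - 1 := by linarith
    rw [div_lt_iff₀ (by linarith)] at h1
    linarith
  obtain ⟨c, I, hc, hI⟩ := mass_thm r hr1
  -- asymptotics in L
  have hL : Tendsto (fun x : ℕ => Real.log (x : ℝ)) atTop atTop :=
    Real.tendsto_log_atTop.comp tendsto_natCast_atTop_atTop
  have e1 : ∀ᶠ L : ℝ in atTop, 22 * L ^ (δ1 + A1) ≤ (c * (1 / 4) ^ (r - 1)) * L ^ ((1 - δ1) * ((r : ℝ) - 1)) :=
    rp _ _ _ _ (by linarith) (by positivity)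
  have hl2 : 0 < Real.log 2 := Real.log_pos (by norm_num)
  have e2 : ∀ᶠ L : ℝ in atTop, 1 * L ^ δ0 ≤ (Real.log 2 / 2) * L ^ δ1 :=
    rp _ _ _ _ hδ12 (by positivity)
  have e3 : ∀ᶠ L : ℝ in atTop, Real.log 24 * L ^ (0 : ℝ) ≤ (Real.log 2 / 2) * L ^ δ1 :=
    rp _ _ _ _ hδ10 (by positivity)
  have e4 : ∀ᶠ L : ℝ in atTop, 1 * L ^ δ0 ≤ (1 / 4) * L ^ (1 : ℝ) :=
    rp _ _ _ _ hδ01 (by positivity)
  have e5 : ∀ᶠ L : ℝ in atTop, Real.log (2 * (r + 3)) * L ^ (0 : ℝ) ≤ (1 / 4) * L ^ (1 : ℝ) :=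
    rp _ _ _ _ (by norm_num) (by positivity)
  -- the scale
  have hscale : Tendsto (fun L : ℝ => Real.exp (L / (2 * (⌈L ^ δ1⌉₊ : ℝ)))) atTop atTop := by
    apply Real.tendsto_exp_atTop.comp
    have h1 : Tendsto (fun L : ℝ => (1 / 4) * L ^ (1 - δ1)) atTop atTop :=
      (tendsto_rpow_atTop (by linarith)).const_mul_atTop (by norm_num)
    apply tendsto_atTop_mono' atTop _ h1
    filter_upwards [eventually_ge_atTop (1 : ℝ)] with L hL1
    have hLd : 1 ≤ L ^ δ1 := Real.one_le_rpow hL1 hδ10.le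
    have hceil : (⌈L ^ δ1⌉₊ : ℝ) ≤ 2 * L ^ δ1 := by
      have := (Nat.ceil_lt_add_one (by linarith : 0 ≤ L ^ δ1)).le
      linarith
    have hceil0 : (0 : ℝ) < ⌈L ^ δ1⌉₊ := by
      exact_mod_cast Nat.ceil_pos.2 (by linarith)
    rw [le_div_iff₀ (by positivity)]
    have h3 : L ^ (1 - δ1) * L ^ δ1 = L := by
      rw [← Real.rpow_add (by linarith)]
      norm_num
    have h4 : 0 ≤ L ^ (1 - δ1) := by positivity
    calc (1 / 4) * L ^ (1 - δ1) * (2 * (⌈L ^ δ1⌉₊ : ℝ)) ≤ (1 / 4) * L ^ (1 - δ1) * (2 * (2 * L ^ δ1)) := by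
          gcongr
      _ = L ^ (1 - δ1) * L ^ δ1 := by ring
      _ = L := h3
  have hI' := (hscale.comp hL).eventually hI
  filter_upwards [hL.eventually e1, hL.eventually e2, hL.eventually e3, hL.eventually e4,
    hL.eventually e5, hI', hL.eventually_ge_atTop 1, eventually_ge_atTop 1] with
    x f1 f2 f3 f4 f5 fI hL1 hx1
  set L := Real.log (x : ℝ) with hLdef
  have hx0 : (0 : ℝ) < x := by exact_mod_cast hx1
  have hxexp : (x : ℝ) = Real.exp L := (Real.exp_log hx0).symm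
  set G := ⌈L ^ δ1⌉₊ with hG
  have hLd : 1 ≤ L ^ δ1 := Real.one_le_rpow hL1 hδ10.le
  have hG1 : 1 ≤ G := Nat.ceil_pos.2 (by linarith)
  have hGR : (1 : ℝ) ≤ G := by exact_mod_cast hG1
  have hGle : (G : ℝ) ≤ 2 * L ^ δ1 := by
    have := (Nat.ceil_lt_add_one (by linarith : 0 ≤ L ^ δ1)).le
    linarith
  have hGge : L ^ δ1 ≤ G := Nat.le_ceil _
  set X := Real.exp (L / (2 * (G : ℝ))) with hXdef
  obtain ⟨g1, g2⟩ := fI
  simp only [Function.comp] at g1 g2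
  rw [← hLdef, ← hG, ← hXdef] at g1 g2
  have hX1 : 1 ≤ X := by
    rw [hXdef]
    apply Real.one_le_exp
    positivity
  have hXG : X ^ G ≤ √x := by
    apply le_of_eq
    rw [hXdef, ← Real.exp_nat_mul, Real.sqrt_eq_rpow, hxexp, ← Real.exp_mul]
    congr 1
    field_simp
  set s := 8 + 2 * L ^ A1 with hs
  have hLA : 1 ≤ L ^ A1 := Real.one_le_rpow hL1 hA0
  have hs8 : 8 ≤ s := by rw [hs]; linarith
  have hlogX : Real.log X = L / (2 * G) := by rw [hXdef, Real.log_exp]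
  have hmass : (G : ℝ) * (s + 1) ≤ ∑ l ∈ (Icc 1 ⌊X⌋₊).filter (fun l : ℕ => l.Prime ∧ X / 4 < l),
        ((I X l).card : ℝ) / l := by
    refine le_trans ?_ g2
    have h1 : (G : ℝ) * (s + 1) ≤ 22 * L ^ (δ1 + A1) := by
      rw [Real.rpow_add (by linarith)]
      calc (G : ℝ) * (s + 1) ≤ (2 * L ^ δ1) * (11 * L ^ A1) := by
            apply mul_le_mul hGle _ (by linarith) (by positivity)
            rw [hs]
            linarith
        _ = _ := by ring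
    have h2 : (c * (1 / 4) ^ (r - 1)) * L ^ ((1 - δ1) * ((r : ℝ) - 1)) ≤
        c * (Real.log X) ^ (r - 1) := by
      have h3 : (1 / 4) * L ^ (1 - δ1) ≤ Real.log X := by
        rw [hlogX, le_div_iff₀ (by positivity)]
        have h4 : L ^ (1 - δ1) * L ^ δ1 = L := by
          rw [← Real.rpow_add (by linarith)]
          norm_num
        have h5 : 0 ≤ L ^ (1 - δ1) := by positivity
        calc (1 / 4) * L ^ (1 - δ1) * (2 * (G : ℝ)) ≤ (1 / 4) * L ^ (1 - δ1) * (2 * (2 * L ^ δ1)) := by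
              gcongr
          _ = L ^ (1 - δ1) * L ^ δ1 := by ring
          _ = L := h4
      have h6 : L ^ ((1 - δ1) * ((r : ℝ) - 1)) = (L ^ (1 - δ1)) ^ (r - 1) := by
        rw [Real.rpow_mul (by linarith), ← Real.rpow_natCast, Nat.cast_sub hr1]
        norm_num
      rw [h6, mul_assoc, ← mul_pow]
      gcongr
    linarith
  set Bad : Finset ℕ := (Icc 1 x).filter
    (fun e => {n : ℕ | S n = 2 ^ e}.encard < (⌈(Real.log x) ^ A⌉₊ : ℕ∞)) with hBad
  have hBadset : {e : ℕ | 1 ≤ e ∧ e ≤ x ∧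
      {n : ℕ | S n = 2 ^ e}.encard < (⌈(Real.log x) ^ A⌉₊ : ℕ∞)} = (Bad : Set ℕ) := by
    ext e
    rw [hBad, mem_coe, mem_filter, mem_Icc, Set.mem_ofPred_eq, and_assoc]
  rw [hBadset, Set.ncard_coe_finset]
  have hmain := one_scale r X s (I X) x G hX1 hG1 hXG hs8 g1 hmass Bad (filter_subset _ _) (fun e he => by
    rw [hBad, mem_filter] at he
    refine lt_of_lt_of_le he.2 ?_
    have h1 : ⌈(Real.log x) ^ A⌉₊ ≤ ⌈s / 2⌉₊ := by
      apply Nat.ceil_le_ceil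
      have h2 : L ^ A ≤ L ^ A1 := Real.rpow_le_rpow_of_exponent_le hL1 (le_max_left _ _)
      rw [← hLdef, hs]
      linarith
    exact_mod_cast h1)
  refine hmain.trans ?_
  rw [Real.rpow_zero, mul_one] at f3 f5
  rw [Real.rpow_one] at f4 f5
  rw [one_mul] at f2 f4
  have hLδ : L ^ δ ≤ L ^ δ0 := Real.rpow_le_rpow_of_exponent_le hL1 (le_max_left _ _)
  have hexp0 : Real.exp (-L ^ δ0) ≤ Real.exp (-L ^ δ) := Real.exp_le_exp.2 (by linarith)
  have p1 : 12 * (x : ℝ) * (1 / 2) ^ G ≤ (1 / 2) * (x * Real.exp (-L ^ δ0)) := by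
    have h1 : ((1 : ℝ) / 2) ^ G = Real.exp (-(Real.log 2 * G)) := by
      rw [Real.exp_neg, mul_comm, Real.exp_nat_mul, Real.exp_log (by norm_num), one_div, inv_pow]
    have h2 : Real.exp (-(Real.log 2 * G)) ≤ Real.exp (-(Real.log 24) + -L ^ δ0) := by
      apply Real.exp_le_exp.2
      have : Real.log 2 * L ^ δ1 ≤ Real.log 2 * G := by gcongr
      linarith
    rw [h1]
    rw [Real.exp_add, Real.exp_neg (Real.log 24), Real.exp_log (by norm_num)] at h2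
    have h3 : 12 * (x : ℝ) * Real.exp (-(Real.log 2 * G)) ≤ 12 * x * (24⁻¹ * Real.exp (-L ^ δ0)) := by
      gcongr
    linarith
  have p2 : ((r : ℝ) + 3) * √x ≤ (1 / 2) * (x * Real.exp (-L ^ δ0)) := by
    have h1 : √(x : ℝ) = Real.exp (L / 2) := by
      rw [Real.sqrt_eq_rpow, hxexp, ← Real.exp_mul]
      congr 1
      ring
    have h2 : (2 * ((r : ℝ) + 3)) = Real.exp (Real.log (2 * (r + 3))) := by
      rw [Real.exp_log (by positivity)]
    have h3 : (2 * ((r : ℝ) + 3)) * √x ≤ x * Real.exp (-L ^ δ0) := by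
      rw [h1, h2, ← Real.exp_add]
      rw [hxexp, ← Real.exp_add]
      apply Real.exp_le_exp.2
      linarith
    linarith
  have p3 : (x : ℝ) * Real.exp (-L ^ δ0) ≤ x * Real.exp (-L ^ δ) :=
    mul_le_mul_of_nonneg_left hexp0 hx0.le
  linarith

end Run7.h499
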