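import Mathlib
import Pool.Agent.H343R2.EH.Primes
import Pool.Agent.H343R2.EH.Psi
import Pool.Agent.Helper923.PNT

set_option autoImplicit false

/-! # Primes in residue classes on average, all moduli -/

namespace Run7.h499

open Finset Filter Topology
open H343E (piAP pi1 Fam)

theorem logpow_le (C : ℝ) (k : ℕ) (η : ℝ) (hη : 0 < η) :
    ∀ᶠ x : ℕ in atTop, C * Real.log x ^ k ≤ (x : ℝ) ^ η := by
  have h1 : ∀ᶠ y : ℝ in atTop, C * Real.log y ^ k ≤ y ^ η := by
    have h2 := (isLittleO_log_rpow_rpow_atTop (k : ℝ) hη).bound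
      (show 0 < 1 / (|C| + 1) by positivity)
    filter_upwards [h2, eventually_ge_atTop 1] with y hy hy1
    have hl : 0 ≤ Real.log y := Real.log_nonneg hy1
    rw [Real.rpow_natCast, Real.norm_of_nonneg (by positivity),
      Real.norm_of_nonneg (Real.rpow_nonneg (by linarith) _)] at hy
    calc C * Real.log y ^ k ≤ (|C| + 1) * Real.log y ^ k := by
          apply mul_le_mul_of_nonneg_right _ (by positivity)
          linarith [le_abs_self C]
      _ ≤ (|C| + 1) * (1 / (|C| + 1) * y ^ η) :=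
          mul_le_mul_of_nonneg_left hy (by positivity)
      _ = y ^ η := by field_simp
  exact tendsto_natCast_atTop_atTop.eventually h1

/-- the theorem of Bombieri and Vinogradov for all moduli -/
theorem bvpi (U : ℕ) (δ : ℝ) (hδ : 0 < δ) : ∀ᶠ x : ℕ in atTop, ∀ r : ℕ → ℕ,
    ∑ q ∈ (Icc 1 ⌊(x : ℝ) ^ (1 / 2 - δ)⌋₊).filter (fun q => (r q).Coprime q),
      |piAP x q (r q) - pi1 x / (Nat.totient q : ℝ)| ≤ x / Real.log x ^ U := by
  classical
  obtain ⟨B, x0, h⟩ := H343E.primes_of U (H343E.unsmoothed (U + 2))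
  filter_upwards [eventually_ge_atTop x0, logpow_le 1 B (2 * δ) (by positivity),
    logpow_le 1 B (1 / 2) (by norm_num), eventually_ge_atTop 3] with x hx hl1 hl2 hx3 r
  have hx0 : (0 : ℝ) < x := by
    have : 0 < x := by omega
    exact_mod_cast this
  have hx1 : (1 : ℝ) ≤ x := by
    have : 1 ≤ x := by omega
    exact_mod_cast this
  have hlog : 0 < Real.log x := Real.log_pos (by
    have : 1 < x := by omega
    exact_mod_cast this)
  set D := ⌊(x : ℝ) ^ (1 / 2 - δ)⌋₊ with hD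
  have hDx : (D : ℝ) ≤ (x : ℝ) ^ (1 / 2 - δ) := Nat.floor_le (by positivity)
  have hD1 : (D : ℝ) ≤ x / Real.log x ^ B := by
    rw [le_div_iff₀ (by positivity)]
    calc (D : ℝ) * Real.log x ^ B ≤ (x : ℝ) ^ (1 / 2 - δ) * (x : ℝ) ^ (1 / 2 : ℝ) := by
          have : Real.log x ^ B ≤ (x : ℝ) ^ (1 / 2 : ℝ) := by linarith
          gcongr
      _ = (x : ℝ) ^ (1 - δ) := by
          rw [← Real.rpow_add hx0]
          congr 1
          ring
      _ ≤ (x : ℝ) ^ (1 : ℝ) := Real.rpow_le_rpow_of_exponent_le hx1 (by linarith)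
      _ = x := Real.rpow_one _
  have hD2 : (D : ℝ) ^ 2 ≤ 1 * x / Real.log x ^ B := by
    rw [le_div_iff₀ (by positivity), one_mul]
    calc (D : ℝ) ^ 2 * Real.log x ^ B ≤ ((x : ℝ) ^ (1 / 2 - δ)) ^ 2 * (x : ℝ) ^ (2 * δ) := by
          have : Real.log x ^ B ≤ (x : ℝ) ^ (2 * δ) := by linarith
          gcongr
      _ = (x : ℝ) ^ (1 : ℝ) := by
          rw [← Real.rpow_natCast, ← Real.rpow_mul hx0.le, ← Real.rpow_add hx0]
          congr 1
          push_cast
          ring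
      _ = x := Real.rpow_one _
  set L : ℕ → Finset ℕ := fun q => if 1 ≤ q ∧ (r q).Coprime q then {r q % q} else ∅ with hL
  have hF : Fam 1 L := by
    constructor
    · intro q a ha
      rw [hL] at ha
      simp only at ha
      split_ifs at ha with h1
      · rw [mem_singleton] at ha
        rw [ha]
        refine ⟨Nat.mod_lt _ h1.1, ?_⟩
        have h2 := h1.2
        unfold Nat.Coprime at h2 ⊢
        rw [← h2, Nat.gcd_comm (r q) q, Nat.gcd_rec q (r q)]
      · exact absurd ha (notMem_empty _)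
    · intro q
      rw [hL]
      simp only
      split_ifs <;> simp
  have h1 := h x hx 1 le_rfl D hD1 hD2 L hF
  rw [one_mul] at h1
  refine le_trans ?_ h1
  rw [sum_filter]
  apply sum_le_sum
  intro q hq
  rw [mem_Icc] at hq
  split_ifs with h2
  · have h3 : L q = {r q % q} := by
      rw [hL]
      simp only
      rw [if_pos ⟨hq.1, h2⟩]
    rw [h3, sum_singleton]
    have h4 : piAP x q (r q % q) = piAP x q (r q) := by
      unfold piAP
      congr 2
      ext p
      rw [mem_filter, mem_filter]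
      have : p ≡ r q % q [MOD q] ↔ p ≡ r q [MOD q] := by
        unfold Nat.ModEq
        rw [Nat.mod_mod]
      rw [this]
    rw [h4]
  · exact sum_nonneg fun _ _ => abs_nonneg _

theorem pi1_eq (x : ℕ) : pi1 x = (Nat.primeCounting x : ℝ) := by
  unfold pi1 Nat.primeCounting Nat.primeCounting'
  rw [Nat.count_eq_card_filter_range]
  congr 2
  ext p
  rw [mem_filter, mem_filter, mem_Icc, mem_range]
  constructor
  · rintro ⟨⟨h1, h2⟩, h3⟩
    exact ⟨by omega, h3⟩
  · rintro ⟨h1, h3⟩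
    exact ⟨⟨h3.one_le, by omega⟩, h3⟩

theorem pi1_asym : Tendsto (fun x : ℕ => pi1 x * Real.log x / x) atTop (𝓝 1) := by
  have := Pool.Agent.Helper923.PNT.pi_tendsto.comp (tendsto_natCast_atTop_atTop (R := ℝ))
  refine this.congr fun N => ?_
  simp only [Function.comp, Nat.floor_natCast, pi1_eq]

theorem pi1_ge : ∀ᶠ x : ℕ in atTop, (x : ℝ) / (2 * Real.log x) ≤ pi1 x := by
  filter_upwards [pi1_asym.eventually (eventually_gt_nhds (show (1 / 2 : ℝ) < 1 by norm_num)),
    eventually_ge_atTop 3] with x h1 hx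
  have hx0 : (0 : ℝ) < x := by
    have : 0 < x := by omega
    exact_mod_cast this
  have hlog : 0 < Real.log x := Real.log_pos (by
    have : 1 < x := by omega
    exact_mod_cast this)
  rw [lt_div_iff₀ hx0] at h1
  rw [div_le_iff₀ (by positivity)]
  linarith

theorem two_mul_tendsto : Tendsto (fun x : ℕ => 2 * x) atTop atTop :=
  tendsto_id.const_mul_atTop' (by norm_num)

theorem log_two_mul_ratio : Tendsto (fun x : ℕ => Real.log ((2 * x : ℕ) : ℝ) / Real.log x) atTop (𝓝 1) := by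
  have h1 : Tendsto (fun x : ℕ => Real.log 2 / Real.log (x : ℝ) + 1) atTop (𝓝 (0 + 1)) := by
    apply Tendsto.add _ tendsto_const_nhds
    exact Tendsto.div_atTop tendsto_const_nhds
      (Real.tendsto_log_atTop.comp tendsto_natCast_atTop_atTop)
  rw [zero_add] at h1
  refine h1.congr' ?_
  filter_upwards [eventually_ge_atTop 3] with x hx
  have hx0 : (0 : ℝ) < x := by
    have : 0 < x := by omega
    exact_mod_cast this
  have hlog : 0 < Real.log x := Real.log_pos (by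
    have : 1 < x := by omega
    exact_mod_cast this)
  push_cast
  rw [Real.log_mul (by norm_num) hx0.ne', add_div, div_self hlog.ne']

/-- primes in `(x, 2x]` -/
theorem pi1_dyadic : ∀ᶠ x : ℕ in atTop, (x : ℝ) / (2 * Real.log x) ≤ pi1 (2 * x) - pi1 x := by
  have h1 : Tendsto (fun x : ℕ => pi1 (2 * x) * Real.log ((2 * x : ℕ) : ℝ) / ((2 * x : ℕ) : ℝ))
      atTop (𝓝 1) := pi1_asym.comp two_mul_tendsto
  have h2 := (h1.div log_two_mul_ratio one_ne_zero).const_mul 2
  have h3 := h2.sub pi1_asym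
  rw [div_one, mul_one, show (2 : ℝ) - 1 = 1 by norm_num] at h3
  filter_upwards [h3.eventually (eventually_gt_nhds (show (1 / 2 : ℝ) < 1 by norm_num)),
    eventually_ge_atTop 3] with x h4 hx
  have hx0 : (0 : ℝ) < x := by
    have : 0 < x := by omega
    exact_mod_cast this
  have hlog : 0 < Real.log x := Real.log_pos (by
    have : 1 < x := by omega
    exact_mod_cast this)
  have hlog2 : 0 < Real.log ((2 * x : ℕ) : ℝ) := Real.log_pos (by
    have : 1 < 2 * x := by omega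
    exact_mod_cast this)
  simp only [Pi.div_apply] at h4
  have h5 : 2 * (pi1 (2 * x) * Real.log ((2 * x : ℕ) : ℝ) / ((2 * x : ℕ) : ℝ) /
      (Real.log ((2 * x : ℕ) : ℝ) / Real.log x)) - pi1 x * Real.log x / x =
      (pi1 (2 * x) - pi1 x) * Real.log x / x := by
    have : ((2 * x : ℕ) : ℝ) = 2 * x := by push_cast; ring
    rw [this] at hlog2 ⊢
    field_simp
  rw [h5, lt_div_iff₀ hx0] at h4
  rw [div_le_iff₀ (by positivity)]
  linarith

/-- the primes `7 mod 8` in `(y, 2y]` -/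
def Lam (y : ℕ) : Finset ℕ := (Ioc y (2 * y)).filter (fun l => l.Prime ∧ l % 8 = 7)

theorem Lam_card (y : ℕ) : ((Lam y).card : ℝ) = piAP (2 * y) 8 7 - piAP y 8 7 := by
  unfold piAP Lam
  have h1 : (Icc 1 (2 * y)).filter (fun p => p.Prime ∧ p ≡ 7 [MOD 8]) =
      (Icc 1 y).filter (fun p => p.Prime ∧ p ≡ 7 [MOD 8]) ∪
      (Ioc y (2 * y)).filter (fun l => l.Prime ∧ l % 8 = 7) := by
    ext p
    rw [mem_union, mem_filter, mem_filter, mem_filter, mem_Icc, mem_Icc, mem_Ioc]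
    unfold Nat.ModEq
    constructor
    · rintro ⟨⟨h1, h2⟩, h3, h4⟩
      by_cases h5 : p ≤ y
      · left; exact ⟨⟨h1, h5⟩, h3, h4⟩
      · right; exact ⟨⟨by omega, h2⟩, h3, by omega⟩
    · rintro (⟨⟨h1, h2⟩, h3, h4⟩ | ⟨⟨h1, h2⟩, h3, h4⟩)
      · exact ⟨⟨h1, by omega⟩, h3, h4⟩
      · exact ⟨⟨by omega, h2⟩, h3, by omega⟩
  have h2 : Disjoint ((Icc 1 y).filter (fun p => p.Prime ∧ p ≡ 7 [MOD 8]))
      ((Ioc y (2 * y)).filter (fun l => l.Prime ∧ l % 8 = 7)) := by
    rw [Finset.disjoint_left]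
    intro p hp hp2
    rw [mem_filter, mem_Icc] at hp
    rw [mem_filter, mem_Ioc] at hp2
    omega
  rw [h1, card_union_of_disjoint h2]
  push_cast
  ring

theorem ap_eight : ∀ᶠ x : ℕ in atTop, |piAP x 8 7 - pi1 x / 4| ≤ x / Real.log x ^ 2 := by
  have h8 : ∀ᶠ x : ℕ in atTop, (8 : ℝ) ≤ (x : ℝ) ^ (1 / 2 - 1 / 4 : ℝ) :=
    ((tendsto_rpow_atTop (by norm_num : (0 : ℝ) < 1 / 2 - 1 / 4)).comp
      tendsto_natCast_atTop_atTop).eventually_ge_atTop _
  filter_upwards [bvpi 2 (1 / 4) (by norm_num), h8] with x h1 h2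
  have h3 := h1 (fun _ => 7)
  refine le_trans ?_ h3
  have hmem : 8 ∈ (Icc 1 ⌊(x : ℝ) ^ (1 / 2 - 1 / 4 : ℝ)⌋₊).filter (fun q => (7 : ℕ).Coprime q) := by
    rw [mem_filter, mem_Icc]
    refine ⟨⟨by norm_num, Nat.le_floor (by exact_mod_cast h2)⟩, by norm_num⟩
  have h4 := single_le_sum (f := fun q : ℕ => |piAP x q 7 - pi1 x / (Nat.totient q : ℝ)|)
    (fun _ _ => abs_nonneg _) hmem
  have h5 : Nat.totient 8 = 4 := by decide
  simp only [h5] at h4
  exact_mod_cast h4

theorem Lam_lower : ∀ᶠ y : ℕ in atTop, (y : ℝ) / (16 * Real.log y) ≤ ((Lam y).card : ℝ) := by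
  have hL : Tendsto (fun x : ℕ => Real.log (x : ℝ)) atTop atTop :=
    Real.tendsto_log_atTop.comp tendsto_natCast_atTop_atTop
  filter_upwards [ap_eight, two_mul_tendsto.eventually ap_eight, pi1_dyadic,
    hL.eventually_ge_atTop 64, eventually_ge_atTop 3] with y h1 h2 h3 h4 hy
  have hy0 : (0 : ℝ) < y := by
    have : 0 < y := by omega
    exact_mod_cast this
  have hlog : 0 < Real.log y := by linarith
  rw [Lam_card]
  have a1 := (abs_le.1 h1).2
  have a2 := (abs_le.1 h2).1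
  have hlog2 : Real.log y ≤ Real.log ((2 * y : ℕ) : ℝ) := by
    apply Real.log_le_log hy0
    push_cast
    linarith
  have b1 : (y : ℝ) / Real.log y ^ 2 ≤ y / (64 * Real.log y) := by
    apply div_le_div_of_nonneg_left hy0.le (by positivity)
    nlinarith
  have b2 : ((2 * y : ℕ) : ℝ) / Real.log ((2 * y : ℕ) : ℝ) ^ 2 ≤ 2 * (y / (64 * Real.log y)) := by
    calc ((2 * y : ℕ) : ℝ) / Real.log ((2 * y : ℕ) : ℝ) ^ 2 ≤ ((2 * y : ℕ) : ℝ) / Real.log y ^ 2 := by
          gcongr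
      _ = 2 * (y / Real.log y ^ 2) := by push_cast; ring
      _ ≤ _ := by linarith
  have b3 : (y : ℝ) / (16 * Real.log y) = 4 * (y / (64 * Real.log y)) := by
    field_simp
    norm_num
  have b4 : (y : ℝ) / (2 * Real.log y) = 32 * (y / (64 * Real.log y)) := by
    field_simp
    norm_num
  rw [b3]
  rw [b4] at h3
  have b5 : 0 < y / (64 * Real.log y) := by positivity
  linarith

/-- the residue class -/
theorem exists_res : ∃ r : ℕ → ℕ, ∀ l : ℕ, l.Prime → l ≠ 2 →
    r (8 * l) % 8 = 7 ∧ r (8 * l) % l = 1 ∧ (r (8 * l)).Coprime (8 * l) := by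
  have h : ∀ q : ℕ, ∃ a : ℕ, ∀ l : ℕ, l.Prime → l ≠ 2 → q = 8 * l →
      a % 8 = 7 ∧ a % l = 1 ∧ a.Coprime (8 * l) := by
    intro q
    by_cases hq : ∃ l : ℕ, l.Prime ∧ l ≠ 2 ∧ q = 8 * l
    · obtain ⟨l, hl, hl2, rfl⟩ := hq
      have hc : Nat.Coprime 8 l := by
        rw [show 8 = 2 ^ 3 by norm_num]
        apply Nat.Coprime.pow_left
        rw [Nat.coprime_primes Nat.prime_two hl]
        exact hl2.symm
      obtain ⟨a, ha1, ha2⟩ := Nat.chineseRemainder hc 7 1
      refine ⟨a, fun l' _ _ hl' => ?_⟩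
      have : l' = l := by omega
      subst this
      have e1 : a % 8 = 7 := ha1
      have e2 : a % l' = 1 := by
        have h3 : a % l' = 1 % l' := ha2
        rw [h3, Nat.mod_eq_of_lt hl.one_lt]
      refine ⟨e1, e2, ?_⟩
      apply Nat.Coprime.mul_right
      · rw [show 8 = 2 ^ 3 by norm_num]
        apply Nat.Coprime.pow_right
        rw [Nat.coprime_comm, Nat.coprime_two_left, Nat.odd_iff]
        omega
      · unfold Nat.Coprime
        rw [Nat.gcd_comm, Nat.gcd_rec, e2, Nat.gcd_one_left]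
    · refine ⟨0, fun l hl hl2 h => absurd ⟨l, hl, hl2, h⟩ hq⟩
  choose r hr using h
  exact ⟨r, fun l hl hl2 => hr (8 * l) l hl hl2 rfl⟩

theorem piAP_eight (x l a : ℕ) (hl : l.Prime) (h2 : l ≠ 2) (h8 : a % 8 = 7) (h1 : a % l = 1) :
    piAP x (8 * l) a = (((Icc 1 x).filter (fun q => (q.Prime ∧ q % 8 = 7) ∧ l ∣ q - 1)).card : ℝ) := by
  unfold piAP
  congr 2
  ext q
  rw [mem_filter, mem_filter, mem_Icc, and_assoc (a := q.Prime)]
  have hc : Nat.Coprime 8 l := by
    rw [show 8 = 2 ^ 3 by norm_num]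
    apply Nat.Coprime.pow_left
    rw [Nat.coprime_primes Nat.prime_two hl]
    exact h2.symm
  have key : q.Prime → (q ≡ a [MOD 8 * l] ↔ q % 8 = 7 ∧ l ∣ q - 1) := by
    intro hq
    rw [← Nat.modEq_and_modEq_iff_modEq_mul hc]
    have e1 : q ≡ a [MOD 8] ↔ q % 8 = 7 := by
      unfold Nat.ModEq
      rw [h8]
    have e2 : q ≡ a [MOD l] ↔ l ∣ q - 1 := by
      rw [← Nat.modEq_iff_dvd' hq.one_le]
      unfold Nat.ModEq
      rw [h1, Nat.mod_eq_of_lt hl.one_lt]
      exact eq_comm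
    rw [e1, e2]
  constructor
  · rintro ⟨h3, h4, h5⟩
    exact ⟨h3, h4, (key h4).1 h5⟩
  · rintro ⟨h3, h4, h5⟩
    exact ⟨h3, h4, (key h4).2 h5⟩

/-- many pairs -/
theorem pairs_lower (δ : ℝ) (hδ : 0 < δ) (hδ2 : δ < 1 / 2) : ∀ᶠ x : ℕ in atTop,
    (x : ℝ) / (2 ^ 11 * Real.log x ^ 2) ≤ ∑ l ∈ Lam ⌊(x : ℝ) ^ (1 / 2 - δ)⌋₊,
      (((Icc 1 x).filter (fun q => (q.Prime ∧ q % 8 = 7) ∧ l ∣ q - 1)).card : ℝ) := by
  classical
  obtain ⟨r, hr⟩ := exists_res
  have hy : Tendsto (fun x : ℕ => ⌊(x : ℝ) ^ (1 / 2 - δ)⌋₊) atTop atTop :=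
    tendsto_nat_floor_atTop.comp ((tendsto_rpow_atTop (by linarith)).comp
      tendsto_natCast_atTop_atTop)
  have hL : Tendsto (fun x : ℕ => Real.log (x : ℝ)) atTop atTop :=
    Real.tendsto_log_atTop.comp tendsto_natCast_atTop_atTop
  have h16 : ∀ᶠ x : ℕ in atTop, (16 : ℝ) ≤ (x : ℝ) ^ (δ / 2) :=
    ((tendsto_rpow_atTop (by positivity)).comp tendsto_natCast_atTop_atTop).eventually_ge_atTop _
  filter_upwards [bvpi 3 (δ / 2) (by positivity), hy.eventually Lam_lower, pi1_ge,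
    hL.eventually_ge_atTop (2 ^ 11), h16, hy.eventually_ge_atTop 3, eventually_ge_atTop 3] with
    x h1 h2 h3 h4 h5 h6 hx
  set y := ⌊(x : ℝ) ^ (1 / 2 - δ)⌋₊ with hydef
  have hx0 : (0 : ℝ) < x := by
    have : 0 < x := by omega
    exact_mod_cast this
  have hx1 : (1 : ℝ) ≤ x := by
    have : 1 ≤ x := by omega
    exact_mod_cast this
  have hlog : 0 < Real.log x := by linarith
  have hyx : (y : ℝ) ≤ (x : ℝ) ^ (1 / 2 - δ) := Nat.floor_le (by positivity)
  have hy0 : (0 : ℝ) < y := by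
    have : 0 < y := by omega
    exact_mod_cast this
  have hyx1 : (y : ℝ) ≤ x := by
    refine hyx.trans ?_
    calc (x : ℝ) ^ (1 / 2 - δ) ≤ (x : ℝ) ^ (1 : ℝ) :=
          Real.rpow_le_rpow_of_exponent_le hx1 (by linarith)
      _ = x := Real.rpow_one _
  have hlogy0 : 0 < Real.log y := Real.log_pos (by
    have : 1 < y := by omega
    exact_mod_cast this)
  have hlogy : Real.log y ≤ Real.log x := Real.log_le_log hy0 hyx1
  have hDy : 16 * y ≤ ⌊(x : ℝ) ^ (1 / 2 - δ / 2)⌋₊ := by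
    apply Nat.le_floor
    push_cast
    calc (16 : ℝ) * y ≤ (x : ℝ) ^ (δ / 2) * (x : ℝ) ^ (1 / 2 - δ) := by gcongr
      _ = (x : ℝ) ^ (1 / 2 - δ / 2) := by
        rw [← Real.rpow_add hx0]
        congr 1
        ring
  have hbv := h1 r
  have hLam : ∀ l ∈ Lam y, l.Prime ∧ l ≠ 2 ∧ y < l ∧ l ≤ 2 * y := by
    intro l hl
    unfold Lam at hl
    rw [mem_filter, mem_Ioc] at hl
    exact ⟨hl.2.1, by omega, hl.1.1, hl.1.2⟩
  have hinj : Set.InjOn (fun l : ℕ => 8 * l) (Lam y : Set ℕ) := by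
    intro a _ b _ h
    simp only at h
    omega
  have hsub : (Lam y).image (fun l => 8 * l) ⊆
      (Icc 1 ⌊(x : ℝ) ^ (1 / 2 - δ / 2)⌋₊).filter (fun q => (r q).Coprime q) := by
    intro q hq
    rw [mem_image] at hq
    obtain ⟨l, hl, rfl⟩ := hq
    obtain ⟨a1, a2, a3, a4⟩ := hLam l hl
    rw [mem_filter, mem_Icc]
    exact ⟨⟨by omega, by omega⟩, (hr l a1 a2).2.2⟩
  have herr : ∑ l ∈ Lam y, |piAP x (8 * l) (r (8 * l)) - pi1 x / (Nat.totient (8 * l) : ℝ)| ≤
      x / Real.log x ^ 3 := by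
    refine le_trans ?_ hbv
    rw [← sum_image (f := fun q => |piAP x q (r q) - pi1 x / (Nat.totient q : ℝ)|) hinj]
    exact sum_le_sum_of_subset_of_nonneg hsub (fun _ _ _ => abs_nonneg _)
  have hpi0 : 0 ≤ pi1 x := by
    unfold pi1
    positivity
  have hmain : ∑ l ∈ Lam y, pi1 x / (8 * y : ℝ) ≤ ∑ l ∈ Lam y, pi1 x / (Nat.totient (8 * l) : ℝ) := by
    apply sum_le_sum
    intro l hl
    obtain ⟨a1, a2, a3, a4⟩ := hLam l hl
    have hc : Nat.Coprime 8 l := by
      rw [show 8 = 2 ^ 3 by norm_num]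
      apply Nat.Coprime.pow_left
      rw [Nat.coprime_primes Nat.prime_two a1]
      exact a2.symm
    have h5 : Nat.totient 8 = 4 := by decide
    rw [Nat.totient_mul hc, h5, Nat.totient_prime a1]
    apply div_le_div_of_nonneg_left hpi0
    · have : 0 < 4 * (l - 1) := by
        have := a1.two_le
        omega
      exact_mod_cast this
    · have : 4 * (l - 1) ≤ 8 * y := by omega
      exact_mod_cast this
  rw [sum_const, nsmul_eq_mul] at hmain
  have hcount : ∑ l ∈ Lam y,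
      (((Icc 1 x).filter (fun q => (q.Prime ∧ q % 8 = 7) ∧ l ∣ q - 1)).card : ℝ) =
      ∑ l ∈ Lam y, piAP x (8 * l) (r (8 * l)) := by
    refine sum_congr rfl fun l hl => ?_
    obtain ⟨a1, a2, a3, a4⟩ := hLam l hl
    obtain ⟨b1, b2, _⟩ := hr l a1 a2
    rw [piAP_eight x l _ a1 a2 b1 b2]
  rw [hcount]
  have hdiff : ∑ l ∈ Lam y, pi1 x / (Nat.totient (8 * l) : ℝ) - x / Real.log x ^ 3 ≤
      ∑ l ∈ Lam y, piAP x (8 * l) (r (8 * l)) := by
    have h7 : ∑ l ∈ Lam y, (pi1 x / (Nat.totient (8 * l) : ℝ) - piAP x (8 * l) (r (8 * l))) ≤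
        ∑ l ∈ Lam y, |piAP x (8 * l) (r (8 * l)) - pi1 x / (Nat.totient (8 * l) : ℝ)| := by
      apply sum_le_sum
      intro l _
      rw [abs_sub_comm]
      exact le_abs_self _
    rw [sum_sub_distrib] at h7
    linarith
  have hlow : (x : ℝ) / (2 ^ 10 * Real.log x ^ 2) ≤ ((Lam y).card : ℝ) * (pi1 x / (8 * y)) := by
    calc (x : ℝ) / (2 ^ 10 * Real.log x ^ 2) ≤
        (y / (16 * Real.log y)) * ((x / (2 * Real.log x)) / (8 * y)) := by
          have e1 : (y / (16 * Real.log y)) * ((x / (2 * Real.log x)) / (8 * y)) =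
            x / (2 ^ 8 * (Real.log y * Real.log x)) := by
            field_simp
            norm_num
          rw [e1]
          apply div_le_div_of_nonneg_left hx0.le (by positivity)
          nlinarith
      _ ≤ _ := by gcongr
  have herr2 : (x : ℝ) / Real.log x ^ 3 ≤ x / (2 ^ 11 * Real.log x ^ 2) := by
    apply div_le_div_of_nonneg_left hx0.le (by positivity)
    have : (0 : ℝ) ≤ Real.log x ^ 2 := by positivity
    nlinarith
  have hsum : (x : ℝ) / (2 ^ 10 * Real.log x ^ 2) = 2 * (x / (2 ^ 11 * Real.log x ^ 2)) := by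
    field_simp
  linarith

end Run7.h499
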