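import Mathlib
import Pool.Agent.Run7.h499.Tower

set_option autoImplicit false

/-! # One exponent with infinitely many solutions -/

namespace Run7.h499

open Finset

theorem cc_le_of_dvd {M N : ℕ} (hN : N ≠ 0) (h : M ∣ N) : cc M ≤ cc N := by
  unfold cc
  apply sum_le_sum_of_subset
  apply erase_subset_erase
  exact Nat.divisors_subset_of_dvd hN h

theorem cc_prime {p : ℕ} (hp : p.Prime) : cc p = idx p := by
  unfold cc
  rw [hp.divisors]
  have : ({1, p} : Finset ℕ).erase 1 = {p} := by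
    rw [erase_insert]
    simpa using hp.one_lt.ne
  rw [this, sum_singleton]
  rfl

theorem idx_spec {p : ℕ} (hp : p.Prime) (h2 : p ≠ 2) (ho : Odd (orderOf (2 : ZMod p))) :
    ∃ m, 1 ≤ m ∧ idx p = 2 * m ∧ p - 1 = 2 * m * orderOf (2 : ZMod p) := by
  obtain ⟨m, h1, h3, h4⟩ := idx_ge (hp.odd_of_ne_two h2) hp.one_lt.ne' ho
  rw [Nat.totient_prime hp] at h4
  exact ⟨m, h1, h3, h4⟩

theorem ne_two_of_odd {p : ℕ} (ho : Odd (orderOf (2 : ZMod p))) : p ≠ 2 := by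
  rintro rfl
  have : orderOf (2 : ZMod 2) = 0 := by
    have : (2 : ZMod 2) = 0 := rfl
    rw [this]
    exact orderOf_zero _
  rw [this] at ho
  exact absurd ho (by decide)

/-- the primes with index `2 j` and odd order -/
def PJ (j : ℕ) : Set ℕ := {p | p.Prime ∧ Odd (orderOf (2 : ZMod p)) ∧ idx p = 2 * j}

theorem exists_PJ (C : ℕ) (h : {p : ℕ | p.Prime ∧ Odd (orderOf (2 : ZMod p)) ∧
    p - 1 ≤ C * orderOf (2 : ZMod p)}.Infinite) : ∃ j, 1 ≤ j ∧ (PJ j).Infinite := by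
  by_contra hcon
  push Not at hcon
  apply h
  have hfin : (⋃ j ∈ (Set.Icc 1 C : Set ℕ), PJ j).Finite :=
    (Set.finite_Icc 1 C).biUnion fun j hj => by
      have := hcon j hj.1
      exact this
  apply hfin.subset
  rintro p ⟨hp, ho, hC⟩
  obtain ⟨m, h1, h2, h3⟩ := idx_spec hp (ne_two_of_odd ho) ho
  simp only [Set.mem_iUnion]
  refine ⟨m, ⟨h1, ?_⟩, hp, ho, h2⟩
  have hpos : 0 < orderOf (2 : ZMod p) := ho.pos
  rw [h3] at hC
  have := Nat.le_of_mul_le_mul_right hC hpos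
  omega

theorem S_of_PJ {p j : ℕ} (h : p ∈ PJ j) : S ((p + 1) / 2) = 2 ^ j := by
  obtain ⟨hp, ho, hi⟩ := h
  apply S_of_cc (hp.odd_of_ne_two (ne_two_of_odd ho))
  · intro q hq hqp
    rw [(Nat.prime_dvd_prime_iff_eq hq hp).1 hqp]
    exact ho
  · rw [cc_prime hp, hi]

theorem half_inj {p q : ℕ} (hp : Odd p) (hq : Odd q) (h : (p + 1) / 2 = (q + 1) / 2) : p = q := by
  obtain ⟨a, ha⟩ := hp
  obtain ⟨b, hb⟩ := hq
  omega

theorem inf_of_PJ {j : ℕ} (h : (PJ j).Infinite) :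
    {n : ℕ | S n = 2 ^ j ∧ (2 * n - 1).Prime}.Infinite := by
  have h1 : ((fun p => (p + 1) / 2) '' (PJ j)).Infinite := by
    apply h.image
    intro p hp q hq hpq
    exact half_inj (hp.1.odd_of_ne_two (ne_two_of_odd hp.2.1))
      (hq.1.odd_of_ne_two (ne_two_of_odd hq.2.1)) hpq
  apply h1.mono
  rintro n ⟨p, hp, rfl⟩
  refine ⟨S_of_PJ hp, ?_⟩
  obtain ⟨a, ha⟩ := hp.1.odd_of_ne_two (ne_two_of_odd hp.2.1)
  have : 2 * ((p + 1) / 2) - 1 = p := by omega
  simp only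
  rw [this]
  exact hp.1

theorem primes_of_inf {e : ℕ} (he : 1 ≤ e) (h : {n : ℕ | S n = 2 ^ e}.Infinite) :
    {p : ℕ | p.Prime ∧ Odd (orderOf (2 : ZMod p)) ∧
      p - 1 ≤ (2 * e) * orderOf (2 : ZMod p)}.Infinite := by
  classical
  intro hfin
  set B : Finset ℕ := hfin.toFinset with hB
  apply h
  apply (Set.finite_Iic (∏ p ∈ B, p ^ (2 * e))).subset
  intro n hn
  obtain ⟨hn1, hP⟩ := odd_of_S he hn
  have hcc := cc_of_S he hn
  have hN0 : 2 * n - 1 ≠ 0 := by omega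
  have hodd : Odd (2 * n - 1) := ⟨n - 1, by omega⟩
  have hle : ∀ q : ℕ, q.Prime → q ∣ 2 * n - 1 → q ∈ B ∧ padicValNat q (2 * n - 1) ≤ 2 * e := by
    intro q hq hqd
    have hqodd : Odd q := odd_of_dvd hodd hqd
    have ho := hP q hq hqd
    constructor
    · rw [hB, Set.Finite.mem_toFinset]
      refine ⟨hq, ho, ?_⟩
      have h1 := cc_le_of_dvd hN0 hqd
      rw [cc_prime hq, hcc] at h1
      have h2 := idx_mul_ord hqodd
      rw [Nat.totient_prime hq] at h2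
      rw [← h2]
      exact Nat.mul_le_mul_right _ h1
    · have hfact : Fact q.Prime := ⟨hq⟩
      have h1 : q ^ padicValNat q (2 * n - 1) ∣ 2 * n - 1 := pow_padicValNat_dvd
      have h2 := cc_le_of_dvd hN0 h1
      rw [hcc] at h2
      refine le_trans ?_ h2
      set v := padicValNat q (2 * n - 1) with hv
      have h3 : cc (q ^ v) + 1 = ∑ d ∈ (q ^ v).divisors, idx d :=
        cc_add_one (pow_ne_zero _ hq.ne_zero)
      rw [Nat.sum_divisors_prime_pow hq] at h3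
      have h4 : ∑ k ∈ range (v + 1), 1 ≤ ∑ k ∈ range (v + 1), idx (q ^ k) := by
        apply sum_le_sum
        intro k _
        have h5 : Odd (q ^ k) := hqodd.pow
        unfold idx
        exact Nat.div_pos (Nat.le_of_dvd (Nat.totient_pos.2 h5.pos) (ord_dvd_totient h5)) (ord_pos h5)
      simp only [sum_const, card_range, smul_eq_mul, mul_one] at h4
      omega
  have hdvd : 2 * n - 1 ∣ ∏ p ∈ B, p ^ (2 * e) := by
    rw [Nat.dvd_iff_prime_pow_dvd_dvd]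
    intro q k hq hk
    rcases Nat.eq_zero_or_pos k with rfl | hk0
    · simp
    obtain ⟨h1, h2⟩ := hle q hq ((dvd_pow_self q (by omega)).trans hk)
    have hfact : Fact q.Prime := ⟨hq⟩
    have h3 : k ≤ padicValNat q (2 * n - 1) := (padicValNat_dvd_iff_le hN0).1 hk
    exact (pow_dvd_pow q (h3.trans h2)).trans (dvd_prod_of_mem _ h1)
  have hpos : 0 < ∏ p ∈ B, p ^ (2 * e) := by
    apply Finset.prod_pos
    intro p hp
    rw [hB, Set.Finite.mem_toFinset] at hp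
    exact pow_pos hp.1.pos _
  have := Nat.le_of_dvd hpos hdvd
  rw [Set.mem_Iic]
  omega

theorem idx_le_tot {d : ℕ} : idx d ≤ d.totient := Nat.div_le_self _ _

theorem cc_seven_le (c : ℕ) (N : ℕ) (hN : N ≠ 0) (h : 7 ^ c ∣ N) : 2 * c ≤ cc N := by
  rw [← good7.cc_pow c]
  exact cc_le_of_dvd hN h

/-- bound for the index of `p * 7 ^ b` -/
theorem idx_p7 {p b : ℕ} (hodd : Odd p) (h7 : p.Coprime 7) :
    idx (p * 7 ^ b) ≤ idx p * (7 ^ b).totient := by
  have h1 : Odd (7 ^ b) := Odd.pow (by decide)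
  have h2 := idx_mul hodd h1 (h7.pow_right b)
  rw [h2]
  calc idx p * idx (7 ^ b) * Nat.gcd (orderOf (2 : ZMod p)) (orderOf (2 : ZMod (7 ^ b)))
      ≤ idx p * idx (7 ^ b) * orderOf (2 : ZMod (7 ^ b)) := by
        apply Nat.mul_le_mul_left
        exact Nat.le_of_dvd (ord_pos h1) (Nat.gcd_dvd_right _ _)
    _ = idx p * (idx (7 ^ b) * orderOf (2 : ZMod (7 ^ b))) := by ring
    _ = _ := by rw [idx_mul_ord h1]

theorem cc_p7_le {p c : ℕ} (hp : p.Prime) (hodd : Odd p) (h7 : p.Coprime 7) :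
    cc (p * 7 ^ c) + 1 ≤ (1 + idx p) * 7 ^ c := by
  have h0 : p * 7 ^ c ≠ 0 := mul_ne_zero hp.ne_zero (by positivity)
  rw [cc_add_one h0, sum_div_mul hp.ne_zero (by positivity) (h7.pow_right c), hp.sum_divisors]
  have h1 : ∑ b ∈ (7 ^ c).divisors, idx (1 * b) ≤ 7 ^ c := by
    calc ∑ b ∈ (7 ^ c).divisors, idx (1 * b) ≤ ∑ b ∈ (7 ^ c).divisors, b.totient := by
          apply sum_le_sum
          intro b _
          rw [one_mul]
          exact idx_le_tot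
      _ = 7 ^ c := Nat.sum_totient _
  have h2 : ∑ b ∈ (7 ^ c).divisors, idx (p * b) ≤ idx p * 7 ^ c := by
    calc ∑ b ∈ (7 ^ c).divisors, idx (p * b) ≤ ∑ b ∈ (7 ^ c).divisors, idx p * b.totient := by
          apply sum_le_sum
          intro b hb
          obtain ⟨k, _, rfl⟩ := (Nat.mem_divisors_prime_pow (by norm_num) c).1 hb
          exact idx_p7 hodd h7
      _ = idx p * 7 ^ c := by rw [← mul_sum, Nat.sum_totient]
  rw [add_mul, one_mul]
  omega

/-- infinitely many exponents -/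
theorem inf_exponents {j : ℕ} (h : (PJ j).Infinite) :
    {e : ℕ | 1 ≤ e ∧ {n : ℕ | S n = 2 ^ e}.Infinite}.Infinite := by
  rw [Set.infinite_iff_exists_gt]
  intro B
  set c := B + 1 with hc
  have h' : (PJ j \ {7}).Infinite := h.sdiff (Set.finite_singleton 7)
  have hprop : ∀ p ∈ PJ j \ {7}, ∃ e, e ∈ Finset.Icc c ((1 + 2 * j) * 7 ^ c) ∧
      S ((p * 7 ^ c + 1) / 2) = 2 ^ e := by
    rintro p ⟨⟨hp, ho, hi⟩, hp7⟩
    have hodd := hp.odd_of_ne_two (ne_two_of_odd ho)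
    have h7 : p.Coprime 7 := by
      rw [Nat.coprime_primes hp (by norm_num)]
      exact hp7
    have hN : Odd (p * 7 ^ c) := hodd.mul (Odd.pow (by decide))
    have hP : ∀ q : ℕ, q.Prime → q ∣ p * 7 ^ c → Odd (orderOf (2 : ZMod q)) := by
      intro q hq hqd
      rcases (Nat.Prime.dvd_mul hq).1 hqd with h1 | h1
      · rw [(Nat.prime_dvd_prime_iff_eq hq hp).1 h1]
        exact ho
      · rw [(Nat.prime_dvd_prime_iff_eq hq (by norm_num)).1 (hq.dvd_of_dvd_pow h1), good7.ord_one]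
        decide
    obtain ⟨m, hm⟩ := hN
    have h1 : 2 * ((p * 7 ^ c + 1) / 2) - 1 = p * 7 ^ c := by omega
    obtain ⟨h2, h3⟩ := S_of_odd ((p * 7 ^ c + 1) / 2) (by omega) (by rw [h1]; exact hP)
    rw [h1] at h2 h3
    obtain ⟨e, he⟩ := h3
    have h4 := cc_p7_le (c := c) hp hodd h7
    have h5 := cc_seven_le c (p * 7 ^ c) (mul_ne_zero hp.ne_zero (by positivity)) (Nat.dvd_mul_left _ _)
    rw [hi] at h4
    refine ⟨e, ?_, ?_⟩
    · rw [Finset.mem_Icc]
      omega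
    · rw [h2]
      congr 1
      omega
  by_contra hcon
  push Not at hcon
  apply h'
  have hfin : (⋃ e ∈ (Finset.Icc c ((1 + 2 * j) * 7 ^ c) : Set ℕ), {n : ℕ | S n = 2 ^ e}).Finite := by
    apply (Finset.finite_toSet _).biUnion
    intro e he
    rw [Finset.mem_coe, Finset.mem_Icc] at he
    by_contra hinf
    have h1 := hcon e ⟨by omega, hinf⟩
    omega
  have hmaps : Set.MapsTo (fun p => (p * 7 ^ c + 1) / 2) (PJ j \ {7})
      (⋃ e ∈ (Finset.Icc c ((1 + 2 * j) * 7 ^ c) : Set ℕ), {n : ℕ | S n = 2 ^ e}) := by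
    intro p hp
    obtain ⟨e, he, he2⟩ := hprop p hp
    simp only [Set.mem_iUnion]
    exact ⟨e, he, he2⟩
  apply Set.Finite.of_injOn hmaps _ hfin
  intro p hp q hq hpq
  have h1 : Odd (p * 7 ^ c) :=
    (hp.1.1.odd_of_ne_two (ne_two_of_odd hp.1.2.1)).mul (Odd.pow (by decide))
  have h2 : Odd (q * 7 ^ c) :=
    (hq.1.1.odd_of_ne_two (ne_two_of_odd hq.1.2.1)).mul (Odd.pow (by decide))
  have h3 := half_inj h1 h2 hpq
  exact Nat.eq_of_mul_eq_mul_right (by positivity) h3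

theorem tfae_main : List.TFAE [
    ∃ e : ℕ, 1 ≤ e ∧ {n : ℕ | S n = 2 ^ e}.Infinite,
    {e : ℕ | 1 ≤ e ∧ {n : ℕ | S n = 2 ^ e}.Infinite}.Infinite,
    ∃ e : ℕ, 1 ≤ e ∧ {n : ℕ | S n = 2 ^ e ∧ (2 * n - 1).Prime}.Infinite,
    ∃ C : ℕ, {p : ℕ | p.Prime ∧ Odd (orderOf (2 : ZMod p)) ∧
      p - 1 ≤ C * orderOf (2 : ZMod p)}.Infinite] := by
  tfae_have 1 → 4 := by
    rintro ⟨e, he, h⟩
    exact ⟨2 * e, primes_of_inf he h⟩
  tfae_have 4 → 3 := by
    rintro ⟨C, h⟩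
    obtain ⟨j, hj, h1⟩ := exists_PJ C h
    exact ⟨j, hj, inf_of_PJ h1⟩
  tfae_have 3 → 1 := by
    rintro ⟨e, he, h⟩
    exact ⟨e, he, h.mono fun n hn => hn.1⟩
  tfae_have 4 → 2 := by
    rintro ⟨C, h⟩
    obtain ⟨j, _, h1⟩ := exists_PJ C h
    exact inf_exponents h1
  tfae_have 2 → 1 := by
    intro h
    obtain ⟨e, he⟩ := h.nonempty
    exact ⟨e, he⟩
  tfae_finish

end Run7.h499
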