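import Mathlib
import Pool.Agent.Run7.h499.Dich

set_option autoImplicit false

/-! # Limits along the primes of a fixed index -/

namespace Run7.h499

open Finset Filter

/-- a limit of the orders of two modulo the primes of index `2 j` -/
structure Lim (j : ℕ) (γ : ℕ → ℕ) : Prop where
  inf : ∀ D : ℕ, {p ∈ PJ j | ∀ d, 1 ≤ d → d ≤ D →
    Nat.gcd d (orderOf (2 : ZMod p)) = γ d}.Infinite

theorem exists_lim {j : ℕ} (h : (PJ j).Infinite) : ∃ γ : ℕ → ℕ, Lim j γ := by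
  classical
  have hne : (cofinite ⊓ 𝓟 (PJ j)).NeBot := h.cofinite_inf_principal_neBot
  set U : Ultrafilter ℕ := Ultrafilter.of (cofinite ⊓ 𝓟 (PJ j)) with hUdef
  have hU : (U : Filter ℕ) ≤ cofinite ⊓ 𝓟 (PJ j) := Ultrafilter.of_le _
  have key : ∀ d : ℕ, ∃ g : ℕ, 1 ≤ d →
      ∀ᶠ p in (U : Filter ℕ), Nat.gcd d (orderOf (2 : ZMod p)) = g := by
    intro d
    by_cases hd : 1 ≤ d
    · have hmem : Set.Iic d ∈ U.map (fun p => Nat.gcd d (orderOf (2 : ZMod p))) := by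
        rw [Ultrafilter.mem_map]
        apply Filter.univ_mem'
        intro p
        exact Nat.gcd_le_left _ hd
      obtain ⟨g, _, hg⟩ := Ultrafilter.eq_pure_of_finite_mem (Set.finite_Iic d) hmem
      refine ⟨g, fun _ => ?_⟩
      have h1 : ({g} : Set ℕ) ∈ U.map (fun p => Nat.gcd d (orderOf (2 : ZMod p))) := by
        rw [hg, Ultrafilter.mem_pure]
        exact Set.mem_singleton g
      rw [Ultrafilter.mem_map] at h1
      exact h1
    · exact ⟨0, fun h => absurd h hd⟩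
  choose γ hγ using key
  refine ⟨γ, ⟨fun D hfin => ?_⟩⟩
  have h1 : ∀ᶠ p in (U : Filter ℕ), p ∈ PJ j := hU (mem_inf_of_right (mem_principal_self _))
  have h2 : ∀ᶠ p in (U : Filter ℕ), ∀ d ∈ Finset.Icc 1 D,
      Nat.gcd d (orderOf (2 : ZMod p)) = γ d := by
    rw [Filter.eventually_all_finset]
    intro d hd
    exact hγ d (Finset.mem_Icc.1 hd).1
  have h3 : ∀ᶠ p in (U : Filter ℕ), p ∉ {p ∈ PJ j | ∀ d, 1 ≤ d → d ≤ D →
      Nat.gcd d (orderOf (2 : ZMod p)) = γ d} := hU (mem_inf_of_left hfin.compl_mem_cofinite)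
  obtain ⟨p, hp1, hp2, hp3⟩ := (h1.and (h2.and h3)).exists
  exact hp3 ⟨hp1, fun d hd1 hd2 => hp2 d (Finset.mem_Icc.2 ⟨hd1, hd2⟩)⟩

/-- twice the exponent plus one in the limit -/
noncomputable def Fl (j : ℕ) (γ : ℕ → ℕ) (M : ℕ) : ℕ :=
  ∑ d ∈ M.divisors, idx d * (1 + 2 * j * γ (orderOf (2 : ZMod d)))

theorem cc_mul_prime {M p : ℕ} (hM : Odd M) (hp : p.Prime) (hodd : Odd p) (h : M.Coprime p) :
    cc (M * p) + 1 = ∑ d ∈ M.divisors, idx d *
      (1 + idx p * Nat.gcd (orderOf (2 : ZMod d)) (orderOf (2 : ZMod p))) := by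
  have hM0 : M ≠ 0 := by
    rintro rfl
    exact absurd hM (by decide)
  have h1 := FD_mul_pow 1 1 hM hp hodd h
  rw [pow_one, FD_one_eq, FD_one_eq] at h1
  rw [cc_add_one (mul_ne_zero hM0 hp.ne_zero), h1]
  rw [range_one, sum_singleton, zero_add, pow_one, ← sum_add_distrib]
  refine sum_congr rfl fun d _ => ?_
  rw [Nat.gcd_one_right]
  ring

theorem ord_le_self {d : ℕ} (hd : Odd d) : orderOf (2 : ZMod d) ≤ d :=
  (Nat.le_of_dvd (Nat.totient_pos.2 hd.pos) (ord_dvd_totient hd)).trans (Nat.totient_le d)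

variable {j : ℕ} {γ : ℕ → ℕ}

theorem Lim.one (L : Lim j γ) : γ 1 = 1 := by
  obtain ⟨p, hp⟩ := (L.inf 1).nonempty
  rw [← hp.2 1 le_rfl le_rfl, Nat.gcd_one_left]

theorem Lim.dvd (L : Lim j γ) {d : ℕ} (hd : 1 ≤ d) : γ d ∣ d := by
  obtain ⟨p, hp⟩ := (L.inf d).nonempty
  rw [← hp.2 d hd le_rfl]
  exact Nat.gcd_dvd_left _ _

theorem Lim.dvd_of (L : Lim j γ) {l d : ℕ} (hl1 : 1 ≤ l) (hl : γ l = l) (hd : 1 ≤ d) (h : l ∣ d) :
    l ∣ γ d := by
  obtain ⟨p, hp⟩ := (L.inf (d + l)).nonempty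
  rw [← hp.2 d hd (by omega)]
  apply Nat.dvd_gcd h
  have h1 := hp.2 l hl1 (by omega)
  rw [hl] at h1
  exact Nat.gcd_eq_left_iff_dvd.1 h1

theorem Lim.mul_pow (L : Lim j γ) {l : ℕ} (hl : l.Prime) (h : γ l ≠ l) {o : ℕ} (ho : 1 ≤ o) (m : ℕ) :
    γ (o * l ^ m) = γ o := by
  have h0 : 0 < l ^ m := pow_pos hl.pos m
  obtain ⟨p, hp⟩ := (L.inf (o * l ^ m + l)).nonempty
  have h1 := hp.2 l hl.one_le (by omega)
  have h2 : o ≤ o * l ^ m := Nat.le_mul_of_pos_right o h0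
  rw [← hp.2 (o * l ^ m) (by omega) (by omega), ← hp.2 o ho (by omega)]
  have hc : l.Coprime (orderOf (2 : ZMod p)) := by
    rcases (Nat.dvd_prime hl).1 (Nat.gcd_dvd_left l (orderOf (2 : ZMod p))) with h3 | h3
    · exact h3
    · exact absurd (h1.symm.trans h3) h
  exact (hc.pow_left m).gcd_mul_right_cancel o

theorem inf_of_Fl (L : Lim j γ) (hj : 1 ≤ j) {M : ℕ} (hM : Odd M)
    (hP : ∀ q : ℕ, q.Prime → q ∣ M → Odd (orderOf (2 : ZMod q))) :
    ∃ e, 1 ≤ e ∧ Fl j γ M = 2 * e + 1 ∧ {n : ℕ | S n = 2 ^ e}.Infinite := by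
  have hM0 : M ≠ 0 := by
    rintro rfl
    exact absurd hM (by decide)
  have hinf : ({p ∈ PJ j | ∀ d, 1 ≤ d → d ≤ M →
    Nat.gcd d (orderOf (2 : ZMod p)) = γ d} \ Set.Iic M).Infinite :=
    (L.inf M).sdiff (Set.finite_Iic M)
  have hprop : ∀ p ∈ ({p ∈ PJ j | ∀ d, 1 ≤ d → d ≤ M →
      Nat.gcd d (orderOf (2 : ZMod p)) = γ d} \ Set.Iic M),
      Odd (M * p) ∧ S ((M * p + 1) / 2) = 2 ^ ((Fl j γ M - 1) / 2) ∧ Fl j γ M % 2 = 1 := by
    rintro p ⟨⟨⟨hp, ho, hi⟩, hγ⟩, hpM⟩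
    rw [Set.mem_Iic, not_le] at hpM
    have hodd := hp.odd_of_ne_two (ne_two_of_odd ho)
    have hc : M.Coprime p := by
      apply Nat.Coprime.symm
      rw [Nat.Prime.coprime_iff_not_dvd hp]
      intro h
      have := Nat.le_of_dvd (Nat.pos_of_ne_zero hM0) h
      omega
    have h1 := cc_mul_prime hM hp hodd hc
    have h2 : cc (M * p) + 1 = Fl j γ M := by
      rw [h1]
      unfold Fl
      refine sum_congr rfl fun d hd => ?_
      have hdM : d ∣ M := (Nat.mem_divisors.1 hd).1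
      have hdo := odd_of_dvd hM hdM
      rw [hi, hγ _ (ord_pos hdo) ((ord_le_self hdo).trans (Nat.le_of_dvd (Nat.pos_of_ne_zero hM0) hdM))]
    have hMp : Odd (M * p) := hM.mul hodd
    have hP' : ∀ q : ℕ, q.Prime → q ∣ M * p → Odd (orderOf (2 : ZMod q)) := by
      intro q hq hqd
      rcases (Nat.Prime.dvd_mul hq).1 hqd with h3 | h3
      · exact hP q hq h3
      · rw [(Nat.prime_dvd_prime_iff_eq hq hp).1 h3]
        exact ho
    obtain ⟨m, hm⟩ := id hMp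
    have h3 : 2 * ((M * p + 1) / 2) - 1 = M * p := by omega
    obtain ⟨h4, h5⟩ := S_of_odd ((M * p + 1) / 2) (by omega) (by rw [h3]; exact hP')
    rw [h3] at h4 h5
    obtain ⟨k, hk⟩ := h5
    refine ⟨hMp, ?_, by omega⟩
    rw [h4]
    congr 1
    omega
  obtain ⟨p0, hp0⟩ := hinf.nonempty
  have hpar := (hprop p0 hp0).2.2
  refine ⟨(Fl j γ M - 1) / 2, ?_, by omega, ?_⟩
  · have h1 : 1 + 2 * j ≤ Fl j γ M := by
      have h2 : idx 1 * (1 + 2 * j * γ (orderOf (2 : ZMod 1))) ≤ Fl j γ M := by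
        unfold Fl
        exact single_le_sum (f := fun d => idx d * (1 + 2 * j * γ (orderOf (2 : ZMod d))))
          (fun _ _ => Nat.zero_le _) (Nat.one_mem_divisors.2 hM0)
      have h3 : orderOf (2 : ZMod 1) = 1 := by
        rw [orderOf_eq_one_iff]
        exact Subsingleton.elim _ _
      rw [h3, L.one, idx_one] at h2
      omega
    omega
  · have h1 : ((fun p => (M * p + 1) / 2) '' ({p ∈ PJ j | ∀ d, 1 ≤ d → d ≤ M →
      Nat.gcd d (orderOf (2 : ZMod p)) = γ d} \ Set.Iic M)).Infinite := by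
      apply hinf.image
      intro p hp q hq hpq
      have h2 := half_inj (hprop p hp).1 (hprop q hq).1 hpq
      exact Nat.eq_of_mul_eq_mul_left (Nat.pos_of_ne_zero hM0) h2
    apply h1.mono
    rintro n ⟨p, hp, rfl⟩
    exact (hprop p hp).2.1

theorem Fl_one (L : Lim j γ) : Fl j γ 1 = 1 + 2 * j := by
  unfold Fl
  have h3 : orderOf (2 : ZMod 1) = 1 := by
    rw [orderOf_eq_one_iff]
    exact Subsingleton.elim _ _
  rw [Nat.divisors_one, sum_singleton, h3, L.one, idx_one]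
  ring

theorem Fl_prime (L : Lim j γ) {q : ℕ} (hq : q.Prime) :
    Fl j γ q = 1 + 2 * j + idx q * (1 + 2 * j * γ (orderOf (2 : ZMod q))) := by
  unfold Fl
  have h3 : orderOf (2 : ZMod 1) = 1 := by
    rw [orderOf_eq_one_iff]
    exact Subsingleton.elim _ _
  rw [hq.sum_divisors, h3, L.one, idx_one]
  ring

theorem idx_pow_stable {l : ℕ} (hl : l.Prime) (hodd : Odd l) (s : ℕ) :
    idx (l ^ (vv l + s + 1)) = idx (l ^ (vv l + 1)) := by
  have key : ∀ s, orderOf (2 : ZMod l) * idx (l ^ (vv l + s + 1)) = l ^ (vv l - 1) * (l - 1) := by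
    intro s
    have h1 := ord_mul_idx_pow hl hodd (vv l + s)
    have hv := vv_pos hl hodd
    rw [show vv l + s + 1 - vv l = s + 1 by omega] at h1
    have h3 : 0 < l ^ (s + 1) := pow_pos hl.pos _
    apply Nat.eq_of_mul_eq_mul_right h3
    rw [h1, show l ^ (vv l + s) = l ^ (vv l - 1) * l ^ (s + 1) by
      rw [← pow_add]; congr 1; omega]
    ring
  have h1 := key s
  have h2 := key 0
  rw [add_zero] at h2
  exact Nat.eq_of_mul_eq_mul_left (ord_pos hodd) (h1.trans h2.symm)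

theorem case_one (L : Lim j γ) (hj : 1 ≤ j) {l : ℕ} (hl : l.Prime)
    (ho : Odd (orderOf (2 : ZMod l))) (hγ : γ l ≠ l) :
    ∃ e0 D, 1 ≤ D ∧ 1 ≤ e0 ∧ ∀ t : ℕ, {n : ℕ | S n = 2 ^ (e0 + t * D)}.Infinite := by
  have hodd := hl.odd_of_ne_two (ne_two_of_odd ho)
  have hpow : ∀ c, ∃ e, 1 ≤ e ∧ Fl j γ (l ^ c) = 2 * e + 1 ∧ {n : ℕ | S n = 2 ^ e}.Infinite := by
    intro c
    apply inf_of_Fl L hj hodd.pow
    intro q hq hqd
    rw [(Nat.prime_dvd_prime_iff_eq hq hl).1 (hq.dvd_of_dvd_pow hqd)]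
    exact ho
  have hstep : ∀ t, Fl j γ (l ^ (vv l + (t + 1))) = Fl j γ (l ^ (vv l + t)) +
      idx (l ^ (vv l + 1)) * (1 + 2 * j * γ (orderOf (2 : ZMod l))) := by
    intro t
    unfold Fl
    rw [Nat.sum_divisors_prime_pow hl, Nat.sum_divisors_prime_pow hl,
      show vv l + (t + 1) + 1 = (vv l + t + 1) + 1 by ring, sum_range_succ _ (vv l + t + 1)]
    congr 1
    rw [idx_pow_stable hl hodd t, ord_pow_gen hl hodd, L.mul_pow hl hγ (ord_pos hodd)]
  have h2w : 2 ∣ idx (l ^ (vv l + 1)) := by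
    apply idx_even hodd.pow
    · have := Nat.one_lt_pow (n := vv l + 1) (by omega) hl.one_lt
      omega
    · rw [ord_pow_gen hl hodd]
      exact ho.mul hodd.pow
  obtain ⟨w, hw⟩ := h2w
  have hw1 : 1 ≤ w := by
    rcases Nat.eq_zero_or_pos w with h | h
    · exfalso
      rw [h, mul_zero] at hw
      have h1 := idx_mul_ord (hodd.pow (n := vv l + 1))
      rw [hw, zero_mul] at h1
      exact absurd h1.symm (Nat.totient_pos.2 (pow_pos hl.pos _)).ne'
    · exact h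
  set D := w * (1 + 2 * j * γ (orderOf (2 : ZMod l))) with hD
  obtain ⟨e0, he0, hF0, _⟩ := hpow (vv l)
  have hF : ∀ t, Fl j γ (l ^ (vv l + t)) = 2 * (e0 + t * D) + 1 := by
    intro t
    induction t with
    | zero => rw [add_zero, hF0]; ring
    | succ t ih =>
      rw [hstep, ih, hw, hD]
      ring
  refine ⟨e0, D, ?_, he0, fun t => ?_⟩
  · rw [hD]
    exact Nat.one_le_iff_ne_zero.2 (mul_ne_zero (by omega) (by omega))
  · obtain ⟨e, _, h1, h2⟩ := hpow (vv l + t)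
    rw [hF t] at h1
    have : e = e0 + t * D := by omega
    rw [← this]
    exact h2

end Run7.h499
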