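import Mathlib
import Pool.Agent.H353R2.Z2
import Pool.Agent.Run7.h499.Ultra
import Pool.Agent.Run7.h499.PairBV

set_option autoImplicit false

/-! # One exponent with infinitely many solutions gives many -/

namespace Run7.h499

open Finset Filter Topology

theorem odd_ord_of_seven {q : ℕ} (hq : q.Prime) (h : q % 8 = 7) : Odd (orderOf (2 : ZMod q)) := by
  have hfact : Fact q.Prime := ⟨hq⟩
  have h2 : q ≠ 2 := by omega
  have hsq : IsSquare (2 : ZMod q) := (ZMod.exists_sq_eq_two_iff h2).2 (Or.inr h)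
  have h20 : (2 : ZMod q) ≠ 0 := by
    intro h0
    have h1 : ((2 : ℕ) : ZMod q) = 0 := by exact_mod_cast h0
    rw [ZMod.natCast_eq_zero_iff] at h1
    have := Nat.le_of_dvd (by norm_num) h1
    omega
  have h3 : (2 : ZMod q) ^ (q / 2) = 1 := (ZMod.euler_criterion q h20).1 hsq
  have h4 : orderOf (2 : ZMod q) ∣ q / 2 := orderOf_dvd_of_pow_eq_one h3
  apply odd_of_dvd _ h4
  rw [Nat.odd_iff]
  omega

/-- the exponents with infinitely many solutions -/
def EI : Set ℕ := {e : ℕ | 1 ≤ e ∧ {n : ℕ | S n = 2 ^ e}.Infinite}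

variable {j : ℕ} {γ : ℕ → ℕ}

/-- the data attached to a prime -/
theorem data_prime (L : Lim j γ) (hj : 1 ≤ j) (hγ : ∀ l : ℕ, l.Prime → l % 8 = 7 → γ l = l)
    {q : ℕ} (hq : q.Prime) (h7 : q % 8 = 7) :
    ∃ e h k, e ∈ EI ∧ 2 * e = 2 * j + idx q + 2 * j * h ∧ q - 1 = h * k ∧ 1 ≤ h ∧ 1 ≤ idx q ∧
      idx q ∣ 2 * (e - j) ∧ e ≤ (2 * j + 1) * q ∧
      (∀ l : ℕ, l.Prime → l % 8 = 7 → l ∣ q - 1 → l ∣ h) := by
  have ho := odd_ord_of_seven hq h7
  have hodd : Odd q := hq.odd_of_ne_two (ne_two_of_odd ho)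
  obtain ⟨e, he1, he2, he3⟩ := inf_of_Fl L hj hodd (fun p hp hpq => by
    rw [(Nat.prime_dvd_prime_iff_eq hp hq).1 hpq]
    exact ho)
  rw [Fl_prime L hq] at he2
  have hop : 1 ≤ orderOf (2 : ZMod q) := ord_pos hodd
  obtain ⟨k, hk⟩ := L.dvd hop
  have h1 := idx_mul_ord hodd
  rw [Nat.totient_prime hq] at h1
  have hidx : 1 ≤ idx q := by
    rcases Nat.eq_zero_or_pos (idx q) with h | h
    · rw [h, zero_mul] at h1
      have := hq.two_le
      omega
    · exact h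
  have hg1 : 1 ≤ γ (orderOf (2 : ZMod q)) := by
    rcases Nat.eq_zero_or_pos (γ (orderOf (2 : ZMod q))) with h | h
    · rw [h, zero_mul] at hk
      omega
    · exact h
  have hhq : idx q * γ (orderOf (2 : ZMod q)) * k = q - 1 := by
    rw [← h1, mul_assoc, ← hk]
  have hk1 : 1 ≤ k := by
    rcases Nat.eq_zero_or_pos k with h | h
    · rw [h, mul_zero] at hk
      omega
    · exact h
  refine ⟨e, idx q * γ (orderOf (2 : ZMod q)), k, ⟨he1, he3⟩, ?_, hhq.symm,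
    Nat.mul_pos hidx hg1, hidx, ?_, ?_, ?_⟩
  · have : idx q * (1 + 2 * j * γ (orderOf (2 : ZMod q))) =
      idx q + 2 * j * (idx q * γ (orderOf (2 : ZMod q))) := by ring
    omega
  · refine ⟨1 + 2 * j * γ (orderOf (2 : ZMod q)), ?_⟩
    have h3 : idx q * (1 + 2 * j * γ (orderOf (2 : ZMod q))) = 2 * e - 2 * j := by omega
    rw [h3]
    omega
  · have h3 : idx q * γ (orderOf (2 : ZMod q)) ≤ q := by
      have : idx q * γ (orderOf (2 : ZMod q)) * 1 ≤ idx q * γ (orderOf (2 : ZMod q)) * k :=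
        Nat.mul_le_mul_left _ hk1
      omega
    have h4 : idx q ≤ q := by
      have : idx q * 1 ≤ idx q * orderOf (2 : ZMod q) := Nat.mul_le_mul_left _ hop
      omega
    have h5 : idx q * (1 + 2 * j * γ (orderOf (2 : ZMod q))) =
      idx q + 2 * j * (idx q * γ (orderOf (2 : ZMod q))) := by ring
    have h6 : 2 * j * (idx q * γ (orderOf (2 : ZMod q))) ≤ 2 * j * q := Nat.mul_le_mul_left _ h3
    have h7 : 2 * j ≤ 2 * j * q := Nat.le_mul_of_pos_right _ hq.pos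
    have h8 : (2 * j + 1) * q = 2 * j * q + q := by ring
    omega
  · intro l hl hl7 hlq
    rw [← h1] at hlq
    rcases (Nat.Prime.dvd_mul hl).1 hlq with h3 | h3
    · exact h3.mul_right _
    · exact (L.dvd_of hl.one_le (hγ l hl hl7) hop h3).mul_left _

theorem count_two (L : Lim j γ) (hj : 1 ≤ j) (hγ : ∀ l : ℕ, l.Prime → l % 8 = 7 → γ l = l)
    (x y T : ℕ) (hy : 1 ≤ y) (hT : ∀ v, 1 ≤ v → v ≤ 2 * (2 * j + 1) * x → v.divisors.card ≤ T) :
    ∑ l ∈ Lam y, ((Icc 1 x).filter (fun q => (q.Prime ∧ q % 8 = 7) ∧ l ∣ q - 1)).card ≤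
      T * (T * (x / y + 1) * (EI ∩ Set.Icc 1 ((2 * j + 1) * x)).ncard) := by
  classical
  have hfin : (EI ∩ Set.Icc 1 ((2 * j + 1) * x)).Finite :=
    (Set.finite_Icc 1 ((2 * j + 1) * x)).subset Set.inter_subset_right
  set E : Finset ℕ := hfin.toFinset with hE
  have hcard : (EI ∩ Set.Icc 1 ((2 * j + 1) * x)).ncard = E.card := by
    rw [hE, Set.ncard_eq_toFinset_card _ hfin]
  rw [hcard]
  have hdat : ∀ q : ℕ, ∃ e h k, q.Prime ∧ q % 8 = 7 → e ∈ EI ∧ 2 * e = 2 * j + idx q + 2 * j * h ∧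
      q - 1 = h * k ∧ 1 ≤ h ∧ 1 ≤ idx q ∧ idx q ∣ 2 * (e - j) ∧ e ≤ (2 * j + 1) * q ∧
      (∀ l : ℕ, l.Prime → l % 8 = 7 → l ∣ q - 1 → l ∣ h) := by
    intro q
    by_cases hq : q.Prime ∧ q % 8 = 7
    · obtain ⟨e, h, k, h1⟩ := data_prime L hj hγ hq.1 hq.2
      exact ⟨e, h, k, fun _ => h1⟩
    · exact ⟨0, 0, 0, fun h => absurd h hq⟩
  choose e h k hd using hdat
  set Q : Finset ℕ := (Icc 1 x).filter (fun q => (q.Prime ∧ q % 8 = 7) ∧ ∃ l ∈ Lam y, l ∣ q - 1)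
    with hQ
  have hQp : ∀ q ∈ Q, q ≤ x ∧ (q.Prime ∧ q % 8 = 7) ∧ y < h q ∧ q - 1 ≠ 0 := by
    intro q hq
    rw [hQ, mem_filter, mem_Icc] at hq
    obtain ⟨⟨h1, h2⟩, h3, l, hl, hlq⟩ := hq
    unfold Lam at hl
    rw [mem_filter, mem_Ioc] at hl
    obtain ⟨d1, d2, d3, d4, d5, d6, d7, d8⟩ := hd q h3
    have h4 := d8 l hl.2.1 hl.2.2 hlq
    have h5 := Nat.le_of_dvd (by omega) h4
    have := h3.1.two_le
    exact ⟨h2, h3, by omega, by omega⟩
  -- swap
  have hswap : ∑ l ∈ Lam y, ((Icc 1 x).filter (fun q => (q.Prime ∧ q % 8 = 7) ∧ l ∣ q - 1)).card ≤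
      ∑ q ∈ Q, (q - 1).divisors.card := by
    have h1 : ∀ l ∈ Lam y, ((Icc 1 x).filter (fun q => (q.Prime ∧ q % 8 = 7) ∧ l ∣ q - 1)).card =
        ∑ q ∈ Q, if l ∣ q - 1 then 1 else 0 := by
      intro l hl
      rw [← card_filter]
      congr 1
      ext q
      rw [hQ, mem_filter, mem_filter, mem_filter]
      constructor
      · rintro ⟨a1, a2, a3⟩
        exact ⟨⟨a1, a2, l, hl, a3⟩, a3⟩
      · rintro ⟨⟨a1, a2, _⟩, a3⟩
        exact ⟨a1, a2, a3⟩
    rw [sum_congr rfl h1, sum_comm]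
    apply sum_le_sum
    intro q hq
    rw [← card_filter]
    apply card_le_card
    intro l hl
    rw [mem_filter] at hl
    rw [Nat.mem_divisors]
    exact ⟨hl.2, (hQp q hq).2.2.2⟩
  refine hswap.trans ?_
  have hx : Q.card ≤ T * (x / y + 1) * E.card := by
    have hmaps : ∀ q ∈ Q, e q ∈ E := by
      intro q hq
      obtain ⟨a1, a2, a3, a4⟩ := hQp q hq
      obtain ⟨d1, d2, d3, d4, d5, d6, d7, d8⟩ := hd q a2
      rw [hE, Set.Finite.mem_toFinset]
      refine ⟨d1, d1.1, d7.trans (Nat.mul_le_mul_left _ a1)⟩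
    rw [card_eq_sum_card_fiberwise hmaps, mul_comm, ← smul_eq_mul, ← sum_const]
    apply sum_le_sum
    intro e0 he0
    rcases Finset.eq_empty_or_nonempty (Q.filter (fun q => e q = e0)) with hem | ⟨q0, hq0⟩
    · rw [hem, card_empty]
      exact Nat.zero_le _
    have hv : 1 ≤ 2 * (e0 - j) ∧ 2 * (e0 - j) ≤ 2 * (2 * j + 1) * x := by
      rw [mem_filter] at hq0
      obtain ⟨a1, a2, a3, a4⟩ := hQp q0 hq0.1
      obtain ⟨d1, d2, d3, d4, d5, d6, d7, d8⟩ := hd q0 a2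
      rw [hq0.2] at d2 d7
      have h1 : (2 * j + 1) * q0 ≤ (2 * j + 1) * x := Nat.mul_le_mul_left _ a1
      have h2 : 2 * (2 * j + 1) * x = 2 * ((2 * j + 1) * x) := by ring
      constructor
      · omega
      · omega
    have hmem : (Q.filter (fun q => e q = e0)).card ≤
        ((2 * (e0 - j)).divisors ×ˢ range (x / y + 1)).card := by
      apply card_le_card_of_injOn (fun q => (idx q, k q))
      · intro q hq
        rw [mem_coe, mem_filter] at hq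
        obtain ⟨a1, a2, a3, a4⟩ := hQp q hq.1
        obtain ⟨d1, d2, d3, d4, d5, d6, d7, d8⟩ := hd q a2
        rw [hq.2] at d2 d6
        rw [mem_coe, mem_product, Nat.mem_divisors, mem_range]
        refine ⟨⟨d6, by omega⟩, ?_⟩
        have h1 : k q ≤ x / y := by
          rw [Nat.le_div_iff_mul_le (by omega)]
          calc k q * y ≤ k q * h q := Nat.mul_le_mul_left _ (by omega)
            _ = q - 1 := by rw [d3]; ring
            _ ≤ x := by omega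
        simp only
        omega
      · intro q hq q' hq' hqq
        rw [mem_coe, mem_filter] at hq hq'
        obtain ⟨a1, a2, a3, a4⟩ := hQp q hq.1
        obtain ⟨d1, d2, d3, d4, d5, d6, d7, d8⟩ := hd q a2
        obtain ⟨b1, b2, b3, b4⟩ := hQp q' hq'.1
        obtain ⟨c1, c2, c3, c4, c5, c6, c7, c8⟩ := hd q' b2
        rw [hq.2] at d2
        rw [hq'.2] at c2
        simp only [Prod.mk.injEq] at hqq
        rw [hqq.1] at d2
        have h1 : 2 * j * h q = 2 * j * h q' := by omega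
        have h2 : h q = h q' := Nat.eq_of_mul_eq_mul_left (by omega) h1
        rw [h2, hqq.2, ← c3] at d3
        have := a2.1.two_le
        have := b2.1.two_le
        omega
    refine hmem.trans ?_
    rw [card_product, card_range]
    exact Nat.mul_le_mul_right _ (hT _ hv.1 hv.2)
  calc ∑ q ∈ Q, (q - 1).divisors.card ≤ ∑ q ∈ Q, T := by
        apply sum_le_sum
        intro q hq
        obtain ⟨a1, a2, a3, a4⟩ := hQp q hq
        apply hT _ (by omega)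
        have h1 : 1 * x ≤ 2 * (2 * j + 1) * x := Nat.mul_le_mul_right _ (by omega)
        omega
    _ = T * Q.card := by rw [sum_const, smul_eq_mul, mul_comm]
    _ ≤ _ := Nat.mul_le_mul_left _ hx

theorem case_two (L : Lim j γ) (hj : 1 ≤ j) (hγ : ∀ l : ℕ, l.Prime → l % 8 = 7 → γ l = l)
    (ε : ℝ) (hε : 0 < ε) (hε2 : ε < 1 / 2) : ∀ᶠ x : ℕ in atTop,
      (x : ℝ) ^ (1 / 2 - ε) ≤ ((EI ∩ Set.Icc 1 ((2 * j + 1) * x)).ncard : ℝ) := by
  obtain ⟨C, hC, hdiv⟩ := H353.divisor_bound_real (ε / 8) (by positivity)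
  set A : ℝ := ((2 * (2 * j + 1) : ℕ) : ℝ) with hA
  have hA1 : 1 ≤ A := by
    have : 1 ≤ 2 * (2 * j + 1) := by omega
    rw [hA]
    exact_mod_cast this
  have hA0 : 0 < A := by linarith
  set C1 : ℝ := C * A ^ (ε / 8) + 1 with hC1
  have hC10 : 0 < C1 := by positivity
  have hlog := logpow_le (3 * C1 ^ 2 * 2 ^ 11) 2 (ε / 8) (by positivity)
  have hbig : ∀ᶠ x : ℕ in atTop, (2 : ℝ) ≤ (x : ℝ) ^ (1 / 2 - ε / 2) :=
    ((tendsto_rpow_atTop (by linarith)).comp tendsto_natCast_atTop_atTop).eventually_ge_atTop _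
  filter_upwards [pairs_lower (ε / 2) (by positivity) (by linarith), hlog, hbig,
    eventually_ge_atTop 3] with x h1 h2 h3 hx
  have hx0 : (0 : ℝ) < x := by
    have : 0 < x := by omega
    exact_mod_cast this
  have hx1 : (1 : ℝ) ≤ x := by
    have : 1 ≤ x := by omega
    exact_mod_cast this
  have hlogx : 0 < Real.log x := Real.log_pos (by
    have : 1 < x := by omega
    exact_mod_cast this)
  set y := ⌊(x : ℝ) ^ (1 / 2 - ε / 2)⌋₊ with hy
  have hy1 : (1 : ℝ) ≤ y := by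
    have : 1 ≤ y := by
      rw [hy]
      apply Nat.le_floor
      push_cast
      linarith
    exact_mod_cast this
  have hylow : (x : ℝ) ^ (1 / 2 - ε / 2) ≤ 2 * y := by
    have := (Nat.lt_floor_add_one ((x : ℝ) ^ (1 / 2 - ε / 2)))
    rw [← hy] at this
    linarith
  set T := ⌊C1 * (x : ℝ) ^ (ε / 8)⌋₊ with hT
  have hTle : (T : ℝ) ≤ C1 * (x : ℝ) ^ (ε / 8) := Nat.floor_le (by positivity)
  have hTdiv : ∀ v, 1 ≤ v → v ≤ 2 * (2 * j + 1) * x → v.divisors.card ≤ T := by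
    intro v hv1 hv2
    apply Nat.le_floor
    refine (hdiv v (by omega)).trans ?_
    have h4 : (v : ℝ) ≤ A * x := by
      rw [hA]
      exact_mod_cast hv2
    calc C * (v : ℝ) ^ (ε / 8) ≤ C * (A * x) ^ (ε / 8) := by gcongr
      _ = C * A ^ (ε / 8) * (x : ℝ) ^ (ε / 8) := by
        rw [Real.mul_rpow hA0.le hx0.le]
        ring
      _ ≤ _ := by
        apply mul_le_mul_of_nonneg_right _ (by positivity)
        rw [hC1]
        linarith
  have hcount := count_two L hj hγ x y T (by exact_mod_cast hy1) hTdiv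
  have hcountR : ∑ l ∈ Lam y,
      (((Icc 1 x).filter (fun q => (q.Prime ∧ q % 8 = 7) ∧ l ∣ q - 1)).card : ℝ) ≤
      T * (T * ((x / y : ℕ) + 1) * ((EI ∩ Set.Icc 1 ((2 * j + 1) * x)).ncard : ℝ)) := by
    exact_mod_cast hcount
  set N : ℝ := ((EI ∩ Set.Icc 1 ((2 * j + 1) * x)).ncard : ℝ) with hN
  have hN0 : 0 ≤ N := Nat.cast_nonneg _
  have hxy : ((x / y : ℕ) : ℝ) + 1 ≤ 3 * (x : ℝ) ^ (1 / 2 + ε / 2) := by
    have h4 : ((x / y : ℕ) : ℝ) ≤ x / y := Nat.cast_div_le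
    have h5 : (x : ℝ) / y ≤ 2 * (x : ℝ) ^ (1 / 2 + ε / 2) := by
      rw [div_le_iff₀ (by linarith)]
      calc (x : ℝ) = (x : ℝ) ^ (1 / 2 + ε / 2) * (x : ℝ) ^ (1 / 2 - ε / 2) := by
            rw [← Real.rpow_add hx0]
            have : 1 / 2 + ε / 2 + (1 / 2 - ε / 2) = 1 := by ring
            rw [this, Real.rpow_one]
        _ ≤ (x : ℝ) ^ (1 / 2 + ε / 2) * (2 * y) := by gcongr
        _ = _ := by ring
    have h6 : 1 ≤ (x : ℝ) ^ (1 / 2 + ε / 2) := Real.one_le_rpow hx1 (by positivity)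
    linarith
  have hmain : (x : ℝ) / (2 ^ 11 * Real.log x ^ 2) ≤
      (3 * C1 ^ 2) * ((x : ℝ) ^ (1 / 2 + 3 * ε / 4)) * N := by
    calc (x : ℝ) / (2 ^ 11 * Real.log x ^ 2) ≤ T * (T * ((x / y : ℕ) + 1) * N) := h1.trans hcountR
      _ ≤ (C1 * (x : ℝ) ^ (ε / 8)) * ((C1 * (x : ℝ) ^ (ε / 8)) * (3 * (x : ℝ) ^ (1 / 2 + ε / 2)) * N) := by
        gcongr
      _ = (3 * C1 ^ 2) * ((x : ℝ) ^ (ε / 8) * (x : ℝ) ^ (ε / 8) * (x : ℝ) ^ (1 / 2 + ε / 2)) * N := by ring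
      _ = _ := by
        rw [← Real.rpow_add hx0, ← Real.rpow_add hx0]
        congr 3
        ring
  have hfin : (x : ℝ) ≤ (x : ℝ) ^ (1 / 2 + 7 * ε / 8) * N := by
    rw [div_le_iff₀ (by positivity)] at hmain
    calc (x : ℝ) ≤ (3 * C1 ^ 2) * ((x : ℝ) ^ (1 / 2 + 3 * ε / 4)) * N * (2 ^ 11 * Real.log x ^ 2) := hmain
      _ = (3 * C1 ^ 2 * 2 ^ 11 * Real.log x ^ 2) * ((x : ℝ) ^ (1 / 2 + 3 * ε / 4)) * N := by ring
      _ ≤ (x : ℝ) ^ (ε / 8) * ((x : ℝ) ^ (1 / 2 + 3 * ε / 4)) * N := by gcongr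
      _ = _ := by
        rw [← Real.rpow_add hx0]
        congr 2
        ring
  have hpos : 0 < (x : ℝ) ^ (1 / 2 + 7 * ε / 8) := by positivity
  calc (x : ℝ) ^ (1 / 2 - ε) ≤ (x : ℝ) ^ (1 / 2 - 7 * ε / 8) :=
        Real.rpow_le_rpow_of_exponent_le hx1 (by linarith)
    _ = x / (x : ℝ) ^ (1 / 2 + 7 * ε / 8) := by
        rw [eq_div_iff hpos.ne', ← Real.rpow_add hx0]
        have : 1 / 2 - 7 * ε / 8 + (1 / 2 + 7 * ε / 8) = 1 := by ring
        rw [this, Real.rpow_one]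
    _ ≤ N := by
        rw [div_le_iff₀ hpos]
        linarith

theorem case_one_count {e0 D : ℕ} (hD : 1 ≤ D) (he0 : 1 ≤ e0)
    (h : ∀ t : ℕ, {n : ℕ | S n = 2 ^ (e0 + t * D)}.Infinite) : ∀ᶠ x : ℕ in atTop,
      (x : ℝ) ^ (1 / 2 : ℝ) ≤ ((EI ∩ Set.Icc 1 x).ncard : ℝ) := by
  have hbig : ∀ᶠ x : ℕ in atTop, (2 * D : ℝ) ≤ (x : ℝ) ^ (1 / 2 : ℝ) :=
    ((tendsto_rpow_atTop (by norm_num)).comp tendsto_natCast_atTop_atTop).eventually_ge_atTop _
  filter_upwards [hbig, eventually_ge_atTop (2 * e0)] with x h1 h2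
  have hx0 : (0 : ℝ) < x := by
    have : 0 < x := by omega
    exact_mod_cast this
  have hD0 : (0 : ℝ) < D := by exact_mod_cast hD
  have hfin : (EI ∩ Set.Icc 1 x).Finite := (Set.finite_Icc 1 x).subset Set.inter_subset_right
  have hsub : ((fun t => e0 + t * D) '' (Set.Iio ((x - e0) / D + 1)) : Set ℕ) ⊆ EI ∩ Set.Icc 1 x := by
    rintro e ⟨t, ht, rfl⟩
    rw [Set.mem_Iio] at ht
    have h3 : t * D ≤ x - e0 := by
      rw [← Nat.le_div_iff_mul_le hD]
      omega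
    simp only
    exact ⟨⟨by omega, h t⟩, by omega, by omega⟩
  have hcard := Set.ncard_le_ncard hsub hfin
  rw [Set.ncard_image_of_injective _ (fun a b hab => by
    have h3 : a * D = b * D := by omega
    exact Nat.eq_of_mul_eq_mul_right hD h3)] at hcard
  have h4 : (Set.Iio ((x - e0) / D + 1) : Set ℕ).ncard = (x - e0) / D + 1 := by
    rw [← Finset.coe_Iio, Set.ncard_coe_finset, Nat.card_Iio]
  rw [h4] at hcard
  have h5 : (x : ℝ) / (2 * D) ≤ (((x - e0) / D + 1 : ℕ) : ℝ) := by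
    have h6 : ((x - e0 : ℕ) : ℝ) < D * (((x - e0) / D + 1 : ℕ) : ℝ) := by
      have := Nat.lt_mul_div_succ (x - e0) (show 0 < D by omega)
      exact_mod_cast this
    have h7 : (x : ℝ) / 2 ≤ ((x - e0 : ℕ) : ℝ) := by
      rw [div_le_iff₀ (by norm_num)]
      have : x ≤ (x - e0) * 2 := by omega
      exact_mod_cast this
    rw [div_le_iff₀ (by positivity)]
    nlinarith
  have h6 : (x : ℝ) ^ (1 / 2 : ℝ) ≤ x / (2 * D) := by
    rw [le_div_iff₀ (by positivity)]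
    calc (x : ℝ) ^ (1 / 2 : ℝ) * (2 * D) ≤ (x : ℝ) ^ (1 / 2 : ℝ) * (x : ℝ) ^ (1 / 2 : ℝ) := by gcongr
      _ = x := by
        rw [← Real.rpow_add hx0]
        norm_num
  calc (x : ℝ) ^ (1 / 2 : ℝ) ≤ (((x - e0) / D + 1 : ℕ) : ℝ) := h6.trans h5
    _ ≤ _ := by exact_mod_cast hcard

theorem many_small (h : EI.Nonempty) (ε : ℝ) (hε : 0 < ε) (hε2 : ε < 1 / 2) : ∀ᶠ x : ℕ in atTop,
      (x : ℝ) ^ (1 / 2 - ε) ≤ ((EI ∩ Set.Icc 1 x).ncard : ℝ) := by
  obtain ⟨e, he, hinf⟩ := h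
  obtain ⟨j, hj, hP⟩ := exists_PJ _ (primes_of_inf he hinf)
  obtain ⟨γ, L⟩ := exists_lim hP
  by_cases hγ : ∀ l : ℕ, l.Prime → l % 8 = 7 → γ l = l
  · have h1 := case_two L hj hγ (ε / 2) (by positivity) (by linarith)
    have hdiv : Tendsto (fun x : ℕ => x / (2 * j + 1)) atTop atTop :=
      Nat.tendsto_div_const_atTop (by omega)
    have hbig : ∀ᶠ x : ℕ in atTop, (2 * (2 * j + 1) : ℝ) ≤ (x : ℝ) ^ (ε / 2) :=
      ((tendsto_rpow_atTop (by positivity)).comp tendsto_natCast_atTop_atTop).eventually_ge_atTop _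
    filter_upwards [hdiv.eventually h1, hbig, eventually_ge_atTop (2 * j + 1)] with x h2 h3 h4
    have hx0 : (0 : ℝ) < x := by
      have : 0 < x := by omega
      exact_mod_cast this
    have hx1 : (1 : ℝ) ≤ x := by
      have : 1 ≤ x := by omega
      exact_mod_cast this
    set z := x / (2 * j + 1) with hz
    have hz1 : 1 ≤ z := by
      rw [hz]
      exact Nat.div_pos h4 (by omega)
    have hzx : (2 * j + 1) * z ≤ x := Nat.mul_div_le x (2 * j + 1)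
    have hxz : (x : ℝ) ≤ (2 * (2 * j + 1)) * z := by
      have h5 : x < (2 * j + 1) * (z + 1) := Nat.lt_mul_div_succ x (by omega)
      have h6 : (2 * j + 1) * (z + 1) ≤ (2 * (2 * j + 1)) * z := by nlinarith
      exact_mod_cast h5.le.trans h6
    have hz0 : (0 : ℝ) < z := by exact_mod_cast hz1
    have h5 : ((EI ∩ Set.Icc 1 ((2 * j + 1) * z)).ncard : ℝ) ≤ ((EI ∩ Set.Icc 1 x).ncard : ℝ) := by
      have := Set.ncard_le_ncard (s := EI ∩ Set.Icc 1 ((2 * j + 1) * z)) (t := EI ∩ Set.Icc 1 x)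
        (Set.inter_subset_inter_right _ (Set.Icc_subset_Icc_right hzx))
        ((Set.finite_Icc 1 x).subset Set.inter_subset_right)
      exact_mod_cast this
    refine le_trans ?_ (h2.trans h5)
    have hq0 : (0 : ℝ) < 1 / 2 - ε / 2 := by linarith
    calc (x : ℝ) ^ (1 / 2 - ε) = (x : ℝ) ^ (1 / 2 - ε / 2) / (x : ℝ) ^ (ε / 2) := by
          rw [← Real.rpow_sub hx0]
          congr 1
          ring
      _ ≤ (((2 * (2 * j + 1)) * z : ℝ)) ^ (1 / 2 - ε / 2) / (2 * (2 * j + 1)) := by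
          gcongr
      _ = (2 * (2 * j + 1) : ℝ) ^ (1 / 2 - ε / 2) / (2 * (2 * j + 1)) * (z : ℝ) ^ (1 / 2 - ε / 2) := by
          rw [Real.mul_rpow (by positivity) hz0.le]
          ring
      _ ≤ 1 * (z : ℝ) ^ (1 / 2 - ε / 2) := by
          apply mul_le_mul_of_nonneg_right _ (by positivity)
          rw [div_le_one (by positivity)]
          have h6 : (1 : ℝ) ≤ 2 * (2 * j + 1) := by
            have : (0 : ℝ) ≤ j := Nat.cast_nonneg j
            linarith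
          calc (2 * (2 * j + 1) : ℝ) ^ (1 / 2 - ε / 2) ≤ (2 * (2 * j + 1) : ℝ) ^ (1 : ℝ) :=
                Real.rpow_le_rpow_of_exponent_le h6 (by linarith)
            _ = _ := Real.rpow_one _
      _ = _ := one_mul _
  · push Not at hγ
    obtain ⟨l, hl, hl7, hne⟩ := hγ
    obtain ⟨e0, D, hD, he0, hinf'⟩ := case_one L hj hl (odd_ord_of_seven hl hl7) hne
    filter_upwards [case_one_count hD he0 hinf', eventually_ge_atTop 1] with x h1 hx
    have hx1 : (1 : ℝ) ≤ x := by exact_mod_cast hx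
    exact (Real.rpow_le_rpow_of_exponent_le hx1 (by linarith)).trans h1

theorem many_main (h : ∃ e : ℕ, 1 ≤ e ∧ {n : ℕ | S n = 2 ^ e}.Infinite) (ε : ℝ) (hε : 0 < ε) :
    ∀ᶠ x : ℕ in atTop, (x : ℝ) ^ (1 / 2 - ε) ≤
      (({e : ℕ | (1 ≤ e ∧ e ≤ x) ∧ {n : ℕ | S n = 2 ^ e}.Infinite}.ncard : ℕ) : ℝ) := by
  obtain ⟨e, he⟩ := h
  filter_upwards [many_small ⟨e, he⟩ (min ε (1 / 4)) (lt_min hε (by norm_num))
    (lt_of_le_of_lt (min_le_right _ _) (by norm_num)), eventually_ge_atTop 1] with x h1 hx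
  have hx1 : (1 : ℝ) ≤ x := by exact_mod_cast hx
  have h2 : {e : ℕ | (1 ≤ e ∧ e ≤ x) ∧ {n : ℕ | S n = 2 ^ e}.Infinite} = EI ∩ Set.Icc 1 x := by
    ext e
    simp only [Set.mem_ofPred_eq, EI, Set.mem_inter_iff, Set.mem_Icc]
    tauto
  rw [h2]
  exact (Real.rpow_le_rpow_of_exponent_le hx1 (by linarith [min_le_left ε (1 / 4)])).trans h1

end Run7.h499
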