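import Mathlib
import Pool.Agent.Run7.h499.Classes

set_option autoImplicit false

/-! # The classes modulo different moduli are compatible only for equal tuples -/

namespace Run7.h499

open Finset

/-- the product without the first factor -/
def QV (U : ℕ → ℕ) : ℕ → ℕ
  | 0 => 1
  | (i + 1) => QV U i * (1 + 5 * 7 ^ (i + 1) * U (i + 1))

/-- the numerators -/
def EV (U : ℕ → ℕ) : ℕ → ℕ
  | 0 => 0
  | (i + 1) => (2 * 7 ^ (i + 1) + 4) * QV U i + 7 * EV U i

theorem QV_pos (U : ℕ → ℕ) (i : ℕ) : 0 < QV U i := by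
  induction i with
  | zero => exact Nat.one_pos
  | succ i ih =>
    rw [QV]
    positivity

theorem PP_QV (U : ℕ → ℕ) (i : ℕ) : PP U (i + 1) = (1 + 5 * U 0) * QV U i := by
  induction i with
  | zero =>
    simp only [PP, QV]
    ring
  | succ i ih =>
    rw [PP, ih, QV]
    ring

theorem EV_cast (U : ℕ → ℕ) (i : ℕ) : (EV U i : ℝ) = 7 ^ i * QV U i * EE U i := by
  induction i with
  | zero => simp [EV, EE]
  | succ i ih =>
    rw [EV, EE]
    push_cast
    rw [ih, QV]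
    have h2 : ((1 + 5 * 7 ^ (i + 1) * U (i + 1) : ℕ) : ℝ) ≠ 0 := by positivity
    push_cast at h2 ⊢
    unfold mu
    field_simp
    ring

theorem RR_identity (U V : ℕ → ℕ) (r : ℕ) (hUe : ∀ i, 2 ∣ U i) (hVe : ∀ i, 2 ∣ V i) :
    (30 * 7 ^ (r + 1) * ((RR U (r + 1) : ℤ) - RR V (r + 1)) : ℤ) =
      (14 + 7 ^ (r + 2)) * ((PP U (r + 1) : ℤ) - PP V (r + 1)) +
      21 * (((1 + 5 * U 0 : ℕ) : ℤ) * EV U r - ((1 + 5 * V 0 : ℕ) : ℤ) * EV V r) := by
  have key : (30 * 7 ^ (r + 1) * ((RR U (r + 1) : ℝ) - RR V (r + 1)) : ℝ) =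
      (14 + 7 ^ (r + 2)) * ((PP U (r + 1) : ℝ) - PP V (r + 1)) +
      21 * (((1 + 5 * U 0 : ℕ) : ℝ) * EV U r - ((1 + 5 * V 0 : ℕ) : ℝ) * EV V r) := by
    have h1 := HH_formula U r
    have h2 := HH_formula V r
    rw [← two_RR U hUe] at h1
    rw [← two_RR V hVe] at h2
    have e1 : (PP U (r + 1) : ℝ) = ((1 + 5 * U 0 : ℕ) : ℝ) * QV U r := by
      rw [PP_QV]
      push_cast
      ring
    have e2 : (PP V (r + 1) : ℝ) = ((1 + 5 * V 0 : ℕ) : ℝ) * QV V r := by
      rw [PP_QV]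
      push_cast
      ring
    have hc : (3 : ℝ) * 7 ^ (r + 1) * (lam (r + 1) (r + 1) + mu r) = 14 + 7 ^ (r + 2) := by
      unfold lam mu
      have h7 : (7 : ℝ) ^ (r + 1) ≠ 0 := by positivity
      push_cast
      field_simp
      ring
    have h3 : (10 : ℝ) * ((RR U (r + 1) : ℝ) - RR V (r + 1)) =
        (lam (r + 1) (r + 1) + mu r) * ((PP U (r + 1) : ℝ) - PP V (r + 1)) +
        (PP U (r + 1) * EE U r - PP V (r + 1) * EE V r) := by
      push_cast at h1 h2
      linarith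
    calc (30 * 7 ^ (r + 1) * ((RR U (r + 1) : ℝ) - RR V (r + 1)) : ℝ) =
        3 * 7 ^ (r + 1) * (10 * ((RR U (r + 1) : ℝ) - RR V (r + 1))) := by ring
      _ = (3 * 7 ^ (r + 1) * (lam (r + 1) (r + 1) + mu r)) *
            ((PP U (r + 1) : ℝ) - PP V (r + 1)) +
          3 * 7 ^ (r + 1) * (PP U (r + 1) * EE U r - PP V (r + 1) * EE V r) := by
          rw [h3]
          ring
      _ = _ := by
          rw [hc, e1, e2, EV_cast, EV_cast]
          ring
  exact_mod_cast key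

theorem compat_core (U V : ℕ → ℕ) (r d : ℕ) (hUe : ∀ i, 2 ∣ U i) (hVe : ∀ i, 2 ∣ V i)
    (hd : d ∣ ll U (r + 1)) (hd' : d ∣ ll V (r + 1)) (hc : d.Coprime 84)
    (hmod : RR U (r + 1) ≡ RR V (r + 1) [MOD d]) (hu : EE U r ≤ 1) (hv : EE V r ≤ 1)
    (hbig : 7 ^ r * (QV U r * QV V r) < d) : EE U r = EE V r := by
  have h1 := RR_identity U V r hUe hVe
  set q : ℤ := (QV U r : ℤ) with hq
  set q' : ℤ := (QV V r : ℤ) with hq'
  set e : ℤ := (EV U r : ℤ) with he
  set e' : ℤ := (EV V r : ℤ) with he'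
  have hP : (PP U (r + 1) : ℤ) = ((1 + 5 * U 0 : ℕ) : ℤ) * q := by
    rw [PP_QV, hq]
    push_cast
    ring
  have hP' : (PP V (r + 1) : ℤ) = ((1 + 5 * V 0 : ℕ) : ℤ) * q' := by
    rw [PP_QV, hq']
    push_cast
    ring
  have d1 : (d : ℤ) ∣ (PP U (r + 1) : ℤ) + 4 := by
    have := five_ll U (r + 1)
    have h2 : (PP U (r + 1) : ℤ) + 4 = 5 * (ll U (r + 1) : ℤ) := by
      have : (5 : ℤ) * (ll U (r + 1) : ℤ) = 4 + PP U (r + 1) := by exact_mod_cast this
      linarith
    rw [h2]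
    exact Dvd.dvd.mul_left (Int.natCast_dvd_natCast.2 hd) _
  have d2 : (d : ℤ) ∣ (PP V (r + 1) : ℤ) + 4 := by
    have := five_ll V (r + 1)
    have h2 : (PP V (r + 1) : ℤ) + 4 = 5 * (ll V (r + 1) : ℤ) := by
      have : (5 : ℤ) * (ll V (r + 1) : ℤ) = 4 + PP V (r + 1) := by exact_mod_cast this
      linarith
    rw [h2]
    exact Dvd.dvd.mul_left (Int.natCast_dvd_natCast.2 hd') _
  have d3 : (d : ℤ) ∣ (RR U (r + 1) : ℤ) - RR V (r + 1) := by
    have := (Nat.modEq_iff_dvd.1 hmod)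
    rw [← neg_sub]
    exact (dvd_neg).2 this
  have d4 : (d : ℤ) ∣ 84 * (q' * e - q * e') := by
    have h2 : (84 : ℤ) * (q' * e - q * e') =
        q * q' * ((14 + 7 ^ (r + 2)) * (((PP U (r + 1) : ℤ) + 4) - ((PP V (r + 1) : ℤ) + 4))) -
        q * q' * (30 * 7 ^ (r + 1) * ((RR U (r + 1) : ℤ) - RR V (r + 1))) +
        21 * (((PP U (r + 1) : ℤ) + 4) * (q' * e) - ((PP V (r + 1) : ℤ) + 4) * (q * e')) := by
      rw [h1, hP, hP']
      ring
    rw [h2]
    apply dvd_add
    · apply dvd_sub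
      · exact Dvd.dvd.mul_left (Dvd.dvd.mul_left (dvd_sub d1 d2) _) _
      · exact Dvd.dvd.mul_left (Dvd.dvd.mul_left d3 _) _
    · exact Dvd.dvd.mul_left (dvd_sub (Dvd.dvd.mul_right d1 _) (Dvd.dvd.mul_right d2 _)) _
  have d5 : (d : ℤ) ∣ q' * e - q * e' := by
    have h2 : IsCoprime (d : ℤ) (84 : ℤ) := by
      have := Nat.isCoprime_iff_coprime.2 hc
      exact_mod_cast this
    exact h2.dvd_of_dvd_mul_left d4
  have hq0 : 0 < q := by
    rw [hq]
    exact_mod_cast QV_pos U r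
  have hq0' : 0 < q' := by
    rw [hq']
    exact_mod_cast QV_pos V r
  have he1 : e ≤ 7 ^ r * q := by
    have h2 : (EV U r : ℝ) ≤ 7 ^ r * (QV U r : ℝ) := by
      rw [EV_cast]
      exact mul_le_of_le_one_right (by positivity) hu
    rw [he, hq]
    exact_mod_cast h2
  have he1' : e' ≤ 7 ^ r * q' := by
    have h2 : (EV V r : ℝ) ≤ 7 ^ r * (QV V r : ℝ) := by
      rw [EV_cast]
      exact mul_le_of_le_one_right (by positivity) hv
    rw [he', hq']
    exact_mod_cast h2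
  have he0 : 0 ≤ e := by rw [he]; positivity
  have he0' : 0 ≤ e' := by rw [he']; positivity
  have hbigZ : (7 : ℤ) ^ r * (q * q') < d := by
    rw [hq, hq']
    exact_mod_cast hbig
  have h5 : q' * e - q * e' = 0 := by
    apply Int.eq_zero_of_abs_lt_dvd d5
    rw [abs_lt]
    constructor
    · have : q * e' ≤ q * (7 ^ r * q') := mul_le_mul_of_nonneg_left he1' hq0.le
      have h6 : 0 ≤ q' * e := mul_nonneg hq0'.le he0
      nlinarith
    · have : q' * e ≤ q' * (7 ^ r * q) := mul_le_mul_of_nonneg_left he1 hq0'.le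
      have h6 : 0 ≤ q * e' := mul_nonneg hq0.le he0'
      nlinarith
  have h6 : ((QV V r : ℕ) : ℝ) * EV U r = (QV U r : ℕ) * EV V r := by
    have : q' * e = q * e' := by linarith
    rw [hq, hq', he, he'] at this
    exact_mod_cast this
  rw [EV_cast, EV_cast] at h6
  have h7 : (0 : ℝ) < 7 ^ r * QV U r * QV V r := by
    have := QV_pos U r
    have := QV_pos V r
    positivity
  have h8 : (7 ^ r * QV U r * QV V r : ℝ) * EE U r = (7 ^ r * QV U r * QV V r) * EE V r := by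
    linarith
  exact mul_left_cancel₀ h7.ne' h8

section

variable {r K B : ℕ} {b : ℕ → ℕ} (D : Data r K B b) {T : ℕ}

include D

theorem QV_vU {l : ℕ} (hBT : B ≤ T) {t : Fin r → ℕ} (ht : t ∈ BT (yT r T)) :
    QV (vU r K b l t) r = qT K b t := by
  have h1 : ∀ i, QV (vU r K b l t) i = ∏ j ∈ range i, (1 + 5 * 7 ^ (j + 1) * vU r K b l t (j + 1)) := by
    intro i
    induction i with
    | zero => rfl
    | succ i ih => rw [prod_range_succ, ← ih, QV]
  rw [h1]
  unfold qT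
  rw [← Fin.prod_univ_eq_prod_range (fun i => 1 + 5 * 7 ^ (i + 1) * vU r K b l t (i + 1)) r]
  refine prod_congr rfl fun i _ => ?_
  exact (vU_succ D hBT ht i).2

theorem EE_vU_le {l : ℕ} (hBT : B ≤ T) (hT : 4 * K ≤ T) {t : Fin r → ℕ} (ht : t ∈ BT (yT r T)) :
    EE (vU r K b l t) r ≤ 1 := by
  have hK := D.one_le
  have haux : ∀ i, i ≤ r → EE (vU r K b l t) i ≤ 1 := by
    intro i
    induction i with
    | zero => intro _; rw [EE]; norm_num
    | succ i ih =>
      intro h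
      have e1 := ih (by omega)
      have e2 := (vU_range (l := l) D hBT ht (i + 1) (by omega) h).1
      have e3 : (4 : ℝ) ≤ ((K * T ^ 3 ^ (r - (i + 1)) : ℕ) : ℝ) := by
        have : 4 ≤ K * T ^ 3 ^ (r - (i + 1)) := by
          calc 4 ≤ T := by omega
            _ = 1 * T ^ 1 := by ring
            _ ≤ K * T ^ 3 ^ (r - (i + 1)) := Nat.mul_le_mul hK
              (Nat.pow_le_pow_right (by omega) (Nat.one_le_pow _ _ (by norm_num)))
        exact_mod_cast this
      have e4 := mu_le i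
      rw [EE, div_le_one (by linarith)]
      linarith
  exact haux r le_rfl

/-- compatible classes come from the same tuple -/
theorem compat {l l' d : ℕ} (hl : l % 2 = 1) (hl1 : 1 ≤ l) (hl' : l' % 2 = 1) (hl1' : 1 ≤ l')
    (hBT : B ≤ T) (hT : 4 * K ≤ T) {t t' : Fin r → ℕ} (ht : t ∈ TL r K b l T)
    (ht' : t' ∈ TL r K b l' T) (hd : d ∣ l) (hd' : d ∣ l') (hc : d.Coprime 84)
    (hmod : RR (vU r K b l t) (r + 1) ≡ RR (vU r K b l' t') (r + 1) [MOD d])
    (hbig : 7 ^ r * (qT K b t * qT K b t') < d) : t = t' := by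
  have htB : t ∈ BT (yT r T) := by
    unfold TL at ht
    exact GT_sub _ _ _ (mem_filter.1 ht).1
  have htB' : t' ∈ BT (yT r T) := by
    unfold TL at ht'
    exact GT_sub _ _ _ (mem_filter.1 ht').1
  have hK := D.one_le
  have hEE : EE (vU r K b l t) r = EE (vU r K b l' t') r := by
    apply compat_core (vU r K b l t) (vU r K b l' t') r d (vU_even D hl hl1 hBT ht)
      (vU_even D hl' hl1' hBT ht')
    · rw [vU_ll D hl hl1 hBT ht]
      exact hd
    · rw [vU_ll D hl' hl1' hBT ht']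
      exact hd'
    · exact hc
    · exact hmod
    · exact EE_vU_le D hBT hT htB
    · exact EE_vU_le D hBT hT htB'
    · rw [QV_vU D hBT htB, QV_vU D hBT htB']
      exact hbig
  have hinj := EE_inj (vU r K b l t) (vU r K b l' t') r
    (fun i => ((K * T ^ 3 ^ (r - i) : ℕ) : ℝ))
    (fun i _ => by
      have : 4 ≤ K * T ^ 3 ^ (r - i) := by
        calc 4 ≤ T := by omega
          _ = 1 * T ^ 1 := by ring
          _ ≤ K * T ^ 3 ^ (r - i) := Nat.mul_le_mul hK
            (Nat.pow_le_pow_right (by omega) (Nat.one_le_pow _ _ (by norm_num)))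
      exact_mod_cast this)
    (fun i h1 h2 => by
      have e : 3 ^ (r - i) = 3 ^ (r - (i + 1)) * 3 := by
        rw [← pow_succ]
        congr 1
        omega
      have : 4 * (K * T ^ 3 ^ (r - (i + 1))) ^ 2 ≤ K * T ^ 3 ^ (r - i) := by
        rw [e, pow_mul]
        have h3 : 4 * K ≤ T ^ 3 ^ (r - (i + 1)) := by
          refine hT.trans ?_
          calc T = T ^ 1 := (pow_one T).symm
            _ ≤ _ := Nat.pow_le_pow_right (by omega) (Nat.one_le_pow _ _ (by norm_num))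
        calc 4 * (K * T ^ 3 ^ (r - (i + 1))) ^ 2 = K * (4 * K) * (T ^ 3 ^ (r - (i + 1))) ^ 2 := by ring
          _ ≤ K * (T ^ 3 ^ (r - (i + 1))) * (T ^ 3 ^ (r - (i + 1))) ^ 2 := by gcongr
          _ = _ := by ring
      exact_mod_cast this)
    (vU_range D hBT htB) (vU_range D hBT htB') hEE
  funext i
  have h1 := hinj (i + 1) (by omega) (by omega)
  have h2 := (vU_succ (l := l) D hBT htB i).2
  have h3 := (vU_succ (l := l') D hBT htB' i).2
  rw [h1, h3] at h2
  unfold FT at h2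
  have h4 : K * t i = K * t' i := by omega
  exact Nat.eq_of_mul_eq_mul_left hK h4

end

end Run7.h499
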