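import Mathlib

set_option autoImplicit false

/-! # Sums of the divisor function -/

namespace Run7.h499

open Finset

theorem tau_mul_le (m k : ℕ) : (m * k).divisors.card ≤ m.divisors.card * k.divisors.card := by
  rw [Nat.divisors_mul]
  exact card_mul_le

theorem sum_inv_Icc_le (N : ℕ) : ∑ k ∈ Icc 1 N, (1 : ℝ) / k ≤ 1 + Real.log N := by
  have h := harmonic_le_one_add_log N
  rw [harmonic_eq_sum_Icc] at h
  push_cast at h
  refine le_trans (le_of_eq ?_) h
  refine sum_congr rfl fun k _ => ?_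
  rw [one_div]

theorem card_divisors_eq (N k : ℕ) (hk : k ∈ Icc 1 N) :
    (k.divisors.card : ℝ) = ∑ d ∈ Icc 1 N, (if d ∣ k then (1 : ℝ) else 0) := by
  rw [mem_Icc] at hk
  rw [← sum_filter, sum_const, nsmul_eq_mul, mul_one]
  congr 2
  ext d
  rw [Nat.mem_divisors, mem_filter, mem_Icc]
  constructor
  · rintro ⟨h1, h2⟩
    exact ⟨⟨Nat.pos_of_dvd_of_pos h1 (by omega), (Nat.le_of_dvd (by omega) h1).trans hk.2⟩, h1⟩
  · rintro ⟨_, h1⟩
    exact ⟨h1, by omega⟩

theorem card_mult_le (N d : ℕ) (hd : 1 ≤ d) :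
    (((Icc 1 N).filter (fun k => d ∣ k)).card : ℝ) ≤ (N : ℝ) / d := by
  have h : (Icc 1 N).filter (fun k => d ∣ k) = (Ioc 0 N).filter (fun k => d ∣ k) := by
    ext k
    rw [mem_filter, mem_filter, mem_Icc, mem_Ioc]
    constructor
    · rintro ⟨⟨h1, h2⟩, h3⟩
      exact ⟨⟨by omega, h2⟩, h3⟩
    · rintro ⟨⟨h1, h2⟩, h3⟩
      exact ⟨⟨by omega, h2⟩, h3⟩
  rw [h, Nat.Ioc_filter_dvd_card_eq_div]
  exact Nat.cast_div_le

theorem sum_tau_le (N : ℕ) : ∑ k ∈ Icc 1 N, (k.divisors.card : ℝ) ≤ N * (1 + Real.log N) := by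
  calc ∑ k ∈ Icc 1 N, (k.divisors.card : ℝ)
      = ∑ k ∈ Icc 1 N, ∑ d ∈ Icc 1 N, (if d ∣ k then (1 : ℝ) else 0) :=
        sum_congr rfl fun k hk => card_divisors_eq N k hk
    _ = ∑ d ∈ Icc 1 N, ∑ k ∈ Icc 1 N, (if d ∣ k then (1 : ℝ) else 0) := sum_comm
    _ = ∑ d ∈ Icc 1 N, (((Icc 1 N).filter (fun k => d ∣ k)).card : ℝ) := by
        refine sum_congr rfl fun d _ => ?_
        rw [← sum_filter, sum_const, nsmul_eq_mul, mul_one]
    _ ≤ ∑ d ∈ Icc 1 N, (N : ℝ) * (1 / d) := by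
        apply sum_le_sum
        intro d hd
        rw [mul_one_div]
        exact card_mult_le N d (mem_Icc.1 hd).1
    _ = N * ∑ d ∈ Icc 1 N, (1 : ℝ) / d := by rw [mul_sum]
    _ ≤ _ := mul_le_mul_of_nonneg_left (sum_inv_Icc_le N) (Nat.cast_nonneg _)

theorem sum_tau_div_le (N : ℕ) :
    ∑ n ∈ Icc 1 N, (n.divisors.card : ℝ) / n ≤ (1 + Real.log N) ^ 2 := by
  have h1 : ∀ n ∈ Icc 1 N, (n.divisors.card : ℝ) / n =
      ∑ x ∈ n.divisorsAntidiagonal, ((1 : ℝ) / x.1) * (1 / x.2) := by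
    intro n hn
    rw [mem_Icc] at hn
    have h2 : ∀ x ∈ n.divisorsAntidiagonal, ((1 : ℝ) / x.1) * (1 / x.2) = 1 / n := by
      intro x hx
      rw [Nat.mem_divisorsAntidiagonal] at hx
      rw [one_div_mul_one_div, ← Nat.cast_mul, hx.1]
    rw [sum_congr rfl h2, sum_const, nsmul_eq_mul, ← Nat.map_div_right_divisors, card_map]
    ring
  rw [sum_congr rfl h1, ← sum_biUnion]
  · calc ∑ x ∈ (Icc 1 N).biUnion (fun n => n.divisorsAntidiagonal), ((1 : ℝ) / x.1) * (1 / x.2)
        ≤ ∑ x ∈ (Icc 1 N) ×ˢ (Icc 1 N), ((1 : ℝ) / x.1) * (1 / x.2) := by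
          apply sum_le_sum_of_subset_of_nonneg
          · intro x hx
            rw [mem_biUnion] at hx
            obtain ⟨n, hn, hx⟩ := hx
            rw [mem_Icc] at hn
            have hd := Nat.divisor_le (Nat.fst_mem_divisors_of_mem_antidiagonal hx)
            have hd' := Nat.divisor_le (Nat.snd_mem_divisors_of_mem_antidiagonal hx)
            rw [Nat.mem_divisorsAntidiagonal] at hx
            rw [mem_product, mem_Icc, mem_Icc]
            have h3 : x.1 ≠ 0 := by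
              intro h
              rw [h, zero_mul] at hx
              omega
            have h4 : x.2 ≠ 0 := by
              intro h
              rw [h, mul_zero] at hx
              omega
            exact ⟨⟨by omega, by omega⟩, by omega, by omega⟩
          · intro x _ _
            positivity
      _ = (∑ a ∈ Icc 1 N, (1 : ℝ) / a) * ∑ b ∈ Icc 1 N, (1 : ℝ) / b := by
          rw [sum_mul_sum, sum_product]
      _ ≤ (1 + Real.log N) ^ 2 := by
          rw [sq]
          have h3 := sum_inv_Icc_le N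
          have h4 : (0 : ℝ) ≤ ∑ k ∈ Icc 1 N, (1 : ℝ) / k := sum_nonneg fun _ _ => by positivity
          exact mul_le_mul h3 h3 h4 (h4.trans h3)
  · intro n _ m _ hnm
    rw [Function.onFun, Finset.disjoint_left]
    intro x hx hx'
    rw [Nat.mem_divisorsAntidiagonal] at hx hx'
    exact hnm (hx.1.symm.trans hx'.1)

end Run7.h499
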