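import Mathlib
import Pool.Agent.H446R2.BrunD

set_option autoImplicit false

/-! # Numbers without small prime factors in a residue class -/

namespace Run7.h499

open Finset

/-- no prime factor up to `z` -/
def Rgh (z n : ℕ) : Prop := ∀ p : ℕ, p.Prime → p ≤ z → ¬ p ∣ n

open Classical in
/-- lower bound for the number of such integers in a residue class -/
theorem rough_ap (I : ℕ) (hI : 1 ≤ I) (m a Y1 Y2 : ℕ) (hm : 1 ≤ m) (ha : a.Coprime m) :
    (((Y2 : ℝ) - Y1) / m - 2) * (Real.exp (-8) ^ I / 2) - (2 : ℝ) ^ (60 * 2 ^ I) ≤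
      (((Ioc Y1 Y2).filter (fun n => n ≡ a [MOD m] ∧ Rgh (2 ^ 2 ^ I) n)).card : ℝ) := by
  set z : ℕ := 2 ^ 2 ^ I with hz
  set S : Finset ℕ := (Icc 1 z).filter (fun p => p.Prime ∧ ¬ p ∣ m) with hS
  have hSp : ∀ p ∈ S, p.Prime := fun p hp => (mem_filter.1 hp).2.1
  have hcop : Nat.Coprime m (∏ p ∈ S, p) := by
    apply Nat.Coprime.prod_right
    intro p hp
    rw [Nat.coprime_comm, Nat.Prime.coprime_iff_not_dvd (hSp p hp)]
    exact (mem_filter.1 hp).2.2
  obtain ⟨k, hk1, hk2⟩ := Nat.chineseRemainder hcop 0 (a % m)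
  obtain ⟨u, hu⟩ := (Nat.modEq_zero_iff_dvd.1 hk1)
  obtain ⟨N, hN1, hN2⟩ : ∃ N : ℕ, N = Y1 / m ∧ Y1 < m * (N + 1) :=
    ⟨Y1 / m, rfl, Nat.lt_mul_div_succ Y1 hm⟩
  obtain ⟨M, hM1, hM2, hM3⟩ : ∃ M : ℕ, M = Y2 / m ∧ Y2 < m * (M + 1) ∧ m * M ≤ Y2 :=
    ⟨Y2 / m, rfl, Nat.lt_mul_div_succ Y2 hm, Nat.mul_div_le Y2 m⟩
  obtain ⟨j, hj⟩ : ∃ j : ℕ, j = M - 1 - N := ⟨_, rfl⟩
  have h1 := Pool.Agent.H446R2.sieve_lower S hSp I hI
    (fun p hp => (mem_Icc.1 (mem_filter.1 hp).1).2) (N + u) j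
  have hm0 : (0 : ℝ) < m := by exact_mod_cast hm
  have h2 : ((Y2 : ℝ) - Y1) / m - 2 ≤ j := by
    have e1 : (Y2 : ℝ) / m < (M : ℝ) + 1 := by
      rw [div_lt_iff₀ hm0]
      have h3 : ((Y2 : ℕ) : ℝ) < ((m * (M + 1) : ℕ) : ℝ) := by exact_mod_cast hM2
      push_cast at h3
      linarith
    have e2 : (N : ℝ) ≤ (Y1 : ℝ) / m := by
      rw [hN1]
      exact Nat.cast_div_le
    have e3 : M ≤ j + 1 + N := by omega
    have e4 : (M : ℝ) ≤ j + 1 + N := by exact_mod_cast e3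
    rw [sub_div]
    linarith
  have h3 : ((Ioc (N + u) (N + u + j)).filter (fun n => ∀ p ∈ S, ¬ p ∣ n)).card ≤
      ((Ioc Y1 Y2).filter (fun n => n ≡ a [MOD m] ∧ Rgh z n)).card := by
    apply card_le_card_of_injOn (fun n => a % m + m * (n - u))
    · intro n hn
      rw [mem_coe, mem_filter, mem_Ioc] at hn
      obtain ⟨⟨hn1, hn2⟩, hn3⟩ := hn
      rw [mem_coe, mem_filter, mem_Ioc]
      have hmod : a % m < m := Nat.mod_lt _ hm
      have hnu : N + 1 ≤ n - u := by omega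
      have hnu2 : n - u + 1 ≤ M := by omega
      have hnu3 : u ≤ n := by omega
      simp only
      refine ⟨⟨?_, ?_⟩, ?_, ?_⟩
      · have e2 : m * (N + 1) ≤ m * (n - u) := Nat.mul_le_mul_left _ hnu
        omega
      · have e1 : m * ((n - u) + 1) ≤ m * M := Nat.mul_le_mul_left _ hnu2
        have e3 : m * ((n - u) + 1) = m * (n - u) + m := by ring
        omega
      · have e1 : a % m + m * (n - u) ≡ a % m + 0 [MOD m] := by
          apply Nat.ModEq.add_left
          exact Nat.modEq_zero_iff_dvd.2 (Nat.dvd_mul_right _ _)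
        exact e1.trans (Nat.mod_modEq a m)
      · intro p hp hpz hd
        by_cases hpm : p ∣ m
        · have e1 : p ∣ a % m := (Nat.dvd_add_left (hpm.mul_right _)).1 hd
          have e2 : p ∣ a := (Nat.dvd_mod_iff hpm).1 e1
          have e3 := Nat.dvd_gcd e2 hpm
          rw [ha] at e3
          exact hp.one_lt.ne' (Nat.dvd_one.1 e3)
        · have hpS : p ∈ S := by
            rw [hS, mem_filter, mem_Icc]
            exact ⟨⟨hp.one_le, hpz⟩, hp, hpm⟩
          apply hn3 p hpS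
          have e1 : k ≡ a % m [MOD p] := hk2.of_dvd (dvd_prod_of_mem _ hpS)
          rw [hu] at e1
          have e2 : m * u + m * (n - u) ≡ a % m + m * (n - u) [MOD p] := Nat.ModEq.add_right _ e1
          have e3 : m * u + m * (n - u) = m * n := by
            rw [← mul_add]
            congr 1
            omega
          rw [e3] at e2
          have e4 : p ∣ m * n := (Nat.ModEq.dvd_iff e2 dvd_rfl).2 hd
          exact (hp.dvd_mul.1 e4).resolve_left hpm
    · intro n hn n' hn' h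
      rw [mem_coe, mem_filter, mem_Ioc] at hn hn'
      simp only at h
      have e1 : m * (n - u) = m * (n' - u) := by omega
      have e2 := Nat.eq_of_mul_eq_mul_left hm e1
      omega
  have h4 : (((Ioc (N + u) (N + u + j)).filter (fun n => ∀ p ∈ S, ¬ p ∣ n)).card : ℝ) ≤
      (((Ioc Y1 Y2).filter (fun n => n ≡ a [MOD m] ∧ Rgh z n)).card : ℝ) := by exact_mod_cast h3
  have h5 : (0 : ℝ) ≤ Real.exp (-8) ^ I / 2 := by positivity
  have h6 := mul_le_mul_of_nonneg_right h2 h5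
  have h7 : (((Ioc (N + u) (N + u + j)).filter (fun n => ∀ p ∈ S, ¬ p ∣ n)).card : ℝ) =
    (((Ioc (N + u) (N + u + j)).filter (fun n => ∀ p ∈ S, ¬ p ∣ n)).card : ℝ) := rfl
  refine le_trans ?_ h4
  refine le_trans ?_ (h1.trans (le_of_eq ?_))
  · linarith
  · congr!

end Run7.h499
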