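import Mathlib
import Pool.Agent.Run7.h499.DivSums
import Pool.Agent.Run7.h499.RoughAP
import Pool.Agent.Run7.h499.MassLow

set_option autoImplicit false

/-! # Many pairs of a tuple and a modulus -/

namespace Run7.h499

open Finset

/-- the number of indices dividing -/
def NV (V : Finset ℕ) (q l : ℕ) : ℕ := (V.filter (fun I => q * (1 + 5 * I) ∣ 5 * l - 4)).card

theorem NV_le_tau (V : Finset ℕ) (q l : ℕ) (hq : 1 ≤ q) (hl : 1 ≤ l) (h : q ∣ 5 * l - 4) :
    NV V q l ≤ ((5 * l - 4) / q).divisors.card := by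
  unfold NV
  apply card_le_card_of_injOn (fun I => 1 + 5 * I)
  · intro I hI
    rw [mem_coe, mem_filter] at hI
    rw [mem_coe, Nat.mem_divisors]
    refine ⟨Nat.dvd_div_of_mul_dvd hI.2, ?_⟩
    have h1 : 0 < (5 * l - 4) / q := Nat.div_pos (Nat.le_of_dvd (by omega) h) hq
    omega
  · intro I _ I' _ h
    simp only at h
    omega

theorem NV_one (q X : ℕ) (hX : 1 ≤ X) (I : ℕ) (hq : 1 ≤ q) :
    ∑ l ∈ (Ioc X (2 * X)).filter (fun l => q * (1 + 5 * I) ∣ 5 * l - 4),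
      (((5 * l - 4) / q).divisors.card : ℝ) ≤
    (10 * X / q) * (1 + Real.log (10 * X)) * (((1 + 5 * I).divisors.card : ℝ) / ((1 + 5 * I : ℕ) : ℝ)) := by
  set m := 1 + 5 * I with hm
  have hm1 : 1 ≤ m := by omega
  set s := (Ioc X (2 * X)).filter (fun l => q * m ∣ 5 * l - 4) with hs
  have hqm : 0 < q * m := Nat.mul_pos hq hm1
  have h1 : ∀ l ∈ s, (((5 * l - 4) / q).divisors.card : ℝ) ≤
      (m.divisors.card : ℝ) * (((5 * l - 4) / (q * m)).divisors.card : ℝ) := by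
    intro l hl
    rw [hs, mem_filter, mem_Ioc] at hl
    obtain ⟨k, hk⟩ := hl.2
    have e1 : (5 * l - 4) / q = m * k := by
      rw [hk, mul_assoc]
      exact Nat.mul_div_cancel_left _ hq
    have e2 : (5 * l - 4) / (q * m) = k := by
      rw [hk]
      exact Nat.mul_div_cancel_left _ hqm
    rw [e1, e2]
    exact_mod_cast tau_mul_le m k
  refine (sum_le_sum h1).trans ?_
  rw [← mul_sum]
  have hinj : Set.InjOn (fun l : ℕ => (5 * l - 4) / (q * m)) (s : Set ℕ) := by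
    intro l hl l' hl' h
    rw [mem_coe, hs, mem_filter, mem_Ioc] at hl hl'
    obtain ⟨k, hk⟩ := hl.2
    obtain ⟨k', hk'⟩ := hl'.2
    simp only at h
    rw [hk, hk', Nat.mul_div_cancel_left _ hqm, Nat.mul_div_cancel_left _ hqm] at h
    rw [h] at hk
    omega
  have h2 : ∑ l ∈ s, (((5 * l - 4) / (q * m)).divisors.card : ℝ) ≤
      ∑ k ∈ Icc 1 (10 * X / (q * m)), (k.divisors.card : ℝ) := by
    rw [← sum_image (f := fun k : ℕ => (k.divisors.card : ℝ)) hinj]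
    apply sum_le_sum_of_subset_of_nonneg
    · intro k hk
      rw [mem_image] at hk
      obtain ⟨l, hl, rfl⟩ := hk
      rw [hs, mem_filter, mem_Ioc] at hl
      rw [mem_Icc]
      constructor
      · exact Nat.div_pos (Nat.le_of_dvd (by omega) hl.2) hqm
      · exact Nat.div_le_div_right (by omega)
    · intro k _ _
      positivity
  have hXR : (1 : ℝ) ≤ X := by exact_mod_cast hX
  have h3 : ∑ k ∈ Icc 1 (10 * X / (q * m)), (k.divisors.card : ℝ) ≤
      (10 * X / ((q : ℝ) * m)) * (1 + Real.log (10 * X)) := by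
    refine (sum_tau_le _).trans ?_
    have e1 : ((10 * X / (q * m) : ℕ) : ℝ) ≤ 10 * X / ((q : ℝ) * m) := by
      have := Nat.cast_div_le (α := ℝ) (m := 10 * X) (n := q * m)
      push_cast at this
      exact this
    have hl0 : 0 ≤ Real.log ((10 * X / (q * m) : ℕ) : ℝ) := Real.log_natCast_nonneg _
    have e2 : Real.log ((10 * X / (q * m) : ℕ) : ℝ) ≤ Real.log (10 * X) := by
      rcases Nat.eq_zero_or_pos (10 * X / (q * m)) with h | h
      · rw [h, Nat.cast_zero, Real.log_zero]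
        exact Real.log_nonneg (by linarith)
      · apply Real.log_le_log (by exact_mod_cast h)
        have : 10 * X / (q * m) ≤ 10 * X := Nat.div_le_self _ _
        exact_mod_cast this
    apply mul_le_mul e1 (by linarith) (by linarith)
    positivity
  have h4 : (0 : ℝ) ≤ (m.divisors.card : ℝ) := Nat.cast_nonneg _
  calc (m.divisors.card : ℝ) * ∑ l ∈ s, (((5 * l - 4) / (q * m)).divisors.card : ℝ)
      ≤ (m.divisors.card : ℝ) * ((10 * X / ((q : ℝ) * m)) * (1 + Real.log (10 * X))) :=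
        mul_le_mul_of_nonneg_left (h2.trans h3) h4
    _ = _ := by
        have hq0 : (q : ℝ) ≠ 0 := by
          have : q ≠ 0 := by omega
          exact_mod_cast this
        have hm0 : (m : ℝ) ≠ 0 := by
          have : m ≠ 0 := by omega
          exact_mod_cast this
        field_simp

/-- the second moment of the number of indices -/
theorem NV_sq (V : Finset ℕ) (q X : ℕ) (hq : 1 ≤ q) (hX : 1 ≤ X) (hV : ∀ I ∈ V, 1 + 5 * I ≤ 10 * X) :
    ∑ l ∈ Ioc X (2 * X), (NV V q l : ℝ) ^ 2 ≤ (10 * X / q) * (1 + Real.log (10 * X)) ^ 3 := by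
  have hXR : (1 : ℝ) ≤ X := by exact_mod_cast hX
  have hlog : 0 ≤ Real.log (10 * X) := Real.log_nonneg (by linarith)
  have h1 : ∀ l ∈ Ioc X (2 * X), (NV V q l : ℝ) ^ 2 ≤
      ∑ I ∈ V, (if q * (1 + 5 * I) ∣ 5 * l - 4 then (((5 * l - 4) / q).divisors.card : ℝ) else 0) := by
    intro l hl
    rw [mem_Ioc] at hl
    rw [← sum_filter, sum_const, nsmul_eq_mul, sq]
    change (NV V q l : ℝ) * _ ≤ (NV V q l : ℝ) * _
    rcases Nat.eq_zero_or_pos (NV V q l) with h | h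
    · rw [h, Nat.cast_zero, zero_mul, zero_mul]
    · apply mul_le_mul_of_nonneg_left _ (Nat.cast_nonneg _)
      obtain ⟨I, hI⟩ := card_pos.1 h
      rw [mem_filter] at hI
      exact_mod_cast NV_le_tau V q l hq (by omega) ((Nat.dvd_mul_right _ _).trans hI.2)
  refine (sum_le_sum h1).trans ?_
  rw [sum_comm]
  have h2 : ∀ I ∈ V, ∑ l ∈ Ioc X (2 * X),
      (if q * (1 + 5 * I) ∣ 5 * l - 4 then (((5 * l - 4) / q).divisors.card : ℝ) else 0) ≤
      (10 * X / q) * (1 + Real.log (10 * X)) *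
        (((1 + 5 * I).divisors.card : ℝ) / ((1 + 5 * I : ℕ) : ℝ)) := by
    intro I _
    rw [← sum_filter]
    exact NV_one q X hX I hq
  refine (sum_le_sum h2).trans ?_
  rw [← mul_sum]
  have h3 : ∑ I ∈ V, (((1 + 5 * I).divisors.card : ℝ) / ((1 + 5 * I : ℕ) : ℝ)) ≤
      (1 + Real.log (10 * X)) ^ 2 := by
    have hinj : Set.InjOn (fun I : ℕ => 1 + 5 * I) (V : Set ℕ) := by
      intro I _ I' _ h
      simp only at h
      omega
    rw [← sum_image (f := fun n : ℕ => (n.divisors.card : ℝ) / (n : ℝ)) hinj]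
    have h4 := sum_tau_div_le (10 * X)
    push_cast at h4
    refine le_trans ?_ h4
    apply sum_le_sum_of_subset_of_nonneg
    · intro n hn
      rw [mem_image] at hn
      obtain ⟨I, hI, rfl⟩ := hn
      rw [mem_Icc]
      exact ⟨by omega, hV I hI⟩
    · intro n _ _
      positivity
  have h4 : (0 : ℝ) ≤ (10 * X / q) * (1 + Real.log (10 * X)) := by positivity
  calc _ ≤ (10 * X / q) * (1 + Real.log (10 * X)) * (1 + Real.log (10 * X)) ^ 2 :=
        mul_le_mul_of_nonneg_left h3 h4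
    _ = _ := by ring

open Classical in
/-- the rough moduli -/
noncomputable def Ro (z X : ℕ) : Finset ℕ := (Ioc X (2 * X)).filter (Rgh z)

open Classical in
/-- the rough moduli attached to a tuple -/
noncomputable def LR (V : Finset ℕ) (z X q : ℕ) : Finset ℕ := (Ro z X).filter (fun l => 0 < NV V q l)

/-- the first moment -/
theorem NV_lower (V : Finset ℕ) (q X J : ℕ) (hJ : 1 ≤ J) (hX : 1 ≤ X) (hq : q % 10 = 1)
    (hV : ∀ I ∈ V, 2 ∣ I ∧ 1 ≤ I)
    (h8 : ∀ I ∈ V, ((q * (1 + 5 * I) : ℕ) : ℝ) * 8 ≤ X)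
    (hE : ∀ I ∈ V, ((q * (1 + 5 * I) : ℕ) : ℝ) * (16 * 2 ^ (60 * 2 ^ J)) ≤ X * Real.exp (-8) ^ J) :
    (X * Real.exp (-8) ^ J / 24) * (1 / q) * ∑ I ∈ V, (1 : ℝ) / I ≤
      ∑ l ∈ Ro (2 ^ 2 ^ J) X, (NV V q l : ℝ) := by
  classical
  have hX0 : (0 : ℝ) < X := by exact_mod_cast hX
  have hq1 : 1 ≤ q := by omega
  have hq0 : (0 : ℝ) < q := by exact_mod_cast hq1
  set δ := Real.exp (-8) ^ J with hδ
  have hδ0 : 0 < δ := by positivity
  have h1 : ∑ l ∈ Ro (2 ^ 2 ^ J) X, (NV V q l : ℝ) =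
      ∑ I ∈ V, (((Ro (2 ^ 2 ^ J) X).filter (fun l => q * (1 + 5 * I) ∣ 5 * l - 4)).card : ℝ) := by
    have e1 : ∀ l ∈ Ro (2 ^ 2 ^ J) X, (NV V q l : ℝ) =
        ∑ I ∈ V, (if q * (1 + 5 * I) ∣ 5 * l - 4 then (1 : ℝ) else 0) := by
      intro l _
      unfold NV
      rw [← sum_filter, sum_const, nsmul_eq_mul, mul_one]
    rw [sum_congr rfl e1, sum_comm]
    refine sum_congr rfl fun I _ => ?_
    rw [← sum_filter, sum_const, nsmul_eq_mul, mul_one]
  rw [h1, mul_sum]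
  apply sum_le_sum
  intro I hI
  obtain ⟨hI2, hI1⟩ := hV I hI
  set m := q * (1 + 5 * I) with hm
  have hm10 : m % 10 = 1 := by
    obtain ⟨c, hc⟩ := hI2
    have : (1 + 5 * I) % 10 = 1 := by omega
    rw [hm, Nat.mul_mod, hq, this]
  have hm1 : 1 ≤ m := by omega
  have hm0 : (0 : ℝ) < m := by exact_mod_cast hm1
  have hcop := rq5_coprime hm10
  rw [one_mul] at hcop
  have h2 := rough_ap J hJ m (rq5 m) X (2 * X) hm1 hcop
  have h3 : (Ioc X (2 * X)).filter (fun n => n ≡ rq5 m [MOD m] ∧ Rgh (2 ^ 2 ^ J) n) ⊆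
      (Ro (2 ^ 2 ^ J) X).filter (fun l => m ∣ 5 * l - 4) := by
    intro l hl
    rw [mem_filter, mem_Ioc] at hl
    unfold Ro
    rw [mem_filter, mem_filter, mem_Ioc]
    exact ⟨⟨hl.1, hl.2.2⟩, dvd_of_rq5 hm10 (by omega) hl.2.1⟩
  have h4 : (((Ioc X (2 * X)).filter (fun n => n ≡ rq5 m [MOD m] ∧ Rgh (2 ^ 2 ^ J) n)).card : ℝ) ≤
      (((Ro (2 ^ 2 ^ J) X).filter (fun l => m ∣ 5 * l - 4)).card : ℝ) := by
    exact_mod_cast card_le_card h3
  have h5 : ((((2 * X : ℕ) : ℝ) - X) / m - 2) * (δ / 2) - (2 : ℝ) ^ (60 * 2 ^ J) ≤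
      (((Ro (2 ^ 2 ^ J) X).filter (fun l => m ∣ 5 * l - 4)).card : ℝ) := by
    refine le_trans (h2.trans (le_of_eq ?_)) h4
    congr!
  refine le_trans ?_ h5
  have h8' := h8 I hI
  have hE' := hE I hI
  have e1 : (((2 * X : ℕ) : ℝ) - X) / m = X / m := by
    push_cast
    congr 1
    ring
  rw [e1]
  have e2 : 8 ≤ (X : ℝ) / m := by
    rw [le_div_iff₀ hm0]
    linarith
  have e3 : 16 * (2 : ℝ) ^ (60 * 2 ^ J) ≤ (X / m) * δ := by
    rw [div_mul_eq_mul_div, le_div_iff₀ hm0]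
    linarith
  have e4 : (X : ℝ) * δ / 24 * (1 / q) * (1 / I) ≤ (X / m) * δ / 4 := by
    have hI0 : (0 : ℝ) < I := by exact_mod_cast hI1
    have e5 : (m : ℝ) ≤ 6 * (q * I) := by
      rw [hm]
      push_cast
      have : (1 : ℝ) ≤ I := by exact_mod_cast hI1
      nlinarith
    calc (X : ℝ) * δ / 24 * (1 / q) * (1 / I) = (X * δ / 4) / (6 * (q * I)) := by
          field_simp
          norm_num
      _ ≤ (X * δ / 4) / m := by
          apply div_le_div_of_nonneg_left (by positivity) hm0 e5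
      _ = _ := by ring
  nlinarith

/-- many pairs -/
theorem pairs_many {ι : Type} (G : Finset ι) (q : ι → ℕ) (V : Finset ℕ) (X J : ℕ) (hJ : 1 ≤ J)
    (hX : 1 ≤ X) (hq : ∀ t ∈ G, q t % 10 = 1) (hV : ∀ I ∈ V, 2 ∣ I ∧ 1 ≤ I)
    (h8 : ∀ t ∈ G, ∀ I ∈ V, ((q t * (1 + 5 * I) : ℕ) : ℝ) * 8 ≤ X)
    (hE : ∀ t ∈ G, ∀ I ∈ V, ((q t * (1 + 5 * I) : ℕ) : ℝ) * (16 * 2 ^ (60 * 2 ^ J)) ≤
      X * Real.exp (-8) ^ J) :
    X * (Real.exp (-8) ^ J) ^ 2 * (∑ I ∈ V, (1 : ℝ) / I) ^ 2 * (∑ t ∈ G, (1 : ℝ) / q t) ≤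
      5760 * (1 + Real.log (10 * X)) ^ 3 * ∑ t ∈ G, ((LR V (2 ^ 2 ^ J) X (q t)).card : ℝ) := by
  classical
  set δ := Real.exp (-8) ^ J with hδ
  set σ := ∑ I ∈ V, (1 : ℝ) / I with hσ
  set S := ∑ t ∈ G, (1 : ℝ) / q t with hS
  set L := 1 + Real.log (10 * X) with hL
  set P := ∑ t ∈ G, ((LR V (2 ^ 2 ^ J) X (q t)).card : ℝ) with hP
  have hX0 : (0 : ℝ) < X := by exact_mod_cast hX
  have hXR : (1 : ℝ) ≤ X := by exact_mod_cast hX
  have hL0 : 0 < L := by
    have : 0 ≤ Real.log (10 * X) := Real.log_nonneg (by linarith)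
    linarith
  have hδ0 : 0 < δ := by positivity
  have hσ0 : 0 ≤ σ := sum_nonneg fun _ _ => by positivity
  have hS0 : 0 ≤ S := sum_nonneg fun _ _ => by positivity
  have hP0 : 0 ≤ P := sum_nonneg fun _ _ => by positivity
  set M1 := ∑ t ∈ G, ∑ l ∈ Ro (2 ^ 2 ^ J) X, (NV V (q t) l : ℝ) with hM1
  set M2 := ∑ t ∈ G, ∑ l ∈ Ro (2 ^ 2 ^ J) X, (NV V (q t) l : ℝ) ^ 2 with hM2
  have h1 : X * δ / 24 * σ * S ≤ M1 := by
    rw [hM1, hS, mul_sum]
    apply sum_le_sum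
    intro t ht
    have := NV_lower V (q t) X J hJ hX (hq t ht) hV (h8 t ht) (hE t ht)
    rw [← hδ, ← hσ] at this
    linarith
  have h2 : M2 ≤ 10 * X * L ^ 3 * S := by
    rw [hM2, hS, mul_sum]
    apply sum_le_sum
    intro t ht
    have hq1 : 1 ≤ q t := by
      have := hq t ht
      omega
    have h3 : ∑ l ∈ Ro (2 ^ 2 ^ J) X, (NV V (q t) l : ℝ) ^ 2 ≤
        ∑ l ∈ Ioc X (2 * X), (NV V (q t) l : ℝ) ^ 2 := by
      apply sum_le_sum_of_subset_of_nonneg
      · unfold Ro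
        exact filter_subset _ _
      · intro _ _ _
        positivity
    have h4 := NV_sq V (q t) X hq1 hX (fun I hI => by
      have h5 := h8 t ht I hI
      have h6 : ((1 + 5 * I : ℕ) : ℝ) ≤ ((q t * (1 + 5 * I) : ℕ) : ℝ) := by
        exact_mod_cast Nat.le_mul_of_pos_left _ hq1
      have h7 : ((1 + 5 * I : ℕ) : ℝ) ≤ ((10 * X : ℕ) : ℝ) := by
        push_cast at h5 h6 ⊢
        nlinarith
      exact_mod_cast h7)
    refine h3.trans (h4.trans (le_of_eq ?_))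
    rw [← hL]
    ring
  have h3 : M1 ^ 2 ≤ P * M2 := by
    have e1 : M1 = ∑ x ∈ G ×ˢ Ro (2 ^ 2 ^ J) X,
        (if 0 < NV V (q x.1) x.2 then (1 : ℝ) else 0) * (NV V (q x.1) x.2 : ℝ) := by
      rw [hM1, sum_product]
      refine sum_congr rfl fun t _ => sum_congr rfl fun l _ => ?_
      simp only
      rcases Nat.eq_zero_or_pos (NV V (q t) l) with h | h
      · rw [h]; simp
      · rw [if_pos h, one_mul]
    have e2 : P = ∑ x ∈ G ×ˢ Ro (2 ^ 2 ^ J) X,
        (if 0 < NV V (q x.1) x.2 then (1 : ℝ) else 0) ^ 2 := by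
      rw [hP, sum_product]
      refine sum_congr rfl fun t _ => ?_
      unfold LR
      rw [card_filter]
      push_cast
      refine sum_congr rfl fun l _ => ?_
      split_ifs <;> norm_num
    have e3 : M2 = ∑ x ∈ G ×ˢ Ro (2 ^ 2 ^ J) X, (NV V (q x.1) x.2 : ℝ) ^ 2 := by
      rw [hM2, sum_product]
    rw [e1, e2, e3]
    exact sum_mul_sq_le_sq_mul_sq (G ×ˢ Ro (2 ^ 2 ^ J) X)
      (fun x => if 0 < NV V (q x.1) x.2 then (1 : ℝ) else 0) (fun x => (NV V (q x.1) x.2 : ℝ))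
  clear_value M1 M2 P L S σ δ
  have h4 : (X * δ / 24 * σ * S) ^ 2 ≤ P * (10 * X * L ^ 3 * S) := by
    calc (X * δ / 24 * σ * S) ^ 2 ≤ M1 ^ 2 := by
          apply pow_le_pow_left₀ (by positivity) h1
      _ ≤ P * M2 := h3
      _ ≤ _ := mul_le_mul_of_nonneg_left h2 hP0
  rcases eq_or_lt_of_le hS0 with h5 | h5
  · rw [← h5, mul_zero]
    exact mul_nonneg (mul_nonneg (by norm_num) (pow_nonneg hL0.le 3)) hP0
  · have h6 : (X * S) * (X * δ ^ 2 * σ ^ 2 * S) ≤ (X * S) * (5760 * L ^ 3 * P) := by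
      have e1 : (X * S) * (X * δ ^ 2 * σ ^ 2 * S) = 576 * (X * δ / 24 * σ * S) ^ 2 := by ring
      have e2 : (X * S) * (5760 * L ^ 3 * P) = 576 * (P * (10 * X * L ^ 3 * S)) := by ring
      rw [e1, e2]
      linarith
    exact le_of_mul_le_mul_left h6 (by positivity)

end Run7.h499
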