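import Mathlib

set_option autoImplicit false

/-! # The second moment for a family of residue classes -/

namespace Run7.h499

open Finset

theorem card_class_le (Y N m v : ℕ) (hm : 1 ≤ m) :
    (((Ioc Y (Y + N)).filter (fun e => e ≡ v [MOD m])).card : ℝ) ≤ (N : ℝ) / m + 1 := by
  have h := Nat.Ioc_filter_modEq_card Y (Y + N) (show 0 < m by omega) v
  have h1 : (((((Ioc Y (Y + N)).filter (fun e => e ≡ v [MOD m])).card : ℤ)) : ℚ) ≤
      (N : ℚ) / m + 1 := by
    rw [h]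
    push_cast
    apply max_le
    · have e1 := Int.floor_le (((Y : ℚ) + N - v) / (m : ℚ))
      have e2 := Int.lt_floor_add_one (((Y : ℚ) - v) / (m : ℚ))
      have e3 : ((Y : ℚ) + N - v) / (m : ℚ) = ((Y : ℚ) - v) / m + N / m := by ring
      rw [e3] at e1 ⊢
      linarith
    · positivity
  have h2 : ((((((Ioc Y (Y + N)).filter (fun e => e ≡ v [MOD m])).card : ℤ)) : ℚ) : ℝ) ≤
      (((N : ℚ) / m + 1 : ℚ) : ℝ) := Rat.cast_le.2 h1
  push_cast at h2
  exact h2

theorem card_class_ge (Y N m v : ℕ) (hm : 1 ≤ m) :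
    (N : ℝ) / m - 1 ≤ (((Ioc Y (Y + N)).filter (fun e => e ≡ v [MOD m])).card : ℝ) := by
  have h := Nat.Ioc_filter_modEq_card Y (Y + N) (show 0 < m by omega) v
  have h1 : (N : ℚ) / m - 1 ≤
      (((((Ioc Y (Y + N)).filter (fun e => e ≡ v [MOD m])).card : ℤ)) : ℚ) := by
    rw [h]
    push_cast
    refine le_trans ?_ (le_max_left _ _)
    have e1 := Int.lt_floor_add_one (((Y : ℚ) + N - v) / (m : ℚ))
    have e2 := Int.floor_le (((Y : ℚ) - v) / (m : ℚ))
    have e3 : ((Y : ℚ) + N - v) / (m : ℚ) = ((Y : ℚ) - v) / m + N / m := by ring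
    rw [e3] at e1 ⊢
    linarith
  have h2 : (((N : ℚ) / m - 1 : ℚ) : ℝ) ≤
      ((((((Ioc Y (Y + N)).filter (fun e => e ≡ v [MOD m])).card : ℤ)) : ℚ) : ℝ) := Rat.cast_le.2 h1
  push_cast at h2
  exact h2

/-- pairwise congruent elements -/
theorem card_pairwise_le (F : Finset ℕ) (Y N m : ℕ) (hm : 1 ≤ m) (hF : F ⊆ Ioc Y (Y + N))
    (h : ∀ e ∈ F, ∀ e' ∈ F, e ≡ e' [MOD m]) : (F.card : ℝ) ≤ (N : ℝ) / m + 1 := by
  rcases F.eq_empty_or_nonempty with h1 | ⟨e0, he0⟩
  · rw [h1, card_empty, Nat.cast_zero]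
    positivity
  · refine le_trans ?_ (card_class_le Y N m e0 hm)
    have : F ⊆ (Ioc Y (Y + N)).filter (fun e => e ≡ e0 [MOD m]) := by
      intro e he
      rw [mem_filter]
      exact ⟨hF he, h e he e0 he0⟩
    exact_mod_cast card_le_card this

variable {α : Type}

/-- the second moment -/
theorem second_moment (P : Finset α) (l a : α → ℕ) (x : ℕ) (hl : ∀ j ∈ P, 1 ≤ l j) (G : ℝ)
    (hG : ∑ j ∈ P, ∑ j' ∈ P, (if Nat.gcd (l j) (l j') ≠ 1 ∧ a j ≡ a j' [MOD Nat.gcd (l j) (l j')]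
      then (Nat.gcd (l j) (l j') : ℝ) / ((l j : ℝ) * l j') else 0) ≤ G)
    (Bad : Finset ℕ) (hB : Bad ⊆ Ioc 0 x) (hB2 : ∀ e ∈ Bad, ∀ j ∈ P, ¬ e ≡ a j [MOD l j]) :
    (Bad.card : ℝ) * (∑ j ∈ P, (1 : ℝ) / l j) ^ 2 ≤
      x * G + (P.card : ℝ) ^ 2 + 2 * (∑ j ∈ P, (1 : ℝ) / l j) * P.card := by
  classical
  set μ := ∑ j ∈ P, (1 : ℝ) / l j with hμ
  have hμ0 : 0 ≤ μ := sum_nonneg fun _ _ => by positivity
  set R : ℕ → ℝ := fun e => ∑ j ∈ P, (if e ≡ a j [MOD l j] then (1 : ℝ) else 0) with hR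
  -- lower bound by the bad elements
  have h1 : (Bad.card : ℝ) * μ ^ 2 ≤ ∑ e ∈ Ioc 0 x, (R e - μ) ^ 2 := by
    calc (Bad.card : ℝ) * μ ^ 2 = ∑ e ∈ Bad, (R e - μ) ^ 2 := by
          rw [← nsmul_eq_mul, ← sum_const]
          refine sum_congr rfl fun e he => ?_
          have : R e = 0 := by
            rw [hR]
            simp only
            apply sum_eq_zero
            intro j hj
            rw [if_neg (hB2 e he j hj)]
          rw [this]
          ring
      _ ≤ _ := sum_le_sum_of_subset_of_nonneg hB (fun _ _ _ => sq_nonneg _)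
  -- the first moment
  have h2 : (x : ℝ) * μ - P.card ≤ ∑ e ∈ Ioc 0 x, R e := by
    rw [hR]
    simp only
    rw [sum_comm, hμ, mul_sum]
    have e1 : ∑ j ∈ P, ((x : ℝ) * (1 / l j)) - P.card = ∑ j ∈ P, ((x : ℝ) * (1 / l j) - 1) := by
      rw [sum_sub_distrib, sum_const, nsmul_eq_mul, mul_one]
    rw [e1]
    apply sum_le_sum
    intro j hj
    rw [← sum_filter, sum_const, nsmul_eq_mul, mul_one, mul_one_div]
    have := card_class_ge 0 x (l j) (a j) (hl j hj)
    rw [zero_add] at this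
    exact this
  -- the second moment
  have h3 : ∑ e ∈ Ioc 0 x, R e ^ 2 ≤ x * μ ^ 2 + (P.card : ℝ) ^ 2 + x * G := by
    have e1 : ∑ e ∈ Ioc 0 x, R e ^ 2 = ∑ j ∈ P, ∑ j' ∈ P,
        (((Ioc 0 x).filter (fun e => e ≡ a j [MOD l j] ∧ e ≡ a j' [MOD l j'])).card : ℝ) := by
      calc ∑ e ∈ Ioc 0 x, R e ^ 2 = ∑ e ∈ Ioc 0 x, ∑ j ∈ P, ∑ j' ∈ P,
            (if e ≡ a j [MOD l j] ∧ e ≡ a j' [MOD l j'] then (1 : ℝ) else 0) := by
            refine sum_congr rfl fun e _ => ?_
            rw [hR]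
            simp only
            rw [sq, sum_mul_sum]
            refine sum_congr rfl fun j _ => sum_congr rfl fun j' _ => ?_
            by_cases c1 : e ≡ a j [MOD l j] <;> by_cases c2 : e ≡ a j' [MOD l j'] <;>
              simp [c1, c2]
        _ = _ := by
            rw [sum_comm]
            refine sum_congr rfl fun j _ => ?_
            rw [sum_comm]
            refine sum_congr rfl fun j' _ => ?_
            rw [← sum_filter, sum_const, nsmul_eq_mul, mul_one]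
    rw [e1]
    have e2 : ∀ j ∈ P, ∀ j' ∈ P,
        (((Ioc 0 x).filter (fun e => e ≡ a j [MOD l j] ∧ e ≡ a j' [MOD l j'])).card : ℝ) ≤
        (x : ℝ) * ((1 / l j) * (1 / l j')) + 1 +
        x * (if Nat.gcd (l j) (l j') ≠ 1 ∧ a j ≡ a j' [MOD Nat.gcd (l j) (l j')]
          then (Nat.gcd (l j) (l j') : ℝ) / ((l j : ℝ) * l j') else 0) := by
      intro j hj j' hj'
      set F := (Ioc 0 x).filter (fun e => e ≡ a j [MOD l j] ∧ e ≡ a j' [MOD l j']) with hF
      have hl1 := hl j hj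
      have hl2 := hl j' hj'
      have hl1R : (0 : ℝ) < l j := by exact_mod_cast hl1
      have hl2R : (0 : ℝ) < l j' := by exact_mod_cast hl2
      rcases F.eq_empty_or_nonempty with hFe | ⟨e0, he0⟩
      · rw [hFe, card_empty, Nat.cast_zero]
        have : (0 : ℝ) ≤ (if Nat.gcd (l j) (l j') ≠ 1 ∧ a j ≡ a j' [MOD Nat.gcd (l j) (l j')]
          then (Nat.gcd (l j) (l j') : ℝ) / ((l j : ℝ) * l j') else 0) := by
          split_ifs <;> positivity
        positivity
      · have hlcm : 1 ≤ Nat.lcm (l j) (l j') := Nat.lcm_pos hl1 hl2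
        have hcard := card_pairwise_le F 0 x (Nat.lcm (l j) (l j')) hlcm (by
          rw [zero_add, hF]
          exact filter_subset _ _) (fun e he e' he' => by
            rw [hF, mem_filter] at he he'
            have c1 : e ≡ e' [MOD l j] := he.2.1.trans he'.2.1.symm
            have c2 : e ≡ e' [MOD l j'] := he.2.2.trans he'.2.2.symm
            exact Nat.modEq_iff_dvd.2 (Int.coe_lcm_dvd (Nat.modEq_iff_dvd.1 c1)
              (Nat.modEq_iff_dvd.1 c2)))
        have hg : ((Nat.gcd (l j) (l j') : ℕ) : ℝ) * ((Nat.lcm (l j) (l j') : ℕ) : ℝ) =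
            (l j : ℝ) * l j' := by
          exact_mod_cast Nat.gcd_mul_lcm (l j) (l j')
        have hlcmR : (0 : ℝ) < ((Nat.lcm (l j) (l j') : ℕ) : ℝ) := by exact_mod_cast hlcm
        have hdiv : (x : ℝ) / ((Nat.lcm (l j) (l j') : ℕ) : ℝ) =
            x * (((Nat.gcd (l j) (l j') : ℕ) : ℝ) / ((l j : ℝ) * l j')) := by
          rw [← hg]
          have hg0 : ((Nat.gcd (l j) (l j') : ℕ) : ℝ) ≠ 0 := by
            have : Nat.gcd (l j) (l j') ≠ 0 := by
              intro h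
              have := Nat.eq_zero_of_gcd_eq_zero_left h
              omega
            exact_mod_cast this
          field_simp
        rw [hdiv] at hcard
        by_cases hgcd : Nat.gcd (l j) (l j') = 1
        · rw [if_neg (fun h => h.1 hgcd), mul_zero, add_zero]
          rw [hgcd, Nat.cast_one] at hcard
          refine hcard.trans (le_of_eq ?_)
          field_simp
        · have hcomp : a j ≡ a j' [MOD Nat.gcd (l j) (l j')] := by
            rw [hF, mem_filter] at he0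
            have c1 := he0.2.1.of_dvd (Nat.gcd_dvd_left (l j) (l j'))
            have c2 := he0.2.2.of_dvd (Nat.gcd_dvd_right (l j) (l j'))
            exact c1.symm.trans c2
          rw [if_pos ⟨hgcd, hcomp⟩]
          have : (0 : ℝ) ≤ (x : ℝ) * ((1 / l j) * (1 / l j')) := by positivity
          linarith
    refine (sum_le_sum fun j hj => sum_le_sum fun j' hj' => e2 j hj j' hj').trans ?_
    simp only [sum_add_distrib, ← mul_sum]
    have e3 : ∑ j ∈ P, ∑ j' ∈ P, (1 : ℝ) = (P.card : ℝ) ^ 2 := by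
      simp only [sum_const, nsmul_eq_mul, mul_one]
      rw [sq]
    have e4 : ∑ i ∈ P, (1 : ℝ) / (l i) * ∑ i ∈ P, (1 : ℝ) / (l i) = μ ^ 2 := by
      rw [← sum_mul, ← hμ, sq]
    rw [e3, e4]
    have hx : (0 : ℝ) ≤ x := Nat.cast_nonneg _
    have := mul_le_mul_of_nonneg_left hG hx
    linarith
  -- conclusion
  have h4 : ∑ e ∈ Ioc 0 x, (R e - μ) ^ 2 =
      ∑ e ∈ Ioc 0 x, R e ^ 2 - 2 * μ * ∑ e ∈ Ioc 0 x, R e + x * μ ^ 2 := by
    have e1 : ∀ e ∈ Ioc 0 x, (R e - μ) ^ 2 = R e ^ 2 - 2 * μ * R e + μ ^ 2 := fun e _ => by ring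
    rw [sum_congr rfl e1, sum_add_distrib, sum_sub_distrib, ← mul_sum, sum_const, nsmul_eq_mul,
      Nat.card_Ioc, Nat.sub_zero]
  have h5 : 2 * μ * (x * μ - P.card) ≤ 2 * μ * ∑ e ∈ Ioc 0 x, R e :=
    mul_le_mul_of_nonneg_left h2 (by positivity)
  rw [h4] at h1
  nlinarith

end Run7.h499
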