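import Mathlib
import Pool.Agent.Run7.h499.SecMom
import Pool.Agent.Run7.h499.PairCount
import Pool.Agent.Run7.h499.Compat

set_option autoImplicit false

/-! # The number of exponents in none of the classes -/

namespace Run7.h499

open Finset

theorem lt_of_rgh {z d l : ℕ} (h : Rgh z l) (hl : l ≠ 0) (hd : d ∣ l) (h1 : d ≠ 1) : z < d := by
  by_contra hcon
  rcases Nat.eq_zero_or_pos d with h0 | h0
  · rw [h0, zero_dvd_iff] at hd
    exact hl hd
  · exact h d.minFac (Nat.minFac_prime h1) ((Nat.minFac_le h0).trans (not_lt.1 hcon))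
      ((Nat.minFac_dvd d).trans hd)

theorem gcd_sum (F : Finset ℕ) (q X z : ℕ)
    (hF : ∀ l ∈ F, (X < l ∧ l ≤ 2 * X) ∧ Rgh z l ∧ q ∣ 5 * l - 4) (hq : q % 10 = 1) (hqz : q ≤ z)
    (l : ℕ) (hl : l ∈ F) :
    ∑ l' ∈ F, (if Nat.gcd l l' ≠ 1 then (Nat.gcd l l' : ℝ) else 0) ≤
      2 * X + (3 * X / q) * (l.divisors.card : ℝ) := by
  classical
  have hq1 : 1 ≤ q := by omega
  have hq0 : (0 : ℝ) < q := by exact_mod_cast hq1
  obtain ⟨⟨hlX, hlX2⟩, hlz, hlq⟩ := hF l hl
  have hl0 : l ≠ 0 := by omega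
  have h1 : ∀ l' ∈ F, (if Nat.gcd l l' ≠ 1 then (Nat.gcd l l' : ℝ) else 0) ≤
      ∑ d ∈ l.divisors.erase 1, (if d ∣ l' then (d : ℝ) else 0) := by
    intro l' _
    split_ifs with h
    · have h2 : Nat.gcd l l' ∈ l.divisors.erase 1 := by
        rw [mem_erase, Nat.mem_divisors]
        exact ⟨h, Nat.gcd_dvd_left _ _, hl0⟩
      have h3 := single_le_sum (f := fun d : ℕ => if d ∣ l' then (d : ℝ) else 0)
        (fun d _ => by split_ifs <;> positivity) h2
      rw [if_pos (Nat.gcd_dvd_right _ _)] at h3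
      exact h3
    · exact sum_nonneg fun d _ => by split_ifs <;> positivity
  refine (sum_le_sum h1).trans ?_
  rw [sum_comm]
  have h2 : ∀ d ∈ l.divisors.erase 1, ∑ l' ∈ F, (if d ∣ l' then (d : ℝ) else 0) ≤
      3 * X / q + (if d = l then 2 * (X : ℝ) else 0) := by
    intro d hd
    rw [mem_erase, Nat.mem_divisors] at hd
    obtain ⟨hd1, hdl, _⟩ := hd
    rw [← sum_filter, sum_const, nsmul_eq_mul]
    by_cases hdl' : d = l
    · rw [if_pos hdl', hdl']
      have h3 : (F.filter (fun l' => l ∣ l')).card ≤ 1 := by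
        rw [card_le_one]
        intro a ha b hb
        rw [mem_filter] at ha hb
        have key : ∀ c ∈ F, l ∣ c → c = l := by
          intro c hc hlc
          obtain ⟨⟨_, hc2⟩, _, _⟩ := hF c hc
          obtain ⟨k, hk⟩ := hlc
          have hk1 : k < 2 := by
            by_contra hcon
            have : l * 2 ≤ l * k := Nat.mul_le_mul_left _ (not_lt.1 hcon)
            omega
          have hk0 : k ≠ 0 := by
            rintro rfl
            have := (hF c hc).1.1
            omega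
          have : k = 1 := by omega
          rw [hk, this, mul_one]
        rw [key a ha.1 ha.2, key b hb.1 hb.2]
      have h4 : ((F.filter (fun l' => l ∣ l')).card : ℝ) ≤ 1 := by exact_mod_cast h3
      have h5 : (l : ℝ) ≤ 2 * X := by exact_mod_cast hlX2
      have h6 : (0 : ℝ) ≤ 3 * X / q := by positivity
      have h7 : (0 : ℝ) ≤ l := Nat.cast_nonneg _
      nlinarith
    · rw [if_neg hdl', add_zero]
      obtain ⟨k, hk⟩ := hdl
      have hk1 : k ≠ 1 := by
        rintro rfl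
        rw [mul_one] at hk
        exact hdl' hk.symm
      have hzk : z < k := lt_of_rgh hlz hl0 (Dvd.intro_left d hk.symm) hk1
      have hd0 : 0 < d := by
        rcases Nat.eq_zero_or_pos d with h | h
        · rw [h, zero_mul] at hk
          omega
        · exact h
      have hdq : d * q ≤ 2 * X := by
        calc d * q ≤ d * k := Nat.mul_le_mul_left _ (by omega)
          _ = l := hk.symm
          _ ≤ 2 * X := hlX2
      have hcop : Nat.Coprime d q := by
        apply Nat.coprime_of_dvd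
        intro p hp hpd hpq
        have e1 : p ∣ l := hpd.trans (Dvd.intro _ hk.symm)
        have e2 : p ∣ 5 * l - 4 := hpq.trans hlq
        have e3 : p ∣ 5 * l := e1.mul_left 5
        have e4 : p ∣ 4 := by
          have e5 := Nat.dvd_sub e3 e2
          have e6 : 5 * l - (5 * l - 4) = 4 := by omega
          rwa [e6] at e5
        have e5 : p = 2 := by
          have e6 : p ∣ 2 ^ 2 := by
            rw [show (2 : ℕ) ^ 2 = 4 by norm_num]
            exact e4
          exact (Nat.prime_dvd_prime_iff_eq hp Nat.prime_two).1 (hp.dvd_of_dvd_pow e6)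
        rw [e5] at hpq
        omega
      have h5q : Nat.gcd q 5 = 1 := by
        rw [Nat.gcd_comm]
        have : Nat.Coprime 5 q := (Nat.Prime.coprime_iff_not_dvd (by norm_num)).2 (by omega)
        exact this
      have hcard := card_pairwise_le (F.filter (fun l' => d ∣ l')) X X (d * q)
        (Nat.mul_pos hd0 hq1) (by
          intro c hc
          rw [mem_filter] at hc
          obtain ⟨⟨c1, c2⟩, _, _⟩ := hF c hc.1
          rw [mem_Ioc]
          omega) (by
          intro c hc c' hc'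
          rw [mem_filter] at hc hc'
          rw [← Nat.modEq_and_modEq_iff_modEq_mul hcop]
          constructor
          · exact (Nat.modEq_zero_iff_dvd.2 hc.2).trans (Nat.modEq_zero_iff_dvd.2 hc'.2).symm
          · obtain ⟨⟨c1, _⟩, _, c3⟩ := hF c hc.1
            obtain ⟨⟨c1', _⟩, _, c3'⟩ := hF c' hc'.1
            have e1 : 5 * c ≡ 4 [MOD q] := ((Nat.modEq_iff_dvd' (by omega)).2 c3).symm
            have e2 : 5 * c' ≡ 4 [MOD q] := ((Nat.modEq_iff_dvd' (by omega)).2 c3').symm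
            exact Nat.ModEq.cancel_left_of_coprime h5q (e1.trans e2.symm))
      have hd0R : (0 : ℝ) < d := by exact_mod_cast hd0
      have hdqR : (d : ℝ) * q ≤ 2 * X := by exact_mod_cast hdq
      push_cast at hcard
      calc ((F.filter (fun l' => d ∣ l')).card : ℝ) * d ≤ ((X : ℝ) / (d * q) + 1) * d := by gcongr
        _ = X / q + d := by field_simp
        _ ≤ X / q + 2 * X / q := by
            have : (d : ℝ) ≤ 2 * X / q := by
              rw [le_div_iff₀ hq0]
              exact hdqR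
            linarith
        _ = 3 * X / q := by ring
  refine (sum_le_sum h2).trans ?_
  rw [sum_add_distrib, sum_const, nsmul_eq_mul]
  have h3 : ∑ d ∈ l.divisors.erase 1, (if d = l then 2 * (X : ℝ) else 0) ≤ 2 * X := by
    rw [sum_ite_eq']
    split_ifs
    · exact le_rfl
    · positivity
  have h4 : ((l.divisors.erase 1).card : ℝ) ≤ (l.divisors.card : ℝ) := by
    exact_mod_cast card_le_card (erase_subset _ _)
  have h5 : (0 : ℝ) ≤ 3 * X / q := by positivity
  have h6 := mul_le_mul_of_nonneg_right h4 h5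
  linarith

section

variable {r K B : ℕ} {b : ℕ → ℕ} (D : Data r K B b) {T X z x : ℕ} (V : Finset ℕ)

include D

theorem mem_TL_of {l : ℕ} (hl : 1 ≤ l) {t : Fin r → ℕ} (ht : t ∈ GT K (bT b r) (yT r T))
    (h : qT K b t ∣ 5 * l - 4) : t ∈ TL r K b l T := by
  unfold TL
  rw [mem_filter]
  refine ⟨ht, ?_⟩
  have hm := qT_mod b (fun j h1 h2 => (D.res j h1 h2).2.2.2) D.ten t
  have h5q : Nat.gcd (qT K b t) 5 = 1 := by
    rw [Nat.gcd_comm]
    have : Nat.Coprime 5 (qT K b t) := (Nat.Prime.coprime_iff_not_dvd (by norm_num)).2 (by omega)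
    exact this
  have e1 : 5 * l ≡ 4 [MOD qT K b t] := ((Nat.modEq_iff_dvd' (by omega)).2 h).symm
  have e2 : 5 * rq5 (qT K b t) = qT K b t + 4 := by
    unfold rq5
    omega
  have e3 : 5 * rq5 (qT K b t) ≡ 4 [MOD qT K b t] := by
    rw [e2]
    exact Nat.add_modEq_left
  exact Nat.ModEq.cancel_left_of_coprime h5q (e1.trans e3.symm)

omit D in
theorem mem_LR {l q : ℕ} (h : l ∈ LR V z X q) : (X < l ∧ l ≤ 2 * X) ∧ Rgh z l ∧ q ∣ 5 * l - 4 := by
  classical
  unfold LR Ro at h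
  rw [mem_filter, mem_filter, mem_Ioc] at h
  refine ⟨h.1.1, h.1.2, ?_⟩
  obtain ⟨I, hI⟩ := card_pos.1 h.2
  rw [mem_filter] at hI
  exact (Nat.dvd_mul_right _ _).trans hI.2

theorem gcd_total (hBT : B ≤ T) (hT : 4 * K ≤ T) (hX : 1 ≤ X) (hz : 7 ≤ z)
    (hq : ∀ t ∈ GT K (bT b r) (yT r T), ∀ t' ∈ GT K (bT b r) (yT r T),
      7 ^ r * (qT K b t * qT K b t') ≤ z) :
    ∑ j ∈ (GT K (bT b r) (yT r T)).sigma (fun t => LR V z X (qT K b t)),
      ∑ j' ∈ (GT K (bT b r) (yT r T)).sigma (fun t => LR V z X (qT K b t)),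
      (if Nat.gcd j.2 j'.2 ≠ 1 ∧ RR (vU r K b j.2 j.1) (r + 1) ≡ RR (vU r K b j'.2 j'.1) (r + 1)
        [MOD Nat.gcd j.2 j'.2] then (Nat.gcd j.2 j'.2 : ℝ) / ((j.2 : ℝ) * j'.2) else 0) ≤
    2 * (∑ t ∈ GT K (bT b r) (yT r T), ((LR V z X (qT K b t)).card : ℝ)) / X +
      6 * (∑ t ∈ GT K (bT b r) (yT r T), (1 : ℝ) / qT K b t) * (1 + Real.log (2 * X)) := by
  classical
  have hX0 : (0 : ℝ) < X := by exact_mod_cast hX
  set GG' := GT K (bT b r) (yT r T) with hGG
  rw [sum_sigma]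
  have hq10 : ∀ t ∈ GG', qT K b t % 10 = 1 := fun t _ =>
    qT_mod b (fun j h1 h2 => (D.res j h1 h2).2.2.2) D.ten t
  have hqz : ∀ t ∈ GG', qT K b t ≤ z := by
    intro t ht
    refine le_trans ?_ (hq t ht t ht)
    have h1 : 1 ≤ qT K b t := by
      have := hq10 t ht
      omega
    calc qT K b t = 1 * (qT K b t * 1) := by ring
      _ ≤ 7 ^ r * (qT K b t * qT K b t) :=
        Nat.mul_le_mul (Nat.one_le_pow _ _ (by norm_num)) (Nat.mul_le_mul_left _ h1)
  have h1 : ∀ t ∈ GG', ∀ l ∈ LR V z X (qT K b t),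
      ∑ j' ∈ GG'.sigma (fun t => LR V z X (qT K b t)),
      (if Nat.gcd l j'.2 ≠ 1 ∧ RR (vU r K b l t) (r + 1) ≡ RR (vU r K b j'.2 j'.1) (r + 1)
        [MOD Nat.gcd l j'.2] then (Nat.gcd l j'.2 : ℝ) / ((l : ℝ) * j'.2) else 0) ≤
      (1 / ((X : ℝ) * X)) * (2 * X + (3 * X / (qT K b t)) * (l.divisors.card : ℝ)) := by
    intro t ht l hl
    obtain ⟨⟨hlX, hlX2⟩, hlz, hlq⟩ := mem_LR V hl
    rw [sum_sigma]
    have h2 : ∀ t' ∈ GG', t' ≠ t → ∑ l' ∈ LR V z X (qT K b t'),
        (if Nat.gcd l l' ≠ 1 ∧ RR (vU r K b l t) (r + 1) ≡ RR (vU r K b l' t') (r + 1)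
        [MOD Nat.gcd l l'] then (Nat.gcd l l' : ℝ) / ((l : ℝ) * l') else 0) = 0 := by
      intro t' ht' hne
      apply sum_eq_zero
      intro l' hl'
      obtain ⟨⟨hlX', hlX2'⟩, hlz', hlq'⟩ := mem_LR V hl'
      rw [if_neg]
      rintro ⟨hg1, hmod⟩
      apply hne
      symm
      have hzd : z < Nat.gcd l l' := lt_of_rgh hlz (by omega) (Nat.gcd_dvd_left _ _) hg1
      have hodd : ∀ n : ℕ, Rgh z n → n % 2 = 1 := by
        intro n hn
        have := hn 2 Nat.prime_two (by omega)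
        omega
      have h84 : (Nat.gcd l l').Coprime 84 := by
        rw [show 84 = 2 ^ 2 * (3 * 7) by norm_num]
        have hp : ∀ p : ℕ, p.Prime → p ≤ 7 → (Nat.gcd l l').Coprime p := by
          intro p hp hp7
          rw [Nat.coprime_comm, Nat.Prime.coprime_iff_not_dvd hp]
          intro h
          exact hlz p hp (by omega) (h.trans (Nat.gcd_dvd_left _ _))
        exact Nat.Coprime.mul_right ((hp 2 (by norm_num) (by norm_num)).pow_right 2)
          (Nat.Coprime.mul_right (hp 3 (by norm_num) (by norm_num))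
            (hp 7 (by norm_num) (by norm_num)))
      exact compat D (hodd l hlz) (by omega) (hodd l' hlz') (by omega) hBT hT
        (mem_TL_of D (by omega) ht hlq) (mem_TL_of D (by omega) ht' hlq')
        (Nat.gcd_dvd_left _ _) (Nat.gcd_dvd_right _ _) h84 hmod
        (lt_of_le_of_lt (hq t ht t' ht') hzd)
    simp only
    rw [sum_eq_single_of_mem t ht h2]
    have h3 : ∀ l' ∈ LR V z X (qT K b t),
        (if Nat.gcd l l' ≠ 1 ∧ RR (vU r K b l t) (r + 1) ≡ RR (vU r K b l' t) (r + 1)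
        [MOD Nat.gcd l l'] then (Nat.gcd l l' : ℝ) / ((l : ℝ) * l') else 0) ≤
        (1 / ((X : ℝ) * X)) * (if Nat.gcd l l' ≠ 1 then (Nat.gcd l l' : ℝ) else 0) := by
      intro l' hl'
      obtain ⟨⟨hlX', hlX2'⟩, hlz', hlq'⟩ := mem_LR V hl'
      by_cases hg : Nat.gcd l l' ≠ 1
      · rw [if_pos hg]
        have e1 : (Nat.gcd l l' : ℝ) / ((l : ℝ) * l') ≤ (1 / ((X : ℝ) * X)) * (Nat.gcd l l' : ℝ) := by
          rw [one_div_mul_eq_div]
          apply div_le_div_of_nonneg_left (Nat.cast_nonneg _) (by positivity)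
          have a1 : (X : ℝ) ≤ l := by exact_mod_cast hlX.le
          have a2 : (X : ℝ) ≤ l' := by exact_mod_cast hlX'.le
          exact mul_le_mul a1 a2 hX0.le (hX0.le.trans a1)
        split_ifs
        · exact e1
        · positivity
      · rw [if_neg (fun h => hg h.1), if_neg hg, mul_zero]
    refine (sum_le_sum h3).trans ?_
    rw [← mul_sum]
    apply mul_le_mul_of_nonneg_left _ (by positivity)
    exact gcd_sum (LR V z X (qT K b t)) (qT K b t) X z (fun l' hl' => mem_LR V hl') (hq10 t ht)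
      (hqz t ht) l hl
  refine (sum_le_sum fun t ht => sum_le_sum fun l hl => h1 t ht l hl).trans ?_
  have h2 : ∀ t ∈ GG', ∑ l ∈ LR V z X (qT K b t),
      (1 / ((X : ℝ) * X)) * (2 * X + (3 * X / (qT K b t)) * (l.divisors.card : ℝ)) ≤
      2 * ((LR V z X (qT K b t)).card : ℝ) / X + 6 * (1 / (qT K b t : ℝ)) * (1 + Real.log (2 * X)) := by
    intro t ht
    have hq1 : (0 : ℝ) < qT K b t := by
      have := hq10 t ht
      have h3 : 0 < qT K b t := by omega
      exact_mod_cast h3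
    rw [← mul_sum, sum_add_distrib, sum_const, nsmul_eq_mul, ← mul_sum]
    have h3 : ∑ l ∈ LR V z X (qT K b t), (l.divisors.card : ℝ) ≤
        (2 * X) * (1 + Real.log (2 * X)) := by
      have h4 := sum_tau_le (2 * X)
      push_cast at h4
      refine le_trans ?_ h4
      apply sum_le_sum_of_subset_of_nonneg
      · intro l hl
        obtain ⟨⟨hlX, hlX2⟩, _, _⟩ := mem_LR V hl
        rw [mem_Icc]
        omega
      · intro _ _ _
        positivity
    have h4 : (0 : ℝ) ≤ 3 * X / (qT K b t) := by positivity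
    have h5 := mul_le_mul_of_nonneg_left h3 h4
    calc (1 / ((X : ℝ) * X)) * (((LR V z X (qT K b t)).card : ℝ) * (2 * X) +
          3 * X / (qT K b t) * ∑ l ∈ LR V z X (qT K b t), (l.divisors.card : ℝ))
        ≤ (1 / ((X : ℝ) * X)) * (((LR V z X (qT K b t)).card : ℝ) * (2 * X) +
          3 * X / (qT K b t) * ((2 * X) * (1 + Real.log (2 * X)))) := by
          apply mul_le_mul_of_nonneg_left _ (by positivity)
          linarith
      _ = _ := by
          field_simp
          ring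
  refine (sum_le_sum h2).trans (le_of_eq ?_)
  rw [sum_add_distrib, ← sum_div, ← mul_sum, ← sum_mul, ← mul_sum]

/-- the number of exceptions -/
theorem bad_count (hBT : B ≤ T) (hT : 4 * K ≤ T) (hX : 1 ≤ X) (hz : 7 ≤ z)
    (hq : ∀ t ∈ GT K (bT b r) (yT r T), ∀ t' ∈ GT K (bT b r) (yT r T),
      7 ^ r * (qT K b t * qT K b t') ≤ z) (Bad : Finset ℕ) (hB : Bad ⊆ Ioc 0 x)
    (hBad : ∀ e ∈ Bad, ∀ t ∈ GT K (bT b r) (yT r T), ∀ l ∈ LR V z X (qT K b t),
      ¬ e ≡ RR (vU r K b l t) (r + 1) [MOD l]) (μ0 : ℝ) (hμ0 : 0 < μ0)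
    (hμ : 2 * X * μ0 ≤ ∑ t ∈ GT K (bT b r) (yT r T), ((LR V z X (qT K b t)).card : ℝ)) :
    (Bad.card : ℝ) ≤ x * (4 / μ0 + 6 * (∑ t ∈ GT K (bT b r) (yT r T), (1 : ℝ) / qT K b t) *
      (1 + Real.log (2 * X)) / μ0 ^ 2) + 4 * X ^ 2 + 4 * X := by
  classical
  have hX0 : (0 : ℝ) < X := by exact_mod_cast hX
  have hXR : (1 : ℝ) ≤ X := by exact_mod_cast hX
  set GG' := GT K (bT b r) (yT r T) with hGG
  set S := ∑ t ∈ GG', (1 : ℝ) / qT K b t with hS
  set N := ∑ t ∈ GG', ((LR V z X (qT K b t)).card : ℝ) with hN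
  set P := GG'.sigma (fun t => LR V z X (qT K b t)) with hP
  have hPc : (P.card : ℝ) = N := by
    rw [hP, card_sigma, hN]
    push_cast
    rfl
  have hmem : ∀ j ∈ P, (X < j.2 ∧ j.2 ≤ 2 * X) := by
    intro j hj
    rw [hP, mem_sigma] at hj
    exact (mem_LR V hj.2).1
  have hG := gcd_total D V hBT hT hX hz hq
  rw [← hGG, ← hS, ← hN, ← hP] at hG
  have hmain := second_moment P (fun j => j.2) (fun j => RR (vU r K b j.2 j.1) (r + 1)) x
    (fun j hj => by
      have := (hmem j hj).1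
      omega) _ hG Bad hB (fun e he j hj => by
      rw [hP, mem_sigma] at hj
      exact hBad e he j.1 hj.1 j.2 hj.2)
  set μ := ∑ j ∈ P, (1 : ℝ) / (j.2 : ℝ) with hμdef
  rw [hPc] at hmain
  have hNμ : N ≤ 2 * X * μ := by
    rw [← hPc, hμdef, mul_sum]
    have : (P.card : ℝ) = ∑ j ∈ P, (1 : ℝ) := by rw [sum_const, nsmul_eq_mul, mul_one]
    rw [this]
    apply sum_le_sum
    intro j hj
    have h1 : (0 : ℝ) < j.2 := by
      have := (hmem j hj).1
      have h2 : 0 < j.2 := by omega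
      exact_mod_cast h2
    have h3 : (j.2 : ℝ) ≤ 2 * X := by exact_mod_cast (hmem j hj).2
    rw [mul_one_div, le_div_iff₀ h1]
    linarith
  have hμ1 : μ0 ≤ μ := by
    have h1 : 2 * X * μ0 ≤ 2 * X * μ := hμ.trans hNμ
    exact le_of_mul_le_mul_left h1 (by positivity)
  have hμ2 : 0 < μ := lt_of_lt_of_le hμ0 hμ1
  have hN0 : 0 ≤ N := by
    rw [← hPc]
    positivity
  have hS0 : 0 ≤ S := sum_nonneg fun _ _ => by positivity
  have hL0 : 0 ≤ Real.log (2 * X) := Real.log_nonneg (by linarith)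
  have hx0 : (0 : ℝ) ≤ x := Nat.cast_nonneg _
  set L := 1 + Real.log (2 * X) with hL
  have hLp : 0 ≤ L := by rw [hL]; linarith
  clear_value L μ N S
  have h1 : (Bad.card : ℝ) * μ ^ 2 ≤ x * (4 * μ + 6 * S * L) + (4 * X ^ 2 + 4 * X) * μ ^ 2 := by
    have e1 : 2 * N / X ≤ 4 * μ := by
      rw [div_le_iff₀ hX0]
      linarith
    have e2 : N ^ 2 ≤ (2 * X * μ) ^ 2 := pow_le_pow_left₀ hN0 hNμ 2
    have e3 : 2 * μ * N ≤ 2 * μ * (2 * X * μ) := mul_le_mul_of_nonneg_left hNμ (by positivity)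
    have e4 : x * (2 * N / X + 6 * S * L) ≤ x * (4 * μ + 6 * S * L) :=
      mul_le_mul_of_nonneg_left (by linarith) hx0
    calc (Bad.card : ℝ) * μ ^ 2 ≤ x * (2 * N / X + 6 * S * L) + N ^ 2 + 2 * μ * N := hmain
      _ ≤ x * (4 * μ + 6 * S * L) + (2 * X * μ) ^ 2 + 2 * μ * (2 * X * μ) := by linarith
      _ = _ := by ring
  have h2 : (Bad.card : ℝ) ≤ x * (4 / μ + 6 * S * L / μ ^ 2) + (4 * X ^ 2 + 4 * X) := by
    have e1 : (x * (4 / μ + 6 * S * L / μ ^ 2) + (4 * (X : ℝ) ^ 2 + 4 * X)) * μ ^ 2 =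
        x * (4 * μ + 6 * S * L) + (4 * X ^ 2 + 4 * X) * μ ^ 2 := by
      field_simp
    have e2 : (Bad.card : ℝ) * μ ^ 2 ≤
        (x * (4 / μ + 6 * S * L / μ ^ 2) + (4 * (X : ℝ) ^ 2 + 4 * X)) * μ ^ 2 := by
      rw [e1]
      exact h1
    exact le_of_mul_le_mul_right e2 (by positivity)
  have h3 : x * (4 / μ + 6 * S * L / μ ^ 2) ≤ x * (4 / μ0 + 6 * S * L / μ0 ^ 2) := by
    apply mul_le_mul_of_nonneg_left _ hx0
    apply add_le_add
    · exact div_le_div_of_nonneg_left (by norm_num) hμ0 hμ1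
    · apply div_le_div_of_nonneg_left (by positivity) (by positivity)
      exact pow_le_pow_left₀ hμ0.le hμ1 2
  linarith

end

end Run7.h499
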