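import Mathlib
import Pool.Agent.H323R2.NT1

set_option autoImplicit false

/-! # Mean number of roots modulo primes -/

namespace Run7.h499

open Polynomial NumberField Module Filter Topology

/-- homomorphisms of the ring of integers to a prime field and roots -/
theorem card_hom (f : ℤ[X]) (hf : f.Monic) (hirr : Irreducible f) (K : Type)
    [Field K] [NumberField K] (θ : K) (hθ : aeval θ f = 0)
    (hgen : ∀ x : K, ∃ g : ℚ[X], x = aeval θ g) :
    ∃ m : ℤ, m ≠ 0 ∧ ∀ p : ℕ, p.Prime → ¬ (p : ℤ) ∣ m →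
      Nat.card (𝓞 K →+* ZMod p) =
        Nat.card {a : ZMod p // (f.map (Int.castRingHom (ZMod p))).eval a = 0} := by
  obtain ⟨m, hm, hidx⟩ := Pool.Agent.H323R2.NT.exists_index K θ hgen
  refine ⟨m, hm, fun p hp hpm => ?_⟩
  have : Fact p.Prime := ⟨hp⟩
  have hθint : IsIntegral ℤ θ := ⟨f, hf, by rwa [aeval_def] at hθ⟩
  set θ' : 𝓞 K := ⟨θ, hθint⟩ with hθ'
  have hθ'K : (θ' : K) = θ := rfl
  choose g hg using hidx
  have hm0 : (m : ZMod p) ≠ 0 := by
    rw [Ne, ZMod.intCast_zmod_eq_zero_iff_dvd]; exact hpm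
  -- evaluation of homomorphisms
  have hhom : ∀ (φ : 𝓞 K →+* ZMod p) (h : ℤ[X]), φ (aeval θ' h) =
      eval₂ (Int.castRingHom (ZMod p)) (φ θ') h := by
    intro φ h
    rw [aeval_def, hom_eval₂]
    congr 1
    exact RingHom.ext_int _ _
  have hroot : ∀ φ : 𝓞 K →+* ZMod p,
      (f.map (Int.castRingHom (ZMod p))).eval (φ θ') = 0 := by
    intro φ
    rw [eval_map, ← hhom]
    have h1 : aeval θ' f = 0 := by
      apply FaithfulSMul.algebraMap_injective (𝓞 K) K
      have h2 : algebraMap (𝓞 K) K (aeval θ' f) = aeval (algebraMap (𝓞 K) K θ') f :=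
        (aeval_algebraMap_apply K θ' f).symm
      have h3 : algebraMap (𝓞 K) K θ' = θ := rfl
      rw [h3, hθ] at h2
      rw [map_zero]
      exact h2
    rw [h1, map_zero]
  apply Nat.card_congr
  refine Equiv.ofBijective (fun φ => ⟨φ θ', hroot φ⟩) ⟨?_, ?_⟩
  · intro φ ψ h
    have h1 : φ θ' = ψ θ' := by
      have := congrArg Subtype.val h
      exact this
    ext α
    have h2 : (m : 𝓞 K) * α = aeval θ' (g α) := by
      apply FaithfulSMul.algebraMap_injective (𝓞 K) K
      have h5 : algebraMap (𝓞 K) K (aeval θ' (g α)) = aeval (algebraMap (𝓞 K) K θ') (g α) :=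
        (aeval_algebraMap_apply K θ' (g α)).symm
      have h6 : algebraMap (𝓞 K) K θ' = θ := rfl
      rw [h6, ← hg α] at h5
      rw [h5, map_mul, map_intCast]
    have h3 : ∀ χ : 𝓞 K →+* ZMod p, (m : ZMod p) * χ α =
        eval₂ (Int.castRingHom (ZMod p)) (χ θ') (g α) := by
      intro χ
      rw [← hhom, ← h2, map_mul, map_intCast]
    have h4 := h3 φ
    rw [h1, ← h3 ψ] at h4
    exact mul_left_cancel₀ hm0 h4
  · rintro ⟨a, ha⟩
    set ev : ℤ[X] →+* ZMod p := eval₂RingHom (Int.castRingHom (ZMod p)) a with hev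
    have hevf : ev f = 0 := by
      rw [hev, coe_eval₂RingHom, ← eval_map]; exact ha
    have key : ∀ h1 h2 : ℤ[X], aeval θ h1 = aeval θ h2 → ev h1 = ev h2 := by
      intro h1 h2 h
      obtain ⟨r, hr⟩ := Pool.Agent.H323R2.NT.dvd_of_aeval f hirr hf K θ hθ (h1 - h2)
        (by rw [map_sub, h, sub_self])
      have h3 : ev (h1 - h2) = 0 := by rw [hr, map_mul, hevf, zero_mul]
      rw [map_sub] at h3
      exact sub_eq_zero.1 h3
    have hevC : ∀ c : ℤ, ev (C c) = (c : ZMod p) := by
      intro c; rw [hev, coe_eval₂RingHom, eval₂_C]; rfl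
    have hone : ev (g 1) = (m : ZMod p) := by
      rw [← hevC]
      apply key
      rw [← hg, aeval_C]; simp
    have hmul : ∀ α β : 𝓞 K, (m : ZMod p) * ev (g (α * β)) = ev (g α) * ev (g β) := by
      intro α β
      rw [← hevC, ← map_mul, ← map_mul]
      apply key
      rw [map_mul, map_mul, ← hg, ← hg, ← hg, aeval_C]
      have h0 : ((α * β : 𝓞 K) : K) = (α : K) * (β : K) := rfl
      rw [h0]
      simp only [algebraMap_int_eq, eq_intCast]
      ring
    have hadd : ∀ α β : 𝓞 K, ev (g (α + β)) = ev (g α) + ev (g β) := by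
      intro α β
      rw [← map_add]
      apply key
      rw [map_add, ← hg, ← hg, ← hg]
      have h0 : ((α + β : 𝓞 K) : K) = (α : K) + (β : K) := rfl
      rw [h0]
      ring
    have hzero : ev (g 0) = 0 := by
      have := hadd 0 0
      rw [add_zero] at this
      exact left_eq_add.1 this
    have hθg : ev (g θ') = (m : ZMod p) * a := by
      have h1 : ev (C m * X) = (m : ZMod p) * a := by
        rw [map_mul, hevC, hev, coe_eval₂RingHom, eval₂_X]
      rw [← h1]
      apply key
      rw [← hg θ', map_mul, aeval_C, aeval_X, hθ'K]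
      simp
    refine ⟨⟨⟨⟨fun α => (m : ZMod p)⁻¹ * ev (g α), ?_⟩, ?_⟩, ?_, ?_⟩, ?_⟩
    · rw [hone, inv_mul_cancel₀ hm0]
    · intro α β
      simp only
      have h := hmul α β
      have h2 : ev (g (α * β)) = (m : ZMod p)⁻¹ * (ev (g α) * ev (g β)) := by
        rw [← h, inv_mul_cancel_left₀ hm0]
      rw [h2]; ring
    · simp only
      rw [hzero, mul_zero]
    · intro α β
      simp only
      rw [hadd]; ring
    · apply Subtype.ext
      change (m : ZMod p)⁻¹ * ev (g θ') = a
      rw [hθg, inv_mul_cancel_left₀ hm0]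

/-- the mean value over the primes -/
def Mean (f : ℕ → ℝ) (a : ℝ) : Prop :=
  Tendsto (fun N : ℕ => (∑ p ∈ (Finset.range (N + 1)).filter Nat.Prime, f p) /
    (Nat.primeCounting N : ℝ)) atTop (𝓝 a)

theorem pc_tendsto : Tendsto (fun N : ℕ => (Nat.primeCounting N : ℝ)) atTop atTop :=
  tendsto_natCast_atTop_atTop.comp Nat.tendsto_primeCounting

theorem Mean.congr {f g : ℕ → ℝ} {a : ℝ} (h : Mean f a) (M : ℕ)
    (hfg : ∀ p : ℕ, p.Prime → M < p → f p = g p) : Mean g a := by
  set C : ℝ := ∑ p ∈ (Finset.range (M + 1)).filter Nat.Prime, (g p - f p) with hC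
  have h1 : Tendsto (fun N : ℕ => C / (Nat.primeCounting N : ℝ)) atTop (𝓝 0) :=
    tendsto_const_nhds.div_atTop pc_tendsto
  have h2 := Tendsto.add h h1
  rw [add_zero] at h2
  refine h2.congr' ?_
  filter_upwards [eventually_ge_atTop M] with N hN
  rw [← add_div]
  congr 1
  have h3 : ∑ p ∈ (Finset.range (N + 1)).filter Nat.Prime, (g p - f p) = C := by
    rw [hC]
    symm
    apply Finset.sum_subset
    · apply Finset.filter_subset_filter
      exact Finset.range_subset_range.2 (by omega)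
    · intro p hp hp'
      rw [Finset.mem_filter, Finset.mem_range] at hp hp'
      have : M < p := by
        by_contra hcon
        exact hp' ⟨by omega, hp.2⟩
      rw [hfg p hp.2 this, sub_self]
  rw [← h3, Finset.sum_sub_distrib]
  ring

theorem Mean.add {f g : ℕ → ℝ} {a b : ℝ} (hf : Mean f a) (hg : Mean g b) :
    Mean (fun p => f p + g p) (a + b) := by
  refine (Tendsto.add hf hg).congr fun N => ?_
  rw [Finset.sum_add_distrib, add_div]

theorem Mean.const_mul {f : ℕ → ℝ} {a : ℝ} (hf : Mean f a) (c : ℝ) :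
    Mean (fun p => c * f p) (c * a) := by
  refine (Tendsto.const_mul c hf).congr fun N => ?_
  rw [← Finset.mul_sum, mul_div_assoc]

theorem Mean.sub {f g : ℕ → ℝ} {a b : ℝ} (hf : Mean f a) (hg : Mean g b) :
    Mean (fun p => f p - g p) (a - b) := by
  refine (Tendsto.sub hf hg).congr fun N => ?_
  rw [Finset.sum_sub_distrib, sub_div]

theorem Mean.sum {ι : Type*} (T : Finset ι) (f : ι → ℕ → ℝ) (a : ι → ℝ)
    (h : ∀ i ∈ T, Mean (f i) (a i)) : Mean (fun p => ∑ i ∈ T, f i p) (∑ i ∈ T, a i) := by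
  refine (tendsto_finsetSum T h).congr fun N => ?_
  rw [Finset.sum_comm, Finset.sum_div]

theorem mean_one : Mean (fun _ => 1) 1 := by
  have h : ∀ᶠ N : ℕ in atTop, (1 : ℝ) =
      (∑ p ∈ (Finset.range (N + 1)).filter Nat.Prime, (1 : ℝ)) / (Nat.primeCounting N : ℝ) := by
    filter_upwards [pc_tendsto.eventually_gt_atTop 0] with N hN
    rw [Finset.sum_const, nsmul_eq_mul, mul_one]
    have : (((Finset.range (N + 1)).filter Nat.Prime).card : ℝ) = (Nat.primeCounting N : ℝ) := by
      rw [Nat.primeCounting, Nat.primeCounting', Nat.count_eq_card_filter_range]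
    rw [this, div_self hN.ne']
  exact Tendsto.congr' h tendsto_const_nhds

theorem mean_roots (f : ℤ[X]) (hf : f.Monic) (hirrQ : Irreducible (f.map (algebraMap ℤ ℚ))) :
    Mean (fun p => (Nat.card {a : ZMod p // (f.map (Int.castRingHom (ZMod p))).eval a = 0} : ℝ))
      1 := by
  have hirr : Irreducible f := (hf.irreducible_iff_irreducible_map_fraction_map (K := ℚ)).2 hirrQ
  set fQ : ℚ[X] := f.map (algebraMap ℤ ℚ) with hfQ
  have : Fact (Irreducible fQ) := ⟨hirrQ⟩
  let K : Type := AdjoinRoot fQ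
  have hKfin : FiniteDimensional ℚ K := (AdjoinRoot.powerBasis hirrQ.ne_zero).finite
  have hKchar : CharZero K := charZero_of_injective_algebraMap (algebraMap ℚ K).injective
  have hKnf : NumberField K := ⟨⟩
  let θ : K := AdjoinRoot.root fQ
  have hθ : aeval θ f = 0 := by
    have h1 : aeval (AdjoinRoot.root fQ) fQ = 0 :=
      (AdjoinRoot.aeval_eq fQ).trans AdjoinRoot.mk_self
    have h2 : aeval θ (f.map (algebraMap ℤ ℚ)) = 0 := h1
    rw [aeval_map_algebraMap] at h2
    exact h2
  have hgen : ∀ x : K, ∃ g : ℚ[X], x = aeval θ g := by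
    intro x
    obtain ⟨g, hg⟩ := AdjoinRoot.mk_surjective x
    exact ⟨g, by rw [← hg]; exact (AdjoinRoot.aeval_eq g).symm⟩
  obtain ⟨m, hm, hcard⟩ := card_hom f hf hirr K θ hθ hgen
  have hp : Mean (fun p => (Nat.card (𝓞 K →+* ZMod p) : ℝ)) 1 := Pool.Agent.H484R2.pit K
  apply hp.congr m.natAbs
  intro p hpp hpm
  rw [hcard p hpp]
  intro h
  have h1 : p ∣ m.natAbs := Int.natCast_dvd.1 h
  have := Nat.le_of_dvd (Int.natAbs_pos.2 hm) h1
  omega

end Run7.h499
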