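import Mathlib
import Pool.Agent.Run7.h499.RootMean

set_option autoImplicit false

/-! # Fifth roots of two and quadratic characters -/

namespace Run7.h499

open Polynomial NumberField Module Filter Topology
open scoped IntermediateField

theorem no_fifth (b : ℚ) : b ^ 5 ≠ 2 := by
  intro h
  have hb : b ≠ 0 := by
    rintro rfl
    norm_num at h
  have h1 := congrArg (padicValRat 2) h
  rw [padicValRat.pow, show (2 : ℚ) = ((2 : ℕ) : ℚ) by norm_num, padicValRat.of_nat,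
    padicValNat.self (by norm_num)] at h1
  push_cast at h1
  omega

theorem irr_five : Irreducible (X ^ 5 - C (2 : ℚ)) :=
  X_pow_sub_C_irreducible_of_prime (by norm_num) no_fifth

theorem irr_two {D : ℤ} (hD : ¬ IsSquare D) : Irreducible (X ^ 2 - C (D : ℚ)) := by
  apply X_pow_sub_C_irreducible_of_prime Nat.prime_two
  intro b hb
  apply hD
  rw [← Rat.isSquare_intCast_iff]
  exact ⟨b, by rw [← hb, sq]⟩

theorem irr_ten {D : ℤ} (hD : ¬ IsSquare D) : Irreducible (X ^ 10 - C (4 * (D : ℚ) ^ 5)) := by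
  have hD0 : D ≠ 0 := by
    rintro rfl
    exact hD ⟨0, rfl⟩
  have hDL : (D : AlgebraicClosure ℚ) ≠ 0 := by exact_mod_cast hD0
  obtain ⟨θ, hθ⟩ := IsAlgClosed.exists_pow_nat_eq (4 * (D : AlgebraicClosure ℚ) ^ 5) (n := 10) (by norm_num)
  have hθ0 : θ ≠ 0 := by
    rintro rfl
    rw [zero_pow (by norm_num)] at hθ
    exact (mul_ne_zero (by norm_num) (pow_ne_zero _ hDL)) hθ.symm
  set u : AlgebraicClosure ℚ := θ ^ 5 / (2 * (D : AlgebraicClosure ℚ) ^ 2) with hu
  have hu2 : u ^ 2 = D := by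
    rw [hu, div_pow, ← pow_mul, hθ]
    field_simp
    norm_num
  have hu0 : u ≠ 0 := by
    intro h
    rw [h, zero_pow (by norm_num)] at hu2
    exact hDL hu2.symm
  set t : AlgebraicClosure ℚ := θ / u with ht
  have ht5 : t ^ 5 = 2 := by
    have h1 : θ ^ 5 = u * (2 * (D : AlgebraicClosure ℚ) ^ 2) := by
      rw [hu]
      field_simp
    have h2 : u ^ 5 = u * (D : AlgebraicClosure ℚ) ^ 2 := by
      rw [show u ^ 5 = u * (u ^ 2) ^ 2 by ring, hu2]
    rw [ht, div_pow, h1, h2]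
    field_simp
  have hmt : minpoly ℚ t = X ^ 5 - C (2 : ℚ) := by
    symm
    apply minpoly.eq_of_irreducible_of_monic irr_five
    · rw [map_sub, map_pow, aeval_X, aeval_C, ht5]
      simp
    · exact monic_X_pow_sub_C _ (by norm_num)
  have hmu : minpoly ℚ u = X ^ 2 - C (D : ℚ) := by
    symm
    apply minpoly.eq_of_irreducible_of_monic (irr_two hD)
    · rw [map_sub, map_pow, aeval_X, aeval_C, hu2]
      simp
    · exact monic_X_pow_sub_C _ (by norm_num)
  have hintt : IsIntegral ℚ t := ⟨X ^ 5 - C (2 : ℚ), monic_X_pow_sub_C _ (by norm_num), by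
    rw [← aeval_def, map_sub, map_pow, aeval_X, aeval_C, ht5]
    simp⟩
  have hintu : IsIntegral ℚ u := ⟨X ^ 2 - C (D : ℚ), monic_X_pow_sub_C _ (by norm_num), by
    rw [← aeval_def, map_sub, map_pow, aeval_X, aeval_C, hu2]
    simp⟩
  have hintθ : IsIntegral ℚ θ := ⟨X ^ 10 - C (4 * (D : ℚ) ^ 5), monic_X_pow_sub_C _ (by norm_num), by
    rw [← aeval_def, map_sub, map_pow, aeval_X, aeval_C, hθ]
    simp⟩
  have huθ : u ∈ ℚ⟮θ⟯ := by
    rw [hu]
    apply div_mem
    · exact pow_mem (IntermediateField.mem_adjoin_simple_self ℚ θ) 5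
    · exact mul_mem (ofNat_mem _ 2) (pow_mem (intCast_mem _ D) 2)
  have htθ : t ∈ ℚ⟮θ⟯ := div_mem (IntermediateField.mem_adjoin_simple_self ℚ θ) huθ
  have hle1 : ℚ⟮t⟯ ≤ ℚ⟮θ⟯ := IntermediateField.adjoin_simple_le_iff.2 htθ
  have hle2 : ℚ⟮u⟯ ≤ ℚ⟮θ⟯ := IntermediateField.adjoin_simple_le_iff.2 huθ
  have hfd : FiniteDimensional ℚ ℚ⟮θ⟯ := IntermediateField.adjoin.finiteDimensional hintθ
  have hd5 : 5 ∣ finrank ℚ ℚ⟮θ⟯ := by
    have h1 : finrank ℚ ℚ⟮t⟯ = 5 := by
      rw [IntermediateField.adjoin.finrank hintt, hmt, natDegree_X_pow_sub_C]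
    rw [← h1]
    exact IntermediateField.finrank_dvd_of_le_right hle1
  have hd2 : 2 ∣ finrank ℚ ℚ⟮θ⟯ := by
    have h1 : finrank ℚ ℚ⟮u⟯ = 2 := by
      rw [IntermediateField.adjoin.finrank hintu, hmu, natDegree_X_pow_sub_C]
    rw [← h1]
    exact IntermediateField.finrank_dvd_of_le_right hle2
  have hd10 : 10 ∣ (minpoly ℚ θ).natDegree := by
    rw [← IntermediateField.adjoin.finrank hintθ]
    have : Nat.Coprime 5 2 := by norm_num
    exact this.mul_dvd_of_dvd_of_dvd hd5 hd2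
  set f : ℚ[X] := X ^ 10 - C (4 * (D : ℚ) ^ 5) with hf
  have hfm : f.Monic := monic_X_pow_sub_C _ (by norm_num)
  have hfd' : f.natDegree = 10 := natDegree_X_pow_sub_C
  have hdvd : minpoly ℚ θ ∣ f := by
    apply minpoly.dvd
    rw [hf, map_sub, map_pow, aeval_X, aeval_C, hθ]
    simp
  have hpos : 0 < (minpoly ℚ θ).natDegree := minpoly.natDegree_pos hintθ
  have h10 : 10 ≤ (minpoly ℚ θ).natDegree := Nat.le_of_dvd hpos hd10
  have heq : minpoly ℚ θ = f :=
    (eq_of_monic_of_dvd_of_natDegree_le (minpoly.monic hintθ) hfm hdvd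
      (by rw [hfd']; exact h10)).symm
  rw [← heq]
  exact minpoly.irreducible hintθ

/-- the number of fifth roots of two -/
noncomputable def rho (p : ℕ) : ℝ := (Nat.card {t : ZMod p // t ^ 5 = 2} : ℝ)

/-- quadratic characters -/
def Jr (D : ℤ) (p : ℕ) : ℝ := (jacobiSym D p : ℝ)

theorem mean_pow (n : ℕ) (hn : n ≠ 0) (c : ℤ) (h : Irreducible (X ^ n - C (c : ℚ))) :
    Mean (fun p => (Nat.card {t : ZMod p // t ^ n = (c : ZMod p)} : ℝ)) 1 := by
  have h1 := mean_roots (X ^ n - C c) (monic_X_pow_sub_C c hn) (by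
    rw [Polynomial.map_sub, Polynomial.map_pow, map_X, map_C]
    simpa using h)
  apply h1.congr 0
  intro p _ _
  congr 1
  apply Nat.card_congr
  apply Equiv.subtypeEquivRight
  intro t
  rw [Polynomial.map_sub, Polynomial.map_pow, map_X, map_C, eval_sub, eval_pow, eval_X, eval_C,
    sub_eq_zero]
  simp

theorem mean_rho : Mean rho 1 := by
  have h := mean_pow 5 (by norm_num) 2 (by simpa using irr_five)
  apply h.congr 0
  intro p _ _
  unfold rho
  congr 1
  apply Nat.card_congr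
  apply Equiv.subtypeEquivRight
  intro t
  simp

theorem card_sq {p : ℕ} (hp : p.Prime) (h2 : p ≠ 2) (D : ℤ) :
    (Nat.card {t : ZMod p // t ^ 2 = (D : ZMod p)} : ℝ) = 1 + Jr D p := by
  have : Fact p.Prime := ⟨hp⟩
  have h := legendreSym.card_sqrts p h2 D
  unfold Jr
  rw [← jacobiSym.legendreSym.to_jacobiSym]
  have h3 : Nat.card {t : ZMod p // t ^ 2 = (D : ZMod p)} =
      {x : ZMod p | x ^ 2 = (D : ZMod p)}.toFinset.card := by
    rw [← Set.ncard_eq_toFinset_card']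
    rfl
  rw [h3]
  have h4 : (({x : ZMod p | x ^ 2 = (D : ZMod p)}.toFinset.card : ℤ) : ℝ) =
      ((legendreSym p D + 1 : ℤ) : ℝ) := by rw [h]
  push_cast at h4
  rw [h4]
  ring

theorem mean_J {D : ℤ} (hD : ¬ IsSquare D) : Mean (Jr D) 0 := by
  have h := (mean_pow 2 (by norm_num) D (irr_two hD)).sub mean_one
  rw [sub_self] at h
  apply h.congr 2
  intro p hp hp2
  rw [card_sq hp (by omega)]
  ring

theorem card_ten {p : ℕ} (hp : p.Prime) (h2 : p ≠ 2) (D : ℤ) (hD : (D : ZMod p) ≠ 0) :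
    (Nat.card {t : ZMod p // t ^ 10 = ((4 * D ^ 5 : ℤ) : ZMod p)} : ℝ) =
      rho p * (1 + Jr D p) := by
  have : Fact p.Prime := ⟨hp⟩
  rw [← card_sq hp h2]
  unfold rho
  rw [← Nat.cast_mul, ← Nat.card_prod]
  congr 1
  have h20 : (2 : ZMod p) ≠ 0 := by
    intro h
    have h1 : ((2 : ℕ) : ZMod p) = 0 := by exact_mod_cast h
    rw [ZMod.natCast_eq_zero_iff] at h1
    exact h2 ((Nat.prime_dvd_prime_iff_eq hp Nat.prime_two).1 h1)
  apply Nat.card_congr
  symm
  refine Equiv.ofBijective (fun x => ⟨x.1.1 * x.2.1, ?_⟩) ⟨?_, ?_⟩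
  · obtain ⟨⟨t, ht⟩, ⟨u, hu⟩⟩ := x
    simp only
    push_cast
    calc (t * u) ^ 10 = (t ^ 5) ^ 2 * (u ^ 2) ^ 5 := by ring
      _ = 2 ^ 2 * (D : ZMod p) ^ 5 := by rw [ht, hu]
      _ = _ := by ring
  · rintro ⟨⟨t, ht⟩, ⟨u, hu⟩⟩ ⟨⟨t', ht'⟩, ⟨u', hu'⟩⟩ h
    have h1 : t * u = t' * u' := congrArg Subtype.val h
    have h3 : ∀ (s v : ZMod p), s ^ 5 = 2 → v ^ 2 = D → (s * v) ^ 5 = v * (2 * (D : ZMod p) ^ 2) := by
      intro s v hs hv
      calc (s * v) ^ 5 = s ^ 5 * (v ^ 2) ^ 2 * v := by ring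
        _ = _ := by rw [hs, hv]; ring
    have h4 := h3 t u ht hu
    rw [h1, h3 t' u' ht' hu'] at h4
    have h5 : u' = u := mul_right_cancel₀ (mul_ne_zero h20 (pow_ne_zero _ hD)) h4
    have hu0 : u ≠ 0 := by
      rintro rfl
      rw [zero_pow (by norm_num)] at hu
      exact hD hu.symm
    rw [h5] at h1
    have h6 : t = t' := mul_right_cancel₀ hu0 h1
    simp only [Prod.mk.injEq, Subtype.mk.injEq]
    exact ⟨h6, h5.symm⟩
  · rintro ⟨x, hx⟩
    push_cast at hx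
    have hd : (2 * (D : ZMod p) ^ 2) ≠ 0 := mul_ne_zero h20 (pow_ne_zero _ hD)
    set u : ZMod p := x ^ 5 / (2 * (D : ZMod p) ^ 2) with hu
    have hu2 : u ^ 2 = D := by
      rw [hu, div_pow, ← pow_mul, hx, div_eq_iff (pow_ne_zero _ hd)]
      ring
    have hu0 : u ≠ 0 := by
      intro h
      rw [h, zero_pow (by norm_num)] at hu2
      exact hD hu2.symm
    have hx5 : x ^ 5 = u * (2 * (D : ZMod p) ^ 2) := by
      rw [hu, div_mul_cancel₀ _ hd]
    have ht5 : (x / u) ^ 5 = 2 := by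
      rw [div_pow, hx5, show u ^ 5 = u * (u ^ 2) ^ 2 by ring, hu2, div_eq_iff
        (mul_ne_zero hu0 (pow_ne_zero _ hD))]
      ring
    refine ⟨(⟨x / u, ht5⟩, ⟨u, hu2⟩), ?_⟩
    apply Subtype.ext
    simp only
    exact div_mul_cancel₀ _ hu0

theorem mean_rhoJ {D : ℤ} (hD : ¬ IsSquare D) : Mean (fun p => rho p * Jr D p) 0 := by
  have hD0 : D ≠ 0 := by
    rintro rfl
    exact hD ⟨0, rfl⟩
  have h1 := mean_pow 10 (by norm_num) (4 * D ^ 5) (by
    have := irr_ten hD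
    push_cast
    exact this)
  have h := h1.sub mean_rho
  rw [sub_self] at h
  apply h.congr (2 + D.natAbs)
  intro p hp hp2
  have hDp : (D : ZMod p) ≠ 0 := by
    rw [Ne, ZMod.intCast_zmod_eq_zero_iff_dvd]
    intro h3
    have h4 : p ∣ D.natAbs := Int.natCast_dvd.1 h3
    have := Nat.le_of_dvd (Int.natAbs_pos.2 hD0) h4
    omega
  rw [card_ten hp (by omega) D hDp]
  ring

end Run7.h499
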