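import Mathlib
import Pool.Agent.Run7.h499.KumMean
import Pool.Agent.Run7.h499.PairBV

set_option autoImplicit false

/-! # Primes in a class for which two is not a fifth power -/

namespace Run7.h499

open Finset Filter Topology
open H343E (piAP pi1)

/-- the discriminants -/
def Dl (W : Finset ℕ) : Finset ℤ := insert (-1) (insert 2 (W.image (fun s : ℕ => (s : ℤ))))

/-- the signs -/
noncomputable def sg (d : ℤ) : ℝ := if d = -1 then -1 else if d = 2 then 1 else
  if d % 4 = 1 then -1 else 1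

/-- the class -/
def Cl (W : Finset ℕ) (p : ℕ) : Prop := ∀ d ∈ Dl W, sg d * Jr d p = 1

theorem Dl_cases {W : Finset ℕ} {d : ℤ} (h : d ∈ Dl W) (hW : ∀ s ∈ W, s.Prime ∧ s ≠ 2 ∧ s ≠ 5) :
    d = -1 ∨ ∃ q : ℕ, q.Prime ∧ d = q := by
  unfold Dl at h
  rw [mem_insert, mem_insert, mem_image] at h
  rcases h with h | h | ⟨s, hs, h⟩
  · exact Or.inl h
  · exact Or.inr ⟨2, Nat.prime_two, by rw [h]; norm_num⟩
  · exact Or.inr ⟨s, (hW s hs).1, h.symm⟩

theorem Jr_prod (T : Finset ℤ) (p : ℕ) (hp : p ≠ 0) : ∏ d ∈ T, Jr d p = Jr (∏ d ∈ T, d) p := by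
  have : NeZero p := ⟨hp⟩
  induction T using Finset.induction_on with
  | empty =>
    unfold Jr
    rw [prod_empty, prod_empty, jacobiSym.one_left]
    norm_num
  | insert a T ha ih =>
    rw [prod_insert ha, prod_insert ha, ih]
    unfold Jr
    rw [jacobiSym.mul_left]
    push_cast
    rfl

theorem not_sq {W : Finset ℕ} (hW : ∀ s ∈ W, s.Prime ∧ s ≠ 2 ∧ s ≠ 5) {T : Finset ℤ}
    (hT : T ⊆ Dl W) (hne : T ≠ ∅) : ¬ IsSquare (∏ d ∈ T, d) := by
  by_cases h : ∀ d ∈ T, d = -1
  · have h1 : T = {-1} := by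
      obtain ⟨d, hd⟩ := Finset.nonempty_iff_ne_empty.2 hne
      apply Finset.eq_singleton_iff_unique_mem.2
      have := h d hd
      subst this
      exact ⟨hd, fun x hx => h x hx⟩
    rw [h1, prod_singleton]
    rintro ⟨r, hr⟩
    nlinarith [mul_self_nonneg r]
  · push Not at h
    obtain ⟨d, hd, hd1⟩ := h
    rcases Dl_cases (hT hd) hW with h1 | ⟨q, hq, h1⟩
    · exact absurd h1 hd1
    · rintro ⟨k, hk⟩
      rw [← mul_prod_erase T _ hd] at hk
      have hqp : Prime (q : ℤ) := Nat.prime_iff_prime_int.1 hq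
      have h2 : (q : ℤ) ∣ k := by
        have h3 : (q : ℤ) ∣ k * k := by
          rw [← hk, h1]
          exact Dvd.intro _ rfl
        rcases hqp.dvd_or_dvd h3 with h4 | h4 <;> exact h4
      obtain ⟨c, hc⟩ := h2
      rw [h1, hc, show (q : ℤ) * c * (q * c) = q * (q * (c * c)) by ring] at hk
      have h3 := mul_left_cancel₀ hqp.ne_zero hk
      have h4 : (q : ℤ) ∣ ∏ x ∈ T.erase (q : ℤ), x := by
        rw [h3]
        exact Dvd.intro _ rfl
      obtain ⟨x, hx, hx2⟩ := (Prime.dvd_finsetProd_iff hqp _).1 h4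
      rw [mem_erase] at hx
      rcases Dl_cases (hT hx.2) hW with h5 | ⟨q', hq', h5⟩
      · rw [h5] at hx2
        have h6 : (q : ℤ) ∣ 1 := by
          have := (dvd_neg).1 hx2
          exact this
        exact hqp.not_isUnit (isUnit_of_dvd_one h6)
      · rw [h5] at hx2
        have h6 : q ∣ q' := by exact_mod_cast hx2
        have h7 := (Nat.prime_dvd_prime_iff_eq hq hq').1 h6
        exact hx.1 (by rw [h5, h7])

theorem prod_expand (W : Finset ℕ) (p : ℕ) (hp : p ≠ 0) : ∏ d ∈ Dl W, (1 + sg d * Jr d p) =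
    ∑ T ∈ (Dl W).powerset, (∏ d ∈ T, sg d) * Jr (∏ d ∈ T, d) p := by
  rw [prod_one_add]
  refine sum_congr rfl fun T _ => ?_
  rw [prod_mul_distrib, Jr_prod T p hp]

theorem sum_delta (W : Finset ℕ) :
    ∑ T ∈ (Dl W).powerset, (if T = ∅ then (1 : ℝ) else 0) = 1 := by
  rw [sum_ite_eq' (Dl W).powerset ∅ (fun _ => (1 : ℝ)), if_pos (empty_mem_powerset _)]

theorem mean_class {W : Finset ℕ} (hW : ∀ s ∈ W, s.Prime ∧ s ≠ 2 ∧ s ≠ 5) :
    Mean (fun p => (rho p - 1) * ∏ d ∈ Dl W, (1 + sg d * Jr d p)) 0 := by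
  have h1 : Mean (fun p => ∑ T ∈ (Dl W).powerset, (∏ d ∈ T, sg d) * Jr (∏ d ∈ T, d) p)
      (∑ T ∈ (Dl W).powerset, (if T = ∅ then (1 : ℝ) else 0)) := by
    apply Mean.sum
    intro T hT
    split_ifs with h
    · subst h
      refine mean_one.congr 0 fun p hp _ => ?_
      unfold Jr
      rw [prod_empty, prod_empty, jacobiSym.one_left]
      norm_num
    · have h2 := (mean_J (not_sq hW (mem_powerset.1 hT) h)).const_mul (∏ d ∈ T, sg d)
      rw [mul_zero] at h2
      exact h2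
  have h2 : Mean (fun p => ∑ T ∈ (Dl W).powerset,
      (∏ d ∈ T, sg d) * (rho p * Jr (∏ d ∈ T, d) p))
      (∑ T ∈ (Dl W).powerset, (if T = ∅ then (1 : ℝ) else 0)) := by
    apply Mean.sum
    intro T hT
    split_ifs with h
    · subst h
      refine mean_rho.congr 0 fun p hp _ => ?_
      unfold Jr
      rw [prod_empty, prod_empty, jacobiSym.one_left]
      norm_num
    · have h2 := (mean_rhoJ (not_sq hW (mem_powerset.1 hT) h)).const_mul (∏ d ∈ T, sg d)
      rw [mul_zero] at h2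
      exact h2
  have h3 := h2.sub h1
  rw [sub_self] at h3
  refine h3.congr 0 fun p hp _ => ?_
  rw [prod_expand W p hp.ne_zero, ← sum_sub_distrib, mul_sum]
  refine sum_congr rfl fun T _ => ?_
  ring

theorem Jr_sq {d : ℤ} {p : ℕ} (hp : p.Prime) (h : ¬ p ∣ d.natAbs) : Jr d p = 1 ∨ Jr d p = -1 := by
  have hgcd : d.gcd p = 1 := by
    rw [Int.gcd_comm]
    exact (Nat.Prime.coprime_iff_not_dvd hp).2 h
  unfold Jr
  rcases jacobiSym.eq_one_or_neg_one hgcd with h1 | h1
  · left; rw [h1]; norm_num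
  · right; rw [h1]; norm_num

theorem sg_sq (d : ℤ) : sg d = 1 ∨ sg d = -1 := by
  unfold sg
  split_ifs <;> simp

theorem prod_eval {W : Finset ℕ} {p : ℕ} (hp : p.Prime) (hbig : ∀ d ∈ Dl W, ¬ p ∣ d.natAbs) :
    ((Cl W p → ∏ d ∈ Dl W, (1 + sg d * Jr d p) = 2 ^ (Dl W).card) ∧
    (¬ Cl W p → ∏ d ∈ Dl W, (1 + sg d * Jr d p) = 0)) := by
  constructor
  · intro h
    rw [prod_congr rfl (fun d hd => by rw [h d hd]), prod_const]
    norm_num
  · intro h
    unfold Cl at h
    push Not at h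
    obtain ⟨d, hd, h1⟩ := h
    apply prod_eq_zero hd
    rcases sg_sq d with h2 | h2 <;> rcases Jr_sq hp (hbig d hd) with h3 | h3 <;>
      rw [h2, h3] at h1 ⊢
    · exact absurd (by norm_num) h1
    · norm_num
    · norm_num
    · exact absurd (by norm_num) h1

/-- the number of fifth roots -/
theorem rho_one {p : ℕ} (hp : p.Prime) (h5 : p % 5 ≠ 1) (hp5 : 5 < p) : rho p = 1 := by
  have hfact : Fact p.Prime := ⟨hp⟩
  have h20 : (2 : ZMod p) ≠ 0 := by
    intro h
    have h1 : ((2 : ℕ) : ZMod p) = 0 := by exact_mod_cast h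
    rw [ZMod.natCast_eq_zero_iff] at h1
    have := Nat.le_of_dvd (by norm_num) h1
    omega
  have hcop : (Nat.card (ZMod p)ˣ).Coprime 5 := by
    rw [Nat.card_eq_fintype_card, ZMod.card_units_eq_totient, Nat.totient_prime hp]
    rw [Nat.coprime_comm, Nat.Prime.coprime_iff_not_dvd (by norm_num)]
    intro h
    omega
  have hbij := (powCoprime hcop).bijective
  have hone : ∀ x : (ZMod p)ˣ, powCoprime hcop x = x ^ 5 := fun x => rfl
  obtain ⟨x, hx⟩ := hbij.2 (Units.mk0 2 h20)
  rw [hone] at hx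
  unfold rho
  have : Nat.card {t : ZMod p // t ^ 5 = 2} = 1 := by
    rw [Nat.card_eq_one_iff_unique]
    constructor
    · constructor
      rintro ⟨s, hs⟩ ⟨t, ht⟩
      have hs0 : s ≠ 0 := by
        rintro rfl
        rw [zero_pow (by norm_num)] at hs
        exact h20 hs.symm
      have ht0 : t ≠ 0 := by
        rintro rfl
        rw [zero_pow (by norm_num)] at ht
        exact h20 ht.symm
      have h2 : powCoprime hcop (Units.mk0 s hs0) = powCoprime hcop (Units.mk0 t ht0) := by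
        rw [hone, hone]
        apply Units.ext
        simp only [Units.val_pow_eq_pow_val, Units.val_mk0]
        rw [hs, ht]
      have h3 := hbij.1 h2
      have h4 := congrArg Units.val h3
      simp only [Units.val_mk0] at h4
      exact Subtype.ext h4
    · refine ⟨⟨(x : ZMod p), ?_⟩⟩
      have h4 := congrArg Units.val hx
      simpa using h4
  rw [this]
  norm_num

theorem rho_five {p : ℕ} (hp : p.Prime) (h5 : p % 5 = 1) (h : ∃ t : ZMod p, t ^ 5 = 2) :
    rho p = 5 := by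
  have hfact : Fact p.Prime := ⟨hp⟩
  obtain ⟨t, ht⟩ := h
  have hp5 : 5 < p := by
    have := hp.two_le
    omega
  have h20 : (2 : ZMod p) ≠ 0 := by
    intro h
    have h1 : ((2 : ℕ) : ZMod p) = 0 := by exact_mod_cast h
    rw [ZMod.natCast_eq_zero_iff] at h1
    have := Nat.le_of_dvd (by norm_num) h1
    omega
  have ht0 : t ≠ 0 := by
    rintro rfl
    rw [zero_pow (by norm_num)] at ht
    exact h20 ht.symm
  -- a primitive fifth root of unity
  obtain ⟨g, hg⟩ := IsCyclic.exists_generator (α := (ZMod p)ˣ)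
  have hog : orderOf g = p - 1 := by
    rw [orderOf_eq_card_of_forall_mem_zpowers hg, Nat.card_eq_fintype_card,
      ZMod.card_units_eq_totient, Nat.totient_prime hp]
  set z := g ^ ((p - 1) / 5) with hz
  have hoz : orderOf z = 5 := by
    rw [hz, orderOf_pow' g (by omega), hog]
    have h1 : (p - 1).gcd ((p - 1) / 5) = (p - 1) / 5 := Nat.gcd_eq_right ⟨5, by omega⟩
    rw [h1]
    have h2 : p - 1 = 5 * ((p - 1) / 5) := by omega
    have h3 : 0 < (p - 1) / 5 := by omega
    conv_lhs => rw [h2]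
    rw [Nat.mul_div_cancel_left _ (by norm_num)]
    exact Nat.mul_div_cancel _ h3
  have hprim : IsPrimitiveRoot (z : ZMod p) 5 := by
    rw [IsPrimitiveRoot.iff_orderOf, orderOf_units, hoz]
  unfold rho
  have hcard : Nat.card {s : ZMod p // s ^ 5 = 2} = 5 := by
    have e : {s : ZMod p // s ^ 5 = 2} ≃ {s : ZMod p // s ^ 5 = 1} :=
      { toFun := fun s => ⟨s.1 / t, by rw [div_pow, s.2, ht, div_self h20]⟩
        invFun := fun s => ⟨s.1 * t, by rw [mul_pow, s.2, ht, one_mul]⟩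
        left_inv := fun s => Subtype.ext (div_mul_cancel₀ _ ht0)
        right_inv := fun s => Subtype.ext (mul_div_cancel_right₀ _ ht0) }
    rw [Nat.card_congr e]
    have h1 := hprim.card_nthRootsFinset
    have e2 : {s : ZMod p // s ^ 5 = 1} ≃ {s : ZMod p // s ∈ Polynomial.nthRootsFinset 5 (1 : ZMod p)} :=
      Equiv.subtypeEquivRight fun s => (Polynomial.mem_nthRootsFinset (by norm_num) 1).symm
    rw [Nat.card_congr e2, Nat.card_eq_fintype_card, Fintype.card_coe, h1]
  rw [hcard]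
  norm_num

theorem rho_zero {p : ℕ} (h : ¬ ∃ t : ZMod p, t ^ 5 = 2) : rho p = 0 := by
  unfold rho
  have : IsEmpty {t : ZMod p // t ^ 5 = 2} := ⟨fun t => h ⟨t.1, t.2⟩⟩
  rw [Nat.card_of_isEmpty]
  norm_num

end Run7.h499
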