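import Mathlib
import Pool.Agent.Run7.h499.KumClass

set_option autoImplicit false

/-! # The number of primes in the class -/

namespace Run7.h499

open Finset Filter Topology
open H343E (piAP pi1)

theorem Cl_eight {W : Finset ℕ} {p : ℕ} (hp : Odd p) (h : Cl W p) : p % 8 = 7 := by
  have h1 := h (-1) (by unfold Dl; exact mem_insert_self _ _)
  have h2 := h 2 (by unfold Dl; exact mem_insert_of_mem (mem_insert_self _ _))
  unfold sg Jr at h1 h2
  rw [if_pos rfl] at h1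
  rw [if_neg (by norm_num), if_pos rfl] at h2
  rw [jacobiSym.at_neg_one hp] at h1
  rw [jacobiSym.at_two hp] at h2
  have h3 : p % 4 = 3 := by
    rcases Nat.odd_mod_four_iff.1 (Nat.odd_iff.1 hp) with h4 | h4
    · rw [ZMod.χ₄_nat_one_mod_four h4] at h1
      norm_num at h1
    · exact h4
  rw [ZMod.χ₈_nat_eq_if_mod_eight, if_neg (by have := Nat.odd_iff.1 hp; omega)] at h2
  by_cases h5 : p % 8 = 1 ∨ p % 8 = 7
  · omega
  · rw [if_neg h5] at h2
    norm_num at h2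

theorem sg_cast (s : ℕ) (hs : s ≠ 2) : sg (s : ℤ) = if s % 4 = 1 then -1 else 1 := by
  unfold sg
  rw [if_neg (by omega), if_neg (by omega)]
  by_cases h : s % 4 = 1
  · rw [if_pos (by omega), if_pos h]
  · rw [if_neg (by omega), if_neg h]

/-- the reciprocity law in the form needed -/
theorem sg_Jr {s p : ℕ} (hs : s % 2 = 1) (hs2 : s ≠ 2) (hp : p % 4 = 3) :
    sg (s : ℤ) * Jr (s : ℤ) p = -(jacobiSym p s : ℝ) := by
  have hpo : Odd p := Nat.odd_iff.2 (by omega)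
  rw [sg_cast s hs2]
  unfold Jr
  by_cases h : s % 4 = 1
  · rw [if_pos h, jacobiSym.quadratic_reciprocity_one_mod_four h hpo]
    ring
  · rw [if_neg h, jacobiSym.quadratic_reciprocity_three_mod_four (by omega) hp]
    push_cast
    ring

theorem Cl_res {W : Finset ℕ} (hW : ∀ s ∈ W, s.Prime ∧ s ≠ 2 ∧ s ≠ 5) {p : ℕ} (hp : Odd p)
    (h : Cl W p) {s : ℕ} (hs : s ∈ W) : ¬ s ∣ p - 1 := by
  intro hd
  have h8 := Cl_eight hp h
  have h1 := h s (by
    unfold Dl
    exact mem_insert_of_mem (mem_insert_of_mem (mem_image_of_mem _ hs)))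
  obtain ⟨a1, a2, _⟩ := hW s hs
  have ho : s % 2 = 1 := by
    rcases a1.eq_two_or_odd with h2 | h2
    · exact absurd h2 a2
    · exact h2
  rw [sg_Jr ho a2 (by omega)] at h1
  have h2 : ((p : ℤ) % (s : ℤ)) = ((1 : ℤ) % (s : ℤ)) := by
    have h3 : p ≡ 1 [MOD s] := by
      apply Nat.ModEq.symm
      exact (Nat.modEq_iff_dvd' (by omega)).2 hd
    exact_mod_cast h3
  rw [jacobiSym.mod_left' h2, jacobiSym.one_left] at h1
  norm_num at h1

theorem Cl_of {W : Finset ℕ} (hW : ∀ s ∈ W, s.Prime ∧ s ≠ 2 ∧ s ≠ 5) {p : ℕ}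
    (h8 : p % 8 = 7) (h : ∀ s ∈ W, jacobiSym p s = -1) : Cl W p := by
  have hp : Odd p := Nat.odd_iff.2 (by omega)
  intro d hd
  unfold Dl at hd
  rw [mem_insert, mem_insert, mem_image] at hd
  rcases hd with h1 | h1 | ⟨s, hs, h1⟩
  · rw [h1]
    unfold sg Jr
    rw [if_pos rfl, jacobiSym.at_neg_one hp, ZMod.χ₄_nat_three_mod_four (by omega)]
    norm_num
  · rw [h1]
    unfold sg Jr
    rw [if_neg (by norm_num), if_pos rfl, jacobiSym.at_two hp, ZMod.χ₈_nat_eq_if_mod_eight,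
      if_neg (by omega), if_pos (Or.inr h8)]
    norm_num
  · rw [← h1]
    obtain ⟨a1, a2, _⟩ := hW s hs
    have ho : s % 2 = 1 := by
      rcases a1.eq_two_or_odd with h2 | h2
      · exact absurd h2 a2
      · exact h2
    rw [sg_Jr ho a2 (by omega), h s hs]
    norm_num

theorem exists_nonres {s : ℕ} (hs : s.Prime) (h2 : s ≠ 2) : ∃ n : ℕ, jacobiSym n s = -1 := by
  have : Fact s.Prime := ⟨hs⟩
  obtain ⟨a, ha⟩ := FiniteField.exists_nonsquare (F := ZMod s) (by rwa [ZMod.ringChar_zmod_n])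
  refine ⟨a.val, ?_⟩
  rw [← jacobiSym.legendreSym.to_jacobiSym, legendreSym.eq_neg_one_iff]
  push_cast
  rw [ZMod.natCast_zmod_val]
  exact ha

/-- a suitable class -/
theorem exists_class {W : Finset ℕ} (hW : ∀ s ∈ W, s.Prime ∧ s ≠ 2 ∧ s ≠ 5) :
    ∃ a : ℕ, a % 8 = 7 ∧ a % 5 = 1 ∧ (∀ s ∈ W, jacobiSym a s = -1) ∧
      a.Coprime (40 * ∏ s ∈ W, s) := by
  classical
  have hn : ∀ s : ℕ, ∃ n : ℕ, s ∈ W → jacobiSym n s = -1 := by
    intro s
    by_cases hs : s ∈ W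
    · obtain ⟨n, hn⟩ := exists_nonres (hW s hs).1 (hW s hs).2.1
      exact ⟨n, fun _ => hn⟩
    · exact ⟨0, fun h => absurd h hs⟩
  choose n hn using hn
  -- residues modulo the primes of W
  obtain ⟨u, hu⟩ : ∃ u : ℕ, ∀ s ∈ W, u ≡ n s [MOD s] := by
    have hc : (W : Set ℕ).Pairwise (Function.onFun Nat.Coprime (fun s => s)) := by
      intro s hs t ht hst
      exact (Nat.coprime_primes (hW s hs).1 (hW t ht).1).2 hst
    obtain ⟨k, hk⟩ := Nat.chineseRemainderOfFinset n (fun s => s) W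
      (fun s hs => (hW s hs).1.ne_zero) hc
    exact ⟨k, hk⟩
  have hPc : Nat.Coprime 40 (∏ s ∈ W, s) := by
    apply Nat.Coprime.prod_right
    intro s hs
    obtain ⟨a1, a2, a3⟩ := hW s hs
    have h1 : Nat.Coprime 2 s := (Nat.coprime_primes Nat.prime_two a1).2 a2.symm
    have h2 : Nat.Coprime 5 s := (Nat.coprime_primes (by norm_num) a1).2 a3.symm
    rw [show 40 = 2 ^ 3 * 5 by norm_num]
    exact Nat.Coprime.mul_left (h1.pow_left 3) h2
  obtain ⟨a, ha1, ha2⟩ := Nat.chineseRemainder hPc 31 u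
  have h40 : a % 40 = 31 := ha1
  have hs : ∀ s ∈ W, jacobiSym a s = -1 := by
    intro s hs
    have h1 : a ≡ n s [MOD s] := (ha2.of_dvd (dvd_prod_of_mem _ hs)).trans (hu s hs)
    have h2 : ((a : ℤ) % (s : ℤ)) = ((n s : ℤ) % (s : ℤ)) := by exact_mod_cast h1
    rw [jacobiSym.mod_left' h2]
    exact hn s hs
  refine ⟨a, by omega, by omega, hs, ?_⟩
  apply Nat.Coprime.mul_right
  · rw [show 40 = 2 ^ 3 * 5 by norm_num]
    apply Nat.Coprime.mul_right
    · apply Nat.Coprime.pow_right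
      rw [Nat.coprime_comm, Nat.coprime_two_left, Nat.odd_iff]
      omega
    · rw [Nat.coprime_comm, Nat.Prime.coprime_iff_not_dvd (by norm_num)]
      omega
  · apply Nat.Coprime.prod_right
    intro s hs'
    by_contra hcon
    have h1 : Int.gcd (a : ℤ) (s : ℤ) ≠ 1 := by
      rw [Int.gcd_natCast_natCast]
      exact hcon
    have : NeZero s := ⟨(hW s hs').1.ne_zero⟩
    have h2 := jacobiSym.eq_zero_iff_not_coprime.2 h1
    rw [hs s hs'] at h2
    norm_num at h2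

/-- primes in one residue class -/
theorem ap_fixed (m a : ℕ) (hm : 1 ≤ m) (ha : a.Coprime m) :
    ∀ᶠ x : ℕ in atTop, |piAP x m a - pi1 x / (m.totient : ℝ)| ≤ x / Real.log x ^ 2 := by
  have h8 : ∀ᶠ x : ℕ in atTop, (m : ℝ) ≤ (x : ℝ) ^ (1 / 2 - 1 / 4 : ℝ) :=
    ((tendsto_rpow_atTop (by norm_num : (0 : ℝ) < 1 / 2 - 1 / 4)).comp
      tendsto_natCast_atTop_atTop).eventually_ge_atTop _
  filter_upwards [bvpi 2 (1 / 4) (by norm_num), h8] with x h1 h2
  have h3 := h1 (fun _ => a)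
  refine le_trans ?_ h3
  have hmem : m ∈ (Icc 1 ⌊(x : ℝ) ^ (1 / 2 - 1 / 4 : ℝ)⌋₊).filter (fun q => a.Coprime q) := by
    rw [mem_filter, mem_Icc]
    exact ⟨⟨hm, Nat.le_floor h2⟩, ha⟩
  exact single_le_sum (f := fun q : ℕ => |piAP x q a - pi1 x / (Nat.totient q : ℝ)|)
    (fun _ _ => abs_nonneg _) hmem

theorem ap_lower (m a : ℕ) (hm : 1 ≤ m) (ha : a.Coprime m) : ∃ c : ℝ, 0 < c ∧
    ∀ᶠ x : ℕ in atTop, c * pi1 x ≤ piAP x m a := by
  have hφ : (0 : ℝ) < m.totient := by exact_mod_cast Nat.totient_pos.2 hm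
  refine ⟨1 / (2 * m.totient), by positivity, ?_⟩
  have hL : Tendsto (fun x : ℕ => Real.log (x : ℝ)) atTop atTop :=
    Real.tendsto_log_atTop.comp tendsto_natCast_atTop_atTop
  filter_upwards [ap_fixed m a hm ha, pi1_ge, hL.eventually_ge_atTop (4 * m.totient),
    eventually_ge_atTop 3] with x h1 h2 h3 hx
  have hx0 : (0 : ℝ) < x := by
    have : 0 < x := by omega
    exact_mod_cast this
  have hlog : 0 < Real.log x := Real.log_pos (by
    have : 1 < x := by omega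
    exact_mod_cast this)
  have h4 := (abs_le.1 h1).1
  have h5 : (x : ℝ) / Real.log x ^ 2 ≤ pi1 x / (2 * m.totient) := by
    calc (x : ℝ) / Real.log x ^ 2 ≤ (x / (2 * Real.log x)) / (2 * m.totient) := by
          rw [div_div]
          apply div_le_div_of_nonneg_left hx0.le (by positivity)
          nlinarith
      _ ≤ _ := by gcongr
  have h6 : pi1 x / (m.totient : ℝ) = 2 * (pi1 x / (2 * m.totient)) := by
    field_simp
  have h7 : 1 / (2 * (m.totient : ℝ)) * pi1 x = pi1 x / (2 * m.totient) := by ring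
  linarith

theorem card_indicator (Q : ℕ → Prop) [DecidablePred Q] (N : ℕ) :
    ∑ p ∈ (Finset.range (N + 1)).filter Nat.Prime, (if Q p then (1 : ℝ) else 0) =
      (((Icc 1 N).filter (fun p => p.Prime ∧ Q p)).card : ℝ) := by
  rw [← sum_filter, filter_filter, sum_const, nsmul_eq_mul, mul_one]
  congr 2
  ext p
  rw [mem_filter, mem_filter, mem_Icc, mem_range]
  constructor
  · rintro ⟨h1, h2, h3⟩
    exact ⟨⟨h2.one_le, by omega⟩, h2, h3⟩
  · rintro ⟨⟨_, h1⟩, h2, h3⟩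
    exact ⟨by omega, h2, h3⟩

open Classical in
/-- many primes in the class -/
theorem kum_class {W : Finset ℕ} (hW : ∀ s ∈ W, s.Prime ∧ s ≠ 2 ∧ s ≠ 5) : ∃ c : ℝ, 0 < c ∧
    ∀ᶠ Z : ℕ in atTop, c * (Z / Real.log Z) ≤
      (((Icc 1 Z).filter (fun p => p.Prime ∧ (Cl W p ∧ p % 5 = 1 ∧
        ¬ ∃ t : ZMod p, t ^ 5 = 2))).card : ℝ) := by
  obtain ⟨a, ha8, ha5, haW, hac⟩ := exists_class hW
  have hm1 : 1 ≤ 40 * ∏ s ∈ W, s := by
    have : 0 < ∏ s ∈ W, s := prod_pos fun s hs => (hW s hs).1.pos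
    omega
  obtain ⟨c, hc, hap⟩ := ap_lower _ a hm1 hac
  set Q1 : ℕ → Prop := fun p => Cl W p ∧ p % 5 = 1 with hQ1
  set Q2 : ℕ → Prop := fun p => Cl W p ∧ p % 5 = 1 ∧ ¬ ∃ t : ZMod p, t ^ 5 = 2 with hQ2
  -- the mean value
  have hmean : Mean (fun p => 4 * (if Q1 p then (1 : ℝ) else 0) - 5 * (if Q2 p then (1 : ℝ) else 0))
      0 := by
    have h1 := (mean_class hW).const_mul (1 / 2 ^ (Dl W).card)
    rw [mul_zero] at h1
    obtain ⟨M, hM⟩ : ∃ M : ℕ, ∀ d ∈ Dl W, d.natAbs ≤ M :=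
      ⟨∑ d ∈ Dl W, d.natAbs, fun d hd => single_le_sum (f := fun d : ℤ => d.natAbs)
        (fun _ _ => Nat.zero_le _) hd⟩
    refine h1.congr (5 + M) fun p hp hpM => ?_
    have hbig : ∀ d ∈ Dl W, ¬ p ∣ d.natAbs := by
      intro d hd hdvd
      have h0 : 0 < d.natAbs := by
        rw [Int.natAbs_pos]
        rcases Dl_cases hd hW with h2 | ⟨q, hq, h2⟩
        · rw [h2]; norm_num
        · rw [h2]
          exact_mod_cast hq.ne_zero
      have := Nat.le_of_dvd h0 hdvd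
      have := hM d hd
      omega
    obtain ⟨h2, h3⟩ := prod_eval hp hbig
    have hpow : (2 : ℝ) ^ (Dl W).card ≠ 0 := by positivity
    by_cases hCl : Cl W p
    · rw [h2 hCl]
      by_cases h5 : p % 5 = 1
      · by_cases hroot : ∃ t : ZMod p, t ^ 5 = 2
        · rw [rho_five hp h5 hroot, if_pos ⟨hCl, h5⟩, if_neg (fun h => h.2.2 hroot)]
          field_simp
          norm_num
        · rw [rho_zero hroot, if_pos ⟨hCl, h5⟩, if_pos ⟨hCl, h5, hroot⟩]
          field_simp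
          norm_num
      · rw [rho_one hp h5 (by omega), if_neg (fun h => h5 h.2), if_neg (fun h => h5 h.2.1)]
        simp
    · rw [h3 hCl, if_neg (fun h => hCl h.1), if_neg (fun h => hCl h.1)]
      simp
  have hlow : ∀ Z : ℕ, piAP Z (40 * ∏ s ∈ W, s) a ≤
      (((Icc 1 Z).filter (fun p => p.Prime ∧ Q1 p)).card : ℝ) := by
    intro Z
    unfold piAP
    have : (Icc 1 Z).filter (fun p => p.Prime ∧ p ≡ a [MOD 40 * ∏ s ∈ W, s]) ⊆
        (Icc 1 Z).filter (fun p => p.Prime ∧ Q1 p) := by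
      intro p hp
      rw [mem_filter] at hp ⊢
      refine ⟨hp.1, hp.2.1, ?_⟩
      have h40 : p ≡ a [MOD 40] := hp.2.2.of_dvd (Nat.dvd_mul_right _ _)
      have h1 : p % 40 = a % 40 := h40
      refine ⟨Cl_of hW (by omega) fun s hs => ?_, by omega⟩
      have h2 : p ≡ a [MOD s] := hp.2.2.of_dvd ((dvd_prod_of_mem _ hs).mul_left _)
      have h3 : ((p : ℤ) % (s : ℤ)) = ((a : ℤ) % (s : ℤ)) := by exact_mod_cast h2
      rw [jacobiSym.mod_left' h3]
      exact haW s hs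
    exact_mod_cast card_le_card this
  refine ⟨c / 5, by positivity, ?_⟩
  have hev := hmean.eventually (eventually_lt_nhds (show (0 : ℝ) < c by exact hc))
  filter_upwards [hev, hap, pi1_ge, pc_tendsto.eventually_gt_atTop 0, eventually_ge_atTop 3]
    with Z h1 h2 h3 h4 hZ
  rw [sum_sub_distrib, ← mul_sum, ← mul_sum, card_indicator Q1 Z, card_indicator Q2 Z,
    div_lt_iff₀ h4, ← pi1_eq] at h1
  have h5 := hlow Z
  have hx0 : (0 : ℝ) < Z := by
    have : 0 < Z := by omega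
    exact_mod_cast this
  have hlog : 0 < Real.log Z := Real.log_pos (by
    have : 1 < Z := by omega
    exact_mod_cast this)
  have h6 : (Z : ℝ) / Real.log Z = 2 * (Z / (2 * Real.log Z)) := by
    field_simp
  have h7 : c / 5 * ((Z : ℝ) / Real.log Z) ≤ c / 5 * (2 * pi1 Z) := by
    rw [h6]
    gcongr
  have h8 : 3 * (c * pi1 Z) ≤ 5 * (((Icc 1 Z).filter (fun p => p.Prime ∧ Q2 p)).card : ℝ) := by
    linarith
  have h9 : 0 ≤ c * pi1 Z := by
    have : 0 ≤ pi1 Z := by unfold pi1; positivity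
    positivity
  refine h7.trans ?_
  linarith

end Run7.h499
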