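import Mathlib
import Pool.Agent.Run7.h499.Classes

set_option autoImplicit false

/-! # One further prime in the tower -/

namespace Run7.h499

open Finset

/-- a prime whose order of two meets the orders of the tower in the prime five -/
structure PGood (k p : ℕ) : Prop where
  prime : p.Prime
  odd : Odd (orderOf (2 : ZMod p))
  five : 5 ∣ orderOf (2 : ZMod p)
  three : (orderOf (2 : ZMod p)).Coprime 3
  seven : (orderOf (2 : ZMod p)).Coprime 7
  cop : ∀ i < k, (orderOf (2 : ZMod p)).Coprime (lp i) ∧ (orderOf (2 : ZMod p)).Coprime (pp i)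
  ne : ∀ i < k, p ≠ pp i

theorem ne_two_of_odd' {p : ℕ} (ho : Odd (orderOf (2 : ZMod p))) : p ≠ 2 := by
  rintro rfl
  have : orderOf (2 : ZMod 2) = 0 := by
    have : (2 : ZMod 2) = 0 := rfl
    rw [this]
    exact orderOf_zero _
  rw [this] at ho
  exact absurd ho (by decide)

theorem ord_one : orderOf (2 : ZMod 1) = 1 := by
  rw [orderOf_eq_one_iff]
  exact Subsingleton.elim _ _

theorem five_dvd_ord {a : ℕ → ℕ} {k d : ℕ} (h : d ∣ MM a k) (h1 : d ≠ 1) :
    5 ∣ orderOf (2 : ZMod d) := by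
  obtain ⟨q, hq, hqd⟩ := Nat.exists_prime_and_dvd h1
  have h2 : q ∣ MM a k := hqd.trans h
  unfold MM at h2
  rw [Prime.dvd_finsetProd_iff hq.prime] at h2
  obtain ⟨i, _, hi⟩ := h2
  have h3 := (Nat.prime_dvd_prime_iff_eq hq (pp_prime i)).1 (hq.dvd_of_dvd_pow hi)
  rw [h3] at hqd
  refine Dvd.dvd.trans ?_ (ord_dvd_of_dvd hqd)
  rw [ord_pp]
  exact ⟨7 ^ i * lp i, by ring⟩

theorem five_FD (a : ℕ → ℕ) (k w : ℕ) :
    FD (5 * 7 ^ w) (MM a k) + 4 = 5 * FD (7 ^ w) (MM a k) := by
  have hM0 : MM a k ≠ 0 := by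
    have := odd_MM a k
    intro h
    rw [h] at this
    exact absurd this (by decide)
  unfold FD
  rw [mul_sum, ← add_sum_erase _ _ (Nat.one_mem_divisors.2 hM0),
    ← add_sum_erase _ (fun i => 5 * (idx i * (orderOf (2 : ZMod i)).gcd (7 ^ w)))
      (Nat.one_mem_divisors.2 hM0)]
  have h1 : ∑ d ∈ (MM a k).divisors.erase 1, idx d * (orderOf (2 : ZMod d)).gcd (5 * 7 ^ w) =
      ∑ d ∈ (MM a k).divisors.erase 1, 5 * (idx d * (orderOf (2 : ZMod d)).gcd (7 ^ w)) := by
    refine sum_congr rfl fun d hd => ?_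
    rw [mem_erase, Nat.mem_divisors] at hd
    have h5 := five_dvd_ord hd.2.1 hd.1
    have hc : Nat.Coprime 5 (7 ^ w) := Nat.Coprime.pow_right _ (by norm_num)
    rw [Nat.Coprime.gcd_mul _ hc, Nat.gcd_eq_right h5]
    ring
  rw [h1, ord_one, idx_one]
  simp only [Nat.gcd_one_left, mul_one]
  ring

variable {a : ℕ → ℕ} {k p : ℕ}

theorem PGood.gcd_eq (h : PGood k p) {d : ℕ} (hd : d ∣ MM a k) :
    Nat.gcd (orderOf (2 : ZMod d)) (orderOf (2 : ZMod p)) = Nat.gcd (orderOf (2 : ZMod d)) 5 := by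
  have h1 := ord_dvd_MM hd
  have hc : (7 ^ k * TTk a k).Coprime (orderOf (2 : ZMod p)) := by
    apply Nat.Coprime.symm
    apply Nat.Coprime.mul_right
    · exact h.seven.pow_right _
    · exact coprime_TTk a k _ h.cop
  apply Nat.dvd_antisymm
  · apply Nat.dvd_gcd (Nat.gcd_dvd_left _ _)
    have h2 : Nat.gcd (orderOf (2 : ZMod d)) (orderOf (2 : ZMod p)) ∣ 5 * (7 ^ k * TTk a k) := by
      rw [← mul_assoc]
      exact (Nat.gcd_dvd_left _ _).trans h1
    exact Nat.Coprime.dvd_of_dvd_mul_right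
      (Nat.Coprime.coprime_dvd_left (Nat.gcd_dvd_right _ _) hc.symm) h2
  · exact Nat.dvd_gcd (Nat.gcd_dvd_left _ _) ((Nat.gcd_dvd_right _ _).trans h.five)

theorem PGood.coprime_MM (h : PGood k p) : (MM a k).Coprime p := by
  apply Nat.Coprime.symm
  apply Run7.h499.coprime_MM
  intro i hi
  rw [Nat.coprime_primes h.prime (pp_prime i)]
  exact h.ne i hi

theorem three_coprime {d : ℕ} (hd : d ∣ MM a k) : (orderOf (2 : ZMod d)).Coprime 3 := by
  apply Nat.Coprime.coprime_dvd_left (ord_dvd_MM hd)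
  apply Nat.Coprime.mul_left
  · exact Nat.Coprime.mul_left (by norm_num) (Nat.Coprime.pow_left _ (by norm_num))
  · apply Nat.Coprime.symm
    apply coprime_TTk
    intro i _
    exact small_coprime (q := 3) (by norm_num) (by norm_num) i

/-- the effect of the further prime -/
theorem PGood.FD_mul (h : PGood k p) (w : ℕ) {x : ℕ} (hx : x = 7 ^ w ∨ x = 7 ^ w * 3) :
    FD x (MM a k * p) + 4 * idx p = (1 + 5 * idx p) * FD (7 ^ w) (MM a k) := by
  have hodd := h.prime.odd_of_ne_two (ne_two_of_odd' h.odd)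
  have h1 := FD_mul_pow x 1 (odd_MM a k) h.prime hodd h.coprime_MM
  rw [pow_one, range_one, sum_singleton, zero_add, pow_one] at h1
  have hcx : (orderOf (2 : ZMod p)).Coprime x := by
    rcases hx with rfl | rfl
    · exact h.seven.pow_right _
    · exact Nat.Coprime.mul_right (h.seven.pow_right _) h.three
  have hgx : ∀ d ∈ (MM a k).divisors, Nat.gcd (orderOf (2 : ZMod d)) x =
      Nat.gcd (orderOf (2 : ZMod d)) (7 ^ w) := by
    intro d hd
    have hd1 : d ∣ MM a k := (Nat.mem_divisors.1 hd).1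
    rcases hx with rfl | rfl
    · rfl
    · exact (three_coprime hd1).symm.gcd_mul_right_cancel_right _
  have h2 : ∑ d ∈ (MM a k).divisors, idx d * idx p *
      (orderOf (2 : ZMod d)).gcd (orderOf (2 : ZMod p)) *
      ((orderOf (2 : ZMod d)).lcm (orderOf (2 : ZMod p))).gcd x =
      idx p * FD (5 * 7 ^ w) (MM a k) := by
    unfold FD
    rw [mul_sum]
    refine sum_congr rfl fun d hd => ?_
    have hd1 : d ∣ MM a k := (Nat.mem_divisors.1 hd).1
    have e1 : ((orderOf (2 : ZMod d)).lcm (orderOf (2 : ZMod p))).gcd x =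
        (orderOf (2 : ZMod d)).gcd x := by
      apply gcd_squeeze (T := orderOf (2 : ZMod p)) (Nat.dvd_lcm_left _ _)
      · apply Nat.lcm_dvd (Nat.dvd_mul_right _ _) (Nat.dvd_mul_left _ _)
      · exact hcx
    have hc : Nat.Coprime 5 (7 ^ w) := Nat.Coprime.pow_right _ (by norm_num)
    rw [e1, hgx d hd, h.gcd_eq hd1, Nat.Coprime.gcd_mul _ hc]
    ring
  have h3 : FD x (MM a k) = FD (7 ^ w) (MM a k) := by
    unfold FD
    refine sum_congr rfl fun d hd => ?_
    rw [hgx d hd]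
  have h4 := five_FD a k w
  rw [h1, h2, h3]
  have h5 : (1 + 5 * idx p) * FD (7 ^ w) (MM a k) =
      FD (7 ^ w) (MM a k) + idx p * (5 * FD (7 ^ w) (MM a k)) := by ring
  rw [h5, ← h4]
  ring

/-- the modified system -/
def modU (I : ℕ) (U : ℕ → ℕ) : ℕ → ℕ := fun i => if i = 0 then I + U 0 + 5 * I * U 0 else U i

theorem PP_modU (I : ℕ) (U : ℕ → ℕ) (k : ℕ) :
    PP (modU I U) (k + 1) = (1 + 5 * I) * PP U (k + 1) := by
  induction k with
  | zero =>
    simp only [PP, modU, if_true]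
    ring
  | succ k ih =>
    rw [PP, ih, PP.eq_2 U (k + 1)]
    have : modU I U (k + 1) = U (k + 1) := by
      unfold modU
      rw [if_neg (by omega)]
    rw [this]
    ring

theorem GG_modU (I : ℕ) (U : ℕ → ℕ) (w k : ℕ) :
    GG (modU I U) w (k + 1) + 4 * I = (1 + 5 * I) * GG U w (k + 1) := by
  induction k with
  | zero =>
    simp only [GG, PP, modU, if_true]
    simp
    ring
  | succ k ih =>
    rw [GG, PP_modU, GG.eq_2 U w (k + 1), mul_add, ← ih]
    have : modU I U (k + 1) = U (k + 1) := by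
      unfold modU
      rw [if_neg (by omega)]
    rw [this]
    ring

/-- the number of orbits for `N = 7 ^ c * p * ∏ p_i ^ a_i` -/
theorem PGood.cc_tower (h : PGood (k + 1) p) (c : ℕ) :
    cc (MM a (k + 1) * p * 7 ^ c) + 1 =
      GG (modU (idx p) (fun i => uu (pp i) (a i))) 0 (k + 1) +
      2 * ∑ w ∈ range c, GG (modU (idx p) (fun i => uu (pp i) (a i))) w (k + 1) := by
  have hodd := h.prime.odd_of_ne_two (ne_two_of_odd' h.odd)
  have h7p : p ≠ 7 := by
    rintro rfl
    have h1 := h.three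
    rw [good7.ord_one] at h1
    norm_num at h1
  have hMp : Odd (MM a (k + 1) * p) := (odd_MM a (k + 1)).mul hodd
  have h7 : (MM a (k + 1) * p).Coprime 7 := by
    apply Nat.Coprime.mul_left
    · apply Nat.Coprime.symm
      apply Run7.h499.coprime_MM
      intro i _
      exact (small_coprime (q := 7) (by norm_num) (by norm_num) i).2
    · rw [Nat.coprime_primes h.prime (by norm_num)]
      exact h7p
  have hne : MM a (k + 1) * p ≠ 0 := by
    intro h
    rw [h] at hMp
    exact absurd hMp (by decide)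
  have key : ∀ w x : ℕ, (x = 7 ^ w ∨ x = 7 ^ w * 3) → FD x (MM a (k + 1) * p) =
      GG (modU (idx p) (fun i => uu (pp i) (a i))) w (k + 1) := by
    intro w x hx
    have h1 := h.FD_mul (a := a) w hx
    have h2 := GG_modU (idx p) (fun i => uu (pp i) (a i)) w k
    rw [FD_GG] at h1
    omega
  rw [cc_add_one (mul_ne_zero hne (by positivity)), ← FD_one_eq,
    FD_mul_pow 1 c hMp (by norm_num) (by decide) h7, mul_sum]
  have e0 : FD 1 (MM a (k + 1) * p) =
      GG (modU (idx p) (fun i => uu (pp i) (a i))) 0 (k + 1) := key 0 1 (Or.inl (by norm_num))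
  rw [e0]
  congr 1
  refine sum_congr rfl fun b _ => ?_
  rw [← key b (7 ^ b * 3) (Or.inr rfl)]
  unfold FD
  rw [mul_sum]
  refine sum_congr rfl fun d _ => ?_
  have e1 : idx (7 ^ (b + 1)) = 2 := good7.idx b
  rw [e1, ord7, Nat.gcd_one_right, mul_one]
  ring

theorem PGood.odd_orders (h : PGood k p) (c q : ℕ) (hq : q.Prime)
    (hd : q ∣ MM a k * p * 7 ^ c) : Odd (orderOf (2 : ZMod q)) := by
  rcases (Nat.Prime.dvd_mul hq).1 hd with h1 | h1
  · rcases (Nat.Prime.dvd_mul hq).1 h1 with h1 | h1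
    · exact Run7.h499.odd_orders a k 0 q hq (h1.mul_right _)
    · rw [(Nat.prime_dvd_prime_iff_eq hq h.prime).1 h1]
      exact h.odd
  · rw [(Nat.prime_dvd_prime_iff_eq hq (by norm_num)).1 (hq.dvd_of_dvd_pow h1), good7.ord_one]
    decide

theorem PGood.idx_even (h : PGood k p) : 2 ∣ idx p := by
  apply Run7.h499.idx_even (h.prime.odd_of_ne_two (ne_two_of_odd' h.odd)) h.prime.one_lt.ne' h.odd

theorem PGood.S_system (h : PGood (k + 1) p) (s : ℕ) :
    S ((MM a (k + 1) * p * 7 ^ (k + 1 + s) + 1) / 2) =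
      2 ^ (RR (modU (idx p) (fun i => uu (pp i) (a i))) (k + 1) +
        s * ll (modU (idx p) (fun i => uu (pp i) (a i))) (k + 1)) := by
  have hodd := h.prime.odd_of_ne_two (ne_two_of_odd' h.odd)
  apply S_of_cc (((odd_MM a (k + 1)).mul hodd).mul (Odd.pow (by decide))) (h.odd_orders (k + 1 + s))
  have h1 := h.cc_tower (a := a) (k + 1 + s)
  rw [sum_GG] at h1
  have h2 := two_RR (modU (idx p) (fun i => uu (pp i) (a i))) (by
    have hU : ∀ i, 2 ∣ uu (pp i) (a i) := fun i =>
      uu_even (pp_prime i) (odd_pp i) (odd_ord_pp i) (a i)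
    intro i
    unfold modU
    split_ifs
    · exact (h.idx_even.add (hU 0)).add ((hU 0).mul_left _)
    · exact hU i) (k + 1)
  unfold HH at h2
  have h3 : 2 * (∑ w ∈ range (k + 1), GG (modU (idx p) (fun i => uu (pp i) (a i))) w (k + 1) +
      s * ll (modU (idx p) (fun i => uu (pp i) (a i))) (k + 1)) =
      2 * ∑ w ∈ range (k + 1), GG (modU (idx p) (fun i => uu (pp i) (a i))) w (k + 1) +
      2 * (s * ll (modU (idx p) (fun i => uu (pp i) (a i))) (k + 1)) := by ring
  omega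

theorem RR_congr {U V : ℕ → ℕ} {k : ℕ} (h : ∀ i < k, U i = V i) : RR U k = RR V k := by
  have hPP : ∀ j ≤ k, PP U j = PP V j := by
    intro j hj
    rw [PP_eq_prod, PP_eq_prod]
    refine prod_congr rfl fun i hi => ?_
    rw [h i (by have := mem_range.1 hi; omega)]
  have hGG : ∀ w, ∀ j ≤ k, GG U w j = GG V w j := by
    intro w j
    induction j with
    | zero => intro _; rfl
    | succ j ih =>
      intro hj
      rw [GG, GG, ih (by omega), hPP j (by omega), h j (by omega)]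
  unfold RR HH
  rw [hGG 0 k le_rfl, sum_congr rfl (fun w _ => hGG w k le_rfl)]

/-- many lengths for one exponent -/
theorem many_lengths (U : ℕ → ℕ) (k e l I f : ℕ) (P : Finset ℕ)
    (hP : ∀ p ∈ P, PGood (k + 1) p ∧ idx p = I)
    (hU0 : 1 + 5 * U 0 = (1 + 5 * I) * (1 + 10 * f))
    (hU : ∀ i < k + 1, ∃ a, uu (pp i) a = U i)
    (hl : ll U (k + 1) = l) (he : e % l = RR U (k + 1) % l) (hbig : (k + 2) * l ≤ e) :
    (P.card : ℕ∞) ≤ {n : ℕ | S n = 2 ^ e}.encard := by
  classical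
  have hU' : ∀ i, ∃ a, (i < k + 1 → i ≠ 0 → uu (pp i) a = U i) ∧ (i = 0 → a = f) := by
    intro i
    by_cases hi : i < k + 1
    · by_cases h0 : i = 0
      · exact ⟨f, fun _ h => absurd h0 h, fun _ => rfl⟩
      · obtain ⟨a, ha⟩ := hU i hi
        exact ⟨a, fun _ _ => ha, fun h => absurd h h0⟩
    · exact ⟨0, fun h => absurd h hi, fun h => by omega⟩
  choose a ha using hU'
  have hmod : ∀ i < k + 1, modU I (fun i => uu (pp i) (a i)) i = U i := by
    intro i hi
    unfold modU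
    by_cases h0 : i = 0
    · rw [if_pos h0, h0]
      have h1 : a 0 = f := (ha 0).2 rfl
      have h2 : uu (pp 0) (a 0) = 2 * f := by rw [pp_zero, uu_good good191, h1]
      simp only [h2]
      have h3 : (1 + 5 * I) * (1 + 10 * f) = 1 + 5 * (I + 2 * f + 5 * I * (2 * f)) := by ring
      omega
    · rw [if_neg h0]
      exact (ha i).1 hi h0
  have hll : ll (modU I (fun i => uu (pp i) (a i))) (k + 1) = l := by
    rw [← hl]
    exact ll_congr hmod
  have hRR : RR (modU I (fun i => uu (pp i) (a i))) (k + 1) = RR U (k + 1) := RR_congr hmod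
  have h1 : RR U (k + 1) ≤ e := by
    have h3 := RR_le U (k + 1)
    rw [hl] at h3
    exact h3.trans hbig
  obtain ⟨s, hs⟩ : ∃ s, e = RR U (k + 1) + s * l := by
    have h2 : RR U (k + 1) ≡ e [MOD l] := he.symm
    obtain ⟨s, hs⟩ := (Nat.modEq_iff_dvd' h1).1 h2
    exact ⟨s, by rw [mul_comm]; omega⟩
  have hmem : ∀ p ∈ P, S ((MM a (k + 1) * p * 7 ^ (k + 1 + s) + 1) / 2) = 2 ^ e ∧
      Odd (MM a (k + 1) * p * 7 ^ (k + 1 + s)) := by
    intro p hp
    obtain ⟨h2, h3⟩ := hP p hp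
    have h4 := h2.S_system (a := a) s
    rw [h3, hRR, hll, ← hs] at h4
    exact ⟨h4, ((odd_MM a (k + 1)).mul (h2.prime.odd_of_ne_two (ne_two_of_odd' h2.odd))).mul
      (Odd.pow (by decide))⟩
  have hinj : Set.InjOn (fun p => (MM a (k + 1) * p * 7 ^ (k + 1 + s) + 1) / 2) (P : Set ℕ) := by
    intro p hp q hq hpq
    rw [mem_coe] at hp hq
    obtain ⟨m1, hm1⟩ := (hmem p hp).2
    obtain ⟨m2, hm2⟩ := (hmem q hq).2
    simp only at hpq
    have h2 : MM a (k + 1) * p * 7 ^ (k + 1 + s) = MM a (k + 1) * q * 7 ^ (k + 1 + s) := by omega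
    have h3 := Nat.eq_of_mul_eq_mul_right (show 0 < 7 ^ (k + 1 + s) by positivity) h2
    exact Nat.eq_of_mul_eq_mul_left (odd_MM a (k + 1)).pos h3
  rw [← card_image_of_injOn hinj, ← Set.encard_coe_eq_coe_finsetCard]
  apply Set.encard_le_encard
  intro m hm
  rw [mem_coe, mem_image] at hm
  obtain ⟨p, hp, rfl⟩ := hm
  exact (hmem p hp).1

end Run7.h499
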