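import Mathlib
import Pool.Agent.Run7.h499.KumDens
import Pool.Agent.Run7.h499.TowerP
import Pool.Agent.Run7.h499.Many

set_option autoImplicit false

/-! # Popular indices -/

namespace Run7.h499

open Finset Filter Topology
open H343E (piAP pi1)

/-- the primes to avoid -/
noncomputable def WT (k : ℕ) : Finset ℕ :=
  insert 3 (insert 7 ((range k).image lp ∪ (range k).image pp))

theorem WT_spec (k : ℕ) : ∀ s ∈ WT k, s.Prime ∧ s ≠ 2 ∧ s ≠ 5 := by
  intro s hs
  unfold WT at hs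
  rw [mem_insert, mem_insert, mem_union, mem_image, mem_image] at hs
  rcases hs with h | h | ⟨i, _, h⟩ | ⟨i, _, h⟩
  · rw [h]; norm_num
  · rw [h]; norm_num
  · rw [← h]
    have := lp_ge i
    exact ⟨lp_prime i, by omega, by omega⟩
  · rw [← h]
    have := pp_ge i
    exact ⟨pp_prime i, by omega, by omega⟩

theorem pgood_of_class {k p : ℕ} (hp : p.Prime) (hCl : Cl (WT k) p) (h5 : p % 5 = 1)
    (hr : ¬ ∃ t : ZMod p, t ^ 5 = 2) : PGood k p := by
  have hfact : Fact p.Prime := ⟨hp⟩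
  have hp2 : p ≠ 2 := by
    rintro rfl
    norm_num at h5
  have hodd : Odd p := hp.odd_of_ne_two hp2
  have h8 := Cl_eight hodd hCl
  have ho := odd_ord_of_seven hp h8
  have h20 : (2 : ZMod p) ≠ 0 := by
    intro h
    have h1 : ((2 : ℕ) : ZMod p) = 0 := by exact_mod_cast h
    rw [ZMod.natCast_eq_zero_iff] at h1
    exact hp2 ((Nat.prime_dvd_prime_iff_eq hp Nat.prime_two).1 h1)
  have hdvd : orderOf (2 : ZMod p) ∣ p - 1 := ZMod.orderOf_dvd_card_sub_one h20
  have hcop : ∀ s ∈ WT k, (orderOf (2 : ZMod p)).Coprime s := by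
    intro s hs
    rw [Nat.coprime_comm, Nat.Prime.coprime_iff_not_dvd (WT_spec k s hs).1]
    intro h
    exact Cl_res (WT_spec k) hodd hCl hs (h.trans hdvd)
  have hmem1 : ∀ i < k, lp i ∈ WT k := by
    intro i hi
    unfold WT
    exact mem_insert_of_mem (mem_insert_of_mem (mem_union_left _
      (mem_image_of_mem _ (mem_range.2 hi))))
  have hmem2 : ∀ i < k, pp i ∈ WT k := by
    intro i hi
    unfold WT
    exact mem_insert_of_mem (mem_insert_of_mem (mem_union_right _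
      (mem_image_of_mem _ (mem_range.2 hi))))
  refine ⟨hp, ho, ?_, ?_, ?_, ?_, ?_⟩
  · by_contra hcon
    apply hr
    have hc : Nat.Coprime 5 (orderOf (2 : ZMod p)) :=
      (Nat.Prime.coprime_iff_not_dvd (by norm_num)).2 hcon
    have h1 : 1 < orderOf (2 : ZMod p) := by
      have h2 : 0 < orderOf (2 : ZMod p) := ord_pos hodd
      have h3 : orderOf (2 : ZMod p) ≠ 1 := by
        rw [Ne, orderOf_eq_one_iff]
        intro h
        have h4 : ((1 : ℕ) : ZMod p) = 0 := by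
          have : (2 : ZMod p) - 1 = 0 := by rw [h, sub_self]
          calc ((1 : ℕ) : ZMod p) = 2 - 1 := by norm_num
            _ = 0 := this
        rw [ZMod.natCast_eq_zero_iff] at h4
        exact hp.one_lt.ne' (Nat.dvd_one.1 h4)
      omega
    obtain ⟨m, _, hm⟩ := Nat.exists_mul_mod_eq_one_of_coprime hc h1
    refine ⟨2 ^ m, ?_⟩
    rw [← pow_mul, mul_comm, ← pow_mod_orderOf, hm, pow_one]
  · exact hcop 3 (by unfold WT; exact mem_insert_self _ _)
  · exact hcop 7 (by unfold WT; exact mem_insert_of_mem (mem_insert_self _ _))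
  · exact fun i hi => ⟨hcop _ (hmem1 i hi), hcop _ (hmem2 i hi)⟩
  · intro i hi h
    have h1 := hCl (pp i) (by
      unfold Dl
      exact mem_insert_of_mem (mem_insert_of_mem (mem_image_of_mem _ (hmem2 i hi))))
    have : NeZero p := ⟨hp.ne_zero⟩
    have h2 : jacobiSym ((pp i : ℕ) : ℤ) p = 0 := by
      rw [jacobiSym.eq_zero_iff_not_coprime, Int.gcd_natCast_natCast, ← h, Nat.gcd_self]
      exact hp.one_lt.ne'
    unfold Jr at h1
    rw [h2] at h1
    norm_num at h1

/-- few primes with small order -/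
theorem small_ord (R Z : ℕ) :
    ((Icc 1 Z).filter (fun p => (p.Prime ∧ p ≠ 2) ∧ orderOf (2 : ZMod p) ≤ R)).card ≤ R ^ 2 := by
  set n : ℕ := ∏ m ∈ Icc 1 R, (2 ^ m - 1) with hn
  have hn0 : n ≠ 0 := by
    rw [hn, prod_ne_zero_iff]
    intro m hm
    rw [mem_Icc] at hm
    have : 2 ^ 1 ≤ 2 ^ m := Nat.pow_le_pow_right (by norm_num) hm.1
    omega
  have hsub : (Icc 1 Z).filter (fun p => (p.Prime ∧ p ≠ 2) ∧ orderOf (2 : ZMod p) ≤ R) ⊆
      n.primeFactors := by
    intro p hp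
    rw [mem_filter] at hp
    obtain ⟨_, ⟨hp1, hp2⟩, hp3⟩ := hp
    rw [Nat.mem_primeFactors]
    refine ⟨hp1, ?_, hn0⟩
    have ho := ord_pos (hp1.odd_of_ne_two hp2)
    have h1 : p ∣ 2 ^ orderOf (2 : ZMod p) - 1 := (orderOf_dvd_iff p _).1 dvd_rfl
    exact h1.trans (dvd_prod_of_mem (fun m => 2 ^ m - 1) (mem_Icc.2 ⟨ho, hp3⟩))
  have h1 : 2 ^ n.primeFactors.card ≤ 2 ^ R ^ 2 := by
    calc 2 ^ n.primeFactors.card ≤ ∏ p ∈ n.primeFactors, p := by
          rw [← prod_const]
          exact prod_le_prod' fun p hp => (Nat.prime_of_mem_primeFactors hp).two_le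
      _ ≤ n := Nat.le_of_dvd (Nat.pos_of_ne_zero hn0) (Nat.prod_primeFactors_dvd n)
      _ ≤ ∏ m ∈ Icc 1 R, 2 ^ R := by
          rw [hn]
          apply prod_le_prod'
          intro m hm
          rw [mem_Icc] at hm
          exact (Nat.sub_le _ _).trans (Nat.pow_le_pow_right (by norm_num) hm.2)
      _ = 2 ^ R ^ 2 := by
          rw [prod_const, Nat.card_Icc, ← pow_mul]
          congr 1
          rw [Nat.add_sub_cancel, sq]
  have h2 := (Nat.pow_le_pow_iff_right (by norm_num : 1 < 2)).1 h1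
  exact (card_le_card hsub).trans h2

open Classical in
/-- the counted primes -/
noncomputable def PC (k Z : ℕ) (κ : ℝ) : Finset ℕ :=
  (Icc 1 Z).filter (fun p => PGood k p ∧ (idx p : ℝ) ≤ (Z : ℝ) ^ κ)

/-- many primes of index at most `Z ^ κ` -/
def HK (κ : ℝ) (k : ℕ) : Prop :=
  ∃ c : ℝ, 0 < c ∧ ∀ᶠ Z : ℕ in atTop, c * (Z / Real.log Z) ≤ ((PC k Z κ).card : ℝ)

theorem idx_ord_prime {p : ℕ} (hp : p.Prime) (hodd : Odd p) :
    idx p * orderOf (2 : ZMod p) = p - 1 := by
  rw [idx_mul_ord hodd, Nat.totient_prime hp]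

theorem HK_trivial (η : ℝ) (hη : 0 < η) (k : ℕ) : HK (1 / 2 + η) k := by
  classical
  obtain ⟨c, hc, h⟩ := kum_class (WT_spec k)
  refine ⟨c / 2, by positivity, ?_⟩
  filter_upwards [h, logpow_le (2 / c) 1 (2 * η) (by positivity), eventually_ge_atTop 3]
    with Z h1 h2 hZ
  have hx0 : (0 : ℝ) < Z := by
    have : 0 < Z := by omega
    exact_mod_cast this
  have hlog : 0 < Real.log Z := Real.log_pos (by
    have : 1 < Z := by omega
    exact_mod_cast this)
  set R := ⌊(Z : ℝ) ^ (1 / 2 - η)⌋₊ with hR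
  have hsub : (Icc 1 Z).filter (fun p => p.Prime ∧ (Cl (WT k) p ∧ p % 5 = 1 ∧
        ¬ ∃ t : ZMod p, t ^ 5 = 2)) ⊆ PC k Z (1 / 2 + η) ∪
      (Icc 1 Z).filter (fun p => (p.Prime ∧ p ≠ 2) ∧ orderOf (2 : ZMod p) ≤ R) := by
    intro p hp
    rw [mem_filter, mem_Icc] at hp
    obtain ⟨hpZ, hpp, hCl, h5, hr⟩ := hp
    have hg := pgood_of_class hpp hCl h5 hr
    have hodd := hpp.odd_of_ne_two (ne_two_of_odd' hg.odd)
    rw [mem_union]
    by_cases hi : (idx p : ℝ) ≤ (Z : ℝ) ^ (1 / 2 + η)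
    · left
      unfold PC
      rw [mem_filter, mem_Icc]
      exact ⟨hpZ, hg, hi⟩
    · right
      rw [mem_filter, mem_Icc]
      refine ⟨hpZ, ⟨hpp, ne_two_of_odd' hg.odd⟩, ?_⟩
      rw [hR]
      apply Nat.le_floor
      rw [not_le] at hi
      have h3 : ((idx p * orderOf (2 : ZMod p) : ℕ) : ℝ) ≤ Z := by
        rw [idx_ord_prime hpp hodd]
        exact_mod_cast (Nat.sub_le _ _).trans hpZ.2
      push_cast at h3
      have hpos : (0 : ℝ) < (Z : ℝ) ^ (1 / 2 + η) := by positivity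
      have h4 : (Z : ℝ) ^ (1 / 2 + η) * (orderOf (2 : ZMod p) : ℝ) ≤ Z :=
        (mul_le_mul_of_nonneg_right hi.le (Nat.cast_nonneg _)).trans h3
      have h5 : (Z : ℝ) ^ (1 / 2 + η) * (Z : ℝ) ^ (1 / 2 - η) = Z := by
        rw [← Real.rpow_add hx0]
        norm_num
      have h6 : (Z : ℝ) ^ (1 / 2 + η) * (orderOf (2 : ZMod p) : ℝ) ≤
          (Z : ℝ) ^ (1 / 2 + η) * (Z : ℝ) ^ (1 / 2 - η) := by
        rw [h5]
        exact h4
      exact le_of_mul_le_mul_left h6 hpos
  have h3 := (card_le_card hsub).trans (card_union_le _ _)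
  have h4 := small_ord R Z
  have h5 : ((R ^ 2 : ℕ) : ℝ) ≤ (c / 2) * (Z / Real.log Z) := by
    have h6 : (R : ℝ) ≤ (Z : ℝ) ^ (1 / 2 - η) := Nat.floor_le (by positivity)
    rw [pow_one, div_mul_eq_mul_div, div_le_iff₀ hc] at h2
    calc ((R ^ 2 : ℕ) : ℝ) = (R : ℝ) ^ 2 := by push_cast; ring
      _ ≤ ((Z : ℝ) ^ (1 / 2 - η)) ^ 2 := by gcongr
      _ = (Z : ℝ) ^ (1 - 2 * η) := by
          rw [← Real.rpow_natCast, ← Real.rpow_mul hx0.le]
          congr 1
          push_cast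
          ring
      _ ≤ _ := by
          have h7 : (Z : ℝ) = (Z : ℝ) ^ (1 - 2 * η) * (Z : ℝ) ^ (2 * η) := by
            rw [← Real.rpow_add hx0]
            norm_num
          have h8 : (c / 2) * (Z / Real.log Z) = (Z : ℝ) * c / (2 * Real.log Z) := by
            field_simp
          rw [h8, le_div_iff₀ (by positivity)]
          calc (Z : ℝ) ^ (1 - 2 * η) * (2 * Real.log Z) ≤
              (Z : ℝ) ^ (1 - 2 * η) * ((Z : ℝ) ^ (2 * η) * c) := by gcongr
            _ = (Z : ℝ) ^ (1 - 2 * η) * (Z : ℝ) ^ (2 * η) * c := by ring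
            _ = Z * c := by rw [← h7]
  have h6 : (((Icc 1 Z).filter (fun p => p.Prime ∧ (Cl (WT k) p ∧ p % 5 = 1 ∧
        ¬ ∃ t : ZMod p, t ^ 5 = 2))).card : ℝ) ≤ ((PC k Z (1 / 2 + η)).card : ℝ) +
      ((R ^ 2 : ℕ) : ℝ) := by
    exact_mod_cast h3.trans (Nat.add_le_add_left h4 _)
  have h7 : c * ((Z : ℝ) / Real.log Z) = 2 * (c / 2 * (Z / Real.log Z)) := by ring
  linarith

open Classical in
/-- the primes with given index -/
noncomputable def PI (k Z I : ℕ) : Finset ℕ :=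
  (Icc 1 Z).filter (fun p => PGood k p ∧ idx p = I)

theorem PI_card_le (k Z I : ℕ) (hI : 1 ≤ I) : ((PI k Z I).card : ℝ) ≤ Z / I := by
  classical
  have h1 : (PI k Z I).card ≤ (Icc 1 (Z / I)).card := by
    apply card_le_card_of_injOn (fun p => (p - 1) / I)
    · intro p hp
      unfold PI at hp
      rw [mem_coe, mem_filter, mem_Icc] at hp
      obtain ⟨⟨_, hpZ⟩, hg, hi⟩ := hp
      have hodd := hg.prime.odd_of_ne_two (ne_two_of_odd' hg.odd)
      have h2 := idx_ord_prime hg.prime hodd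
      rw [hi] at h2
      rw [mem_coe, mem_Icc]
      constructor
      · rw [Nat.one_le_div_iff (by omega)]
        apply Nat.le_of_dvd
        · have := hg.prime.two_le
          omega
        · exact Dvd.intro _ h2
      · exact Nat.div_le_div_right ((Nat.sub_le _ _).trans hpZ)
    · intro p hp q hq h
      unfold PI at hp hq
      rw [mem_coe, mem_filter] at hp hq
      have hodd := hp.2.1.prime.odd_of_ne_two (ne_two_of_odd' hp.2.1.odd)
      have hodd' := hq.2.1.prime.odd_of_ne_two (ne_two_of_odd' hq.2.1.odd)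
      have h2 := idx_ord_prime hp.2.1.prime hodd
      have h3 := idx_ord_prime hq.2.1.prime hodd'
      rw [hp.2.2] at h2
      rw [hq.2.2] at h3
      simp only at h
      rw [← h2, ← h3, Nat.mul_div_cancel_left _ (by omega),
        Nat.mul_div_cancel_left _ (by omega)] at h
      rw [h] at h2
      have := hp.2.1.prime.two_le
      have := hq.2.1.prime.two_le
      omega
  rw [Nat.card_Icc, Nat.add_sub_cancel] at h1
  calc ((PI k Z I).card : ℝ) ≤ ((Z / I : ℕ) : ℝ) := by exact_mod_cast h1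
    _ ≤ (Z : ℝ) / I := Nat.cast_div_le

/-- popular indices -/
theorem popular (κ η : ℝ) (hη : 0 < η) (k : ℕ) (H : HK κ k) : ∃ c : ℝ, 0 < c ∧
    ∀ᶠ Z : ℕ in atTop, ∃ V : Finset ℕ, (∀ I ∈ V, 2 ∣ I ∧ 1 ≤ I ∧ (I : ℝ) ≤ (Z : ℝ) ^ κ ∧
      (Z : ℝ) ^ (1 - κ - η) ≤ ((PI k Z I).card : ℝ)) ∧
      c / Real.log Z ≤ ∑ I ∈ V, (1 : ℝ) / I := by
  classical
  obtain ⟨c, hc, h⟩ := H
  refine ⟨c / 2, by positivity, ?_⟩
  filter_upwards [h, logpow_le (2 / c) 1 η hη, eventually_ge_atTop 3] with Z h1 h2 hZ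
  have hx0 : (0 : ℝ) < Z := by
    have : 0 < Z := by omega
    exact_mod_cast this
  have hlog : 0 < Real.log Z := Real.log_pos (by
    have : 1 < Z := by omega
    exact_mod_cast this)
  set D := ⌊(Z : ℝ) ^ κ⌋₊ with hD
  set V := (Icc 1 D).filter (fun I => (Z : ℝ) ^ (1 - κ - η) ≤ ((PI k Z I).card : ℝ)) with hV
  refine ⟨V, ?_, ?_⟩
  · intro I hI
    rw [hV, mem_filter, mem_Icc] at hI
    obtain ⟨⟨hI1, hI2⟩, hI3⟩ := hI
    refine ⟨?_, hI1, ?_, hI3⟩
    · have h3 : 0 < (PI k Z I).card := by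
        have : (0 : ℝ) < ((PI k Z I).card : ℝ) := lt_of_lt_of_le (by positivity) hI3
        exact_mod_cast this
      obtain ⟨p, hp⟩ := card_pos.1 h3
      unfold PI at hp
      rw [mem_filter] at hp
      rw [← hp.2.2]
      exact hp.2.1.idx_even
    · exact (Nat.le_floor_iff (by positivity)).1 hI2
  · -- counting
    have h3 : ((PC k Z κ).card : ℝ) ≤ ∑ I ∈ Icc 1 D, ((PI k Z I).card : ℝ) := by
      have h4 : PC k Z κ ⊆ (Icc 1 D).biUnion (fun I => PI k Z I) := by
        intro p hp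
        unfold PC at hp
        rw [mem_filter] at hp
        obtain ⟨hpZ, hg, hi⟩ := hp
        rw [mem_biUnion]
        have hodd := hg.prime.odd_of_ne_two (ne_two_of_odd' hg.odd)
        refine ⟨idx p, ?_, ?_⟩
        · rw [mem_Icc]
          constructor
          · have h5 := idx_ord_prime hg.prime hodd
            have h6 := hg.prime.two_le
            rcases Nat.eq_zero_or_pos (idx p) with h7 | h7
            · rw [h7, zero_mul] at h5
              omega
            · exact h7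
          · exact Nat.le_floor hi
        · unfold PI
          rw [mem_filter]
          exact ⟨hpZ, hg, rfl⟩
      have h5 := (card_le_card h4).trans card_biUnion_le
      exact_mod_cast h5
    rw [← sum_filter_add_sum_filter_not (Icc 1 D)
      (fun I => (Z : ℝ) ^ (1 - κ - η) ≤ ((PI k Z I).card : ℝ)), ← hV] at h3
    have h4 : ∑ I ∈ V, ((PI k Z I).card : ℝ) ≤ Z * ∑ I ∈ V, (1 : ℝ) / I := by
      rw [mul_sum]
      apply sum_le_sum
      intro I hI
      rw [hV, mem_filter, mem_Icc] at hI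
      rw [mul_one_div]
      exact PI_card_le k Z I hI.1.1
    have h5 : ∑ I ∈ (Icc 1 D).filter (fun I => ¬ (Z : ℝ) ^ (1 - κ - η) ≤ ((PI k Z I).card : ℝ)),
        ((PI k Z I).card : ℝ) ≤ (Z : ℝ) ^ (1 - η) := by
      calc ∑ I ∈ (Icc 1 D).filter (fun I => ¬ (Z : ℝ) ^ (1 - κ - η) ≤ ((PI k Z I).card : ℝ)),
          ((PI k Z I).card : ℝ)
          ≤ ∑ I ∈ (Icc 1 D).filter (fun I => ¬ (Z : ℝ) ^ (1 - κ - η) ≤ ((PI k Z I).card : ℝ)),
            (Z : ℝ) ^ (1 - κ - η) := by
            apply sum_le_sum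
            intro I hI
            rw [mem_filter, not_le] at hI
            exact hI.2.le
        _ ≤ (D : ℝ) * (Z : ℝ) ^ (1 - κ - η) := by
            rw [sum_const, nsmul_eq_mul]
            apply mul_le_mul_of_nonneg_right _ (by positivity)
            have := card_le_card (filter_subset (fun I => ¬ (Z : ℝ) ^ (1 - κ - η) ≤
              ((PI k Z I).card : ℝ)) (Icc 1 D))
            rw [Nat.card_Icc, Nat.add_sub_cancel] at this
            exact_mod_cast this
        _ ≤ (Z : ℝ) ^ κ * (Z : ℝ) ^ (1 - κ - η) := by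
            have : (D : ℝ) ≤ (Z : ℝ) ^ κ := Nat.floor_le (by positivity)
            gcongr
        _ = (Z : ℝ) ^ (1 - η) := by
            rw [← Real.rpow_add hx0]
            congr 1
            ring
    have h6 : (Z : ℝ) ^ (1 - η) ≤ (c / 2) * (Z / Real.log Z) := by
      rw [pow_one, div_mul_eq_mul_div, div_le_iff₀ hc] at h2
      have h7 : (Z : ℝ) = (Z : ℝ) ^ (1 - η) * (Z : ℝ) ^ η := by
        rw [← Real.rpow_add hx0]
        norm_num
      have h8 : (c / 2) * (Z / Real.log Z) = (Z : ℝ) * c / (2 * Real.log Z) := by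
        field_simp
      rw [h8, le_div_iff₀ (by positivity)]
      calc (Z : ℝ) ^ (1 - η) * (2 * Real.log Z) ≤
          (Z : ℝ) ^ (1 - η) * ((Z : ℝ) ^ η * c) := by gcongr
        _ = (Z : ℝ) ^ (1 - η) * (Z : ℝ) ^ η * c := by ring
        _ = Z * c := by rw [← h7]
    have h9 : c * ((Z : ℝ) / Real.log Z) = 2 * (c / 2 * (Z / Real.log Z)) := by ring
    have h10 : (c / 2) * (Z / Real.log Z) ≤ Z * ∑ I ∈ V, (1 : ℝ) / I := by linarith
    have h11 : (c / 2) * ((Z : ℝ) / Real.log Z) = Z * (c / 2 / Real.log Z) := by ring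
    rw [h11] at h10
    exact le_of_mul_le_mul_left h10 hx0

end Run7.h499
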