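import Mathlib
import Pool.Agent.Run7.h499.PairBV
import Pool.Agent.Run7.h499.MassMain

set_option autoImplicit false

/-! # The parameters -/

namespace Run7.h499

open Finset Filter Topology

/-- the size of the moduli -/
noncomputable def Xf (ε : ℝ) (x : ℕ) : ℕ := ⌊(x : ℝ) ^ (1 / 2 - ε)⌋₊

/-- the sifting parameter -/
noncomputable def Jf (ε : ℝ) (x : ℕ) : ℕ := Nat.log 2 (Nat.log 2 ⌊(x : ℝ) ^ (ε / 120)⌋₊)

/-- the size of the tuples -/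
noncomputable def Tf (ε : ℝ) (r x : ℕ) : ℕ := ⌊(x : ℝ) ^ (ε / (1000 * ET r))⌋₊

/-- the size of the further prime -/
noncomputable def Zf (ε κ : ℝ) (x : ℕ) : ℕ := ⌊(x : ℝ) ^ ((1 / 2 - 2 * ε) / κ)⌋₊

theorem floor_tendsto (a : ℝ) (ha : 0 < a) :
    Tendsto (fun x : ℕ => ⌊(x : ℝ) ^ a⌋₊) atTop atTop :=
  tendsto_nat_floor_atTop.comp ((tendsto_rpow_atTop ha).comp tendsto_natCast_atTop_atTop)

theorem rpow_ev (a C : ℝ) (ha : 0 < a) : ∀ᶠ x : ℕ in atTop, C ≤ (x : ℝ) ^ a :=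
  ((tendsto_rpow_atTop ha).comp tendsto_natCast_atTop_atTop).eventually_ge_atTop _

theorem log_ev (C : ℝ) : ∀ᶠ x : ℕ in atTop, C ≤ Real.log (x : ℝ) :=
  (Real.tendsto_log_atTop.comp tendsto_natCast_atTop_atTop).eventually_ge_atTop _

/-- the sifting limit -/
theorem sift_facts (ε : ℝ) (hε : 0 < ε) (hε1 : ε ≤ 1) : ∀ᶠ x : ℕ in atTop,
    1 ≤ Jf ε x ∧ ((2 : ℝ) ^ 2 ^ Jf ε x) ≤ (x : ℝ) ^ (ε / 120) ∧
    (x : ℝ) ^ (ε / 240) ≤ (2 : ℝ) ^ 2 ^ Jf ε x ∧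
    1 / Real.log x ^ 12 ≤ Real.exp (-8) ^ Jf ε x := by
  filter_upwards [(floor_tendsto (ε / 120) (by positivity)).eventually_ge_atTop 4,
    log_ev 1, eventually_ge_atTop 3] with x hY hL hx
  have hx0 : (0 : ℝ) < x := by
    have : 0 < x := by omega
    exact_mod_cast this
  unfold Jf
  set Y := ⌊(x : ℝ) ^ (ε / 120)⌋₊ with hYdef
  set n := Nat.log 2 Y with hn
  set J := Nat.log 2 n with hJ
  have hn2 : 2 ≤ n := by
    rw [hn]
    exact Nat.le_log_of_pow_le (by norm_num) (by omega)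
  have hJ1 : 1 ≤ J := by
    rw [hJ]
    exact Nat.le_log_of_pow_le (by norm_num) (by omega)
  have h1 : 2 ^ J ≤ n := Nat.pow_log_le_self 2 (by omega)
  have h2 : 2 ^ n ≤ Y := Nat.pow_log_le_self 2 (by omega)
  have h3 : n < 2 ^ (J + 1) := Nat.lt_pow_succ_log_self (by norm_num) n
  have h4 : Y < 2 ^ (n + 1) := Nat.lt_pow_succ_log_self (by norm_num) Y
  have hYR : (Y : ℝ) ≤ (x : ℝ) ^ (ε / 120) := Nat.floor_le (by positivity)
  refine ⟨hJ1, ?_, ?_, ?_⟩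
  · have h5 : 2 ^ 2 ^ J ≤ Y := (Nat.pow_le_pow_right (by norm_num) h1).trans h2
    have h6 : ((2 : ℝ) ^ 2 ^ J) ≤ Y := by exact_mod_cast h5
    exact h6.trans hYR
  · have h5 : Y + 1 ≤ (2 ^ 2 ^ J) ^ 2 := by
      rw [← pow_mul, ← pow_succ]
      calc Y + 1 ≤ 2 ^ (n + 1) := h4
        _ ≤ 2 ^ 2 ^ (J + 1) := Nat.pow_le_pow_right (by norm_num) h3
    have h6 : ((Y : ℝ) + 1) ≤ ((2 : ℝ) ^ 2 ^ J) ^ 2 := by exact_mod_cast h5
    have h7 : (x : ℝ) ^ (ε / 120) < Y + 1 := Nat.lt_floor_add_one _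
    have h8 : ((x : ℝ) ^ (ε / 240)) ^ 2 = (x : ℝ) ^ (ε / 120) := by
      rw [← Real.rpow_natCast, ← Real.rpow_mul hx0.le]
      congr 1
      push_cast
      ring
    have h9 : ((x : ℝ) ^ (ε / 240)) ^ 2 ≤ ((2 : ℝ) ^ 2 ^ J) ^ 2 := by
      rw [h8]
      linarith
    exact le_of_sq_le_sq h9 (by positivity)
  · have hl2 := Real.log_two_gt_d9
    have h5 : (n : ℝ) ≤ Real.log x := by
      have h6 : ((2 : ℝ) ^ n) ≤ (x : ℝ) ^ (ε / 120) := by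
        have : ((2 : ℝ) ^ n) ≤ Y := by exact_mod_cast h2
        exact this.trans hYR
      have h7 := Real.log_le_log (by positivity) h6
      rw [Real.log_pow, Real.log_rpow hx0] at h7
      have h8 : (0 : ℝ) ≤ n := Nat.cast_nonneg _
      nlinarith
    have h6 : ((2 : ℝ) ^ J) ≤ Real.log x := by
      have : ((2 : ℝ) ^ J) ≤ n := by exact_mod_cast h1
      exact this.trans h5
    have h7 : ((2 : ℝ) ^ J) ^ 12 ≤ Real.log x ^ 12 := pow_le_pow_left₀ (by positivity) h6 12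
    rw [div_le_iff₀ (by positivity)]
    have h8 : 1 ≤ Real.exp (-8) ^ J * ((2 : ℝ) ^ J) ^ 12 := by
      rw [← pow_mul, mul_comm J 12, pow_mul, ← mul_pow]
      apply one_le_pow₀
      have h9 : Real.exp (-8) * (2 : ℝ) ^ 12 = Real.exp (-8 + 12 * Real.log 2) := by
        rw [Real.exp_add, show (12 : ℝ) * Real.log 2 = ((12 : ℕ) : ℝ) * Real.log 2 by norm_num,
          Real.exp_nat_mul, Real.exp_log (by norm_num)]
      rw [h9]
      apply Real.one_le_exp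
      linarith
    exact h8.trans (mul_le_mul_of_nonneg_left h7 (by positivity))

/-- the tuples -/
theorem tuple_facts (ε : ℝ) (hε : 0 < ε) (r C : ℕ) : ∀ᶠ x : ℕ in atTop,
    C ≤ Tf ε r x ∧ (ε / (2000 * ET r)) * Real.log x ≤ Real.log (Tf ε r x) ∧
    ((Tf ε r x ^ ET r : ℕ) : ℝ) ≤ (x : ℝ) ^ (ε / 1000) := by
  have hE : (0 : ℝ) < ET r := by exact_mod_cast ET_pos r
  filter_upwards [(floor_tendsto (ε / (1000 * ET r)) (by positivity)).eventually_ge_atTop (C + 2),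
    eventually_ge_atTop 3] with x hT hx
  have hx0 : (0 : ℝ) < x := by
    have : 0 < x := by omega
    exact_mod_cast this
  unfold Tf
  set T := ⌊(x : ℝ) ^ (ε / (1000 * (ET r : ℝ)))⌋₊ with hTdef
  have hTR : (T : ℝ) ≤ (x : ℝ) ^ (ε / (1000 * (ET r : ℝ))) := Nat.floor_le (by positivity)
  refine ⟨by omega, ?_, ?_⟩
  · have h3 : (x : ℝ) ^ (ε / (1000 * (ET r : ℝ))) ≤ (T : ℝ) ^ 2 := by
      have h4 : (x : ℝ) ^ (ε / (1000 * (ET r : ℝ))) < T + 1 := Nat.lt_floor_add_one _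
      have h5 : (2 : ℝ) ≤ T := by
        have : 2 ≤ T := by omega
        exact_mod_cast this
      nlinarith
    have h4 : Real.log ((x : ℝ) ^ (ε / (1000 * (ET r : ℝ)))) ≤ Real.log ((T : ℝ) ^ 2) :=
      Real.log_le_log (by positivity) h3
    rw [Real.log_rpow hx0, Real.log_pow] at h4
    push_cast at h4
    calc ε / (2000 * (ET r : ℝ)) * Real.log x = (ε / (1000 * (ET r : ℝ)) * Real.log x) / 2 := by
          field_simp
          ring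
      _ ≤ _ := by linarith
  · push_cast
    calc (T : ℝ) ^ ET r ≤ ((x : ℝ) ^ (ε / (1000 * (ET r : ℝ)))) ^ ET r := by gcongr
      _ = (x : ℝ) ^ (ε / 1000) := by
        rw [← Real.rpow_natCast, ← Real.rpow_mul hx0.le]
        congr 1
        field_simp

theorem size_facts (ε : ℝ) (hε : 0 < ε) (hε1 : ε ≤ 1 / 100) : ∀ᶠ x : ℕ in atTop,
    1 ≤ Xf ε x ∧ (Xf ε x : ℝ) ≤ (x : ℝ) ^ (1 / 2 - ε) ∧ (x : ℝ) ^ (1 / 2 - ε) / 2 ≤ Xf ε x ∧
    1 + Real.log (10 * Xf ε x) ≤ 2 * Real.log x := by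
  filter_upwards [(floor_tendsto (1 / 2 - ε) (by linarith)).eventually_ge_atTop 1,
    rpow_ev (1 / 2 - ε) 2 (by linarith), log_ev 4, eventually_ge_atTop 3] with x h1 h2 h3 hx
  have hx0 : (0 : ℝ) < x := by
    have : 0 < x := by omega
    exact_mod_cast this
  have hx1 : (1 : ℝ) ≤ x := by
    have : 1 ≤ x := by omega
    exact_mod_cast this
  unfold Xf
  set X := ⌊(x : ℝ) ^ (1 / 2 - ε)⌋₊ with hX
  have hXR : (X : ℝ) ≤ (x : ℝ) ^ (1 / 2 - ε) := Nat.floor_le (by positivity)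
  have hX1 : (1 : ℝ) ≤ X := by exact_mod_cast h1
  refine ⟨h1, hXR, ?_, ?_⟩
  · have h4 : (x : ℝ) ^ (1 / 2 - ε) < X + 1 := Nat.lt_floor_add_one _
    linarith
  · have h4 : Real.log (10 * X) = Real.log 10 + Real.log X :=
      Real.log_mul (by norm_num) (by linarith)
    have h5 : Real.log X ≤ (1 / 2 - ε) * Real.log x := by
      have := Real.log_le_log (by linarith) hXR
      rwa [Real.log_rpow hx0] at this
    have h6 : Real.log 10 ≤ 3 := by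
      have h7 : Real.log 10 ≤ Real.log (Real.exp 3) := by
        apply Real.log_le_log (by norm_num)
        have h8 := Real.exp_one_gt_d9
        have h9 : Real.exp 3 = Real.exp 1 ^ 3 := by
          rw [← Real.exp_nat_mul]
          norm_num
        rw [h9]
        calc (10 : ℝ) ≤ 2.7 ^ 3 := by norm_num
          _ ≤ Real.exp 1 ^ 3 := by
            apply pow_le_pow_left₀ (by norm_num)
            linarith
      rwa [Real.log_exp] at h7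
    nlinarith

/-- the size of the moduli in the arithmetic progressions -/
theorem modulus_facts (ε κ : ℝ) (hε : 0 < ε) (hε1 : ε ≤ 1 / 100) (hκ : 0 < κ) (r : ℕ) :
    ∀ᶠ x : ℕ in atTop, ∀ q I : ℕ, q ≤ Tf ε r x ^ ET r → 1 ≤ I → (I : ℝ) ≤ (Zf ε κ x : ℝ) ^ κ →
      ((q * (1 + 5 * I) : ℕ) : ℝ) * (16 * 2 ^ (60 * 2 ^ Jf ε x)) ≤
        Xf ε x * Real.exp (-8) ^ Jf ε x ∧
      ((q * (1 + 5 * I) : ℕ) : ℝ) * 8 ≤ Xf ε x := by
  filter_upwards [sift_facts ε hε (by linarith), tuple_facts ε hε r 1, size_facts ε hε hε1,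
    logpow_le 192 12 (ε / 4) (by positivity), log_ev 1, eventually_ge_atTop 3] with
    x h1 h2 h3 h4 hL hx q I hq hI1 hI
  obtain ⟨a1, a2, a3, a4⟩ := h1
  obtain ⟨b1, b2, b3⟩ := h2
  obtain ⟨c1, c2, c3, c4⟩ := h3
  have hx0 : (0 : ℝ) < x := by
    have : 0 < x := by omega
    exact_mod_cast this
  have hx1 : (1 : ℝ) ≤ x := by
    have : 1 ≤ x := by omega
    exact_mod_cast this
  set L := Real.log (x : ℝ) with hLdef
  have hL0 : 0 < L := by linarith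
  have d1 : (q : ℝ) ≤ (x : ℝ) ^ (ε / 1000) := by
    refine le_trans ?_ b3
    exact_mod_cast hq
  have d2 : (Zf ε κ x : ℝ) ^ κ ≤ (x : ℝ) ^ (1 / 2 - 2 * ε) := by
    have e1 : (Zf ε κ x : ℝ) ≤ (x : ℝ) ^ ((1 / 2 - 2 * ε) / κ) := Nat.floor_le (by positivity)
    calc (Zf ε κ x : ℝ) ^ κ ≤ ((x : ℝ) ^ ((1 / 2 - 2 * ε) / κ)) ^ κ :=
          Real.rpow_le_rpow (Nat.cast_nonneg _) e1 hκ.le
      _ = (x : ℝ) ^ (1 / 2 - 2 * ε) := by
          rw [← Real.rpow_mul hx0.le]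
          congr 1
          field_simp
  have hI1R : (1 : ℝ) ≤ I := by exact_mod_cast hI1
  have d3 : (1 + 5 * (I : ℝ)) ≤ 6 * (x : ℝ) ^ (1 / 2 - 2 * ε) := by linarith [hI.trans d2]
  have d4 : (2 : ℝ) ^ (60 * 2 ^ Jf ε x) ≤ (x : ℝ) ^ (ε / 2) := by
    calc (2 : ℝ) ^ (60 * 2 ^ Jf ε x) = ((2 : ℝ) ^ 2 ^ Jf ε x) ^ 60 := by
          rw [← pow_mul, mul_comm]
      _ ≤ ((x : ℝ) ^ (ε / 120)) ^ 60 := pow_le_pow_left₀ (by positivity) a2 60
      _ = (x : ℝ) ^ (ε / 2) := by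
          rw [← Real.rpow_natCast, ← Real.rpow_mul hx0.le]
          congr 1
          push_cast
          ring
  have d5 : (1 : ℝ) ≤ (2 : ℝ) ^ (60 * 2 ^ Jf ε x) := one_le_pow₀ (by norm_num)
  have key : ((q * (1 + 5 * I) : ℕ) : ℝ) * (16 * 2 ^ (60 * 2 ^ Jf ε x)) ≤
      Xf ε x * Real.exp (-8) ^ Jf ε x := by
    have e1 : ((q * (1 + 5 * I) : ℕ) : ℝ) * (16 * 2 ^ (60 * 2 ^ Jf ε x)) ≤
        ((x : ℝ) ^ (ε / 1000) * (6 * (x : ℝ) ^ (1 / 2 - 2 * ε))) * (16 * (x : ℝ) ^ (ε / 2)) := by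
      push_cast
      gcongr
    refine e1.trans ?_
    have e2 : ((x : ℝ) ^ (ε / 1000) * (6 * (x : ℝ) ^ (1 / 2 - 2 * ε))) * (16 * (x : ℝ) ^ (ε / 2)) =
        96 * (x : ℝ) ^ (ε / 1000 + (1 / 2 - 2 * ε) + ε / 2) := by
      rw [Real.rpow_add hx0, Real.rpow_add hx0]
      ring
    rw [e2]
    have e3 : (x : ℝ) ^ (1 / 2 - ε) / 2 * (1 / L ^ 12) ≤ Xf ε x * Real.exp (-8) ^ Jf ε x :=
      mul_le_mul c3 a4 (by positivity) (Nat.cast_nonneg _)
    refine le_trans ?_ e3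
    rw [mul_one_div, le_div_iff₀ (by positivity)]
    have e4 : 192 * L ^ 12 * (x : ℝ) ^ (ε / 1000 + (1 / 2 - 2 * ε) + ε / 2) ≤
        (x : ℝ) ^ (1 / 2 - ε) := by
      calc 192 * L ^ 12 * (x : ℝ) ^ (ε / 1000 + (1 / 2 - 2 * ε) + ε / 2) ≤
          (x : ℝ) ^ (ε / 4) * (x : ℝ) ^ (ε / 1000 + (1 / 2 - 2 * ε) + ε / 2) := by gcongr
        _ = (x : ℝ) ^ (ε / 4 + (ε / 1000 + (1 / 2 - 2 * ε) + ε / 2)) :=
            (Real.rpow_add hx0 _ _).symm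
        _ ≤ _ := Real.rpow_le_rpow_of_exponent_le hx1 (by linarith)
    linarith
  refine ⟨key, ?_⟩
  have hq0 : (0 : ℝ) ≤ ((q * (1 + 5 * I) : ℕ) : ℝ) := Nat.cast_nonneg _
  have e1 : ((q * (1 + 5 * I) : ℕ) : ℝ) * 8 ≤
      ((q * (1 + 5 * I) : ℕ) : ℝ) * (16 * 2 ^ (60 * 2 ^ Jf ε x)) := by
    apply mul_le_mul_of_nonneg_left _ hq0
    linarith
  have e2 : (Xf ε x : ℝ) * Real.exp (-8) ^ Jf ε x ≤ Xf ε x := by
    apply mul_le_of_le_one_right (Nat.cast_nonneg _)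
    apply pow_le_one₀ (Real.exp_pos _).le
    rw [Real.exp_le_one_iff]
    norm_num
  exact e1.trans (key.trans e2)

/-- the product of two moduli -/
theorem product_facts (ε : ℝ) (hε : 0 < ε) (hε1 : ε ≤ 1) (r : ℕ) : ∀ᶠ x : ℕ in atTop,
    ∀ q q' : ℕ, q ≤ Tf ε r x ^ ET r → q' ≤ Tf ε r x ^ ET r →
      7 ^ r * (q * q') ≤ 2 ^ 2 ^ Jf ε x := by
  filter_upwards [sift_facts ε hε hε1, tuple_facts ε hε r 1,
    rpow_ev (ε / 240 - ε / 500) (7 ^ r) (by linarith), eventually_ge_atTop 3] with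
    x h1 h2 h3 hx q q' hq hq'
  obtain ⟨a1, a2, a3, a4⟩ := h1
  obtain ⟨b1, b2, b3⟩ := h2
  have hx0 : (0 : ℝ) < x := by
    have : 0 < x := by omega
    exact_mod_cast this
  have d1 : (q : ℝ) ≤ (x : ℝ) ^ (ε / 1000) := by
    refine le_trans ?_ b3
    exact_mod_cast hq
  have d2 : (q' : ℝ) ≤ (x : ℝ) ^ (ε / 1000) := by
    refine le_trans ?_ b3
    exact_mod_cast hq'
  have h4 : ((7 ^ r * (q * q') : ℕ) : ℝ) ≤ ((2 ^ 2 ^ Jf ε x : ℕ) : ℝ) := by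
    push_cast
    refine le_trans ?_ a3
    calc (7 : ℝ) ^ r * ((q : ℝ) * q') ≤ (x : ℝ) ^ (ε / 240 - ε / 500) *
          ((x : ℝ) ^ (ε / 1000) * (x : ℝ) ^ (ε / 1000)) := by gcongr
      _ = (x : ℝ) ^ (ε / 240) := by
          rw [← Real.rpow_add hx0, ← Real.rpow_add hx0]
          congr 1
          ring
  exact_mod_cast h4

/-- the number of solutions -/
theorem count_facts (ε κ c : ℝ) (hε1 : ε ≤ 1 / 100) (hκ : 0 < κ)
    (hb : 0 < 1 - κ - ε) (hb1 : 1 - κ - ε ≤ 1) (hc : c * κ < (1 / 2 - 2 * ε) * (1 - κ - ε)) :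
    ∀ᶠ x : ℕ in atTop, (x : ℝ) ^ c ≤ (Zf ε κ x : ℝ) ^ (1 - κ - ε) := by
  set a := (1 / 2 - 2 * ε) / κ with ha
  have ha0 : 0 < a := by
    rw [ha]
    apply div_pos _ hκ
    linarith
  have hac : c < a * (1 - κ - ε) := by
    rw [ha, div_mul_eq_mul_div, lt_div_iff₀ hκ]
    exact hc
  filter_upwards [rpow_ev a 2 ha0, rpow_ev (a * (1 - κ - ε) - c) 2 (by linarith),
    eventually_ge_atTop 3] with x h1 h2 hx
  have hx0 : (0 : ℝ) < x := by
    have : 0 < x := by omega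
    exact_mod_cast this
  have h3 : (x : ℝ) ^ a / 2 ≤ Zf ε κ x := by
    have h4 : (x : ℝ) ^ a < Zf ε κ x + 1 := Nat.lt_floor_add_one _
    linarith
  have h4 : (2 : ℝ) ^ (1 - κ - ε) ≤ 2 := by
    calc (2 : ℝ) ^ (1 - κ - ε) ≤ (2 : ℝ) ^ (1 : ℝ) :=
          Real.rpow_le_rpow_of_exponent_le (by norm_num) hb1
      _ = 2 := Real.rpow_one _
  calc (x : ℝ) ^ c = (x : ℝ) ^ c * 2 / 2 := by ring
    _ ≤ (x : ℝ) ^ c * (x : ℝ) ^ (a * (1 - κ - ε) - c) / 2 := by gcongr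
    _ = (x : ℝ) ^ (a * (1 - κ - ε)) / 2 := by
        rw [← Real.rpow_add hx0]
        congr 2
        ring
    _ ≤ (x : ℝ) ^ (a * (1 - κ - ε)) / (2 : ℝ) ^ (1 - κ - ε) := by
        apply div_le_div_of_nonneg_left (by positivity) (by positivity) h4
    _ = ((x : ℝ) ^ a / 2) ^ (1 - κ - ε) := by
        rw [Real.div_rpow (by positivity) (by norm_num), ← Real.rpow_mul hx0.le]
    _ ≤ _ := Real.rpow_le_rpow (by positivity) h3 hb.le

end Run7.h499
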