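import Mathlib
import Pool.Agent.Run7.h499.PowNum
import Pool.Agent.Run7.h499.BadCount
import Pool.Agent.Run7.h499.PopIdx

set_option autoImplicit false

/-! # Almost all exponents have a power of solutions -/

namespace Run7.h499

open Finset Filter Topology

theorem tuple_lower (r K : ℕ) (b : ℕ → ℕ) (hK : 1 ≤ K)
    (hz : ∀ q : ℕ, q.Prime → q ≤ 50 * r ^ 2 → q ∣ K)
    (hb : ∀ j, 1 ≤ j → j ≤ r → 1 ≤ b j ∧ b j ≤ K ∧ (b j).Coprime K ∧ b j % 10 = 1)
    (T : ℕ) (hT : 4 ≤ T) (hlogT : 2 * (K : ℝ) + 2 ≤ Real.log T) :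
    (1 / 2) * (Real.log T / (2 * K)) ^ r ≤
      ∑ t ∈ GT K (bT b r) (yT r T), (1 : ℝ) / (qT K b t : ℝ) := by
  have hK0 : (0 : ℝ) < K := by exact_mod_cast hK
  have hT1 : 1 ≤ T := by omega
  have hyT : ∀ i : Fin r, T ≤ yT r T i := by
    intro i
    unfold yT
    calc T = T ^ 1 := (pow_one T).symm
      _ ≤ T ^ 3 ^ (r - 1 - (i : ℕ)) := Nat.pow_le_pow_right hT1 (Nat.one_le_pow _ _ (by norm_num))
  have hlogy : ∀ i : Fin r, Real.log T ≤ Real.log (yT r T i) := by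
    intro i
    apply Real.log_le_log (by exact_mod_cast hT1)
    exact_mod_cast hyT i
  have hmass := tuple_mass K (bT b r) (yT r T) hK
    (fun i => by
      have := hb (i + 1) (by omega) (by omega)
      exact ⟨this.1, this.2.1, this.2.2.1⟩) hz
    (fun i => hT.trans (hyT i)) (fun i => hlogT.trans (hlogy i))
  have hlogT0 : 0 < Real.log T := by linarith
  have hprod : (Real.log T / (2 * K)) ^ r ≤ ∏ i : Fin r, (Real.log (yT r T i) / (2 * K)) := by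
    have : ∏ i : Fin r, (Real.log T / (2 * K)) = (Real.log T / (2 * K)) ^ r := by
      rw [prod_const, card_univ, Fintype.card_fin]
    rw [← this]
    apply Finset.prod_le_prod
    · intro i _
      positivity
    · intro i _
      exact div_le_div_of_nonneg_right (hlogy i) (by positivity)
  have h1 : ∑ t ∈ GT K (bT b r) (yT r T), ∏ i, (1 : ℝ) / (FT K (bT b r) i (t i) : ℝ) =
      ∑ t ∈ GT K (bT b r) (yT r T), (1 : ℝ) / (qT K b t : ℝ) := by
    refine sum_congr rfl fun t _ => ?_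
    rw [prod_div_distrib, prod_const_one]
    congr 1
    unfold qT
    push_cast
    rfl
  rw [← h1]
  linarith

section

variable {r K B : ℕ} {b : ℕ → ℕ} (D : Data r K B b) {T X z : ℕ} (V : Finset ℕ)

include D

/-- a hit gives many solutions -/
theorem hit_many (Z : ℕ) (hBT : B ≤ T) (hz : 2 ≤ z) (hV : ∀ I ∈ V, 2 ∣ I)
    {t : Fin r → ℕ} (ht : t ∈ GT K (bT b r) (yT r T)) {l : ℕ} (hl : l ∈ LR V z X (qT K b t))
    {e : ℕ} (he : e ≡ RR (vU r K b l t) (r + 1) [MOD l]) (hbig : (r + 2) * l ≤ e) :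
    ∃ I ∈ V, ((PI (r + 1) Z I).card : ℕ∞) ≤ {n : ℕ | S n = 2 ^ e}.encard := by
  classical
  obtain ⟨⟨hlX, hlX2⟩, hlz, hlq⟩ := mem_LR V hl
  have hTL := mem_TL_of D (by omega) ht hlq
  have hodd : l % 2 = 1 := by
    have := hlz 2 Nat.prime_two hz
    omega
  obtain ⟨I, hI⟩ : ∃ I, I ∈ V.filter (fun I => qT K b t * (1 + 5 * I) ∣ 5 * l - 4) := by
    unfold LR at hl
    rw [mem_filter] at hl
    exact card_pos.1 hl.2
  rw [mem_filter] at hI
  refine ⟨I, hI.1, ?_⟩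
  obtain ⟨c, hc⟩ := hV I hI.1
  obtain ⟨hf1, hf2⟩ := f0_spec D hodd (by omega) hTL
  have hq1 : 0 < qT K b t := by
    have := qT_mod b (fun j h1 h2 => (D.res j h1 h2).2.2.2) D.ten t
    omega
  obtain ⟨w, hw⟩ := Nat.dvd_of_mul_dvd_mul_left hq1 (hf1 ▸ hI.2)
  have hI10 : (1 + 5 * I) % 10 = 1 := by omega
  have hw10 : w % 10 = 1 := by
    have h1 := hf2
    rw [hw, Nat.mul_mod, hI10, one_mul, Nat.mod_mod] at h1
    exact h1
  obtain ⟨f, hf⟩ : ∃ f, w = 1 + 10 * f := ⟨w / 10, by omega⟩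
  obtain ⟨_, hU0⟩ := vU_zero D hodd (by omega) hTL
  apply many_lengths (vU r K b l t) r e l I f (PI (r + 1) Z I)
  · intro p hp
    unfold PI at hp
    rw [mem_filter] at hp
    exact hp.2
  · rw [pow_zero, mul_one] at hU0
    rw [hU0, hw, hf]
  · exact vU_ex D hodd (by omega) hBT hTL
  · exact vU_ll D hodd (by omega) hBT hTL
  · exact he
  · exact hbig

end

theorem power_nat (κ : ℝ) (hκ0 : 0 < κ) (hκ1 : κ < 1) (H : ∀ k, HK κ k) (c : ℝ) (A : ℕ)
    (hc : c < (1 - κ) / (2 * κ)) : ∀ᶠ x : ℕ in atTop,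
    (({e : ℕ | 1 ≤ e ∧ e ≤ x ∧ {n : ℕ | S n = 2 ^ e}.encard < (⌈(x : ℝ) ^ c⌉₊ : ℕ∞)}.ncard : ℕ) : ℝ) ≤
      x / (Real.log x) ^ A := by
  classical
  -- the small exponent
  obtain ⟨ε, hε, hε1, hε2, hε3⟩ : ∃ ε : ℝ, 0 < ε ∧ ε ≤ 1 / 100 ∧ 0 < 1 - κ - ε ∧
      c * κ < (1 / 2 - 2 * ε) * (1 - κ - ε) := by
    have h1 : c * κ < (1 - κ) / 2 := by
      rw [lt_div_iff₀ (by positivity)] at hc
      linarith
    set g := min (min (1 / 100) ((1 - κ) / 2)) (((1 - κ) / 2 - c * κ) / 6) with hg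
    have hg0 : 0 < g := by
      rw [hg]
      apply lt_min (lt_min (by norm_num) (by linarith))
      linarith
    have hg1 : g ≤ 1 / 100 := (min_le_left _ _).trans (min_le_left _ _)
    have hg2 : g ≤ (1 - κ) / 2 := (min_le_left _ _).trans (min_le_right _ _)
    have hg3 : g ≤ ((1 - κ) / 2 - c * κ) / 6 := min_le_right _ _
    refine ⟨g, hg0, hg1, by linarith, ?_⟩
    nlinarith
  obtain ⟨r, hr⟩ : ∃ r : ℕ, r = A + 62 := ⟨_, rfl⟩
  obtain ⟨K, B, b, D⟩ := exists_data r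
  have hK := D.one_le
  have hK0 : (0 : ℝ) < K := by exact_mod_cast hK
  have hE : (0 : ℝ) < ET r := by exact_mod_cast ET_pos r
  obtain ⟨cV, hcV, hV⟩ := popular κ ε hε (r + 1) (H (r + 1))
  -- constants
  obtain ⟨θ, hθ⟩ : ∃ θ : ℝ, θ = ε / (2000 * ET r) := ⟨_, rfl⟩
  have hθ0 : 0 < θ := by rw [hθ]; positivity
  obtain ⟨cS, hcS⟩ : ∃ cS : ℝ, cS = (1 / 2) * (θ / (2 * K)) ^ r := ⟨_, rfl⟩
  have hcS0 : 0 < cS := by rw [hcS]; positivity
  obtain ⟨a, ha⟩ : ∃ a : ℝ, a = (1 / 2 - 2 * ε) / κ := ⟨_, rfl⟩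
  have ha0 : 0 < a := by
    rw [ha]
    apply div_pos _ hκ0
    linarith
  obtain ⟨cσ, hcσ⟩ : ∃ cσ : ℝ, cσ = cV / a := ⟨_, rfl⟩
  have hcσ0 : 0 < cσ := by rw [hcσ]; positivity
  obtain ⟨M, hM⟩ : ∃ M : ℝ, M = 92160 := ⟨_, rfl⟩
  have hM0 : 0 < M := by rw [hM]; norm_num
  obtain ⟨C1, hC1⟩ : ∃ C1 : ℝ, C1 = (4 * M / cσ ^ 2 + 12 * M ^ 2 / cσ ^ 4) / cS := ⟨_, rfl⟩
  have hC10 : 0 < C1 := by rw [hC1]; positivity
  obtain ⟨C2, hC2⟩ : ∃ C2 : ℝ, C2 = 8 + 2 * (r + 2) + 2 := ⟨_, rfl⟩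
  have hZt : Tendsto (Zf ε κ) atTop atTop := by
    have := floor_tendsto _ ha0
    rw [ha] at this
    exact this
  have hlogT : ∀ᶠ x : ℕ in atTop, (2 * (K : ℝ) + 2) / θ ≤ Real.log x := log_ev _
  filter_upwards [hZt.eventually hV, hZt.eventually_ge_atTop 3, sift_facts ε hε (by linarith),
    tuple_facts ε hε r (4 * K + B + 4), size_facts ε hε hε1, modulus_facts ε κ hε hε1 hκ0 r,
    product_facts ε hε (by linarith) r, count_facts ε κ c hε1 hκ0 hε2 (by linarith) hε3,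
    hlogT, log_ev 1, log_ev (2 * C1), logpow_le (2 * C2) A (2 * ε) (by positivity),
    rpow_ev (ε / 240) 7 (by positivity), eventually_ge_atTop 3] with
    x hV hZ3 f1 f2 f3 f4 f5 f6 f7 hL1 hLC f8 f9 hx
  obtain ⟨V, hV1, hV2⟩ := hV
  obtain ⟨a1, a2, a3, a4⟩ := f1
  obtain ⟨b1, b2, b3⟩ := f2
  rw [← hθ] at b2
  obtain ⟨c1, c2, c3, c4⟩ := f3
  have hx0 : (0 : ℝ) < x := by
    have : 0 < x := by omega
    exact_mod_cast this
  have hx1 : (1 : ℝ) ≤ x := by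
    have : 1 ≤ x := by omega
    exact_mod_cast this
  set L := Real.log (x : ℝ) with hLdef
  have hL0 : 0 < L := by linarith
  set T := Tf ε r x with hT
  set X := Xf ε x with hX
  set Z := Zf ε κ x with hZ
  set J := Jf ε x with hJ
  set z : ℕ := 2 ^ 2 ^ J with hz
  set δ : ℝ := Real.exp (-8) ^ J with hδ
  have hT1 : 1 ≤ T := by omega
  have hz7 : 7 ≤ z := by
    have : ((7 : ℕ) : ℝ) ≤ ((z : ℕ) : ℝ) := by
      rw [hz]
      push_cast
      exact f9.trans a3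
    exact_mod_cast this
  -- the tuples
  have hqle : ∀ t ∈ GT K (bT b r) (yT r T), qT K b t ≤ T ^ ET r := fun t ht =>
    qT_le hT1 b (fun j h1 h2 => (D.res j h1 h2).2.1) (by omega) (GT_sub _ _ _ ht)
  have hq10 : ∀ t ∈ GT K (bT b r) (yT r T), qT K b t % 10 = 1 := fun t _ =>
    qT_mod b (fun j h1 h2 => (D.res j h1 h2).2.2.2) D.ten t
  set Sm := ∑ t ∈ GT K (bT b r) (yT r T), (1 : ℝ) / (qT K b t : ℝ) with hSm
  have hSlow : cS * L ^ r ≤ Sm := by
    have h1 : 2 * (K : ℝ) + 2 ≤ Real.log T := by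
      refine le_trans ?_ b2
      rw [div_le_iff₀ hθ0] at f7
      linarith
    have h2 := tuple_lower r K b hK D.sieve D.res T (by omega) h1
    refine le_trans ?_ h2
    rw [hcS]
    calc (1 / 2) * (θ / (2 * K)) ^ r * L ^ r = (1 / 2) * ((θ * L) / (2 * K)) ^ r := by
          rw [mul_assoc, ← mul_pow]
          congr 2
          ring
      _ ≤ (1 / 2) * (Real.log T / (2 * K)) ^ r := by gcongr
  have hSm0 : 0 < Sm := lt_of_lt_of_le (by positivity) hSlow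
  -- the indices
  set σ := ∑ I ∈ V, (1 : ℝ) / I with hσ
  have hσlow : cσ / L ≤ σ := by
    refine le_trans ?_ hV2
    have hZR : (Z : ℝ) ≤ (x : ℝ) ^ a := by
      rw [ha]
      exact Nat.floor_le (by positivity)
    have hZ0 : (0 : ℝ) < Z := by
      have : 0 < Z := by omega
      exact_mod_cast this
    have hlogZ0 : 0 < Real.log Z := Real.log_pos (by
      have : 1 < Z := by omega
      exact_mod_cast this)
    have h1 : Real.log Z ≤ a * L := by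
      have := Real.log_le_log hZ0 hZR
      rwa [Real.log_rpow hx0] at this
    rw [hcσ, div_div]
    exact div_le_div_of_nonneg_left hcV.le hlogZ0 h1
  have hσ0 : 0 < σ := lt_of_lt_of_le (by positivity) hσlow
  -- many pairs
  set N := ∑ t ∈ GT K (bT b r) (yT r T), ((LR V z X (qT K b t)).card : ℝ) with hN
  have hpairs := pairs_many (GT K (bT b r) (yT r T)) (fun t => qT K b t) V X J a1 c1 hq10
    (fun I hI => ⟨(hV1 I hI).1, (hV1 I hI).2.1⟩)
    (fun t ht I hI => (f4 (qT K b t) I (hqle t ht) (hV1 I hI).2.1 (hV1 I hI).2.2.1).2)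
    (fun t ht I hI => (f4 (qT K b t) I (hqle t ht) (hV1 I hI).2.1 (hV1 I hI).2.2.1).1)
  rw [← hδ, ← hσ, ← hSm, ← hz, ← hN] at hpairs
  have hX0 : (0 : ℝ) < X := by exact_mod_cast c1
  have hδ0 : 0 < δ := by positivity
  have hN0 : 0 ≤ N := sum_nonneg fun _ _ => by positivity
  clear_value N Sm σ δ z L
  obtain ⟨μ0, hμ0⟩ : ∃ μ0 : ℝ, μ0 = Sm * cσ ^ 2 / (M * L ^ 29) := ⟨_, rfl⟩
  have hμ00 : 0 < μ0 := by
    rw [hμ0]
    exact div_pos (mul_pos hSm0 (pow_pos hcσ0 2)) (mul_pos hM0 (pow_pos hL0 29))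
  have hlog10 : 0 ≤ 1 + Real.log (10 * X) := by
    have : 0 ≤ Real.log (10 * (X : ℝ)) := Real.log_nonneg (by
      have : (1 : ℝ) ≤ X := by exact_mod_cast c1
      linarith)
    linarith
  have hμN : 2 * X * μ0 ≤ N := by
    have h1 : X * (1 / L ^ 12) ^ 2 * (cσ / L) ^ 2 * Sm ≤ X * δ ^ 2 * σ ^ 2 * Sm := by
      have g1 : (1 / L ^ 12) ^ 2 ≤ δ ^ 2 := pow_le_pow_left₀ (by positivity) a4 2
      have g2 : (cσ / L) ^ 2 ≤ σ ^ 2 := pow_le_pow_left₀ (by positivity) hσlow 2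
      have g3 : (X : ℝ) * (1 / L ^ 12) ^ 2 ≤ X * δ ^ 2 := mul_le_mul_of_nonneg_left g1 hX0.le
      exact mul_le_mul_of_nonneg_right (mul_le_mul g3 g2 (by positivity) (by positivity)) hSm0.le
    have h2 : 5760 * (1 + Real.log (10 * X)) ^ 3 * N ≤ 5760 * (2 * L) ^ 3 * N := by
      have g1 : (1 + Real.log (10 * X)) ^ 3 ≤ (2 * L) ^ 3 := pow_le_pow_left₀ hlog10 c4 3
      exact mul_le_mul_of_nonneg_right (mul_le_mul_of_nonneg_left g1 (by norm_num)) hN0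
    have h3 := h1.trans (hpairs.trans h2)
    have h4 : X * (1 / L ^ 12) ^ 2 * (cσ / L) ^ 2 * Sm = (2 * X * μ0) * (5760 * (2 * L) ^ 3) := by
      rw [hμ0, hM]
      field_simp
      ring
    rw [h4] at h3
    have h5 : (2 * X * μ0) * (5760 * (2 * L) ^ 3) ≤ N * (5760 * (2 * L) ^ 3) := by linarith
    exact le_of_mul_le_mul_right h5 (by positivity)
  -- the exceptions
  set Bad0 : Finset ℕ := (Icc 1 x).filter
    (fun e => {n : ℕ | S n = 2 ^ e}.encard < (⌈(x : ℝ) ^ c⌉₊ : ℕ∞)) with hBad0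
  have hBadset : {e : ℕ | 1 ≤ e ∧ e ≤ x ∧
      {n : ℕ | S n = 2 ^ e}.encard < (⌈(x : ℝ) ^ c⌉₊ : ℕ∞)} = (Bad0 : Set ℕ) := by
    ext e
    rw [hBad0, mem_coe, mem_filter, mem_Icc, Set.mem_ofPred_eq, and_assoc]
  rw [hBadset, Set.ncard_coe_finset]
  set Bad := Bad0.filter (fun e => (r + 2) * (2 * X) ≤ e) with hBad
  have hsmall : ((Bad0.filter (fun e => ¬ (r + 2) * (2 * X) ≤ e)).card : ℝ) ≤ (r + 2) * (2 * X) := by
    have h3 : Bad0.filter (fun e => ¬ (r + 2) * (2 * X) ≤ e) ⊆ range ((r + 2) * (2 * X)) := by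
      intro e he
      rw [mem_filter] at he
      rw [mem_range]
      omega
    have h4 := card_le_card h3
    rw [card_range] at h4
    exact_mod_cast h4
  have hsplit : (Bad0.card : ℝ) = Bad.card +
      (Bad0.filter (fun e => ¬ (r + 2) * (2 * X) ≤ e)).card := by
    rw [hBad]
    exact_mod_cast (card_filter_add_card_filter_not (s := Bad0)
      (fun e => (r + 2) * (2 * X) ≤ e)).symm
  have hcount := bad_count D (x := x) V (by omega : B ≤ T) (by omega : 4 * K ≤ T) c1 hz7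
    (fun t ht t' ht' => f5 _ _ (hqle t ht) (hqle t' ht')) Bad
    (fun e he => by
      rw [hBad, mem_filter, hBad0, mem_filter, mem_Icc] at he
      rw [mem_Ioc]
      omega)
    (fun e he t ht l hl hmod => by
      rw [hBad, mem_filter, hBad0, mem_filter] at he
      obtain ⟨⟨_, hlt⟩, hbig⟩ := he
      obtain ⟨⟨_, hlX2⟩, _, _⟩ := mem_LR V hl
      obtain ⟨I, hI, hcard⟩ := hit_many D V Z (by omega : B ≤ T) (by omega)
        (fun I hI => (hV1 I hI).1) ht hl hmod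
        ((Nat.mul_le_mul_left _ hlX2).trans hbig)
      have h1 : ⌈(x : ℝ) ^ c⌉₊ ≤ (PI (r + 1) Z I).card := by
        apply Nat.ceil_le.2
        exact f6.trans (hV1 I hI).2.2.2
      have h2 : (⌈(x : ℝ) ^ c⌉₊ : ℕ∞) ≤ {n : ℕ | S n = 2 ^ e}.encard := by
        refine le_trans ?_ hcard
        exact_mod_cast h1
      exact absurd hlt (not_lt.2 h2)) μ0 hμ00 (by rw [← hN]; exact hμN)
  rw [← hSm] at hcount
  -- final estimates
  have hlog2 : 1 + Real.log (2 * X) ≤ 2 * L := by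
    have h1 : Real.log (2 * X) ≤ Real.log (10 * X) :=
      Real.log_le_log (by positivity) (by linarith)
    linarith
  have hlog20 : 0 ≤ 1 + Real.log (2 * X) := by
    have h1 : (1 : ℝ) ≤ X := by exact_mod_cast c1
    have : 0 ≤ Real.log (2 * (X : ℝ)) := Real.log_nonneg (by linarith)
    linarith
  have hX1 : (1 : ℝ) ≤ X := by exact_mod_cast c1
  have e1 : 4 / μ0 + 6 * Sm * (1 + Real.log (2 * X)) / μ0 ^ 2 ≤ 1 / (2 * L ^ A) := by
    have g1 : 4 / μ0 ≤ (4 * M / cσ ^ 2 / cS) * (1 / L ^ (A + 33)) := by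
      calc 4 / μ0 = (4 * M / cσ ^ 2) * L ^ 29 / Sm := by
            rw [hμ0]
            field_simp
        _ ≤ (4 * M / cσ ^ 2) * L ^ 29 / (cS * L ^ r) := by gcongr
        _ = _ := by
            rw [hr, show A + 62 = (A + 33) + 29 by ring, pow_add L (A + 33) 29]
            field_simp
    have g2 : 6 * Sm * (1 + Real.log (2 * X)) / μ0 ^ 2 ≤
        (12 * M ^ 2 / cσ ^ 4 / cS) * (1 / L ^ (A + 3)) := by
      calc 6 * Sm * (1 + Real.log (2 * X)) / μ0 ^ 2 ≤ 6 * Sm * (2 * L) / μ0 ^ 2 := by gcongr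
        _ = (12 * M ^ 2 / cσ ^ 4) * L ^ 59 / Sm := by
            rw [hμ0]
            field_simp
            ring
        _ ≤ (12 * M ^ 2 / cσ ^ 4) * L ^ 59 / (cS * L ^ r) := by gcongr
        _ = _ := by
            rw [hr, show A + 62 = (A + 3) + 59 by ring, pow_add L (A + 3) 59]
            field_simp
    have g3 : (1 : ℝ) / L ^ (A + 33) ≤ 1 / L ^ (A + 1) := by
      apply one_div_le_one_div_of_le (by positivity)
      exact pow_le_pow_right₀ hL1 (by omega)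
    have g4 : (1 : ℝ) / L ^ (A + 3) ≤ 1 / L ^ (A + 1) := by
      apply one_div_le_one_div_of_le (by positivity)
      exact pow_le_pow_right₀ hL1 (by omega)
    have g5 : (0 : ℝ) ≤ 4 * M / cσ ^ 2 / cS := by positivity
    have g6 : (0 : ℝ) ≤ 12 * M ^ 2 / cσ ^ 4 / cS := by positivity
    calc 4 / μ0 + 6 * Sm * (1 + Real.log (2 * X)) / μ0 ^ 2
        ≤ (4 * M / cσ ^ 2 / cS) * (1 / L ^ (A + 1)) +
          (12 * M ^ 2 / cσ ^ 4 / cS) * (1 / L ^ (A + 1)) := by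
          apply add_le_add
          · exact g1.trans (mul_le_mul_of_nonneg_left g3 g5)
          · exact g2.trans (mul_le_mul_of_nonneg_left g4 g6)
      _ = C1 * (1 / L ^ (A + 1)) := by
          rw [hC1]
          ring
      _ ≤ (L / 2) * (1 / L ^ (A + 1)) := by
          apply mul_le_mul_of_nonneg_right _ (by positivity)
          linarith
      _ = 1 / (2 * L ^ A) := by
          rw [pow_succ]
          field_simp
  have e2 : 4 * (X : ℝ) ^ 2 + 4 * X + (r + 2) * (2 * X) ≤ x / (2 * L ^ A) := by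
    have g1 : 4 * (X : ℝ) ^ 2 + 4 * X + (r + 2) * (2 * X) ≤ C2 * (X : ℝ) ^ 2 := by
      have h1 : (X : ℝ) ≤ (X : ℝ) ^ 2 := by
        rw [sq]
        exact le_mul_of_one_le_left hX0.le hX1
      have h2 : (0 : ℝ) ≤ r := Nat.cast_nonneg _
      have h3 : (4 + 2 * ((r : ℝ) + 2)) * X ≤ (4 + 2 * ((r : ℝ) + 2)) * (X : ℝ) ^ 2 :=
        mul_le_mul_of_nonneg_left h1 (by linarith)
      have h4 : (0 : ℝ) ≤ (X : ℝ) ^ 2 := sq_nonneg _
      rw [hC2]
      calc 4 * (X : ℝ) ^ 2 + 4 * X + (r + 2) * (2 * X) =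
          4 * (X : ℝ) ^ 2 + (4 + 2 * ((r : ℝ) + 2)) * X := by ring
        _ ≤ 4 * (X : ℝ) ^ 2 + (4 + 2 * ((r : ℝ) + 2)) * (X : ℝ) ^ 2 := by linarith only [h3]
        _ ≤ (8 + 2 * ((r : ℝ) + 2) + 2) * (X : ℝ) ^ 2 := by linarith only [h4]
    have g2 : (X : ℝ) ^ 2 ≤ (x : ℝ) ^ (1 - 2 * ε) := by
      calc (X : ℝ) ^ 2 ≤ ((x : ℝ) ^ (1 / 2 - ε)) ^ 2 := pow_le_pow_left₀ hX0.le c2 2
        _ = (x : ℝ) ^ (1 - 2 * ε) := by
          rw [← Real.rpow_natCast, ← Real.rpow_mul hx0.le]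
          congr 1
          push_cast
          ring
    have hC20 : 0 < C2 := by
      rw [hC2]
      positivity
    refine g1.trans ?_
    rw [le_div_iff₀ (by positivity)]
    calc C2 * (X : ℝ) ^ 2 * (2 * L ^ A) = (2 * C2 * L ^ A) * (X : ℝ) ^ 2 := by ring
      _ ≤ (x : ℝ) ^ (2 * ε) * (x : ℝ) ^ (1 - 2 * ε) := by gcongr
      _ = x := by
        rw [← Real.rpow_add hx0]
        norm_num
  have e3 : x * (4 / μ0 + 6 * Sm * (1 + Real.log (2 * X)) / μ0 ^ 2) ≤ x * (1 / (2 * L ^ A)) :=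
    mul_le_mul_of_nonneg_left e1 hx0.le
  have e4 : x * (1 / (2 * L ^ A)) + x / (2 * L ^ A) = x / L ^ A := by
    field_simp
    norm_num
  rw [hsplit]
  linarith

/-- almost all exponents have many solutions, general form -/
theorem power_kappa (κ : ℝ) (hκ0 : 0 < κ) (hκ1 : κ < 1) (H : ∀ k, HK κ k) (c A : ℝ)
    (hc : c < (1 - κ) / (2 * κ)) : ∀ᶠ x : ℕ in atTop,
    (({e : ℕ | 1 ≤ e ∧ e ≤ x ∧ {n : ℕ | S n = 2 ^ e}.encard < (⌈(x : ℝ) ^ c⌉₊ : ℕ∞)}.ncard : ℕ) : ℝ) ≤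
      x / (Real.log x) ^ A := by
  obtain ⟨A', hA'⟩ := exists_nat_ge A
  filter_upwards [power_nat κ hκ0 hκ1 H c A' hc, log_ev 1] with x h1 h2
  refine h1.trans ?_
  have hL0 : 0 < Real.log (x : ℝ) := by linarith
  apply div_le_div_of_nonneg_left (Nat.cast_nonneg _) (by positivity)
  rw [← Real.rpow_natCast]
  exact Real.rpow_le_rpow_of_exponent_le h2 hA'

/-- almost all exponents have many solutions -/
theorem power_half (c A : ℝ) (hc : c < 1 / 2) : ∀ᶠ x : ℕ in atTop,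
    (({e : ℕ | 1 ≤ e ∧ e ≤ x ∧ {n : ℕ | S n = 2 ^ e}.encard < (⌈(x : ℝ) ^ c⌉₊ : ℕ∞)}.ncard : ℕ) : ℝ) ≤
      x / (Real.log x) ^ A := by
  set η := min (1 / 4) ((1 / 2 - c) / 8) with hη
  have hη0 : 0 < η := by
    rw [hη]
    apply lt_min (by norm_num)
    linarith
  have hη1 : η ≤ 1 / 4 := min_le_left _ _
  have hη2 : η ≤ (1 / 2 - c) / 8 := min_le_right _ _
  apply power_kappa (1 / 2 + η) (by linarith) (by linarith) (fun k => HK_trivial η hη0 k)
  rw [lt_div_iff₀ (by linarith)]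
  rcases le_or_gt c 0 with h | h
  · nlinarith
  · nlinarith

end Run7.h499
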